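import Pool.Agent.Q130.SF.Ext2

/-!
# Cohomology classes of two-forms, in the notation of the statements
-/

set_option autoImplicit false

open Set MeasureTheory
open scoped Manifold ContDiff

noncomputable section

namespace Pool.Agent.Q130.SF

open Pool.Agent.Y501.SYP

variable {d : ℕ} {X : Type} [TopologicalSpace X] [ChartedSpace (ES d) X]

/-- `σ = σ₀ + dα` for a smooth one-form `α` -/
def Coh (σ σ₀ : Form (ES d) X 2) : Prop :=
  ∃ (α : Form (ES d) X 1) (ρ : Form (ES d) X 2), IsSmooth α ∧ IsSmooth ρ ∧ IsD α ρ ∧ σ = addF σ₀ ρ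

theorem pbl {k : ℕ} (φ : ES d → X) (a b : ℝ) (σ τ : Form (ES d) X k) :
    pb φ (a • σ + b • τ) = a • pb φ σ + b • pb φ τ := by
  funext p
  ext v
  rfl

theorem smooth_lin {k : ℕ} {σ τ : Form (ES d) X k} (h : IsSmooth σ) (h' : IsSmooth τ) (a b : ℝ) :
    IsSmooth (a • σ + b • τ) := by
  intro U φ hφ
  rw [pbl]
  exact (contDiffOn_const.smul (h U φ hφ)).add (contDiffOn_const.smul (h' U φ hφ))

theorem ext_lin {k : ℕ} {U : Set (ES d)} (hU : IsOpen U) {A B : ES d → (ES d) [⋀^Fin k]→L[ℝ] ℝ}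
    (hA : ContDiffOn ℝ ∞ A U) (hB : ContDiffOn ℝ ∞ B U) (a b : ℝ) {p : ES d} (hp : p ∈ U) :
    extDeriv (a • A + b • B) p = a • extDeriv A p + b • extDeriv B p := by
  have h1 : DifferentiableAt ℝ A p :=
    ((hA.contDiffAt (hU.mem_nhds hp)).differentiableAt (by simp))
  have h2 : DifferentiableAt ℝ B p :=
    ((hB.contDiffAt (hU.mem_nhds hp)).differentiableAt (by simp))
  rw [extDeriv_add (h1.const_smul a) (h2.const_smul b), extDeriv_smul, extDeriv_smul]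

theorem closed_lin {k : ℕ} {σ τ : Form (ES d) X k} (h : IsSmooth σ) (h' : IsSmooth τ)
    (hc : IsClosedForm σ) (hc' : IsClosedForm τ) (a b : ℝ) : IsClosedForm (a • σ + b • τ) := by
  intro U φ hφ p hp
  rw [pbl, ext_lin hφ.1 (h U φ hφ) (h' U φ hφ) a b hp, hc U φ hφ p hp, hc' U φ hφ p hp]
  simp

theorem isD_lin {k : ℕ} {α α' : Form (ES d) X k} {ρ ρ' : Form (ES d) X (k + 1)} (h : IsSmooth α)
    (h' : IsSmooth α') (hc : IsD α ρ) (hc' : IsD α' ρ') (a b : ℝ) :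
    IsD (a • α + b • α') (a • ρ + b • ρ') := by
  intro U φ hφ p hp
  rw [pbl, pbl, ext_lin hφ.1 (h U φ hφ) (h' U φ hφ) a b hp, hc U φ hφ p hp, hc' U φ hφ p hp]
  rfl

/-- the forms in the class of `σ₀` are a convex set -/
theorem convex_class (σ₀ : Form (ES d) X 2) :
    Convex ℝ {σ : Form (ES d) X 2 | IsSmooth σ ∧ IsClosedForm σ ∧ Coh σ σ₀} := by
  rintro σ ⟨s1, c1, α, ρ, a1, a2, a3, rfl⟩ τ ⟨s2, c2, α', ρ', b1, b2, b3, rfl⟩ a b ha hb hab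
  refine ⟨smooth_lin s1 s2 a b, closed_lin s1 s2 c1 c2 a b, a • α + b • α', a • ρ + b • ρ',
    smooth_lin a1 b1 a b, smooth_lin a2 b2 a b, isD_lin a1 b1 a3 b3 a b, ?_⟩
  funext x
  show a • (σ₀ x + ρ x) + b • (σ₀ x + ρ' x) = σ₀ x + (a • ρ x + b • ρ' x)
  have h1 : a • σ₀ x + b • σ₀ x = σ₀ x := by rw [← add_smul, hab, one_smul]
  calc a • (σ₀ x + ρ x) + b • (σ₀ x + ρ' x) = (a • σ₀ x + b • σ₀ x) + (a • ρ x + b • ρ' x) := by
        rw [smul_add, smul_add]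
        abel
    _ = _ := by rw [h1]

/-- the pairs `(σ, k)` with `σ` in the class of `σ₀ + k s` are a convex set -/
theorem convex_class2 (σ₀ s : Form (ES d) X 2) :
    Convex ℝ {z : Form (ES d) X 2 × ℝ | IsSmooth z.1 ∧ IsClosedForm z.1 ∧
      Coh z.1 (comb σ₀ z.2 s)} := by
  rintro ⟨σ, k⟩ ⟨s1, c1, α, ρ, a1, a2, a3, e1⟩ ⟨τ, l⟩ ⟨s2, c2, α', ρ', b1, b2, b3, e2⟩ a b ha hb
    hab
  refine ⟨smooth_lin s1 s2 a b, closed_lin s1 s2 c1 c2 a b, a • α + b • α', a • ρ + b • ρ',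
    smooth_lin a1 b1 a b, smooth_lin a2 b2 a b, isD_lin a1 b1 a3 b3 a b, ?_⟩
  have e1' : σ = addF (comb σ₀ k s) ρ := e1
  have e2' : τ = addF (comb σ₀ l s) ρ' := e2
  subst e1' e2'
  funext x
  show a • ((σ₀ x + k • s x) + ρ x) + b • ((σ₀ x + l • s x) + ρ' x) =
    (σ₀ x + (a * k + b * l) • s x) + (a • ρ x + b • ρ' x)
  have h1 : a • σ₀ x + b • σ₀ x = σ₀ x := by rw [← add_smul, hab, one_smul]
  calc a • ((σ₀ x + k • s x) + ρ x) + b • ((σ₀ x + l • s x) + ρ' x) =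
        ((a • σ₀ x + b • σ₀ x) + (a * k + b * l) • s x) + (a • ρ x + b • ρ' x) := by
          module
    _ = _ := by rw [h1]

attribute [local instance] cs mf

/-- the extension theorem in the notation of the statements -/
theorem extendS [IsManifold 𝓘(ℝ, ES d) ∞ X] {P : Type} [TopologicalSpace P] [CompactSpace X]
    [CompactSpace P] [T2Space P] {Q N : Set P} (hQ : IsClosed Q)
    (hN : IsOpen N) (hQN : Q ⊆ N) {r : P → P} (hr : ContinuousOn r N) (hrQ : ∀ p ∈ N, r p ∈ Q)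
    (hrid : ∀ q ∈ Q, r q = q) {J : P → End (ES d) X} (hJ : JFam (d := d) (X := X) J)
    {η w : P → Form (ES d) X 2}
    (hη : CFam (d := d) (X := X) Q η) (hηs : ∀ q ∈ Q, IsSmooth (η q))
    (hηt : ∀ q ∈ Q, ∀ x, TamesAt (η q) (J q) x)
    (hws : ∀ p, p ∉ Q → IsSmooth (w p)) (hwt : ∀ p, p ∉ Q → ∀ x, TamesAt (w p) (J p) x)
    (m : P → ℝ) :
    ∃ (Ω : P → Form (ES d) X 2) (κ : P → ℝ), (∀ q ∈ Q, Ω q = η q ∧ κ q = 0) ∧
      CFam (d := d) (X := X) univ Ω ∧ Continuous κ ∧ (∀ p, IsSmooth (Ω p)) ∧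
      (∀ p x, TamesAt (Ω p) (J p) x) ∧ ∀ C : Set (Form (ES d) X 2 × ℝ), Convex ℝ C →
        (∀ q ∈ Q, (η q, (0 : ℝ)) ∈ C) → (∀ p, p ∉ Q → (w p, m p) ∈ C) → ∀ p, (Ω p, κ p) ∈ C := by
  obtain ⟨Ω, κ, k1, k2, k3, k4, k5, k6⟩ := extend2 (d := d) (X := X) hQ hN hQN
    hr hrQ hrid hJ (η := η) (w := w) hη (fun q hq => (smooth_iff _).1 (hηs q hq)) hηt
    (fun p hp => (smooth_iff _).1 (hws p hp)) hwt m
  exact ⟨Ω, κ, k1, k2, k3, fun p => (smooth_iff _).2 (k4 p), k5, k6⟩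

end Pool.Agent.Q130.SF
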