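import Pool.Agent.Q130.SF.LinC
import Pool.Agent.Q130.SF.Cls

/-!
# Continuous families of almost complex structures tamed by a family of nondegenerate forms
-/

set_option autoImplicit false

open Set Filter Topology Metric Function
open scoped Manifold ContDiff RealInnerProductSpace

noncomputable section

namespace Pool.Agent.Q130.SF

open Pool.Agent.Y501.SY Pool.Agent.Y455.SY

variable {d : ℕ}

theorem alt2_add (σ : (E d) [⋀^Fin 2]→L[ℝ] ℝ) (v v' u : E d) :
    σ ![v + v', u] = σ ![v, u] + σ ![v', u] :=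
  ContinuousMultilinearMap.cons_add σ.toContinuousMultilinearMap ![u] v v'

theorem alt2_smul (σ : (E d) [⋀^Fin 2]→L[ℝ] ℝ) (c : ℝ) (v u : E d) :
    σ ![c • v, u] = c * σ ![v, u] :=
  ContinuousMultilinearMap.cons_smul σ.toContinuousMultilinearMap ![u] c v

theorem alt2_swap (σ : (E d) [⋀^Fin 2]→L[ℝ] ℝ) (v u : E d) : σ ![v, u] = -σ ![u, v] := by
  have h1 := σ.map_swap ![u, v] (i := 0) (j := 1) (by decide)
  have h2 : (![u, v] : Fin 2 → E d) ∘ Equiv.swap 0 1 = ![v, u] := by
    funext i
    fin_cases i <;> rfl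
  rwa [h2] at h1

theorem pb_apply2 {X : Type} [TopologicalSpace X] [ChartedSpace (E d) X] (φ : E d → X)
    (σ : Form d X 2) (p v w : E d) : pb φ σ p ![v, w] =
      σ (φ p) ![mfderiv (𝓡 d) (𝓡 d) φ p v, mfderiv (𝓡 d) (𝓡 d) φ p w] := by
  have h : (fun i : Fin 2 => (mfderiv (𝓡 d) (𝓡 d) φ p) ((![v, w] : Fin 2 → E d) i)) =
      ![mfderiv (𝓡 d) (𝓡 d) φ p v, mfderiv (𝓡 d) (𝓡 d) φ p w] := by
    funext i
    fin_cases i <;> rfl
  exact congrArg (fun m => σ (φ p) m) h

theorem Pol.back {w g : F d → F d → ℝ} {K : F d →L[ℝ] F d} (L : F d ≃L[ℝ] F d)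
    (hK : Pol w g K) : Pol (fun v u => w (L v) (L u)) (fun v u => g (L v) (L u))
      ((L.symm : F d →L[ℝ] F d).comp (K.comp (L : F d →L[ℝ] F d))) := by
  have h3 := Pol.transport (w := fun v u => w (L v) (L u)) (g := fun v u => g (L v) (L u))
    (J := K) L.symm (by simpa only [L.apply_symm_apply] using hK)
  simpa only [ContinuousLinearEquiv.symm_symm] using h3

theorem exists_J {X : Type} [TopologicalSpace X] [ChartedSpace (E d) X] [IsManifold (𝓡 d) ∞ X]
    [CompactSpace X] [T2Space X] {P : Type} [TopologicalSpace P] {Ω : P → Form d X 2}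
    (hΩ : CFam univ Ω)
    (hnd : ∀ (p : P) (x : X) (v : TangentSpace (𝓡 d) x), (∀ u, Ω p x ![v, u] = 0) → v = 0) :
    ∃ J : P → End d X, (∀ (p : P) (x : X) (v : TangentSpace (𝓡 d) x), J p x (J p x v) = -v) ∧
      JFam J ∧ ∀ p x, TamesAt (Ω p) (J p) x := by
  obtain ⟨N, e, he, -, hinj⟩ := exists_embedding_euclidean_of_compact (I := 𝓡 d) (M := X)
  obtain ⟨De, hDe⟩ : ∃ De : X → (E d →L[ℝ] F N), ∀ x, De x = mfderiv (𝓡 d) (𝓡 N) e x :=
    ⟨_, fun _ => rfl⟩
  have hDi : ∀ x, Injective (De x) := fun x => by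
    rw [hDe]
    exact hinj x
  obtain ⟨W, hW⟩ : ∃ W : P → X → (E d) [⋀^Fin 2]→L[ℝ] ℝ, ∀ p x, W p x = Ω p x :=
    ⟨fun p x => Ω p x, fun _ _ => rfl⟩
  have hdat : ∀ (σ : (E d) [⋀^Fin 2]→L[ℝ] ℝ) (D : E d →L[ℝ] F N), Injective D →
      (∀ v, (∀ u, σ ![v, u] = 0) → v = 0) →
      Dat (n := d) (fun v u => σ ![v, u]) fun v u => ⟪D v, D u⟫ := by
    intro σ D hD hσ
    refine ⟨fun v v' u => alt2_add σ v v' u, fun c v u => alt2_smul σ c v u,
      fun v u => alt2_swap σ v u, hσ, fun v v' u => ?_, fun c v u => ?_, fun v u => ?_,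
      fun v hv => ?_⟩
    · show ⟪D (v + v'), D u⟫ = ⟪D v, D u⟫ + ⟪D v', D u⟫
      rw [map_add, inner_add_left]
    · show ⟪D (c • v), D u⟫ = c * ⟪D v, D u⟫
      rw [map_smul, inner_smul_left]
      simp
    · exact real_inner_comm _ _
    · exact real_inner_self_pos.2 fun h0 => hv (hD (by rw [h0, map_zero]))
  have hex : ∀ (p : P) (x : X), ∃ J : F d →L[ℝ] F d,
      Pol (fun v u => W p x ![v, u]) (fun v u => ⟪De x v, De x u⟫) J := by
    intro p x
    refine Pol.exists (hdat (W p x) (De x) (hDi x) fun v hv => ?_)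
    refine hnd p x v fun u => ?_
    have h1 := hv u
    rw [hW] at h1
    exact h1
  choose J hJ using hex
  refine ⟨fun p x => J p x, fun p x v => (hJ p x).sq v, fun x₀ => ?_, fun p x v hv => ?_⟩
  · rintro ⟨p, u⟩ ⟨-, hu⟩
    refine ContinuousAt.continuousWithinAt ?_
    change u ∈ (chartAt (E d) x₀).target at hu
    obtain ⟨c, hc⟩ : ∃ c, c = chartAt (E d) x₀ := ⟨_, rfl⟩
    have hnt : ∀ᶠ q : P × E d in 𝓝 (p, u), q.2 ∈ (chartAt (E d) x₀).target :=
      (continuousAt_snd (p := (p, u))).eventually ((chartAt (E d) x₀).open_target.mem_nhds hu)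
    -- the derivative of the embedding in the chart
    obtain ⟨ê, hê⟩ : ∃ ê : E d → F N, ê = fun u => e ((chartAt (E d) x₀).symm u) := ⟨_, rfl⟩
    have hês : ContDiffOn ℝ ∞ ê (chartAt (E d) x₀).target := by
      rw [← contMDiffOn_iff_contDiffOn, hê]
      exact he.comp_contMDiffOn contMDiffOn_chart_symm
    have hêd : ContinuousOn (fderiv ℝ ê) (chartAt (E d) x₀).target :=
      hês.continuousOn_fderiv_of_isOpen (chartAt (E d) x₀).open_target (by simp)
    have hchain : ∀ u' ∈ (chartAt (E d) x₀).target, ∀ v : E d,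
        De ((chartAt (E d) x₀).symm u') (A x₀ u' v) = fderiv ℝ ê u' v := by
      intro u' hu' v
      have h1 : MDifferentiableAt (𝓡 d) (𝓡 d) (chartAt (E d) x₀).symm u' :=
        (contMDiffOn_chart_symm (I := 𝓡 d) (n := ∞) (x := x₀)).contMDiffAt
          ((chartAt (E d) x₀).open_target.mem_nhds hu') |>.mdifferentiableAt (by simp)
      have h2 : MDifferentiableAt (𝓡 d) (𝓡 N) e ((chartAt (E d) x₀).symm u') :=
        he.mdifferentiableAt (by simp)
      have h3 := mfderiv_comp u' h2 h1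
      have h4 : mfderiv (𝓡 d) (𝓡 N) (e ∘ (chartAt (E d) x₀).symm) u' = fderiv ℝ ê u' := by
        rw [hê, mfderiv_eq_fderiv]
        rfl
      rw [h4] at h3
      rw [h3, hDe]
      rfl
    have hcont := Pol.continuousAt (n := d) (Z := P × E d) (z₀ := (p, u))
      (w := fun q v v' => pb (chartAt (E d) x₀).symm (Ω q.1) q.2 ![v, v'])
      (g := fun q v v' => ⟪fderiv ℝ ê q.2 v, fderiv ℝ ê q.2 v'⟫)
      (J := fun q => inChart (fun x => J q.1 x) x₀ q.2) ?_ ?_ ?_ ?_
    · exact hcont
    · intro v v'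
      have h1 : ContinuousAt (fun q : P × E d => pb (chartAt (E d) x₀).symm (Ω q.1) q.2) (p, u) :=
        (hΩ.zero (chartAt (E d) x₀).open_target contMDiffOn_chart_symm).continuousAt
          (prod_mem_nhds univ_mem ((chartAt (E d) x₀).open_target.mem_nhds hu))
      have h2 : ContinuousAt (fun q : (P × E d) × E d × E d =>
          pb (chartAt (E d) x₀).symm (Ω q.1.1) q.1.2) ((p, u), v, v') :=
        ContinuousAt.comp (f := Prod.fst) (x := ((p, u), v, v')) h1 continuousAt_fst
      have h3 : ContinuousAt (fun q : (P × E d) × E d × E d => (![q.2.1, q.2.2] : Fin 2 → E d))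
          ((p, u), v, v') := by
        rw [continuousAt_pi]
        intro i
        fin_cases i
        · exact (continuous_fst.comp continuous_snd).continuousAt
        · exact (continuous_snd.comp continuous_snd).continuousAt
      exact h2.eval h3
    · intro v v'
      have h1 : ContinuousAt (fderiv ℝ ê) u :=
        hêd.continuousAt ((chartAt (E d) x₀).open_target.mem_nhds hu)
      have h2 : ContinuousAt (fun q : (P × E d) × E d × E d => fderiv ℝ ê q.1.2)
          ((p, u), v, v') :=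
        ContinuousAt.comp (g := fderiv ℝ ê) (f := fun q : (P × E d) × E d × E d => q.1.2)
          (x := ((p, u), v, v')) h1 (continuous_snd.comp continuous_fst).continuousAt
      have h3 : ContinuousAt (fun q : (P × E d) × E d × E d => fderiv ℝ ê q.1.2 q.2.1)
          ((p, u), v, v') := h2.clm_apply (continuous_fst.comp continuous_snd).continuousAt
      have h4 : ContinuousAt (fun q : (P × E d) × E d × E d => fderiv ℝ ê q.1.2 q.2.2)
          ((p, u), v, v') := h2.clm_apply (continuous_snd.comp continuous_snd).continuousAt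
      exact h3.inner h4
    · filter_upwards [hnt] with q hq
      refine hdat _ _ ?_ ?_
      · intro v v' hvv
        have h1 := hchain q.2 hq v
        have h2 := hchain q.2 hq v'
        rw [hvv, ← h2] at h1
        have h3 : A x₀ q.2 v = A x₀ q.2 v' := hDi _ h1
        have h4 := congrArg (B x₀ q.2) h3
        rwa [BA x₀ hq, BA x₀ hq] at h4
      · intro v hv
        have h1 : A x₀ q.2 v = 0 := by
          refine hnd q.1 ((chartAt (E d) x₀).symm q.2) (A x₀ q.2 v) fun y => ?_
          obtain ⟨u', hu'⟩ := A_surj x₀ hq y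
          have h2 := hv u'
          have h3 : pb (chartAt (E d) x₀).symm (Ω q.1) q.2 ![v, u'] =
              Ω q.1 ((chartAt (E d) x₀).symm q.2) ![A x₀ q.2 v, A x₀ q.2 u'] :=
            pb_apply2 _ _ _ _ _
          rw [h3, hu'] at h2
          exact h2
        have h2 := congrArg (B x₀ q.2) h1
        rwa [BA x₀ hq, map_zero] at h2
    · filter_upwards [hnt] with q hq
      have h1 := hJ q.1 ((chartAt (E d) x₀).symm q.2)
      obtain ⟨L, hL, hL'⟩ : ∃ L : F d ≃L[ℝ] F d, (∀ v, L v = A x₀ q.2 v) ∧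
          ∀ v, L.symm v = B x₀ q.2 v := by
        refine ⟨ContinuousLinearEquiv.equivOfInverse (A x₀ q.2) (B x₀ q.2) (BA x₀ hq)
          (AB x₀ hq), fun v => rfl, fun v => rfl⟩
      have h2 := Pol.back L h1
      have h3 : ((L.symm : F d →L[ℝ] F d).comp
          ((J q.1 ((chartAt (E d) x₀).symm q.2)).comp (L : F d →L[ℝ] F d))) =
          inChart (fun x => J q.1 x) x₀ q.2 := by
        ext1 v
        show L.symm (J q.1 ((chartAt (E d) x₀).symm q.2) (L v)) = _
        rw [hL, hL']
        rfl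
      rw [h3] at h2
      have h4 : (fun v u' : F d => W q.1 ((chartAt (E d) x₀).symm q.2) ![L v, L u']) =
          fun v v' => pb (chartAt (E d) x₀).symm (Ω q.1) q.2 ![v, v'] := by
        funext v v'
        rw [hW, hL, hL]
        exact (pb_apply2 _ _ _ _ _).symm
      have h5 : (fun v u' : F d => ⟪De ((chartAt (E d) x₀).symm q.2) (L v),
          De ((chartAt (E d) x₀).symm q.2) (L u')⟫) =
          fun v v' => ⟪fderiv ℝ ê q.2 v, fderiv ℝ ê q.2 v'⟫ := by
        funext v v'
        rw [hL, hL, hchain q.2 hq, hchain q.2 hq]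
      rw [h4, h5] at h2
      exact h2
  · have h1 := (hJ p x).pos v hv
    rw [hW] at h1
    exact h1

end Pool.Agent.Q130.SF
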