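import Mathlib

/-!
# Two-dimensional kernels: nondegeneracy for small parameters implies a linear rate
-/

set_option autoImplicit false

open Set Filter Topology

noncomputable section

namespace Pool.Agent.Q130.SF

variable {V : Type} [NormedAddCommGroup V] [NormedSpace ℝ V]

theorem g_swap (B : V [⋀^Fin 2]→L[ℝ] ℝ) (v w : V) : B ![v, w] = -B ![w, v] := by
  have h1 := B.map_swap ![w, v] (i := 0) (j := 1) (by decide)
  have h2 : (![w, v] : Fin 2 → V) ∘ Equiv.swap (0 : Fin 2) 1 = ![v, w] := by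
    funext i
    fin_cases i <;> rfl
  rw [h2] at h1
  exact h1

theorem g_add (B : V [⋀^Fin 2]→L[ℝ] ℝ) (v v' w : V) :
    B ![v + v', w] = B ![v, w] + B ![v', w] := by
  have h := B.map_update_add ![v, w] 0 v v'
  have e : ∀ u : V, Function.update ![v, w] 0 u = ![u, w] := by
    intro u
    funext i
    fin_cases i <;> rfl
  rw [e, e, e] at h
  exact h

theorem g_smul (B : V [⋀^Fin 2]→L[ℝ] ℝ) (c : ℝ) (v w : V) : B ![c • v, w] = c * B ![v, w] := by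
  have h := B.map_update_smul ![v, w] 0 c v
  have e : ∀ u : V, Function.update ![v, w] 0 u = ![u, w] := by
    intro u
    funext i
    fin_cases i <;> rfl
  rw [e, e] at h
  exact h

theorem g_add' (B : V [⋀^Fin 2]→L[ℝ] ℝ) (v w w' : V) :
    B ![v, w + w'] = B ![v, w] + B ![v, w'] := by
  rw [g_swap, g_add, g_swap B w v, g_swap B w' v]
  ring

theorem g_smul' (B : V [⋀^Fin 2]→L[ℝ] ℝ) (c : ℝ) (v w : V) : B ![v, c • w] = c * B ![v, w] := by
  rw [g_swap, g_smul, g_swap B w v]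
  ring

theorem g_norm (B : V [⋀^Fin 2]→L[ℝ] ℝ) (v w : V) : ‖B ![v, w]‖ ≤ ‖B‖ * ‖v‖ * ‖w‖ := by
  have h1 := B.le_opNorm ![v, w]
  rw [Fin.prod_univ_two] at h1
  calc ‖B ![v, w]‖ ≤ ‖B‖ * (‖v‖ * ‖w‖) := h1
    _ = ‖B‖ * ‖v‖ * ‖w‖ := by ring

/-- an alternating form as a bilinear map -/
def blin (B : V [⋀^Fin 2]→L[ℝ] ℝ) : V →L[ℝ] V →L[ℝ] ℝ :=
  LinearMap.mkContinuous₂ (LinearMap.mk₂ ℝ (fun v w => B ![v, w])
    (fun v v' w => g_add B v v' w) (fun c v w => g_smul B c v w)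
    (fun v w w' => g_add' B v w w') (fun c v w => g_smul' B c v w)) ‖B‖
    (fun v w => g_norm B v w)

theorem blin_apply (B : V [⋀^Fin 2]→L[ℝ] ℝ) (v w : V) : blin B v w = B ![v, w] := rfl

theorem blin_norm (B : V [⋀^Fin 2]→L[ℝ] ℝ) : ‖blin B‖ ≤ ‖B‖ :=
  LinearMap.mkContinuous₂_norm_le _ (norm_nonneg _) _

theorem blin_sub (B B' : V [⋀^Fin 2]→L[ℝ] ℝ) : blin (B - B') = blin B - blin B' := by
  ext v w
  rfl

theorem blin_cont : Continuous (blin (V := V)) := by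
  have h : LipschitzWith 1 (blin (V := V)) := LipschitzWith.of_dist_le_mul fun B B' => by
    rw [dist_eq_norm, dist_eq_norm, NNReal.coe_one, one_mul, ← blin_sub]
    exact blin_norm _
  exact h.continuous

/-- almost norming vectors -/
theorem norming (L : V →L[ℝ] ℝ) : ∃ w : V, ‖w‖ ≤ 1 ∧ ‖L‖ / 2 ≤ L w := by
  rcases eq_or_lt_of_le (norm_nonneg L) with h0 | h0
  · exact ⟨0, by simp, by rw [← h0]; simp⟩
  · obtain ⟨x, hx1, hx2⟩ := L.exists_lt_apply_of_lt_opNorm (show ‖L‖ / 2 < ‖L‖ by linarith)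
    rw [Real.norm_eq_abs] at hx2
    rcases le_total 0 (L x) with h1 | h1
    · exact ⟨x, hx1.le, by rw [abs_of_nonneg h1] at hx2; exact hx2.le⟩
    · refine ⟨-x, by rw [norm_neg]; exact hx1.le, ?_⟩
      rw [abs_of_nonpos h1] at hx2
      rw [map_neg]
      exact hx2.le

/-- the key statement -/
theorem rate_gen [FiniteDimensional ℝ V] {Z : Type} [TopologicalSpace Z]
    {S T : Z → V [⋀^Fin 2]→L[ℝ] ℝ} {u₀ : Z}
    (hS : ContinuousAt S u₀) (hT : ContinuousAt T u₀) {n₁ n₂ : V}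
    (h1 : ∀ w, S u₀ ![n₁, w] = 0) (h2 : ∀ w, S u₀ ![n₂, w] = 0) (h12 : T u₀ ![n₁, n₂] = 1)
    (hker : ∀ v, (∀ w, S u₀ ![v, w] = 0) → ∃ s t : ℝ, v = s • n₁ + t • n₂)
    {ε₁ : ℝ} (hε₁ : 0 < ε₁) (hnd : ∀ᶠ q in 𝓝 u₀, ∀ ε : ℝ, 0 < ε → ε ≤ ε₁ → ∀ v : V,
      (∀ w, S q ![v, w] + ε * T q ![v, w] = 0) → v = 0) :
    ∃ c : ℝ, 0 < c ∧ ∀ᶠ q in 𝓝 u₀, ∀ ε : ℝ, 0 < ε → ε ≤ c → ∀ v : V, ∃ w : V, ‖w‖ ≤ 1 ∧
      c * ε * ‖v‖ ≤ S q ![v, w] + ε * T q ![v, w] := by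
  have hself : ∀ (B : V [⋀^Fin 2]→L[ℝ] ℝ) (v : V), B ![v, v] = 0 := by
    intro B v
    have := g_swap B v v
    linarith
  obtain ⟨b, hb⟩ : ∃ b : V →L[ℝ] ℝ, b = blin (T u₀) n₁ := ⟨_, rfl⟩
  obtain ⟨a, ha⟩ : ∃ a : V →L[ℝ] ℝ, a = -blin (T u₀) n₂ := ⟨_, rfl⟩
  have hbv : ∀ v, b v = T u₀ ![n₁, v] := fun v => by rw [hb]; rfl
  have hav : ∀ v, a v = T u₀ ![v, n₂] := fun v => by
    rw [ha, g_swap]
    rfl
  have a1 : a n₁ = 1 := by rw [hav, h12]
  have a2 : a n₂ = 0 := by rw [hav, hself]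
  have b1 : b n₁ = 0 := by rw [hbv, hself]
  have b2 : b n₂ = 1 := by rw [hbv, h12]
  obtain ⟨M, hM⟩ : ∃ M : Z × ℝ → (V →L[ℝ] V →L[ℝ] ℝ), M = fun z =>
    blin (S z.1) + z.2 • blin (T z.1) + (a.smulRight b - b.smulRight a) := ⟨_, rfl⟩
  have hMv : ∀ z v w, M z v w = S z.1 ![v, w] + z.2 * T z.1 ![v, w] + (a v * b w - b v * a w) := by
    intro z v w
    rw [hM]
    rfl
  have hMswap : ∀ z v w, M z v w = -M z w v := by
    intro z v w
    rw [hMv, hMv, g_swap (S z.1) v w, g_swap (T z.1) v w]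
    ring
  have hMc : ContinuousAt M (u₀, 0) := by
    rw [hM]
    have c1 : ContinuousAt (fun z : Z × ℝ => blin (S z.1)) (u₀, 0) :=
      ContinuousAt.comp (g := blin) (f := fun z : Z × ℝ => S z.1) blin_cont.continuousAt
        (ContinuousAt.comp (g := S) (f := Prod.fst) (x := (u₀, (0 : ℝ))) hS continuousAt_fst)
    have c2 : ContinuousAt (fun z : Z × ℝ => blin (T z.1)) (u₀, 0) :=
      ContinuousAt.comp (g := blin) (f := fun z : Z × ℝ => T z.1) blin_cont.continuousAt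
        (ContinuousAt.comp (g := T) (f := Prod.fst) (x := (u₀, (0 : ℝ))) hT continuousAt_fst)
    have : ContinuousAdd (V →L[ℝ] V →L[ℝ] ℝ) :=
      (SeminormedAddCommGroup.toIsTopologicalAddGroup (E := V →L[ℝ] V →L[ℝ] ℝ)).toContinuousAdd
    exact (c1.add (continuousAt_snd.smul c2)).add continuousAt_const
  -- the value at the base point is invertible
  have hinj : Function.Injective (M (u₀, 0)) := by
    rw [injective_iff_map_eq_zero]
    intro v hv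
    have hv' : ∀ w, S u₀ ![v, w] + (a v * b w - b v * a w) = 0 := by
      intro w
      have h3 := congrArg (fun L => L w) hv
      have h4 : M (u₀, 0) v w = 0 := h3
      rw [hMv] at h4
      simp only [zero_mul, add_zero] at h4
      exact h4
    have hb0 : b v = 0 := by
      have h3 := hv' n₁
      rw [g_swap, h1, a1, b1] at h3
      linarith
    have ha0 : a v = 0 := by
      have h3 := hv' n₂
      rw [g_swap, h2, a2, b2] at h3
      linarith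
    obtain ⟨s, t, rfl⟩ := hker v fun w => by
      have h3 := hv' w
      rw [ha0, hb0] at h3
      linarith
    rw [map_add, map_smul, map_smul, a1, a2] at ha0
    rw [map_add, map_smul, map_smul, b1, b2] at hb0
    simp only [smul_eq_mul, mul_one, mul_zero, add_zero, zero_add] at ha0 hb0
    rw [ha0, hb0, zero_smul, zero_smul, add_zero]
  have hfr : Module.finrank ℝ V = Module.finrank ℝ (V →L[ℝ] ℝ) := by
    rw [← (LinearMap.toContinuousLinearMap (𝕜 := ℝ) (E := V) (F' := ℝ)).finrank_eq]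
    exact (Subspace.dual_finrank_eq (K := ℝ) (V := V)).symm
  obtain ⟨e₀, he₀⟩ : ∃ e₀ : V ≃L[ℝ] (V →L[ℝ] ℝ),
      (e₀ : V →L[ℝ] V →L[ℝ] ℝ) = M (u₀, 0) := by
    refine ⟨(LinearMap.linearEquivOfInjective (M (u₀, 0)).toLinearMap hinj hfr).toContinuousLinearEquiv,
      ?_⟩
    ext v w
    rfl
  have hcomp : CompleteSpace V := FiniteDimensional.complete ℝ V
  obtain ⟨G, hG⟩ : ∃ G : Z × ℝ → ((V →L[ℝ] ℝ) →L[ℝ] V), G = fun z =>
    ContinuousLinearMap.inverse (M z) := ⟨_, rfl⟩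
  have hGc : ContinuousAt G (u₀, 0) := by
    rw [hG]
    have c1 : ContinuousAt (ContinuousLinearMap.inverse :
        (V →L[ℝ] V →L[ℝ] ℝ) → ((V →L[ℝ] ℝ) →L[ℝ] V)) (M (u₀, 0)) := by
      rw [← he₀]
      exact (contDiffAt_map_inverse (n := 0) e₀).continuousAt
    exact ContinuousAt.comp (g := ContinuousLinearMap.inverse) (f := M) c1 hMc
  have hinv : ∀ᶠ z in 𝓝 ((u₀, 0) : Z × ℝ), (∀ φ, M z (G z φ) = φ) ∧ ∀ v, G z (M z v) = v := by
    have h3 := ContinuousLinearEquiv.nhds e₀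
    rw [he₀] at h3
    filter_upwards [hMc.eventually h3] with z hz
    obtain ⟨e, he⟩ := hz
    have h4 : G z = e.symm := by
      rw [hG]
      show ContinuousLinearMap.inverse (M z) = e.symm
      rw [← he]
      exact ContinuousLinearMap.inverse_equiv e
    rw [h4, ← he]
    exact ⟨fun φ => e.apply_symm_apply φ, fun v => e.symm_apply_apply v⟩
  obtain ⟨e, he⟩ : ∃ e : Z × ℝ → V, e = fun z => G z a := ⟨_, rfl⟩
  obtain ⟨f, hf⟩ : ∃ f : Z × ℝ → V, f = fun z => G z b := ⟨_, rfl⟩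
  have hec : ContinuousAt e (u₀, 0) := by
    rw [he]
    exact hGc.clm_apply continuousAt_const
  have hfc : ContinuousAt f (u₀, 0) := by
    rw [hf]
    exact hGc.clm_apply continuousAt_const
  have hinv0 := hinv.self_of_nhds
  have e00 : e (u₀, 0) = -n₂ := by
    have h3 : M (u₀, 0) (-n₂) = a := by
      ext w
      rw [map_neg, neg_apply, hMv, a2, b2]
      show -(S u₀ ![n₂, w] + 0 * T u₀ ![n₂, w] + (0 * b w - 1 * a w)) = a w
      rw [h2]
      ring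
    rw [he]
    show G (u₀, 0) a = -n₂
    rw [← h3]
    exact hinv0.2 (-n₂)
  have f00 : f (u₀, 0) = n₁ := by
    have h3 : M (u₀, 0) n₁ = b := by
      ext w
      rw [hMv, a1, b1]
      show S u₀ ![n₁, w] + 0 * T u₀ ![n₁, w] + (1 * b w - 0 * a w) = b w
      rw [h1]
      ring
    rw [hf]
    show G (u₀, 0) b = n₁
    rw [← h3]
    exact hinv0.2 n₁
  obtain ⟨τ, hτ⟩ : ∃ τ : Z × (ℝ × ℝ) → ℝ, τ = fun y =>
    blin (T y.1) (e (y.1, y.2.1)) (f (y.1, y.2.2)) := ⟨_, rfl⟩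
  have p1 : ContinuousAt (fun y : Z × (ℝ × ℝ) => (y.1, y.2.1)) (u₀, (0, 0)) := by fun_prop
  have p2 : ContinuousAt (fun y : Z × (ℝ × ℝ) => (y.1, y.2.2)) (u₀, (0, 0)) := by fun_prop
  have hτc : ContinuousAt τ (u₀, (0, 0)) := by
    rw [hτ]
    have c1 : ContinuousAt (fun y : Z × (ℝ × ℝ) => blin (T y.1)) (u₀, (0, 0)) :=
      ContinuousAt.comp (g := blin) (f := fun y : Z × (ℝ × ℝ) => T y.1) blin_cont.continuousAt
        (ContinuousAt.comp (g := T) (f := Prod.fst) (x := (u₀, ((0 : ℝ), (0 : ℝ)))) hT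
          continuousAt_fst)
    have c2 : ContinuousAt (fun y : Z × (ℝ × ℝ) => e (y.1, y.2.1)) (u₀, (0, 0)) :=
      ContinuousAt.comp (g := e) (f := fun y : Z × (ℝ × ℝ) => (y.1, y.2.1)) hec p1
    have c3 : ContinuousAt (fun y : Z × (ℝ × ℝ) => f (y.1, y.2.2)) (u₀, (0, 0)) :=
      ContinuousAt.comp (g := f) (f := fun y : Z × (ℝ × ℝ) => (y.1, y.2.2)) hfc p2
    exact (c1.clm_apply c2).clm_apply c3
  have hτ0 : τ (u₀, (0, 0)) = 1 := by
    rw [hτ]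
    show T u₀ ![e (u₀, 0), f (u₀, 0)] = 1
    rw [e00, f00, g_swap, ← neg_one_smul ℝ n₂, g_smul', h12]
    ring
  obtain ⟨C, hC⟩ : ∃ C, C = ‖G (u₀, 0)‖ + 1 := ⟨_, rfl⟩
  have hC0 : 0 < C := by rw [hC]; positivity
  have hGC : ∀ᶠ z in 𝓝 ((u₀, 0) : Z × ℝ), ‖G z‖ < C := by
    have h3 : ContinuousAt (fun z => ‖G z‖) (u₀, 0) :=
      ContinuousAt.norm (E := (V →L[ℝ] ℝ) →L[ℝ] V) hGc
    exact h3.eventually (gt_mem_nhds (show ‖G (u₀, 0)‖ < C by rw [hC]; linarith))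
  have hall : ∀ᶠ y in 𝓝 ((u₀, (0, 0)) : Z × (ℝ × ℝ)),
      (((∀ φ, M (y.1, y.2.1) (G (y.1, y.2.1) φ) = φ) ∧
        ∀ v, G (y.1, y.2.1) (M (y.1, y.2.1) v) = v) ∧ ‖G (y.1, y.2.1)‖ < C) ∧
        (1 / 2 < τ y ∧ τ y < 2) := by
    have q1 := p1.eventually (hinv.and hGC)
    have q2 := hτc.eventually ((lt_mem_nhds (show (1 : ℝ) / 2 < τ (u₀, (0, 0)) by
      rw [hτ0]; norm_num)).and (gt_mem_nhds (show τ (u₀, (0, 0)) < 2 by rw [hτ0]; norm_num)))
    exact q1.and q2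
  rw [nhds_prod_eq] at hall
  obtain ⟨P1, hP1, P2, hP2, hP⟩ := eventually_prod_iff.1 hall
  obtain ⟨δ, hδ, hPδ⟩ := Metric.eventually_nhds_iff.1 hP2
  have hP' : ∀ q, P1 q → ∀ ε ε' : ℝ, |ε| < δ → |ε'| < δ →
      (((∀ φ, M (q, ε) (G (q, ε) φ) = φ) ∧ ∀ v, G (q, ε) (M (q, ε) v) = v) ∧
        ‖G (q, ε)‖ < C) ∧ (1 / 2 < τ (q, (ε, ε')) ∧ τ (q, (ε, ε')) < 2) := by
    intro q hq ε ε' h3 h4
    have h5 : dist ((ε, ε') : ℝ × ℝ) (0, 0) < δ := by
      rw [Prod.dist_eq]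
      refine max_lt ?_ ?_
      · rw [Real.dist_eq, sub_zero]; exact h3
      · rw [Real.dist_eq, sub_zero]; exact h4
    exact hP hq (y := (ε, ε')) (hPδ h5)
  obtain ⟨ε₂, hε₂⟩ : ∃ ε₂, ε₂ = min (min (δ / 2) ε₁) 1 := ⟨_, rfl⟩
  have hε₂0 : 0 < ε₂ := by rw [hε₂]; positivity
  have hε₂δ : ε₂ < δ := by
    have h3 : ε₂ ≤ δ / 2 := by rw [hε₂]; exact (min_le_left _ _).trans (min_le_left _ _)
    linarith
  have hε₂1 : ε₂ ≤ ε₁ := by rw [hε₂]; exact (min_le_left _ _).trans (min_le_right _ _)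
  have hε₂2 : ε₂ ≤ 1 := by rw [hε₂]; exact min_le_right _ _
  have hφ0 : ∀ᶠ q in 𝓝 u₀, |1 - a (f (q, 0))| < ε₂ / 4 := by
    have c1 : ContinuousAt (fun q : Z => (q, (0 : ℝ))) u₀ := by fun_prop
    have c2 : ContinuousAt (fun q : Z => f (q, 0)) u₀ :=
      ContinuousAt.comp (g := f) (f := fun q : Z => (q, (0 : ℝ))) hfc c1
    have c3 : ContinuousAt (fun q : Z => |1 - a (f (q, 0))|) u₀ :=
      (continuousAt_const.sub (a.continuous.continuousAt.comp c2)).abs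
    refine c3.eventually (gt_mem_nhds ?_)
    show |1 - a (f (u₀, 0))| < ε₂ / 4
    rw [f00, a1, sub_self, abs_zero]
    positivity
  obtain ⟨D, hD⟩ : ∃ D, D = 3 + 2 * C * ‖a‖ * ‖b‖ := ⟨_, rfl⟩
  have hD0 : 0 < D := by rw [hD]; positivity
  refine ⟨min ε₂ (1 / (4 * D * C)), by positivity, ?_⟩
  filter_upwards [hP1, hφ0, hnd] with q hq1 hq2 hq3 ε h3 h4 v
  have hlt : ∀ ε : ℝ, 0 ≤ ε → ε ≤ ε₂ → |ε| < δ := fun ε h5 h6 => by
    rw [abs_of_nonneg h5]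
    linarith
  have hMe : ∀ ε, |ε| < δ → M (q, ε) (e (q, ε)) = a := fun ε h5 => by
    rw [he]
    exact (hP' q hq1 ε ε h5 h5).1.1.1 a
  have hMf : ∀ ε, |ε| < δ → M (q, ε) (f (q, ε)) = b := fun ε h5 => by
    rw [hf]
    exact (hP' q hq1 ε ε h5 h5).1.1.1 b
  have hkey : ∀ ε ε', |ε| < δ → |ε'| < δ →
      a (f (q, ε)) = a (f (q, ε')) + (ε' - ε) * τ (q, (ε, ε')) := by
    intro ε ε' h5 h6
    have k1 : a (f (q, ε)) = -b (e (q, ε)) := by
      rw [← hMe ε h5, hMswap, hMf ε h5]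
    have k2 : b (e (q, ε)) = -M (q, ε') (e (q, ε)) (f (q, ε')) := by
      rw [← hMf ε' h6, hMswap]
    have k3 : M (q, ε') (e (q, ε)) (f (q, ε')) =
        M (q, ε) (e (q, ε)) (f (q, ε')) + (ε' - ε) * τ (q, (ε, ε')) := by
      rw [hMv, hMv, hτ]
      show _ = _ + (ε' - ε) * T q ![e (q, ε), f (q, ε')]
      ring
    rw [k1, k2, k3, hMe ε h5]
    ring
  have hbe : ∀ ε, |ε| < δ → b (e (q, ε)) = -a (f (q, ε)) := by
    intro ε h5
    rw [← hMf ε h5, hMswap, hMe ε h5]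
  have hae : ∀ ε, |ε| < δ → a (e (q, ε)) = 0 := by
    intro ε h5
    have h6 := hMswap (q, ε) (e (q, ε)) (e (q, ε))
    rw [hMe ε h5] at h6
    linarith
  have hbf : ∀ ε, |ε| < δ → b (f (q, ε)) = 0 := by
    intro ε h5
    have h6 := hMswap (q, ε) (f (q, ε)) (f (q, ε))
    rw [hMf ε h5] at h6
    linarith
  -- the Schur complement
  obtain ⟨g, hg⟩ : ∃ g : ℝ → ℝ, g = fun ε => 1 - a (f (q, ε)) := ⟨_, rfl⟩
  have hgk : ∀ ε ε', |ε| < δ → |ε'| < δ → g ε' = g ε + (ε' - ε) * τ (q, (ε, ε')) := by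
    intro ε ε' h5 h6
    rw [hg]
    show 1 - a (f (q, ε')) = 1 - a (f (q, ε)) + (ε' - ε) * τ (q, (ε, ε'))
    rw [hkey ε ε' h5 h6]
    ring
  have h0δ : |(0 : ℝ)| < δ := by rw [abs_zero]; exact hδ
  have hg0 : 0 ≤ g 0 := by
    by_contra hneg
    push Not at hneg
    have hgc : ContinuousOn g (Icc 0 ε₂) := by
      have hl : LipschitzOnWith 2 g (Icc 0 ε₂) := by
        refine LipschitzOnWith.of_dist_le_mul fun x hx y hy => ?_
        have h5 := hlt x hx.1 hx.2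
        have h6 := hlt y hy.1 hy.2
        have h7 := hgk y x h6 h5
        have h8 := (hP' q hq1 y x h6 h5).2
        rw [Real.dist_eq, Real.dist_eq, h7, add_sub_cancel_left, abs_mul]
        have h9 : |τ (q, (y, x))| ≤ 2 := by
          rw [abs_of_pos (by linarith)]
          exact h8.2.le
        calc |x - y| * |τ (q, (y, x))| ≤ |x - y| * 2 := mul_le_mul_of_nonneg_left h9 (abs_nonneg _)
          _ = ((2 : NNReal) : ℝ) * |x - y| := by rw [mul_comm]; rfl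
      exact hl.continuousOn
    have hg2 : 0 ≤ g ε₂ := by
      have h5 := hgk 0 ε₂ h0δ (hlt ε₂ hε₂0.le le_rfl)
      have h6 := (hP' q hq1 0 ε₂ h0δ (hlt ε₂ hε₂0.le le_rfl)).2.1
      have h7 : -(ε₂ / 4) < g 0 := by
        rw [hg]
        exact (abs_lt.1 hq2).1
      have h8 : ε₂ * (1 / 2) ≤ ε₂ * τ (q, (0, ε₂)) := mul_le_mul_of_nonneg_left h6.le hε₂0.le
      rw [sub_zero] at h5
      linarith
    obtain ⟨ε', hε', hz⟩ := intermediate_value_Icc hε₂0.le hgc ⟨hneg.le, hg2⟩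
    have hε'0 : 0 < ε' := by
      rcases eq_or_lt_of_le hε'.1 with h5 | h5
      · rw [← h5] at hz
        linarith
      · exact h5
    have h5 := hlt ε' hε'.1 hε'.2
    have haf : a (f (q, ε')) = 1 := by
      rw [hg] at hz
      have h6 : 1 - a (f (q, ε')) = 0 := hz
      linarith
    have h6 := hq3 ε' hε'0 (hε'.2.trans hε₂1) (f (q, ε')) (fun w => by
      have h7 := hMv (q, ε') (f (q, ε')) w
      rw [hMf ε' h5, haf, hbf ε' h5] at h7
      have h8 : b w = S q ![f (q, ε'), w] + ε' * T q ![f (q, ε'), w] + (1 * b w - 0 * a w) := h7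
      linarith)
    rw [h6, map_zero] at haf
    exact zero_ne_one haf
  have hε' : ε ≤ ε₂ := h4.trans (min_le_left _ _)
  have hεδ := hlt ε h3.le hε'
  have hgε := hgk 0 ε h0δ hεδ
  have hτε := (hP' q hq1 0 ε h0δ hεδ).2
  rw [sub_zero] at hgε
  have hg1 : ε / 2 ≤ g ε := by
    have h8 : ε * (1 / 2) ≤ ε * τ (q, (0, ε)) := mul_le_mul_of_nonneg_left hτε.1.le h3.le
    linarith
  have hg3 : g ε ≤ 3 := by
    have h8 : ε * τ (q, (0, ε)) ≤ 1 * 2 :=
      mul_le_mul (hε'.trans hε₂2) hτε.2.le (by linarith) zero_le_one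
    have h7 : g 0 < ε₂ / 4 := by
      rw [hg]
      exact (abs_lt.1 hq2).2
    linarith
  have hgpos : 0 < g ε := by linarith
  obtain ⟨⟨⟨-, hGM⟩, hGn⟩, -⟩ := hP' q hq1 ε ε hεδ hεδ
  -- the functional
  obtain ⟨L, hL⟩ : ∃ L : V →L[ℝ] ℝ, L = M (q, ε) v - a v • b + b v • a := ⟨_, rfl⟩
  have hLw : ∀ w, L w = S q ![v, w] + ε * T q ![v, w] := by
    intro w
    have h5 : L w = M (q, ε) v w - a v * b w + b v * a w := by rw [hL]; rfl
    rw [h5, hMv]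
    show S q ![v, w] + ε * T q ![v, w] + (a v * b w - b v * a w) - a v * b w + b v * a w = _
    ring
  obtain ⟨u, hu⟩ : ∃ u : V, u = v - a v • f (q, ε) + b v • e (q, ε) := ⟨_, rfl⟩
  have hMu : M (q, ε) u = L := by
    rw [hu, hL, map_add, map_sub, map_smul, map_smul, hMf ε hεδ, hMe ε hεδ]
  have hun : ‖u‖ ≤ C * ‖L‖ := by
    have h5 := hGM u
    rw [hMu] at h5
    rw [← h5]
    exact (ContinuousLinearMap.le_opNorm _ _).trans
      (mul_le_mul_of_nonneg_right hGn.le (norm_nonneg _))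
  have hau : a u = a v * g ε := by
    rw [hu, map_add, map_sub, map_smul, map_smul, hae ε hεδ, hg]
    show a v - a v * a (f (q, ε)) + b v * 0 = a v * (1 - a (f (q, ε)))
    ring
  have hbu : b u = b v * g ε := by
    rw [hu, map_add, map_sub, map_smul, map_smul, hbf ε hεδ, hbe ε hεδ, hg]
    show b v - a v * 0 + b v * -a (f (q, ε)) = b v * (1 - a (f (q, ε)))
    ring
  have hvu : g ε • v = g ε • u + a u • f (q, ε) - b u • e (q, ε) := by
    rw [hau, hbu, hu, mul_comm (a v), mul_comm (b v), mul_smul, mul_smul, ← smul_add, ← smul_sub]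
    congr 1
    abel
  have hfn : ‖f (q, ε)‖ ≤ C * ‖b‖ := by
    rw [hf]
    exact (ContinuousLinearMap.le_opNorm _ _).trans
      (mul_le_mul_of_nonneg_right hGn.le (norm_nonneg _))
  have hen : ‖e (q, ε)‖ ≤ C * ‖a‖ := by
    rw [he]
    exact (ContinuousLinearMap.le_opNorm _ _).trans
      (mul_le_mul_of_nonneg_right hGn.le (norm_nonneg _))
  have hvn : g ε * ‖v‖ ≤ D * ‖u‖ := by
    have h5 : ‖g ε • v‖ = g ε * ‖v‖ := by rw [norm_smul, Real.norm_eq_abs, abs_of_pos hgpos]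
    rw [← h5, hvu]
    refine (norm_sub_le _ _).trans ((add_le_add_left (norm_add_le _ _) _).trans ?_)
    rw [norm_smul, norm_smul, norm_smul, Real.norm_eq_abs, abs_of_pos hgpos]
    have h6 : ‖a u‖ * ‖f (q, ε)‖ ≤ (‖a‖ * ‖u‖) * (C * ‖b‖) :=
      mul_le_mul (a.le_opNorm u) hfn (norm_nonneg _) (by positivity)
    have h7 : ‖b u‖ * ‖e (q, ε)‖ ≤ (‖b‖ * ‖u‖) * (C * ‖a‖) :=
      mul_le_mul (b.le_opNorm u) hen (norm_nonneg _) (by positivity)
    have h8 : g ε * ‖u‖ ≤ 3 * ‖u‖ := mul_le_mul_of_nonneg_right hg3 (norm_nonneg _)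
    rw [hD]
    nlinarith
  obtain ⟨w, hw1, hw2⟩ := norming L
  refine ⟨w, hw1, ?_⟩
  rw [← hLw]
  refine le_trans ?_ hw2
  have h5 : ε / 2 * ‖v‖ ≤ D * (C * ‖L‖) := by
    have h6 : ε / 2 * ‖v‖ ≤ g ε * ‖v‖ := mul_le_mul_of_nonneg_right hg1 (norm_nonneg _)
    have h7 : D * ‖u‖ ≤ D * (C * ‖L‖) := mul_le_mul_of_nonneg_left hun hD0.le
    linarith
  have h6 : min ε₂ (1 / (4 * D * C)) ≤ 1 / (4 * D * C) := min_le_right _ _
  have h7 : 0 ≤ ε * ‖v‖ := by positivity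
  calc min ε₂ (1 / (4 * D * C)) * ε * ‖v‖ = min ε₂ (1 / (4 * D * C)) * (ε * ‖v‖) := by ring
    _ ≤ 1 / (4 * D * C) * (ε * ‖v‖) := mul_le_mul_of_nonneg_right h6 h7
    _ ≤ 1 / (4 * D * C) * (2 * (D * (C * ‖L‖))) :=
        mul_le_mul_of_nonneg_left (by linarith) (by positivity)
    _ = ‖L‖ / 2 := by field_simp; ring

end Pool.Agent.Q130.SF
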