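import Pool.Agent.Q130.SF.Nd2
import Pool.Agent.Q130.SF.KerG

/-!
# Two-dimensional kernels on manifolds
-/

set_option autoImplicit false

open Set Filter Topology
open scoped Manifold ContDiff

noncomputable section

namespace Pool.Agent.Q130.SF

open Pool.Agent.Y501.SY

variable {d : ℕ} {X : Type} [TopologicalSpace X] [ChartedSpace (E d) X]

/-- the kernel of `σ` at `y` is two-dimensional and `θ` does not vanish on it -/
def Ker2 (σ θ : Form d X 2) (y : X) : Prop :=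
  ∃ n₁ n₂ : TangentSpace (𝓡 d) y, (∀ w, σ y ![n₁, w] = 0) ∧ (∀ w, σ y ![n₂, w] = 0) ∧
    θ y ![n₁, n₂] ≠ 0 ∧ ∀ v, (∀ w, σ y ![v, w] = 0) → ∃ s t : ℝ, v = s • n₁ + t • n₂

variable [IsManifold (𝓡 d) ∞ X]

theorem Ker2.chart {σ θ : Form d X 2} (x : X) {p : E d} (hp : p ∈ (chartAt (E d) x).target)
    (h : Ker2 σ θ ((chartAt (E d) x).symm p)) : ∃ n₁ n₂ : E d,
      (∀ w, pb (chartAt (E d) x).symm σ p ![n₁, w] = 0) ∧
      (∀ w, pb (chartAt (E d) x).symm σ p ![n₂, w] = 0) ∧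
      pb (chartAt (E d) x).symm θ p ![n₁, n₂] = 1 ∧
      ∀ v, (∀ w, pb (chartAt (E d) x).symm σ p ![v, w] = 0) → ∃ s t : ℝ, v = s • n₁ + t • n₂ := by
  obtain ⟨n₁, n₂, h1, h2, h3, h4⟩ := h
  have hmd := mdifferentiable_chart (I := 𝓡 d) x
  obtain ⟨L, hL⟩ : ∃ L, L = mfderiv (𝓡 d) (𝓡 d) (chartAt (E d) x).symm p := ⟨_, rfl⟩
  obtain ⟨L', hL'⟩ : ∃ L', L' = mfderiv (𝓡 d) (𝓡 d) (chartAt (E d) x)
    ((chartAt (E d) x).symm p) := ⟨_, rfl⟩
  have e1 : ∀ v, L' (L v) = v := by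
    intro v
    have h5 := hmd.comp_symm_deriv hp
    rw [hL, hL']
    exact congrArg (fun A => A v) h5
  have e2 : ∀ v, L (L' v) = v := by
    intro v
    have h5 := hmd.symm_comp_deriv ((chartAt (E d) x).map_target hp)
    rw [(chartAt (E d) x).right_inv hp] at h5
    rw [hL, hL']
    exact congrArg (fun A => A v) h5
  have e3 : ∀ (τ : Form d X 2) (v w : E d), pb (chartAt (E d) x).symm τ p ![v, w] =
      τ ((chartAt (E d) x).symm p) ![L v, L w] := by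
    intro τ v w
    rw [pb_apply2, hL]
  have hinj : ∀ v w : E d, L v = L w → v = w := fun v w h5 =>
    (e1 v).symm.trans ((congrArg L' h5).trans (e1 w))
  obtain ⟨m₁, hm₁⟩ : ∃ m₁ : E d, L m₁ = n₁ := ⟨L' n₁, e2 n₁⟩
  obtain ⟨m₂, hm₂⟩ : ∃ m₂ : E d, L m₂ = n₂ := ⟨L' n₂, e2 n₂⟩
  have hsurj : ∀ w : TangentSpace (𝓡 d) ((chartAt (E d) x).symm p), ∃ m : E d, L m = w :=
    fun w => ⟨L' w, e2 w⟩
  obtain ⟨c, hc⟩ : ∃ c, c = θ ((chartAt (E d) x).symm p) ![n₁, n₂] := ⟨_, rfl⟩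
  have hc0 : c ≠ 0 := by rw [hc]; exact h3
  refine ⟨m₁, c⁻¹ • m₂, fun w => ?_, fun w => ?_, ?_, fun v hv => ?_⟩
  · rw [e3, hm₁]
    exact h1 _
  · rw [alt2_smul, e3, hm₂, h2, mul_zero]
  · rw [alt2_swap, alt2_smul, alt2_swap, e3, hm₁, hm₂, ← hc]
    field_simp
  · obtain ⟨s, t, hst⟩ := h4 (L v) (fun w => by
      obtain ⟨m, rfl⟩ := hsurj w
      rw [← e3]
      exact hv m)
    refine ⟨s, t * c, ?_⟩
    have h5 : L (s • m₁ + t • m₂) = L v := by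
      rw [hst, ← hm₁, ← hm₂]
      exact (L.map_add _ _).trans (congrArg₂ (· + ·) (L.map_smul _ _) (L.map_smul _ _))
    rw [← hinj _ _ h5, smul_smul, mul_assoc, mul_inv_cancel₀ hc0, mul_one]

/-- nondegeneracy of `σ + ε θ` for small `ε > 0` implies a linear rate, if the kernel has
dimension two -/
theorem rateAt_of_ker {σ θ : Form d X 2} (hσ : IsSmooth σ) (hθ : IsSmooth θ) {x : X}
    (h : Ker2 σ θ x) {ε₁ : ℝ} (hε₁ : 0 < ε₁)
    (hnd : ∀ ε : ℝ, 0 < ε → ε ≤ ε₁ → ∀ y, nd (σ + ε • θ) y) : RateAt σ θ x := by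
  have hx : x ∈ (chartAt (E d) x).source := mem_chart_source (E d) x
  have hp : chartAt (E d) x x ∈ (chartAt (E d) x).target := mem_chart_target (E d) x
  have h0 : Ker2 σ θ ((chartAt (E d) x).symm (chartAt (E d) x x)) := by
    rw [(chartAt (E d) x).left_inv hx]
    exact h
  obtain ⟨n₁, n₂, h1, h2, h3, h4⟩ := h0.chart x hp
  have hcon : ∀ {τ : Form d X 2}, IsSmooth τ →
      ContinuousAt (pb (chartAt (E d) x).symm τ) (chartAt (E d) x x) := fun hτ =>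
    (hτ _ _ (chartAt (E d) x).open_target contMDiffOn_chart_symm).continuousOn.continuousAt
      ((chartAt (E d) x).open_target.mem_nhds hp)
  refine rate_gen (V := E d) (Z := E d) (S := pb (chartAt (E d) x).symm σ)
    (T := pb (chartAt (E d) x).symm θ) (hcon hσ) (hcon hθ) h1 h2 h3 h4 hε₁ ?_
  filter_upwards [(chartAt (E d) x).open_target.mem_nhds hp] with q hq ε h5 h6 v hv
  exact (nd_iff x hq).1 (hnd ε h5 h6 _) v hv

end Pool.Agent.Q130.SF
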