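import Pool.Agent.Q130.SF.Nd3
import Pool.Agent.Q130.SF.Ker
import Pool.Agent.Y391.SY.Haus

/-!
# Every smooth two-form on a compact manifold is a finite sum of forms `c da ∧ db`
-/

set_option autoImplicit false

open Set Filter Topology MeasureTheory
open scoped Manifold ContDiff

noncomputable section

namespace Pool.Agent.Q130.SF

open Pool.Agent.Y501.SY

variable {d : ℕ} {X : Type} [TopologicalSpace X] [ChartedSpace (E d) X]

/-- the standard basis -/
def bs (d : ℕ) (j : Fin d) : E d := EuclideanSpace.single j (1 : ℝ)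

theorem lin_expand (L : E d →L[ℝ] ℝ) (v : E d) : L v = ∑ j, v j * L (bs d j) := by
  have hv : v = ∑ j, v j • bs d j := by
    ext i
    simp [bs, Finset.sum_apply, Pi.single_apply]
  conv_lhs => rw [hv, map_sum]
  exact Finset.sum_congr rfl fun j _ => by rw [map_smul, smul_eq_mul]

/-- expansion of a two-form in the standard basis -/
theorem expand2 (B : (E d) [⋀^Fin 2]→L[ℝ] ℝ) (v w : E d) :
    B ![v, w] = ∑ j, ∑ k, (B ![bs d j, bs d k] / 2) * (v j * w k - w j * v k) := by
  have h1 : ∀ v w : E d, B ![v, w] = ∑ j, v j * B ![bs d j, w] := fun v w =>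
    lin_expand ((blin B).flip w) v
  have h2 : ∀ v w : E d, B ![v, w] = ∑ j, ∑ k, B ![bs d j, bs d k] * (v j * w k) := by
    intro v w
    rw [h1]
    refine Finset.sum_congr rfl fun j _ => ?_
    have h3 : B ![bs d j, w] = ∑ k, w k * B ![bs d j, bs d k] := lin_expand (blin B (bs d j)) w
    rw [h3, Finset.mul_sum]
    exact Finset.sum_congr rfl fun k _ => by ring
  have h4 : ∑ j, ∑ k, (B ![bs d j, bs d k] / 2) * (v j * w k - w j * v k) =
      1 / 2 * (∑ j, ∑ k, B ![bs d j, bs d k] * (v j * w k)) -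
        1 / 2 * (∑ j, ∑ k, B ![bs d j, bs d k] * (w j * v k)) := by
    rw [Finset.mul_sum, Finset.mul_sum, ← Finset.sum_sub_distrib]
    refine Finset.sum_congr rfl fun j _ => ?_
    rw [Finset.mul_sum, Finset.mul_sum, ← Finset.sum_sub_distrib]
    exact Finset.sum_congr rfl fun k _ => by ring
  rw [h4, ← h2 v w, ← h2 w v, alt2_swap B w v]
  ring

variable [IsManifold (𝓡 d) ∞ X]

omit [IsManifold (𝓡 d) ∞ X] in
theorem smooth_of_local {h : X → ℝ} {U : Set X} (h1 : ∀ x ∈ U, ContMDiffAt (𝓡 d) 𝓘(ℝ, ℝ) ∞ h x)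
    (h2 : ∀ x, x ∉ U → ∀ᶠ y in 𝓝 x, h y = 0) : SmoothFun (d := d) h := by
  intro x
  by_cases hx : x ∈ U
  · exact h1 x hx
  · exact (contMDiffAt_const (c := (0 : ℝ))).congr_of_eventuallyEq (h2 x hx)

/-- the local decomposition -/
theorem local_dec [CompactSpace X] [T2Space X] {θ : Form d X 2} (hθ : IsSmooth θ) (z : X) :
    ∃ (f : X → ℝ) (a : Fin d → X → ℝ) (c : Fin d → Fin d → X → ℝ), SmoothFun (d := d) f ∧
      (∀ x, 0 ≤ f x) ∧ (∀ᶠ y in 𝓝 z, f y = 1) ∧ (∀ j, SmoothFun (d := d) (a j)) ∧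
      (∀ j k, SmoothFun (d := d) (c j k)) ∧ ∀ (x : X) (v w : TangentSpace (𝓡 d) x),
        f x * θ x ![v, w] = ∑ j, ∑ k, c j k x * (dd (d := d) (a j) x v * dd (d := d) (a k) x w -
          dd (d := d) (a j) x w * dd (d := d) (a k) x v) := by
  classical
  have hz : z ∈ (chartAt (E d) z).source := mem_chart_source (E d) z
  obtain ⟨f, hf, hf01, hf1, hf0⟩ := cutoff (d := d) (D := {z}) isClosed_singleton
    (chartAt (E d) z).open_source (singleton_subset_iff.2 hz)
  have hts : tsupport f ⊆ (chartAt (E d) z).source := by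
    intro x hx
    by_contra h
    exact (notMem_tsupport_iff_eventuallyEq.2 (hf0 x h)) hx
  obtain ⟨u, hu, hu01, hu1, hu0⟩ := cutoff (d := d) (D := tsupport f) (isClosed_tsupport f)
    (chartAt (E d) z).open_source hts
  have hφs : ∀ x ∈ (chartAt (E d) z).source,
      ContMDiffAt (𝓡 d) 𝓘(ℝ, E d) ∞ (chartAt (E d) z) x := fun x hx =>
    (contMDiffOn_chart (I := 𝓡 d)).contMDiffAt ((chartAt (E d) z).open_source.mem_nhds hx)
  refine ⟨f, fun j x => u x * (chartAt (E d) z x) j, fun j k x =>
    f x * (pb (chartAt (E d) z).symm θ (chartAt (E d) z x) ![bs d j, bs d k] / 2), hf,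
    fun x => (hf01 x).1, hf1 z rfl, fun j => ?_, fun j k => ?_, fun x v w => ?_⟩
  · refine smooth_of_local (U := (chartAt (E d) z).source) (fun x hx => ?_) (fun x hx => ?_)
    · exact (hu x).mul (((EuclideanSpace.proj (𝕜 := ℝ) j : E d →L[ℝ] ℝ).contDiff.contMDiff).contMDiffAt.comp
        x (hφs x hx))
    · filter_upwards [hu0 x hx] with y hy
      rw [hy, zero_mul]
  · refine smooth_of_local (U := (chartAt (E d) z).source) (fun x hx => ?_) (fun x hx => ?_)
    · refine (hf x).mul ?_
      have h1 : ContDiffAt ℝ ∞ (pb (chartAt (E d) z).symm θ) (chartAt (E d) z x) :=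
        (hθ _ _ (chartAt (E d) z).open_target contMDiffOn_chart_symm).contDiffAt
          ((chartAt (E d) z).open_target.mem_nhds ((chartAt (E d) z).map_source hx))
      have h2 : ContDiffAt ℝ ∞ (fun p => pb (chartAt (E d) z).symm θ p ![bs d j, bs d k] / 2)
          (chartAt (E d) z x) :=
        ((ContinuousAlternatingMap.apply ℝ (E d) ℝ ![bs d j, bs d k]).contDiff.contDiffAt.comp _
          h1).div_const 2
      exact h2.contMDiffAt.comp x (hφs x hx)
    · filter_upwards [hf0 x hx] with y hy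
      rw [hy, zero_mul]
  · by_cases hx : x ∈ tsupport f
    · obtain ⟨p, hp, rfl⟩ : ∃ p ∈ (chartAt (E d) z).target, (chartAt (E d) z).symm p = x :=
        ⟨chartAt (E d) z x, (chartAt (E d) z).map_source (hts hx),
          (chartAt (E d) z).left_inv (hts hx)⟩
      have hmd := mdifferentiable_chart (I := 𝓡 d) z
      have hxs : (chartAt (E d) z).symm p ∈ (chartAt (E d) z).source := hts hx
      obtain ⟨L, hL⟩ : ∃ L, L = mfderiv (𝓡 d) (𝓡 d) (chartAt (E d) z).symm p := ⟨_, rfl⟩
      obtain ⟨L', hL'⟩ : ∃ L', L' = mfderiv (𝓡 d) (𝓡 d) (chartAt (E d) z)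
        ((chartAt (E d) z).symm p) := ⟨_, rfl⟩
      have e2 : ∀ v, L (L' v) = v := by
        intro v
        have h5 := hmd.symm_comp_deriv ((chartAt (E d) z).map_target hp)
        rw [(chartAt (E d) z).right_inv hp] at h5
        rw [hL, hL']
        exact congrArg (fun A => A v) h5
      obtain ⟨A, hA⟩ : ∃ A : TangentSpace (𝓡 d) ((chartAt (E d) z).symm p) → E d,
        A = fun v => (L' v : E d) := ⟨_, rfl⟩
      have e2' : ∀ v, L (A v) = v := by
        intro v
        rw [hA]
        exact e2 v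
      have e3' : ∀ a b : E d, pb (chartAt (E d) z).symm θ p ![a, b] =
          θ ((chartAt (E d) z).symm p) ![L a, L b] := by
        intro a b
        rw [pb_apply2, hL]
      have e3 : θ ((chartAt (E d) z).symm p) ![v, w] =
          pb (chartAt (E d) z).symm θ p ![A v, A w] := by
        rw [e3', e2', e2']
      have e4 : ∀ (j : Fin d) (v : TangentSpace (𝓡 d) ((chartAt (E d) z).symm p)),
          dd (d := d) (fun x => u x * (chartAt (E d) z x) j) ((chartAt (E d) z).symm p) v =
            (A v) j := by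
        intro j v
        have e5 : (fun x => u x * (chartAt (E d) z x) j) =ᶠ[𝓝 ((chartAt (E d) z).symm p)]
            (EuclideanSpace.proj (𝕜 := ℝ) j : E d →L[ℝ] ℝ) ∘ (chartAt (E d) z) := by
          filter_upwards [hu1 _ hx] with y hy
          show u y * (chartAt (E d) z y) j = (chartAt (E d) z y) j
          rw [hy, one_mul]
        have e6 : MDifferentiableAt (𝓡 d) 𝓘(ℝ, E d) (chartAt (E d) z)
            ((chartAt (E d) z).symm p) := hmd.mdifferentiableAt hxs
        unfold dd
        rw [e5.mfderiv_eq, mfderiv_comp _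
          ((EuclideanSpace.proj (𝕜 := ℝ) j : E d →L[ℝ] ℝ).contDiff.contMDiff.mdifferentiableAt
            (n := 1) one_ne_zero) e6, mfderiv_eq_fderiv, ContinuousLinearMap.fderiv, hA, hL']
        rfl
      rw [e3, expand2, Finset.mul_sum]
      refine Finset.sum_congr rfl fun j _ => ?_
      rw [Finset.mul_sum]
      refine Finset.sum_congr rfl fun k _ => ?_
      rw [e4, e4, e4, e4]
      beta_reduce
      rw [(chartAt (E d) z).right_inv hp, mul_assoc]
    · have h0 : f x = 0 := image_eq_zero_of_notMem_tsupport hx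
      simp only [h0, zero_mul, Finset.sum_const_zero]

/-- every smooth two-form is a finite sum of forms `c da ∧ db` -/
theorem dec [CompactSpace X] [T2Space X] {θ : Form d X 2} (hθ : IsSmooth θ) :
    ∃ (n : ℕ) (c a b : Fin n → X → ℝ), (∀ i, SmoothFun (d := d) (c i)) ∧
      (∀ i, SmoothFun (d := d) (a i)) ∧ (∀ i, SmoothFun (d := d) (b i)) ∧
      ∀ (x : X) (v w : TangentSpace (𝓡 d) x), θ x ![v, w] =
        ∑ i, c i x * (dd (d := d) (a i) x v * dd (d := d) (b i) x w -
          dd (d := d) (a i) x w * dd (d := d) (b i) x v) := by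
  classical
  choose f a c hf hf0 hf1 ha hc hform using fun z => local_dec (d := d) hθ z
  obtain ⟨t, ht⟩ := CompactSpace.elim_nhds_subcover (fun z => {y | f z y = 1}) (fun z => hf1 z)
  have hcov : ∀ x, ∃ z ∈ t, f z x = 1 := by
    intro x
    have hx : x ∈ ⋃ z ∈ t, {y | f z y = 1} := by rw [ht]; trivial
    simpa using hx
  have hs1 : ∀ x, 0 < ∑ z ∈ t, f z x := by
    intro x
    obtain ⟨z, hz, h1⟩ := hcov x
    exact Finset.sum_pos' (fun z _ => hf0 z x) ⟨z, hz, by rw [h1]; exact one_pos⟩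
  have hs : SmoothFun (d := d) (fun x => ∑ z ∈ t, f z x) := by
    have : ∀ t : Finset X, SmoothFun (d := d) (fun x => ∑ z ∈ t, f z x) := by
      intro t
      induction t using Finset.induction_on with
      | empty => simpa using SmoothFun.const (d := d) (X := X) 0
      | insert z t hz ih =>
        simp only [Finset.sum_insert hz]
        exact (hf z).add ih
    exact this t
  have hg : SmoothFun (d := d) (fun x => (∑ z ∈ t, f z x)⁻¹) := by
    intro x
    exact (contDiffAt_inv ℝ (hs1 x).ne').contMDiffAt.comp x (hs x)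
  let ι := ↥t × Fin d × Fin d
  let e : Fin (Fintype.card ι) ≃ ι := (Fintype.equivFin ι).symm
  refine ⟨Fintype.card ι, fun i x => (∑ z ∈ t, f z x)⁻¹ * c (e i).1 (e i).2.1 (e i).2.2 x,
    fun i => a (e i).1 (e i).2.1, fun i => a (e i).1 (e i).2.2, fun i => hg.mul (hc _ _ _),
    fun i => ha _ _, fun i => ha _ _, fun x v w => ?_⟩
  rw [Equiv.sum_comp e (fun q : ι => (∑ z ∈ t, f z x)⁻¹ * c q.1 q.2.1 q.2.2 x *
    (dd (d := d) (a q.1 q.2.1) x v * dd (d := d) (a q.1 q.2.2) x w -
      dd (d := d) (a q.1 q.2.1) x w * dd (d := d) (a q.1 q.2.2) x v))]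
  rw [Fintype.sum_prod_type]
  have h1 : ∀ z : ↥t, (∑ q : Fin d × Fin d, (∑ z ∈ t, f z x)⁻¹ * c z q.1 q.2 x *
      (dd (d := d) (a z q.1) x v * dd (d := d) (a z q.2) x w -
        dd (d := d) (a z q.1) x w * dd (d := d) (a z q.2) x v)) =
      (∑ z ∈ t, f z x)⁻¹ * (f z x * θ x ![v, w]) := by
    intro z
    rw [hform z x v w, Fintype.sum_prod_type, Finset.mul_sum]
    refine Finset.sum_congr rfl fun j _ => ?_
    rw [Finset.mul_sum]
    exact Finset.sum_congr rfl fun k _ => by rw [mul_assoc]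
  rw [Finset.sum_congr rfl fun z _ => h1 z, ← Finset.mul_sum, ← Finset.sum_mul,
    Finset.sum_coe_sort t (fun z => f z x), ← mul_assoc, inv_mul_cancel₀ (hs1 x).ne', one_mul]

/-- smooth two-forms are null sums on sets of two-dimensional Hausdorff measure zero -/
theorem nullSum_of_haus [CompactSpace X] [T2Space X] {θ : Form d X 2} (hθ : IsSmooth θ) {C : Set X}
    (hC : ∀ x : X, μH[2] (chartAt (E d) x '' (C ∩ (chartAt (E d) x).source)) = 0) :
    NullSum θ C := by
  obtain ⟨n, c, a, b, hc, ha, hb, h⟩ := dec (d := d) hθ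
  refine ⟨n, c, a, b, hc, ha, hb, fun i => ?_, fun x _ v w => h x v w⟩
  exact measure_mono_null (image_mono inter_subset_left)
    (Pool.Agent.Y391.SY.t_HAUS d X C hC (a i) (b i) (ha i) (hb i))

end Pool.Agent.Q130.SF
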