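import Pool.Agent.Q130.SF.Fam

/-!
# Extension of families of taming forms
-/

set_option autoImplicit false

open Set Filter Topology MeasureTheory
open scoped Manifold ContDiff

noncomputable section

namespace Pool.Agent.Q130.SF

open Pool.Agent.Y501.SY

variable {d : ℕ} {X : Type} [TopologicalSpace X] [ChartedSpace (E d) X] {P : Type}
  [TopologicalSpace P]

theorem pb_add {k : ℕ} (φ : E d → X) (σ τ : Form d X k) :
    pb φ (σ + τ) = pb φ σ + pb φ τ := by
  funext p
  ext v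
  rfl

theorem pb_smul {k : ℕ} (φ : E d → X) (c : ℝ) (σ : Form d X k) :
    pb φ (c • σ) = c • pb φ σ := by
  funext p
  ext v
  rfl

theorem pb_zero {k : ℕ} (φ : E d → X) : pb φ (0 : Form d X k) = 0 := by
  funext p
  ext v
  rfl

theorem CFam.add {k : ℕ} {S : Set P} {A B : P → Form d X k} (hA : CFam S A) (hB : CFam S B)
    (sA : ∀ p ∈ S, IsSmooth (A p)) (sB : ∀ p ∈ S, IsSmooth (B p)) :
    CFam S (fun p => A p + B p) := by
  intro U φ hU hφ j
  refine ((hA U φ hU hφ j).add (hB U φ hU hφ j)).congr fun q hq => ?_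
  have h1 : ContDiffAt ℝ j (pb φ (A q.1)) q.2 :=
    (((sA q.1 hq.1) U φ hU hφ).contDiffAt (hU.mem_nhds hq.2)).of_le (by exact_mod_cast le_top)
  have h2 : ContDiffAt ℝ j (pb φ (B q.1)) q.2 :=
    (((sB q.1 hq.1) U φ hU hφ).contDiffAt (hU.mem_nhds hq.2)).of_le (by exact_mod_cast le_top)
  show iteratedFDeriv ℝ j (pb φ (A q.1 + B q.1)) q.2 = _
  rw [pb_add]
  exact iteratedFDeriv_add_apply h1 h2

theorem smooth_add {k : ℕ} {σ τ : Form d X k} (h : IsSmooth σ) (h' : IsSmooth τ) :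
    IsSmooth (σ + τ) := by
  intro U φ hU hφ
  rw [pb_add]
  exact (h U φ hU hφ).add (h' U φ hU hφ)

theorem smooth_smul {k : ℕ} {σ : Form d X k} (c : ℝ) (h : IsSmooth σ) : IsSmooth (c • σ) := by
  intro U φ hU hφ
  rw [pb_smul]
  exact contDiffOn_const.smul (h U φ hU hφ)

theorem smooth_zero {k : ℕ} : IsSmooth (0 : Form d X k) := by
  intro U φ hU hφ
  rw [pb_zero]
  exact contDiffOn_const

theorem CFam.sum {k : ℕ} {S : Set P} {ι : Type} (t : Finset ι) {A : ι → P → Form d X k}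
    (hA : ∀ i, CFam S (A i)) (sA : ∀ i, ∀ p ∈ S, IsSmooth (A i p)) :
    CFam S (fun p => ∑ i ∈ t, A i p) ∧ ∀ p ∈ S, IsSmooth (∑ i ∈ t, A i p) := by
  classical
  induction t using Finset.induction_on with
  | empty =>
    simp only [Finset.sum_empty]
    exact ⟨CFam.const smooth_zero, fun _ _ => smooth_zero⟩
  | insert a t ha ih =>
    simp only [Finset.sum_insert ha]
    exact ⟨(hA a).add ih.1 (sA a) ih.2, fun p hp => smooth_add (sA a p hp) (ih.2 p hp)⟩

/-- a family cut off by a function of the parameter -/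
theorem CFam.cut {k : ℕ} {G : Set P} {A : P → Form d X k} (hA : CFam G A) (hG : IsOpen G)
    {f : P → ℝ} (hf : Continuous f) (hfG : tsupport f ⊆ G) (sA : ∀ p ∈ G, IsSmooth (A p)) :
    CFam univ (fun p => f p • A p) ∧ ∀ p, IsSmooth (f p • A p) := by
  constructor
  · intro U φ hU hφ j
    rintro ⟨p, u⟩ ⟨-, hu⟩
    refine ContinuousAt.continuousWithinAt ?_
    by_cases hp : p ∈ tsupport f
    · have hn : G ×ˢ U ∈ 𝓝 (p, u) := prod_mem_nhds (hG.mem_nhds (hfG hp)) (hU.mem_nhds hu)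
      have h1 : ContinuousAt (fun q : P × E d => iteratedFDeriv ℝ j (pb φ (A q.1)) q.2) (p, u) :=
        (hA U φ hU hφ j).continuousAt hn
      have h2 : ContinuousAt (fun q : P × E d => f q.1 • iteratedFDeriv ℝ j (pb φ (A q.1)) q.2)
          (p, u) := (hf.continuousAt.comp continuousAt_fst).smul h1
      refine h2.congr ?_
      filter_upwards [hn] with q hq
      have h3 : ContDiffAt ℝ j (pb φ (A q.1)) q.2 :=
        (((sA q.1 hq.1) U φ hU hφ).contDiffAt (hU.mem_nhds hq.2)).of_le (by exact_mod_cast le_top)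
      show _ = iteratedFDeriv ℝ j (pb φ (f q.1 • A q.1)) q.2
      rw [pb_smul]
      exact (iteratedFDeriv_const_smul_apply h3).symm
    · have h1 : ∀ᶠ q : P × E d in 𝓝 (p, u), f q.1 = 0 := by
        have h2 : ∀ᶠ p' in 𝓝 p, f p' = 0 := by
          have h3 : (tsupport f)ᶜ ∈ 𝓝 p := (isClosed_tsupport f).isOpen_compl.mem_nhds hp
          filter_upwards [h3] with p' hp'
          exact image_eq_zero_of_notMem_tsupport hp'
        exact (continuousAt_fst (p := (p, u))).eventually h2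
      have h0 : ∀ q : P × E d, iteratedFDeriv ℝ j (pb φ (0 : Form d X k)) q.2 = 0 := by
        intro q
        rw [pb_zero]
        exact congrFun iteratedFDeriv_fun_zero q.2
      refine ContinuousAt.congr (f := fun _ : P × E d => 0) continuousAt_const ?_
      filter_upwards [h1] with q hq
      show (0 : _) = iteratedFDeriv ℝ j (pb φ (f q.1 • A q.1)) q.2
      rw [hq, zero_smul, h0]
  · intro p
    by_cases hp : p ∈ G
    · exact smooth_smul _ (sA p hp)
    · have h1 : f p = 0 := image_eq_zero_of_notMem_tsupport fun h => hp (hfG h)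
      rw [h1, zero_smul]
      exact smooth_zero

variable [IsManifold (𝓡 d) ∞ X]

omit [IsManifold (𝓡 d) ∞ X] in
theorem convex_tames (J : End d X) : Convex ℝ {σ : Form d X 2 | ∀ x, TamesAt σ J x} := by
  intro σ hσ τ hτ a b ha hb hab x v hv
  have h1 := hσ x v hv
  have h2 := hτ x v hv
  show 0 < a * (σ x ![v, J x v]) + b * (τ x ![v, J x v])
  rcases ha.lt_or_eq with h | h
  · have h3 := mul_pos h h1
    have h4 := mul_nonneg hb h2.le
    linarith
  · have h3 : b = 1 := by linarith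
    rw [← h, h3]
    linarith

/-- **Extension of families of taming forms.** -/
theorem extend [CompactSpace X] [CompactSpace P] [T2Space P] {Q N : Set P} (hQ : IsClosed Q)
    (hN : IsOpen N) (hQN : Q ⊆ N) {r : P → P} (hr : ContinuousOn r N) (hrQ : ∀ p ∈ N, r p ∈ Q)
    (hrid : ∀ q ∈ Q, r q = q) {J : P → End d X} (hJ : JFam J) {η w : P → Form d X 2}
    (hη : CFam Q η) (hηs : ∀ q ∈ Q, IsSmooth (η q)) (hηt : ∀ q ∈ Q, ∀ x, TamesAt (η q) (J q) x)
    (hws : ∀ p, p ∉ Q → IsSmooth (w p)) (hwt : ∀ p, p ∉ Q → ∀ x, TamesAt (w p) (J p) x) :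
    ∃ Ω : P → Form d X 2, (∀ q ∈ Q, Ω q = η q) ∧ CFam univ Ω ∧ (∀ p, IsSmooth (Ω p)) ∧
      (∀ p x, TamesAt (Ω p) (J p) x) ∧ ∀ C : Set (Form d X 2), Convex ℝ C →
        (∀ q ∈ Q, η q ∈ C) → (∀ p, p ∉ Q → w p ∈ C) → ∀ p, Ω p ∈ C := by
  classical
  -- the pieces
  obtain ⟨B, hB0, hB1⟩ : ∃ B : Option P → P → Form d X 2, (∀ p, B none p = η (r p)) ∧
      ∀ a p, B (some a) p = w a :=
    ⟨fun o p => Option.elim o (η (r p)) fun a => w a, fun _ => rfl, fun _ _ => rfl⟩
  obtain ⟨D, hD0, hD1⟩ : ∃ D : Option P → Set P, D none = N ∧ ∀ a, D (some a) = Qᶜ ∩ {_p | a ∉ Q} :=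
    ⟨fun o => Option.elim o N fun a => Qᶜ ∩ {_p | a ∉ Q}, rfl, fun _ => rfl⟩
  have hDo : ∀ o, IsOpen (D o) := by
    intro o
    rcases o with _ | a
    · rw [hD0]
      exact hN
    · rw [hD1]
      exact hQ.isOpen_compl.inter isOpen_const
  have hBs : ∀ o, ∀ p ∈ D o, IsSmooth (B o p) := by
    intro o p hp
    rcases o with _ | a
    · rw [hB0]
      rw [hD0] at hp
      exact hηs _ (hrQ p hp)
    · rw [hB1]
      rw [hD1] at hp
      exact hws a hp.2
  have hBc : ∀ o, CFam (D o) (B o) := by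
    intro o
    rcases o with _ | a
    · rw [hD0]
      have h1 : B none = fun p => η (r p) := funext hB0
      rw [h1]
      exact hη.comp hr hrQ
    · rw [hD1]
      have h1 : B (some a) = fun _ => w a := funext (hB1 a)
      rw [h1]
      by_cases ha : a ∈ Q
      · have h2 : Qᶜ ∩ {_p : P | a ∉ Q} = ∅ := by
          ext p
          simp [ha]
        rw [h2]
        intro U φ hU hφ j
        rw [empty_prod]
        exact continuousOn_empty _
      · exact CFam.const (hws a ha)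
  obtain ⟨G, hG⟩ : ∃ G : Option P → Set P, ∀ o, G o = interior {p | p ∈ D o ∧
      ∀ x, TamesAt (B o p) (J p) x} := ⟨_, fun _ => rfl⟩
  have hGo : ∀ o, IsOpen (G o) := fun o => by rw [hG]; exact isOpen_interior
  have hGD : ∀ o, ∀ p ∈ G o, p ∈ D o ∧ ∀ x, TamesAt (B o p) (J p) x := by
    intro o p hp
    rw [hG] at hp
    have h1 : p ∈ {p | p ∈ D o ∧ ∀ x, TamesAt (B o p) (J p) x} := interior_subset hp
    exact h1
  have hGm : ∀ o p, p ∈ D o → (∀ x, TamesAt (B o p) (J p) x) → p ∈ G o := by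
    intro o p hp h
    rw [hG, mem_interior_iff_mem_nhds]
    have h1 := tames_nhds hJ (hBc o) ((hDo o).mem_nhds hp) h
    have h2 : ∀ᶠ p' in 𝓝 p, p' ∈ D o := (hDo o).mem_nhds hp
    exact h2.and h1
  have hcov : (univ : Set P) ⊆ ⋃ o, G o := by
    intro p _
    by_cases hp : p ∈ Q
    · refine mem_iUnion.2 ⟨none, hGm none p ?_ ?_⟩
      · rw [hD0]
        exact hQN hp
      · rw [hB0, hrid p hp]
        exact hηt p hp
    · refine mem_iUnion.2 ⟨some p, hGm (some p) p ?_ ?_⟩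
      · rw [hD1]
        exact ⟨hp, hp⟩
      · rw [hB1]
        exact hwt p hp
  obtain ⟨t, ht⟩ := isCompact_univ.elim_finite_subcover G hGo hcov
  obtain ⟨f, hf⟩ := PartitionOfUnity.exists_isSubordinate isClosed_univ
    (fun i : {o // o ∈ t} => G i.1) (fun i => hGo i.1) (by
      intro p hp
      obtain ⟨o, ho, hpo⟩ := mem_iUnion₂.1 (ht hp)
      exact mem_iUnion.2 ⟨⟨o, ho⟩, hpo⟩)
  have hfs : ∀ p, ∑ i, f i p = 1 := by
    intro p
    have h1 := f.sum_eq_one (mem_univ p)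
    rwa [finsum_eq_sum_of_fintype] at h1
  have hf0 : ∀ i p, f i p ≠ 0 → p ∈ G i.1 := fun i p h =>
    hf i (subset_tsupport _ h)
  obtain ⟨Ω, hΩ⟩ : ∃ Ω : P → Form d X 2, ∀ p, Ω p = ∑ i, f i p • B i.1 p := ⟨_, fun _ => rfl⟩
  have hcut : ∀ i : {o // o ∈ t}, CFam univ (fun p => f i p • B i.1 p) ∧
      ∀ p, IsSmooth (f i p • B i.1 p) := by
    intro i
    exact CFam.cut (hBc i.1) (hDo i.1) (f i).continuous
      ((hf i).trans fun p hp => (hGD i.1 p hp).1) (hBs i.1)
  have hsum := CFam.sum (S := (univ : Set P)) (Finset.univ : Finset {o // o ∈ t})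
    (A := fun i p => f i p • B i.1 p) (fun i => (hcut i).1) (fun i p _ => (hcut i).2 p)
  have hΩf : Ω = fun p => ∑ i, f i p • B i.1 p := funext hΩ
  have hconv : ∀ (C : Set (Form d X 2)), Convex ℝ C → ∀ p, (∀ i : {o // o ∈ t}, f i p ≠ 0 →
      B i.1 p ∈ C) → Ω p ∈ C := by
    intro C hC p h
    rw [hΩ]
    have h1 : ∑ i, f i p • B i.1 p = ∑ i ∈ Finset.univ.filter (fun i => f i p ≠ 0),
        f i p • B i.1 p := by
      rw [Finset.sum_filter_of_ne]
      intro i _ h2 h3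
      exact h2 (by rw [h3, zero_smul])
    rw [h1]
    refine hC.sum_mem (fun i _ => f.nonneg i p) ?_ fun i hi => h i (Finset.mem_filter.1 hi).2
    rw [← hfs p, Finset.sum_filter_of_ne]
    intro i _ h2
    exact h2
  refine ⟨Ω, fun q hq => ?_, ?_, fun p => ?_, fun p => ?_, fun C hC h1 h2 p => ?_⟩
  · rw [hΩ]
    have h1 : ∀ i : {o // o ∈ t}, f i q • B i.1 q = f i q • η q := by
      rintro ⟨o, ho⟩
      by_cases h0 : f ⟨o, ho⟩ q = 0
      · rw [h0, zero_smul, zero_smul]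
      · have h2 := (hGD o q (hf0 ⟨o, ho⟩ q h0)).1
        rcases o with _ | a
        · rw [hB0, hrid q hq]
        · rw [hD1] at h2
          exact absurd hq h2.1
    rw [Finset.sum_congr rfl fun i _ => h1 i, ← Finset.sum_smul, hfs, one_smul]
  · rw [hΩf]
    exact hsum.1
  · rw [hΩ]
    exact hsum.2 p (mem_univ p)
  · exact hconv _ (convex_tames (J p)) p fun i hi => (hGD i.1 p (hf0 i p hi)).2
  · refine hconv C hC p fun i hi => ?_
    obtain ⟨⟨o, ho⟩, hi⟩ : ∃ j : {o // o ∈ t}, j = i := ⟨i, rfl⟩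
    rcases i with ⟨o, ho⟩
    have h3 := (hGD o p (hf0 ⟨o, ho⟩ p (by assumption))).1
    rcases o with _ | a
    · rw [hB0]
      rw [hD0] at h3
      exact h1 _ (hrQ p h3)
    · rw [hB1]
      rw [hD1] at h3
      exact h2 a h3.2

end Pool.Agent.Q130.SF
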