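import Pool.Agent.Q130.SF.Ext

/-!
# Extension of families of taming forms, with a function of the parameter
-/

set_option autoImplicit false

open Set Filter Topology MeasureTheory
open scoped Manifold ContDiff

noncomputable section

namespace Pool.Agent.Q130.SF

open Pool.Agent.Y501.SY

variable {d : ℕ} {X : Type} [TopologicalSpace X] [ChartedSpace (E d) X] {P : Type}
  [TopologicalSpace P] [IsManifold (𝓡 d) ∞ X]

/-- **Extension of families of taming forms.** -/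
theorem extend2 [CompactSpace X] [CompactSpace P] [T2Space P] {Q N : Set P} (hQ : IsClosed Q)
    (hN : IsOpen N) (hQN : Q ⊆ N) {r : P → P} (hr : ContinuousOn r N) (hrQ : ∀ p ∈ N, r p ∈ Q)
    (hrid : ∀ q ∈ Q, r q = q) {J : P → End d X} (hJ : JFam J) {η w : P → Form d X 2}
    (hη : CFam Q η) (hηs : ∀ q ∈ Q, IsSmooth (η q)) (hηt : ∀ q ∈ Q, ∀ x, TamesAt (η q) (J q) x)
    (hws : ∀ p, p ∉ Q → IsSmooth (w p)) (hwt : ∀ p, p ∉ Q → ∀ x, TamesAt (w p) (J p) x)
    (m : P → ℝ) :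
    ∃ (Ω : P → Form d X 2) (κ : P → ℝ), (∀ q ∈ Q, Ω q = η q ∧ κ q = 0) ∧ CFam univ Ω ∧
      Continuous κ ∧ (∀ p, IsSmooth (Ω p)) ∧
      (∀ p x, TamesAt (Ω p) (J p) x) ∧ ∀ C : Set (Form d X 2 × ℝ), Convex ℝ C →
        (∀ q ∈ Q, (η q, (0 : ℝ)) ∈ C) → (∀ p, p ∉ Q → (w p, m p) ∈ C) → ∀ p, (Ω p, κ p) ∈ C := by
  classical
  -- the pieces
  obtain ⟨B, hB0, hB1⟩ : ∃ B : Option P → P → Form d X 2, (∀ p, B none p = η (r p)) ∧
      ∀ a p, B (some a) p = w a :=
    ⟨fun o p => Option.elim o (η (r p)) fun a => w a, fun _ => rfl, fun _ _ => rfl⟩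
  obtain ⟨M, hM0, hM1⟩ : ∃ M : Option P → ℝ, M none = 0 ∧ ∀ a, M (some a) = m a :=
    ⟨fun o => Option.elim o 0 m, rfl, fun _ => rfl⟩
  obtain ⟨D, hD0, hD1⟩ : ∃ D : Option P → Set P, D none = N ∧ ∀ a, D (some a) = Qᶜ ∩ {_p | a ∉ Q} :=
    ⟨fun o => Option.elim o N fun a => Qᶜ ∩ {_p | a ∉ Q}, rfl, fun _ => rfl⟩
  have hDo : ∀ o, IsOpen (D o) := by
    intro o
    rcases o with _ | a
    · rw [hD0]
      exact hN
    · rw [hD1]
      exact hQ.isOpen_compl.inter isOpen_const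
  have hBs : ∀ o, ∀ p ∈ D o, IsSmooth (B o p) := by
    intro o p hp
    rcases o with _ | a
    · rw [hB0]
      rw [hD0] at hp
      exact hηs _ (hrQ p hp)
    · rw [hB1]
      rw [hD1] at hp
      exact hws a hp.2
  have hBc : ∀ o, CFam (D o) (B o) := by
    intro o
    rcases o with _ | a
    · rw [hD0]
      have h1 : B none = fun p => η (r p) := funext hB0
      rw [h1]
      exact hη.comp hr hrQ
    · rw [hD1]
      have h1 : B (some a) = fun _ => w a := funext (hB1 a)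
      rw [h1]
      by_cases ha : a ∈ Q
      · have h2 : Qᶜ ∩ {_p : P | a ∉ Q} = ∅ := by
          ext p
          simp [ha]
        rw [h2]
        intro U φ hU hφ j
        rw [empty_prod]
        exact continuousOn_empty _
      · exact CFam.const (hws a ha)
  obtain ⟨G, hG⟩ : ∃ G : Option P → Set P, ∀ o, G o = interior {p | p ∈ D o ∧
      ∀ x, TamesAt (B o p) (J p) x} := ⟨_, fun _ => rfl⟩
  have hGo : ∀ o, IsOpen (G o) := fun o => by rw [hG]; exact isOpen_interior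
  have hGD : ∀ o, ∀ p ∈ G o, p ∈ D o ∧ ∀ x, TamesAt (B o p) (J p) x := by
    intro o p hp
    rw [hG] at hp
    have h1 : p ∈ {p | p ∈ D o ∧ ∀ x, TamesAt (B o p) (J p) x} := interior_subset hp
    exact h1
  have hGm : ∀ o p, p ∈ D o → (∀ x, TamesAt (B o p) (J p) x) → p ∈ G o := by
    intro o p hp h
    rw [hG, mem_interior_iff_mem_nhds]
    have h1 := tames_nhds hJ (hBc o) ((hDo o).mem_nhds hp) h
    have h2 : ∀ᶠ p' in 𝓝 p, p' ∈ D o := (hDo o).mem_nhds hp
    exact h2.and h1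
  have hcov : (univ : Set P) ⊆ ⋃ o, G o := by
    intro p _
    by_cases hp : p ∈ Q
    · refine mem_iUnion.2 ⟨none, hGm none p ?_ ?_⟩
      · rw [hD0]
        exact hQN hp
      · rw [hB0, hrid p hp]
        exact hηt p hp
    · refine mem_iUnion.2 ⟨some p, hGm (some p) p ?_ ?_⟩
      · rw [hD1]
        exact ⟨hp, hp⟩
      · rw [hB1]
        exact hwt p hp
  obtain ⟨t, ht⟩ := isCompact_univ.elim_finite_subcover G hGo hcov
  obtain ⟨f, hf⟩ := PartitionOfUnity.exists_isSubordinate isClosed_univ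
    (fun i : {o // o ∈ t} => G i.1) (fun i => hGo i.1) (by
      intro p hp
      obtain ⟨o, ho, hpo⟩ := mem_iUnion₂.1 (ht hp)
      exact mem_iUnion.2 ⟨⟨o, ho⟩, hpo⟩)
  have hfs : ∀ p, ∑ i, f i p = 1 := by
    intro p
    have h1 := f.sum_eq_one (mem_univ p)
    rwa [finsum_eq_sum_of_fintype] at h1
  have hf0 : ∀ i p, f i p ≠ 0 → p ∈ G i.1 := fun i p h =>
    hf i (subset_tsupport _ h)
  obtain ⟨Ω, hΩ⟩ : ∃ Ω : P → Form d X 2, ∀ p, Ω p = ∑ i, f i p • B i.1 p := ⟨_, fun _ => rfl⟩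
  obtain ⟨κ, hκ⟩ : ∃ κ : P → ℝ, ∀ p, κ p = ∑ i, f i p • M i.1 := ⟨_, fun _ => rfl⟩
  have hcut : ∀ i : {o // o ∈ t}, CFam univ (fun p => f i p • B i.1 p) ∧
      ∀ p, IsSmooth (f i p • B i.1 p) := by
    intro i
    exact CFam.cut (hBc i.1) (hDo i.1) (f i).continuous
      ((hf i).trans fun p hp => (hGD i.1 p hp).1) (hBs i.1)
  have hsum := CFam.sum (S := (univ : Set P)) (Finset.univ : Finset {o // o ∈ t})
    (A := fun i p => f i p • B i.1 p) (fun i => (hcut i).1) (fun i p _ => (hcut i).2 p)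
  have hΩf : Ω = fun p => ∑ i, f i p • B i.1 p := funext hΩ
  have hconv : ∀ (C : Set (Form d X 2 × ℝ)), Convex ℝ C → ∀ p, (∀ i : {o // o ∈ t}, f i p ≠ 0 →
      (B i.1 p, M i.1) ∈ C) → (Ω p, κ p) ∈ C := by
    intro C hC p h
    have h0 : (Ω p, κ p) = ∑ i, f i p • (B i.1 p, M i.1) := by
      rw [hΩ, hκ]
      refine Prod.ext ?_ ?_
      · rw [Prod.fst_sum]
        rfl
      · rw [Prod.snd_sum]
        rfl
    have h1 : ∑ i, f i p • (B i.1 p, M i.1) = ∑ i ∈ Finset.univ.filter (fun i => f i p ≠ 0),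
        f i p • (B i.1 p, M i.1) := by
      rw [Finset.sum_filter_of_ne]
      intro i _ h2 h3
      exact h2 (by rw [h3, zero_smul])
    rw [h0, h1]
    refine hC.sum_mem (fun i _ => f.nonneg i p) ?_ fun i hi => h i (Finset.mem_filter.1 hi).2
    rw [← hfs p, Finset.sum_filter_of_ne]
    intro i _ h2
    exact h2
  have hq0 : ∀ q ∈ Q, ∀ i : {o // o ∈ t}, f i q ≠ 0 → i.1 = none := by
    rintro q hq ⟨o, ho⟩ h0
    have h2 := (hGD o q (hf0 ⟨o, ho⟩ q h0)).1
    rcases o with _ | a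
    · rfl
    · rw [hD1] at h2
      exact absurd hq h2.1
  refine ⟨Ω, κ, fun q hq => ⟨?_, ?_⟩, ?_, ?_, fun p => ?_, fun p => ?_, fun C hC h1 h2 p => ?_⟩
  · rw [hΩ]
    have h1 : ∀ i : {o // o ∈ t}, f i q • B i.1 q = f i q • η q := by
      intro i
      by_cases h0 : f i q = 0
      · rw [h0, zero_smul, zero_smul]
      · rw [hq0 q hq i h0, hB0, hrid q hq]
    rw [Finset.sum_congr rfl fun i _ => h1 i, ← Finset.sum_smul, hfs, one_smul]
  · rw [hκ]
    refine Finset.sum_eq_zero fun i _ => ?_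
    by_cases h0 : f i q = 0
    · rw [h0, zero_smul]
    · rw [hq0 q hq i h0, hM0, smul_zero]
  · rw [hΩf]
    exact hsum.1
  · have h1 : κ = fun p => ∑ i, f i p • M i.1 := funext hκ
    rw [h1]
    exact continuous_finset_sum _ fun i _ => (f i).continuous.smul continuous_const
  · rw [hΩ]
    exact hsum.2 p (mem_univ p)
  · have h1 := hconv {z | z.1 ∈ {σ : Form d X 2 | ∀ x, TamesAt σ (J p) x}}
      ((convex_tames (J p)).linear_preimage (LinearMap.fst ℝ (Form d X 2) ℝ)) p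
      fun i hi => (hGD i.1 p (hf0 i p hi)).2
    exact h1
  · refine hconv C hC p fun i hi => ?_
    rcases i with ⟨o, ho⟩
    have h3 := (hGD o p (hf0 ⟨o, ho⟩ p hi)).1
    rcases o with _ | a
    · rw [hB0, hM0]
      rw [hD0] at h3
      exact h1 _ (hrQ p h3)
    · rw [hB1, hM1]
      rw [hD1] at h3
      exact h2 a h3.2

end Pool.Agent.Q130.SF
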