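import Pool.Agent.Y501.SY.FinalV
import Pool.Agent.Y455.SY.Pert

/-!
# Families of two-forms and of almost complex structures
-/

set_option autoImplicit false

open Set Filter Topology MeasureTheory
open scoped Manifold ContDiff

noncomputable section

namespace Pool.Agent.Q130.SF

open Pool.Agent.Y501.SY

variable {d : ℕ} {X : Type} [TopologicalSpace X] [ChartedSpace (E d) X] {P : Type}
  [TopologicalSpace P]

/-- `Ω` is a continuous family of forms over `S`, in the `C^∞` topology -/
def CFam {k : ℕ} (S : Set P) (Ω : P → Form d X k) : Prop :=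
  ∀ (U : Set (E d)) (φ : E d → X), IsOpen U → ContMDiffOn (𝓡 d) (𝓡 d) ∞ φ U → ∀ j : ℕ,
    ContinuousOn (fun q : P × E d => iteratedFDeriv ℝ j (pb φ (Ω q.1)) q.2) (S ×ˢ U)

/-- `J` is a continuous family of endomorphisms -/
def JFam (J : P → End d X) : Prop :=
  ∀ x₀ : X, ContinuousOn (fun q : P × E d => inChart (J q.1) x₀ q.2)
    (univ ×ˢ (chartAt (E d) x₀).target)

theorem CFam.zero {k : ℕ} {S : Set P} {Ω : P → Form d X k} (h : CFam S Ω) {U : Set (E d)}
    {φ : E d → X} (hU : IsOpen U) (hφ : ContMDiffOn (𝓡 d) (𝓡 d) ∞ φ U) :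
    ContinuousOn (fun q : P × E d => pb φ (Ω q.1) q.2) (S ×ˢ U) := by
  have h1 := h U φ hU hφ 0
  have h2 : (fun q : P × E d => pb φ (Ω q.1) q.2) = fun q =>
      (continuousMultilinearCurryFin0 ℝ (E d) ((E d) [⋀^Fin k]→L[ℝ] ℝ))
        (iteratedFDeriv ℝ 0 (pb φ (Ω q.1)) q.2) := by
    funext q
    simp [iteratedFDeriv_zero_eq_comp]
  rw [h2]
  exact (LinearIsometryEquiv.continuous _).comp_continuousOn h1

theorem CFam.const {k : ℕ} {S : Set P} {σ : Form d X k} (h : IsSmooth σ) :
    CFam S (fun _ => σ) := by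
  intro U φ hU hφ j
  have h1 : ContinuousOn (iteratedFDeriv ℝ j (pb φ σ)) U := by
    have h2 := (h U φ hU hφ).continuousOn_iteratedFDerivWithin (m := j) (by exact_mod_cast le_top)
      hU.uniqueDiffOn
    refine h2.congr fun p hp => ?_
    exact (iteratedFDerivWithin_of_isOpen j hU hp).symm
  exact h1.comp continuousOn_snd fun q hq => hq.2

theorem CFam.comp {k : ℕ} {S N : Set P} {Ω : P → Form d X k} (h : CFam S Ω) {r : P → P}
    (hr : ContinuousOn r N) (hrS : ∀ p ∈ N, r p ∈ S) : CFam N (fun p => Ω (r p)) := by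
  intro U φ hU hφ j
  have h1 := h U φ hU hφ j
  have h2 : ContinuousOn (fun q : P × E d => (r q.1, q.2)) (N ×ˢ U) :=
    (hr.comp continuousOn_fst fun q hq => hq.1).prodMk continuousOn_snd
  exact h1.comp h2 fun q hq => ⟨hrS _ hq.1, hq.2⟩

variable [IsManifold (𝓡 d) ∞ X]

/-- taming is an open condition in families -/
theorem tames_nhds [CompactSpace X] {Ω : P → Form d X 2} {J : P → End d X} (hJ : JFam J)
    {N : Set P} (hΩ : CFam N Ω) {p₀ : P} (hp : N ∈ 𝓝 p₀) (ht : ∀ x, TamesAt (Ω p₀) (J p₀) x) :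
    ∀ᶠ p in 𝓝 p₀, ∀ x, TamesAt (Ω p) (J p) x := by
  have key : ∀ x ∈ (univ : Set X), ∀ᶠ z : P × X in 𝓝 (p₀, x), TamesAt (Ω z.1) (J z.1) z.2 := by
    intro x _
    obtain ⟨c, hc⟩ : ∃ c, c = chartAt (E d) x := ⟨_, rfl⟩
    have hcx : c x ∈ c.target := by rw [hc]; exact mem_chart_target (E d) x
    have hx' : ∀ v : E d, v ≠ 0 → 0 < Pool.Agent.Y455.SY.Q (Ω p₀) (J p₀) x (c x) v := by
      rw [hc] at hcx ⊢
      rw [← Pool.Agent.Y455.SY.tames_iff (Ω p₀) (J p₀) x hcx,
        (chartAt (E d) x).left_inv (mem_chart_source (E d) x)]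
      exact ht x
    have h1 : ∀ᶠ z : P × E d in 𝓝 (p₀, c x), ∀ v ∈ Metric.sphere (0 : E d) 1,
        0 < Pool.Agent.Y455.SY.Q (Ω z.1) (J z.1) x z.2 v := by
      refine IsCompact.eventually_forall_of_forall_eventually (isCompact_sphere _ _) ?_
      intro v hv
      have hv0 : v ≠ 0 := by
        rintro rfl
        simp at hv
      have hn : N ×ˢ c.target ∈ 𝓝 (p₀, c x) := prod_mem_nhds hp (c.open_target.mem_nhds hcx)
      have hn' : univ ×ˢ c.target ∈ 𝓝 (p₀, c x) :=
        prod_mem_nhds univ_mem (c.open_target.mem_nhds hcx)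
      have h2 : ContinuousAt (fun z : P × E d => pb c.symm (Ω z.1) z.2) (p₀, c x) := by
        have h3 := hΩ.zero (U := c.target) (φ := c.symm) c.open_target (by
          rw [hc]
          exact contMDiffOn_chart_symm)
        exact h3.continuousAt hn
      have h3 : ContinuousAt (fun z : P × E d => inChart (J z.1) x z.2) (p₀, c x) := by
        have h4 := hJ x
        rw [← hc] at h4
        exact h4.continuousAt hn'
      have h4 : ContinuousAt (fun z : (P × E d) × E d => pb c.symm (Ω z.1.1) z.1.2)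
          ((p₀, c x), v) :=
        ContinuousAt.comp (f := Prod.fst) (x := ((p₀, c x), v)) h2 continuousAt_fst
      have h5 : ContinuousAt (fun z : (P × E d) × E d => inChart (J z.1.1) x z.1.2)
          ((p₀, c x), v) :=
        ContinuousAt.comp (f := Prod.fst) (x := ((p₀, c x), v)) h3 continuousAt_fst
      have h6 : ContinuousAt (fun z : (P × E d) × E d => inChart (J z.1.1) x z.1.2 z.2)
          ((p₀, c x), v) := h5.clm_apply continuousAt_snd
      have h7 : ContinuousAt (fun z : (P × E d) × E d =>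
          (![z.2, inChart (J z.1.1) x z.1.2 z.2] : Fin 2 → E d)) ((p₀, c x), v) := by
        rw [continuousAt_pi]
        intro i
        fin_cases i
        · exact continuousAt_snd
        · exact h6
      have h8 : ContinuousAt (fun z : (P × E d) × E d =>
          Pool.Agent.Y455.SY.Q (Ω z.1.1) (J z.1.1) x z.1.2 z.2) ((p₀, c x), v) := by
        have h9 := h4.eval h7
        rw [hc] at h9 ⊢
        exact h9
      exact h8.eventually (lt_mem_nhds (hx' v hv0))
    have h2 : Tendsto (fun z : P × X => (z.1, c z.2)) (𝓝 (p₀, x)) (𝓝 (p₀, c x)) := by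
      have h3 : ContinuousAt c x := c.continuousAt (by rw [hc]; exact mem_chart_source (E d) x)
      exact continuousAt_fst.prodMk (ContinuousAt.comp (f := Prod.snd) (x := (p₀, x)) h3
        continuousAt_snd)
    have h3 : ∀ᶠ z : P × X in 𝓝 (p₀, x), z.2 ∈ c.source :=
      continuousAt_snd.eventually (c.open_source.mem_nhds (by rw [hc]; exact mem_chart_source _ x))
    filter_upwards [h2.eventually h1, h3] with z hz hzs
    have hcy : c z.2 ∈ c.target := c.map_source hzs
    rw [hc] at hcy hzs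
    rw [← (chartAt (E d) x).left_inv hzs, Pool.Agent.Y455.SY.tames_iff _ _ x hcy,
      Pool.Agent.Y455.SY.pos_iff _ (fun s v => Pool.Agent.Y455.SY.Q_smul _ _ x _ v s)]
    rw [hc] at hz
    exact hz
  have h1 := IsCompact.eventually_forall_of_forall_eventually (x₀ := p₀) (isCompact_univ (X := X))
    (P := fun p x => TamesAt (Ω p) (J p) x) key
  filter_upwards [h1] with p hp x
  exact hp x (mem_univ x)

end Pool.Agent.Q130.SF
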