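import Pool.Agent.Q130.SF.Acs
import Pool.Agent.Q130.SF.Ext
import Pool.Agent.Y501.SY.Cover
import Pool.Agent.Y484.SY.Gen
import Pool.Agent.Y363.SY.Local

/-!
# Homotopies of nondegenerate forms from homotopies of almost complex structures
-/

set_option autoImplicit false

open Set Filter Topology MeasureTheory
open scoped Manifold ContDiff

noncomputable section

namespace Pool.Agent.Q130.SF

open Pool.Agent.Y501.SY

variable {d : ℕ} {X : Type} [TopologicalSpace X] [ChartedSpace (E d) X]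
  [IsManifold (𝓡 d) ∞ X]

/-- every almost complex structure on a closed manifold is tamed by a smooth form -/
theorem exists_tame (hG : S_GEN) (hP : S_PERT) (hL : S_LOCAL) [T2Space X] [CompactSpace X]
    {J : End d X} (hJ : IsAlmostComplex J) :
    ∃ w : Form d X 2, IsSmooth w ∧ ∀ x, TamesAt w J x := by
  classical
  choose g B hg hB using fun z => hL d X J hJ z
  have hsm : ∀ z, IsSmooth (∑ j, ∑ k, B z j k • dfdg (d := d) (g z j) (g z k)) := by
    intro z
    refine IsSmooth.sum _ fun j _ => IsSmooth.sum _ fun k _ => IsSmooth.smul ?_ _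
    have := (hG d X (fun _ => 1) (g z j) (g z k) (SmoothFun.const 1) (hg z j) (hg z k)).2.1
    have h2 : hdfdg (d := d) (fun _ => (1 : ℝ)) (g z j) (g z k) = dfdg (g z j) (g z k) := by
      funext x; exact one_smul ℝ _
    rwa [h2] at this
  have hnear : ∀ z, ∀ᶠ y in 𝓝 z, TamesAt (∑ j, ∑ k, B z j k • dfdg (g z j) (g z k)) J y :=
    fun z => TamesAt.nhds hP hJ (hsm z) (hB z)
  have hchi : ∀ z : X, ∃ χ : X → ℝ, SmoothFun (d := d) χ ∧ (∀ y, 0 ≤ χ y) ∧ 0 < χ z ∧
      ∀ y, χ y ≠ 0 → TamesAt (∑ j, ∑ k, B z j k • dfdg (g z j) (g z k)) J y := by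
    intro z
    obtain ⟨f, hf⟩ := (SmoothBumpFunction.nhds_basis_support (I := 𝓡 d) (hnear z)).ex_mem
    refine ⟨f, f.contMDiff, fun y => f.nonneg, by rw [f.eq_one]; exact one_pos, fun y hy => ?_⟩
    exact hf (subset_tsupport _ hy)
  choose χ hχ hχ0 hχz hχt using hchi
  obtain ⟨t, htK, htc⟩ := (isCompact_univ (X := X)).elim_nhds_subcover (fun z => {y | 0 < χ z y})
    (fun z _ => (isOpen_lt continuous_const (hχ z).continuous).mem_nhds (hχz z))
  refine ⟨∑ i : ↥t × (Fin d × Fin d), hdfdg (d := d) (fun x => B i.1 i.2.1 i.2.2 * χ i.1 x)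
    (g i.1 i.2.1) (g i.1 i.2.2), IsSmooth.sum _ fun i _ =>
      (hG d X _ _ _ ((SmoothFun.const _).mul (hχ i.1)) (hg _ _) (hg _ _)).2.1, ?_⟩
  intro x v hv
  rw [sum_apply2, Fintype.sum_prod_type]
  have h1 : ∀ z : ↥t, ∑ i : Fin d × Fin d, (hdfdg (d := d) (fun x => B (z, i).1 (z, i).2.1 (z, i).2.2 * χ (z, i).1 x)
      (g (z, i).1 (z, i).2.1) (g (z, i).1 (z, i).2.2)) x ![v, J x v] =
      χ z x * (∑ j, ∑ k, B z j k • dfdg (d := d) (g z j) (g z k)) x ![v, J x v] := by
    intro z
    rw [Fintype.sum_prod_type, sum_apply2, Finset.mul_sum]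
    refine Finset.sum_congr rfl fun j _ => ?_
    rw [sum_apply2, Finset.mul_sum]
    refine Finset.sum_congr rfl fun k _ => ?_
    have h2 : (B z j k • dfdg (d := d) (g z j) (g z k)) x ![v, J x v] =
      B z j k * dfdg (d := d) (g z j) (g z k) x ![v, J x v] := rfl
    rw [h2, hdfdg_apply, dfdg_apply]
    ring
  have h3 : ∀ z : ↥t, 0 ≤ χ z x * (∑ j, ∑ k, B z j k • dfdg (d := d) (g z j) (g z k)) x ![v, J x v] := by
    intro z
    by_cases h : χ z x = 0
    · rw [h, zero_mul]
    · exact mul_nonneg (hχ0 _ _) (hχt z x h v hv).le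
  obtain ⟨z, hzt, hz⟩ := mem_iUnion₂.1 (htc (mem_univ x))
  have hz' : 0 < χ z x := hz
  calc (0 : ℝ) < χ z x * (∑ j, ∑ k, B z j k • dfdg (d := d) (g z j) (g z k)) x ![v, J x v] :=
        mul_pos hz' (hχt z x hz'.ne' v hv)
    _ ≤ ∑ z : ↥t, χ z x * (∑ j, ∑ k, B z j k • dfdg (d := d) (g z j) (g z k)) x ![v, J x v] :=
        Finset.single_le_sum (f := fun z : ↥t => χ z x * (∑ j, ∑ k, B z j k • dfdg (d := d) (g z j) (g z k)) x ![v, J x v])
          (fun z _ => h3 z) (Finset.mem_univ (⟨z, hzt⟩ : ↥t))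
    _ = _ := Finset.sum_congr rfl fun z _ => (h1 z).symm

/-- extension of families of taming forms with prescribed values on a set near which they extend
locally -/
theorem extend3 {Z : Type} [TopologicalSpace Z] [CompactSpace X] [CompactSpace Z] [T2Space Z]
    {R : Set Z} {J : Z → End d X} (hJ : JFam J) {η : Z → Form d X 2}
    (hloc : ∀ z, ∃ (D : Set Z) (B : Z → Form d X 2), IsOpen D ∧ z ∈ D ∧ CFam D B ∧
      (∀ p ∈ D, IsSmooth (B p)) ∧ (∀ x, TamesAt (B z) (J z) x) ∧ ∀ p ∈ D, p ∈ R → B p = η p) :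
    ∃ Ω : Z → Form d X 2, (∀ q ∈ R, Ω q = η q) ∧ CFam univ Ω ∧ (∀ p, IsSmooth (Ω p)) ∧
      ∀ p x, TamesAt (Ω p) (J p) x := by
  classical
  choose D B hDo hzD hBc hBs hBt hBη using hloc
  obtain ⟨G, hG⟩ : ∃ G : Z → Set Z, ∀ o, G o = interior {p | p ∈ D o ∧
      ∀ x, TamesAt (B o p) (J p) x} := ⟨_, fun _ => rfl⟩
  have hGo : ∀ o, IsOpen (G o) := fun o => by rw [hG]; exact isOpen_interior
  have hGD : ∀ o, ∀ p ∈ G o, p ∈ D o ∧ ∀ x, TamesAt (B o p) (J p) x := by
    intro o p hp
    rw [hG] at hp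
    have h1 : p ∈ {p | p ∈ D o ∧ ∀ x, TamesAt (B o p) (J p) x} := interior_subset hp
    exact h1
  have hGm : ∀ o p, p ∈ D o → (∀ x, TamesAt (B o p) (J p) x) → p ∈ G o := by
    intro o p hp h
    rw [hG, mem_interior_iff_mem_nhds]
    have h1 := tames_nhds hJ (hBc o) ((hDo o).mem_nhds hp) h
    have h2 : ∀ᶠ p' in 𝓝 p, p' ∈ D o := (hDo o).mem_nhds hp
    exact h2.and h1
  have hcov : (univ : Set Z) ⊆ ⋃ o, G o := fun p _ => mem_iUnion.2 ⟨p, hGm p p (hzD p) (hBt p)⟩
  obtain ⟨t, ht⟩ := isCompact_univ.elim_finite_subcover G hGo hcov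
  obtain ⟨f, hf⟩ := PartitionOfUnity.exists_isSubordinate isClosed_univ
    (fun i : {o // o ∈ t} => G i.1) (fun i => hGo i.1) (by
      intro p hp
      obtain ⟨o, ho, hpo⟩ := mem_iUnion₂.1 (ht hp)
      exact mem_iUnion.2 ⟨⟨o, ho⟩, hpo⟩)
  have hfs : ∀ p, ∑ i, f i p = 1 := by
    intro p
    have h1 := f.sum_eq_one (mem_univ p)
    rwa [finsum_eq_sum_of_fintype] at h1
  have hf0 : ∀ i p, f i p ≠ 0 → p ∈ G i.1 := fun i p h =>
    hf i (subset_tsupport _ h)
  have hcut : ∀ i : {o // o ∈ t}, CFam univ (fun p => f i p • B i.1 p) ∧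
      ∀ p, IsSmooth (f i p • B i.1 p) := by
    intro i
    exact CFam.cut (hBc i.1) (hDo i.1) (f i).continuous
      ((hf i).trans fun p hp => (hGD i.1 p hp).1) (hBs i.1)
  have hsum := CFam.sum (S := (univ : Set Z)) (Finset.univ : Finset {o // o ∈ t})
    (A := fun i p => f i p • B i.1 p) (fun i => (hcut i).1) (fun i p _ => (hcut i).2 p)
  refine ⟨fun p => ∑ i, f i p • B i.1 p, fun q hq => ?_, hsum.1, fun p => hsum.2 p (mem_univ p),
    fun p => ?_⟩
  · have h1 : ∀ i : {o // o ∈ t}, f i q • B i.1 q = f i q • η q := by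
      intro i
      by_cases h0 : f i q = 0
      · rw [h0, zero_smul, zero_smul]
      · rw [hBη i.1 q (hGD i.1 q (hf0 i q h0)).1 hq]
    show ∑ i, f i q • B i.1 q = η q
    rw [Finset.sum_congr rfl fun i _ => h1 i, ← Finset.sum_smul, hfs, one_smul]
  · have h1 : ∑ i, f i p • B i.1 p = ∑ i ∈ Finset.univ.filter (fun i => f i p ≠ 0),
        f i p • B i.1 p := by
      rw [Finset.sum_filter_of_ne]
      intro i _ h2 h3
      exact h2 (by rw [h3, zero_smul])
    show ∀ x, TamesAt (∑ i, f i p • B i.1 p) (J p) x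
    rw [h1]
    refine (convex_tames (J p)).sum_mem (fun i _ => f.nonneg i p) ?_ fun i hi =>
      (hGD i.1 p (hf0 i p (Finset.mem_filter.1 hi).2)).2
    rw [← hfs p, Finset.sum_filter_of_ne]
    intro i _ h2
    exact h2

/-- two families of forms taming the ends of a homotopy of almost complex structures are
homotopic -/
theorem homotopy {P : Type} [TopologicalSpace P] [CompactSpace X] [T2Space X] [CompactSpace P]
    [T2Space P] (hG : S_GEN) (hPe : S_PERT) (hL : S_LOCAL) {Q : Set P} (hQ : IsClosed Q)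
    {J : P × unitInterval → End d X} (hJ : JFam J) (hJac : ∀ z, IsAlmostComplex (J z))
    {A B : P → Form d X 2} (hA : CFam univ A)
    (hB : CFam univ B) (sA : ∀ p, IsSmooth (A p)) (sB : ∀ p, IsSmooth (B p))
    (hAB : ∀ q ∈ Q, B q = A q) (tA : ∀ p x, TamesAt (A p) (J (p, 0)) x)
    (tB : ∀ p x, TamesAt (B p) (J (p, 1)) x) (tQ : ∀ q ∈ Q, ∀ t x, TamesAt (A q) (J (q, t)) x) :
    ∃ T : P × unitInterval → Form d X 2, CFam univ T ∧ (∀ z, IsSmooth (T z)) ∧
      (∀ z x, TamesAt (T z) (J z) x) ∧ (∀ p, T (p, 0) = A p) ∧ (∀ p, T (p, 1) = B p) ∧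
      ∀ q ∈ Q, ∀ t, T (q, t) = A q := by
  classical
  obtain ⟨R, hR⟩ : ∃ R : Set (P × unitInterval), R = {z | z.2 = 0 ∨ z.2 = 1 ∨ z.1 ∈ Q} := ⟨_, rfl⟩
  have hRc : IsClosed R := by
    rw [hR]
    exact (isClosed_eq continuous_snd continuous_const).union
      ((isClosed_eq continuous_snd continuous_const).union (hQ.preimage continuous_fst))
  obtain ⟨T, h1, h2, h3, h4⟩ := extend3 (R := R) hJ
    (η := fun z => if z.2 = 1 then B z.1 else A z.1) (by
      intro z
      by_cases hz : z ∈ R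
      · by_cases hz1 : z.2 = 1
        · refine ⟨{z | z.2 ≠ 0}, fun z => B z.1, isOpen_ne_fun continuous_snd continuous_const,
            ?_, ?_, fun p _ => sB _, ?_, ?_⟩
          · show z.2 ≠ 0
            rw [hz1]
            exact one_ne_zero
          · intro U φ hU hφ j
            have h5 := hB U φ hU hφ j
            have h6 : ContinuousOn (fun q : (P × unitInterval) × E d => (q.1.1, q.2))
                ({z | z.2 ≠ 0} ×ˢ U) := by fun_prop
            exact h5.comp h6 fun q hq => ⟨mem_univ _, hq.2⟩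
          · have h5 : z = (z.1, 1) := Prod.ext rfl hz1
            rw [h5]
            exact tB z.1
          · intro p hp hpR
            rw [hR] at hpR
            show B p.1 = if p.2 = 1 then B p.1 else A p.1
            by_cases h5 : p.2 = 1
            · rw [if_pos h5]
            · rw [if_neg h5]
              rcases hpR with h6 | h6 | h6
              · exact absurd h6 hp
              · exact absurd h6 h5
              · exact hAB _ h6
        · refine ⟨{z | z.2 ≠ 1}, fun z => A z.1, isOpen_ne_fun continuous_snd continuous_const,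
            hz1, ?_, fun p _ => sA _, ?_, ?_⟩
          · intro U φ hU hφ j
            have h5 := hA U φ hU hφ j
            have h6 : ContinuousOn (fun q : (P × unitInterval) × E d => (q.1.1, q.2))
                ({z | z.2 ≠ 1} ×ˢ U) := by fun_prop
            exact h5.comp h6 fun q hq => ⟨mem_univ _, hq.2⟩
          · rw [hR] at hz
            rcases hz with h6 | h6 | h6
            · have h5 : z = (z.1, 0) := Prod.ext rfl h6
              rw [h5]
              exact tA z.1
            · exact absurd h6 hz1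
            · exact tQ z.1 h6 z.2
          · intro p hp _
            show A p.1 = if p.2 = 1 then B p.1 else A p.1
            rw [if_neg hp]
      · obtain ⟨w, hw, hwt⟩ := exists_tame hG hPe hL (hJac z)
        refine ⟨Rᶜ, fun _ => w, hRc.isOpen_compl, hz, CFam.const hw, fun _ _ => hw, hwt,
          fun p hp hpR => absurd hpR hp⟩)
  refine ⟨T, h2, h3, h4, fun p => ?_, fun p => ?_, fun q hq t => ?_⟩
  · rw [h1 _ (by rw [hR]; exact Or.inl rfl)]
    exact if_neg zero_ne_one
  · rw [h1 _ (by rw [hR]; exact Or.inr (Or.inl rfl))]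
    exact if_pos rfl
  · rw [h1 _ (by rw [hR]; exact Or.inr (Or.inr hq))]
    show (if t = 1 then B q else A q) = A q
    split_ifs
    · exact hAB q hq
    · rfl

end Pool.Agent.Q130.SF
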