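import Mathlib

/-!
# Polar decomposition: complex structures from a symplectic form and an inner product
-/

set_option autoImplicit false

open Set Filter Topology Metric Function
open scoped RealInnerProductSpace

noncomputable section

namespace Pool.Agent.Q130.SF

/-- `ℝ^n` -/
abbrev F (n : ℕ) : Type := EuclideanSpace ℝ (Fin n)

/-- inverse square roots -/
theorem sqrtinv {n : ℕ} (T : F n →ₗ[ℝ] F n) (hT : ∀ v u, ⟪T v, u⟫ = ⟪v, T u⟫)
    (hp : ∀ v, v ≠ 0 → 0 < ⟪T v, v⟫) :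
    ∃ R : F n →ₗ[ℝ] F n, (∀ v u, ⟪R v, u⟫ = ⟪v, R u⟫) ∧ (∀ v, v ≠ 0 → 0 < ⟪R v, v⟫) ∧
      (∀ v, R (R (T v)) = v) ∧ ∀ A : F n →ₗ[ℝ] F n, (∀ v, A (T v) = T (A v)) →
        ∀ v, A (R v) = R (A v) := by
  have hT' : T.IsSymmetric := hT
  have hn : Module.finrank ℝ (F n) = n := finrank_euclideanSpace_fin
  obtain ⟨b, hb⟩ : ∃ b, b = hT'.eigenvectorBasis hn := ⟨_, rfl⟩
  obtain ⟨μ, hμ⟩ : ∃ μ, μ = hT'.eigenvalues hn := ⟨_, rfl⟩
  have hTb : ∀ i, T (b i) = μ i • b i := by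
    intro i
    rw [hb, hμ]
    exact hT'.apply_eigenvectorBasis hn i
  have hbb : ∀ i, ⟪b i, b i⟫ = 1 := fun i => by
    rw [real_inner_self_eq_norm_sq, b.orthonormal.1 i, one_pow]
  have hbij : ∀ i j, i ≠ j → ⟪b i, b j⟫ = 0 := fun i j h => b.orthonormal.2 h
  have hμp : ∀ i, 0 < μ i := by
    intro i
    have h1 := hp (b i) (b.toBasis.ne_zero i |> fun h => by simpa using h)
    rw [hTb, inner_smul_left, hbb] at h1
    simpa using h1
  obtain ⟨c, hc⟩ : ∃ c : Fin n → ℝ, ∀ i, c i = (Real.sqrt (μ i))⁻¹ := ⟨_, fun _ => rfl⟩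
  have hcp : ∀ i, 0 < c i := fun i => by
    rw [hc]
    exact inv_pos.2 (Real.sqrt_pos.2 (hμp i))
  have hcc : ∀ i, c i * (c i * μ i) = 1 := by
    intro i
    rw [hc]
    have h1 := Real.mul_self_sqrt (hμp i).le
    have h2 : Real.sqrt (μ i) ≠ 0 := (Real.sqrt_pos.2 (hμp i)).ne'
    field_simp
    rw [sq, h1]
  obtain ⟨R, hR⟩ : ∃ R : F n →ₗ[ℝ] F n, ∀ v, R v = ∑ i, (c i * ⟪b i, v⟫) • b i := by
    refine ⟨∑ i, (c i • ((innerSL ℝ (b i)).toLinearMap).smulRight (b i)), fun v => ?_⟩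
    rw [LinearMap.sum_apply]
    refine Finset.sum_congr rfl fun i _ => ?_
    simp [smul_smul]
  have hRi : ∀ v u, ⟪R v, u⟫ = ∑ i, c i * (⟪b i, v⟫ * ⟪b i, u⟫) := by
    intro v u
    rw [hR, sum_inner]
    refine Finset.sum_congr rfl fun i _ => ?_
    rw [inner_smul_left]
    simp
    ring
  have hRe : ∀ (a : ℝ) (y : F n), ∀ k : ℝ, (∀ i, ⟪b i, y⟫ ≠ 0 → c i = k) → R y = k • y := by
    intro a y k h
    have h1 : y = ∑ i, ⟪b i, y⟫ • b i := (b.sum_repr' y).symm
    conv_rhs => rw [h1]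
    rw [hR, Finset.smul_sum]
    refine Finset.sum_congr rfl fun i _ => ?_
    by_cases h2 : ⟪b i, y⟫ = 0
    · rw [h2]
      simp
    · rw [h i h2, smul_smul]
  have hRb : ∀ i, R (b i) = c i • b i := by
    intro i
    refine hRe 0 (b i) (c i) fun j hj => ?_
    by_cases h : j = i
    · rw [h]
    · exact absurd (hbij j i h) hj
  refine ⟨R, fun v u => ?_, fun v hv => ?_, fun v => ?_, fun A hA v => ?_⟩
  · rw [hRi, real_inner_comm, hRi]
    refine Finset.sum_congr rfl fun i _ => ?_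
    ring
  · rw [hRi]
    refine Finset.sum_pos' (fun i _ => mul_nonneg (hcp i).le (mul_self_nonneg _)) ?_
    by_contra hcon
    push Not at hcon
    apply hv
    have h1 : v = ∑ i, ⟪b i, v⟫ • b i := (b.sum_repr' v).symm
    rw [h1]
    refine Finset.sum_eq_zero fun i _ => ?_
    have h2 := hcon i (Finset.mem_univ i)
    have h3 : ⟪b i, v⟫ = 0 := by
      by_contra h4
      have h5 := mul_pos (hcp i) (mul_self_pos.2 h4)
      linarith
    rw [h3, zero_smul]
  · have h1 : R ∘ₗ R ∘ₗ T = LinearMap.id := by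
      refine b.toBasis.ext fun i => ?_
      simp only [OrthonormalBasis.coe_toBasis, LinearMap.comp_apply, LinearMap.id_apply]
      rw [hTb, map_smul, hRb, map_smul, map_smul, hRb, smul_smul, smul_smul]
      have h2 : μ i * c i * c i = 1 := by
        have := hcc i
        linarith
      rw [h2, one_smul]
    exact LinearMap.congr_fun h1 v
  · have h1 : A ∘ₗ R = R ∘ₗ A := by
      refine b.toBasis.ext fun i => ?_
      simp only [OrthonormalBasis.coe_toBasis, LinearMap.comp_apply]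
      rw [hRb, map_smul]
      symm
      refine hRe 0 _ _ fun j hj => ?_
      have h2 : T (A (b i)) = μ i • A (b i) := by rw [← hA, hTb, map_smul]
      have h3 : μ j * ⟪b j, A (b i)⟫ = μ i * ⟪b j, A (b i)⟫ := by
        have h4 : ⟪T (b j), A (b i)⟫ = ⟪b j, T (A (b i))⟫ := hT _ _
        rw [hTb, h2, inner_smul_left, inner_smul_right] at h4
        simpa using h4
      have h4 : μ j = μ i := mul_right_cancel₀ hj h3
      rw [hc, hc, h4]
    exact LinearMap.congr_fun h1 v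

/-- `J` is a complex structure tamed by `w`, compatible with `w` and orthogonal for `g` -/
structure Pol {n : ℕ} (w g : F n → F n → ℝ) (J : F n →L[ℝ] F n) : Prop where
  sq : ∀ v, J (J v) = -v
  orth : ∀ v u, g (J v) (J u) = g v u
  symm : ∀ v u, w v (J u) = w u (J v)
  pos : ∀ v, v ≠ 0 → 0 < w v (J v)

/-- a nondegenerate two-form and an inner product -/
structure Dat {n : ℕ} (w g : F n → F n → ℝ) : Prop where
  wadd : ∀ v v' u, w (v + v') u = w v u + w v' u
  wsmul : ∀ (c : ℝ) v u, w (c • v) u = c * w v u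
  walt : ∀ v u, w v u = -w u v
  wnd : ∀ v, (∀ u, w v u = 0) → v = 0
  gadd : ∀ v v' u, g (v + v') u = g v u + g v' u
  gsmul : ∀ (c : ℝ) v u, g (c • v) u = c * g v u
  gsymm : ∀ v u, g v u = g u v
  gpos : ∀ v, v ≠ 0 → 0 < g v v

theorem riesz {n : ℕ} (w : F n → F n → ℝ) (h1 : ∀ v v' u, w (v + v') u = w v u + w v' u)
    (h2 : ∀ (c : ℝ) v u, w (c • v) u = c * w v u) (h3 : ∀ v u u', w v (u + u') = w v u + w v u')
    (h4 : ∀ (c : ℝ) v u, w v (c • u) = c * w v u) :
    ∃ A : F n →ₗ[ℝ] F n, ∀ v u, ⟪A v, u⟫ = w v u := by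
  have h5 : ∀ v, ∃ a : F n, ∀ u, ⟪a, u⟫ = w v u := by
    intro v
    let l : F n →ₗ[ℝ] ℝ := { toFun := w v, map_add' := h3 v, map_smul' := fun c u => h4 c v u }
    refine ⟨(InnerProductSpace.toDual ℝ (F n)).symm (LinearMap.toContinuousLinearMap l),
      fun u => ?_⟩
    rw [InnerProductSpace.toDual_symm_apply]
    rfl
  choose a ha using h5
  refine ⟨{ toFun := a, map_add' := fun v v' => ?_, map_smul' := fun c v => ?_ }, fun v u => ha v u⟩
  · refine ext_inner_right ℝ fun u => ?_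
    rw [ha, h1, inner_add_left, ha, ha]
  · refine ext_inner_right ℝ fun u => ?_
    rw [ha, h2, inner_smul_left, ha]
    simp

/-- existence, standard inner product -/
theorem exists_std {n : ℕ} {w : F n → F n → ℝ} (h : Dat w fun v u => ⟪v, u⟫) :
    ∃ J, Pol w (fun v u => ⟪v, u⟫) J := by
  have wadd' : ∀ v u u', w v (u + u') = w v u + w v u' := fun v u u' => by
    rw [h.walt, h.wadd, neg_add, ← h.walt, ← h.walt]
  have wsmul' : ∀ (c : ℝ) v u, w v (c • u) = c * w v u := fun c v u => by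
    rw [h.walt, h.wsmul, h.walt u v]
    ring
  obtain ⟨A, hA⟩ := riesz w h.wadd h.wsmul wadd' wsmul'
  have hAA : ∀ v u, ⟪A v, u⟫ = -⟪v, A u⟫ := fun v u => by
    rw [hA, h.walt, ← hA, real_inner_comm]
  obtain ⟨T, hT⟩ : ∃ T : F n →ₗ[ℝ] F n, ∀ v, T v = -A (A v) := ⟨-(A ∘ₗ A), fun _ => rfl⟩
  have hTA : ∀ v u, ⟪T v, u⟫ = ⟪A v, A u⟫ := fun v u => by
    rw [hT, inner_neg_left, hAA, neg_neg]
  have hA0 : ∀ v, A v = 0 → v = 0 := fun v hv => h.wnd v fun u => by
    rw [← hA, hv, inner_zero_left]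
  obtain ⟨R, r1, r2, r3, r4⟩ := sqrtinv T (fun v u => by
      rw [hTA, real_inner_comm, ← hTA, real_inner_comm])
    (fun v hv => by
      rw [hTA]
      exact real_inner_self_pos.2 fun h0 => hv (hA0 v h0))
  have hAR : ∀ v, A (R v) = R (A v) := r4 A fun v => by
    rw [hT, hT, map_neg]
  have hTR : ∀ v, T (R v) = R (T v) := r4 T fun v => rfl
  have key : ∀ v u, w v (A (R u)) = ⟪R (T v), u⟫ := by
    intro v u
    rw [← hA, ← hTA, r1]
  refine ⟨LinearMap.toContinuousLinearMap (A ∘ₗ R), ⟨fun v => ?_, fun v u => ?_, fun v u => ?_,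
    fun v hv => ?_⟩⟩
  · show A (R (A (R v))) = -v
    rw [← hAR (R v)]
    have h1 : A (A (R (R v))) = -T (R (R v)) := by rw [hT, neg_neg]
    rw [h1, hTR, hTR, r3]
  · show ⟪A (R v), A (R u)⟫ = ⟪v, u⟫
    rw [← hTA, hTR, ← r1, r3]
  · show w v (A (R u)) = w u (A (R v))
    have hTs : ∀ v u, ⟪T v, u⟫ = ⟪v, T u⟫ := fun v u => by
      rw [hTA, real_inner_comm, ← hTA, real_inner_comm]
    rw [key, key, r1, hTs, hTR, real_inner_comm]
  · show 0 < w v (A (R v))
    rw [key]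
    obtain ⟨u, hu⟩ : ∃ u, u = R (T v) := ⟨_, rfl⟩
    have h1 : R u = v := by rw [hu, r3]
    have h2 : u ≠ 0 := by
      rintro rfl
      rw [map_zero] at h1
      exact hv h1.symm
    rw [← hu]
    have h3 := r2 u h2
    rwa [h1, real_inner_comm] at h3

/-- uniqueness, standard inner product -/
theorem unique_std {n : ℕ} {w : F n → F n → ℝ} (h : Dat w fun v u => ⟪v, u⟫)
    {J J' : F n →L[ℝ] F n} (hJ : Pol w (fun v u => ⟪v, u⟫) J)
    (hJ' : Pol w (fun v u => ⟪v, u⟫) J') : J = J' := by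
  have wadd' : ∀ v u u', w v (u + u') = w v u + w v u' := fun v u u' => by
    rw [h.walt, h.wadd, neg_add, ← h.walt, ← h.walt]
  have wsmul' : ∀ (c : ℝ) v u, w v (c • u) = c * w v u := fun c v u => by
    rw [h.walt, h.wsmul, h.walt u v]
    ring
  obtain ⟨A, hA⟩ := riesz w h.wadd h.wsmul wadd' wsmul'
  have hAA : ∀ v u, ⟪A v, u⟫ = -⟪v, A u⟫ := fun v u => by
    rw [hA, h.walt, ← hA, real_inner_comm]
  have hA0 : ∀ v, A v = 0 → v = 0 := fun v hv => h.wnd v fun u => by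
    rw [← hA, hv, inner_zero_left]
  have hAs : Surjective A := LinearMap.injective_iff_surjective.1 (by
    rw [injective_iff_map_eq_zero]
    exact hA0)
  -- `S = -J A` is the square root of `-A²`
  have hS : ∀ K : F n →L[ℝ] F n, Pol w (fun v u => ⟪v, u⟫) K →
      (∀ v, -K (A (-K (A v))) = -A (A v)) ∧ (∀ v u, ⟪-K (A v), u⟫ = ⟪v, -K (A u)⟫) ∧
        ∀ v, v ≠ 0 → 0 < ⟪-K (A v), v⟫ := by
    intro K hK
    have k1 : ∀ v u, ⟪K v, u⟫ = -⟪v, K u⟫ := by
      intro v u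
      have h1 := hK.orth (K v) u
      rw [hK.sq] at h1
      have h2 : ⟪-v, K u⟫ = ⟪K v, u⟫ := h1
      rw [← h2, inner_neg_left]
    have k2 : ∀ v u, ⟪-K (A v), u⟫ = w v (K u) := by
      intro v u
      rw [inner_neg_left, k1, neg_neg, hA]
    have k3 : ∀ v, K (A v) = A (K v) := by
      intro v
      refine ext_inner_right ℝ fun u => ?_
      have h1 : ⟪K (A v), u⟫ = -w v (K u) := by rw [← k2, inner_neg_left, neg_neg]
      rw [h1, hK.symm, ← hA, hAA, neg_neg, real_inner_comm, hAA, ← hAA]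
    refine ⟨fun v => ?_, fun v u => ?_, fun v hv => ?_⟩
    · rw [map_neg, map_neg, neg_neg, k3 (K (A v)), hK.sq, map_neg]
    · rw [k2, hK.symm, ← k2, real_inner_comm]
    · rw [k2]
      exact hK.pos v hv
  obtain ⟨s1, s2, s3⟩ := hS J hJ
  obtain ⟨t1, t2, t3⟩ := hS J' hJ'
  obtain ⟨S, hSd⟩ : ∃ S : F n →ₗ[ℝ] F n, ∀ v, S v = -J (A v) :=
    ⟨-(J.toLinearMap ∘ₗ A), fun _ => rfl⟩
  obtain ⟨S', hSd'⟩ : ∃ S : F n →ₗ[ℝ] F n, ∀ v, S v = -J' (A v) :=
    ⟨-(J'.toLinearMap ∘ₗ A), fun _ => rfl⟩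
  simp only [← hSd] at s1 s2 s3
  simp only [← hSd'] at t1 t2 t3
  obtain ⟨D, hD⟩ : ∃ D : F n →ₗ[ℝ] F n, ∀ v, D v = S v - S' v := ⟨S - S', fun _ => rfl⟩
  have hDs : D.IsSymmetric := by
    intro v u
    show ⟪D v, u⟫ = ⟪v, D u⟫
    rw [hD, hD, inner_sub_left, inner_sub_right, s2, t2]
  have hSD : ∀ v, S (D v) + D (S' v) = 0 := by
    intro v
    rw [hD v, hD (S' v), map_sub, s1, t1]
    abel
  have hn : Module.finrank ℝ (F n) = n := finrank_euclideanSpace_fin
  obtain ⟨b, hb⟩ : ∃ b, b = hDs.eigenvectorBasis hn := ⟨_, rfl⟩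
  have hDb : ∀ i, D (b i) = 0 := by
    intro i
    have h1 : D (b i) = hDs.eigenvalues hn i • b i := by
      rw [hb]
      exact hDs.apply_eigenvectorBasis hn i
    have hb0 : b i ≠ 0 := by simpa using b.toBasis.ne_zero i
    have h2 := hSD (b i)
    have h3 : ⟪S (D (b i)), b i⟫ + ⟪D (S' (b i)), b i⟫ = 0 := by
      rw [← inner_add_left, h2, inner_zero_left]
    have h4 : ⟪D (S' (b i)), b i⟫ = ⟪S' (b i), D (b i)⟫ := hDs _ _
    rw [h4, h1, map_smul, inner_smul_left, inner_smul_right] at h3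
    have h5 : hDs.eigenvalues hn i * (⟪S (b i), b i⟫ + ⟪S' (b i), b i⟫) = 0 := by
      rw [mul_add]
      simpa using h3
    have h6 := s3 (b i) hb0
    have h7 := t3 (b i) hb0
    rcases mul_eq_zero.1 h5 with h8 | h8
    · rw [h1, h8, zero_smul]
    · linarith
  have hD0 : D = 0 := b.toBasis.ext fun i => by
    rw [OrthonormalBasis.coe_toBasis, hDb]
    rfl
  ext1 v
  obtain ⟨u, rfl⟩ := hAs v
  have h1 : D u = 0 := by rw [hD0]; rfl
  rw [hD, hSd, hSd', sub_eq_zero, neg_inj] at h1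
  exact h1

/-- transport -/
theorem Pol.transport {n : ℕ} {w g : F n → F n → ℝ} {J : F n →L[ℝ] F n} (L : F n ≃L[ℝ] F n)
    (h : Pol (fun v u => w (L v) (L u)) (fun v u => g (L v) (L u)) J) :
    Pol w g ((L : F n →L[ℝ] F n).comp (J.comp (L.symm : F n →L[ℝ] F n))) := by
  refine ⟨fun v => ?_, fun v u => ?_, fun v u => ?_, fun v hv => ?_⟩
  · show L (J (L.symm (L (J (L.symm v))))) = -v
    rw [L.symm_apply_apply, h.sq, map_neg, L.apply_symm_apply]
  · have h1 := h.orth (L.symm v) (L.symm u)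
    simp only [L.apply_symm_apply] at h1
    exact h1
  · have h1 := h.symm (L.symm v) (L.symm u)
    simp only [L.apply_symm_apply] at h1
    exact h1
  · have h1 := h.pos (L.symm v) (fun h0 => hv (by simpa using h0))
    simp only [L.apply_symm_apply] at h1
    exact h1

theorem Dat.transport {n : ℕ} {w g : F n → F n → ℝ} (h : Dat w g) (L : F n ≃L[ℝ] F n) :
    Dat (fun v u => w (L v) (L u)) (fun v u => g (L v) (L u)) := by
  refine ⟨fun v v' u => ?_, fun c v u => ?_, fun v u => h.walt _ _, fun v hv => ?_,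
    fun v v' u => ?_, fun c v u => ?_, fun v u => h.gsymm _ _, fun v hv => ?_⟩
  · rw [map_add, h.wadd]
  · rw [map_smul, h.wsmul]
  · have h1 := h.wnd (L v) fun u => by
      have h2 := hv (L.symm u)
      rwa [L.apply_symm_apply] at h2
    simpa using h1
  · rw [map_add, h.gadd]
  · rw [map_smul, h.gsmul]
  · exact h.gpos _ fun h0 => hv (by simpa using h0)

theorem exists_frame {n : ℕ} {w g : F n → F n → ℝ} (h : Dat w g) :
    ∃ L : F n ≃L[ℝ] F n, ∀ v u, g (L v) (L u) = ⟪v, u⟫ := by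
  obtain ⟨G, hG⟩ := riesz g h.gadd h.gsmul (fun v u u' => by
      rw [h.gsymm, h.gadd, h.gsymm u, h.gsymm u']) (fun c v u => by
      rw [h.gsymm, h.gsmul, h.gsymm u])
  obtain ⟨R, r1, r2, r3, r4⟩ := sqrtinv G (fun v u => by
      rw [hG, h.gsymm, ← hG, real_inner_comm]) (fun v hv => by
      rw [hG]
      exact h.gpos v hv)
  have hGR : ∀ v, G (R v) = R (G v) := r4 G fun _ => rfl
  have hinj : Injective R := by
    rw [injective_iff_map_eq_zero]
    intro v hv
    by_contra h0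
    have h1 := r2 v h0
    rw [hv, inner_zero_left] at h1
    exact lt_irrefl _ h1
  refine ⟨(LinearEquiv.ofInjectiveEndo R hinj).toContinuousLinearEquiv, fun v u => ?_⟩
  show g (R v) (R u) = ⟪v, u⟫
  rw [← hG, hGR, ← r1, r3]

theorem Pol.exists {n : ℕ} {w g : F n → F n → ℝ} (h : Dat w g) : ∃ J, Pol w g J := by
  obtain ⟨L, hL⟩ := exists_frame h
  have h1 : Dat (fun v u => w (L v) (L u)) fun v u => ⟪v, u⟫ := by
    have h2 := h.transport L
    simpa only [hL] using h2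
  obtain ⟨J, hJ⟩ := exists_std h1
  refine ⟨_, Pol.transport (J := J) L ?_⟩
  simpa only [hL] using hJ

theorem Pol.unique {n : ℕ} {w g : F n → F n → ℝ} (h : Dat w g) {J J' : F n →L[ℝ] F n}
    (hJ : Pol w g J) (hJ' : Pol w g J') : J = J' := by
  obtain ⟨L, hL⟩ := exists_frame h
  have h1 : Dat (fun v u => w (L v) (L u)) fun v u => ⟪v, u⟫ := by
    have h2 := h.transport L
    simpa only [hL] using h2
  have h2 : ∀ K : F n →L[ℝ] F n, Pol w g K → Pol (fun v u => w (L v) (L u)) (fun v u => ⟪v, u⟫)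
      ((L.symm : F n →L[ℝ] F n).comp (K.comp (L : F n →L[ℝ] F n))) := by
    intro K hK
    have h3 := Pol.transport (w := fun v u => w (L v) (L u)) (g := fun v u => g (L v) (L u))
      (J := K) L.symm (by simpa only [L.apply_symm_apply] using hK)
    simpa only [hL, ContinuousLinearEquiv.symm_symm] using h3
  have h3 := unique_std h1 (h2 J hJ) (h2 J' hJ')
  ext1 v
  have h4 := congrArg (fun K : F n →L[ℝ] F n => L (K (L.symm v))) h3
  simpa using h4

end Pool.Agent.Q130.SF
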