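import Pool.Agent.Q130.SF.Lin

/-!
# Continuity of the polar decomposition
-/

set_option autoImplicit false

open Set Filter Topology Metric Function
open scoped RealInnerProductSpace

noncomputable section

namespace Pool.Agent.Q130.SF

theorem Dat.gscale {n : ℕ} {w g : F n → F n → ℝ} (h : Dat w g) (c : ℝ) (v : F n) :
    g (c • v) (c • v) = c ^ 2 * g v v := by
  rw [h.gsmul, h.gsymm, h.gsmul]
  ring

theorem Dat.gzero {n : ℕ} {w g : F n → F n → ℝ} (h : Dat w g) (u : F n) : g 0 u = 0 := by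
  have h1 := h.gsmul 0 0 u
  simpa using h1

theorem Pol.continuousAt {n : ℕ} {Z : Type} [TopologicalSpace Z] {w g : Z → F n → F n → ℝ}
    {J : Z → F n →L[ℝ] F n} {z₀ : Z}
    (hw : ∀ v u, ContinuousAt (fun q : Z × F n × F n => w q.1 q.2.1 q.2.2) (z₀, v, u))
    (hg : ∀ v u, ContinuousAt (fun q : Z × F n × F n => g q.1 q.2.1 q.2.2) (z₀, v, u))
    (hd : ∀ᶠ z in 𝓝 z₀, Dat (w z) (g z)) (hJ : ∀ᶠ z in 𝓝 z₀, Pol (w z) (g z) (J z)) :
    ContinuousAt J z₀ := by
  have hd0 : Dat (w z₀) (g z₀) := hd.self_of_nhds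
  have hJ0 : Pol (w z₀) (g z₀) (J z₀) := hJ.self_of_nhds
  -- bounds for `g`
  have hgd : ∀ v, ContinuousAt (fun q : Z × F n => g q.1 q.2 q.2) (z₀, v) := by
    intro v
    exact ContinuousAt.comp (g := fun q : Z × F n × F n => g q.1 q.2.1 q.2.2)
      (f := fun q : Z × F n => (q.1, q.2, q.2)) (x := (z₀, v)) (hg v v) (by fun_prop)
  have hb : ∃ c C : ℝ, 0 < c ∧ 0 < C ∧ ∀ᶠ z in 𝓝 z₀, ∀ v : F n,
      c * ‖v‖ ^ 2 ≤ g z v v ∧ g z v v ≤ C * ‖v‖ ^ 2 := by
    have hcomp : IsCompact (sphere (0 : F n) 1) := isCompact_sphere _ _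
    have hloc : ∃ c C : ℝ, 0 < c ∧ 0 < C ∧ ∀ᶠ z in 𝓝 z₀, ∀ v ∈ sphere (0 : F n) 1,
        c ≤ g z v v ∧ g z v v ≤ C := by
      refine hcomp.induction_on (p := fun S => ∃ c C : ℝ, 0 < c ∧ 0 < C ∧ ∀ᶠ z in 𝓝 z₀, ∀ v ∈ S,
        c ≤ g z v v ∧ g z v v ≤ C) ?_ ?_ ?_ ?_
      · exact ⟨1, 1, one_pos, one_pos, Eventually.of_forall fun z v hv => absurd hv (notMem_empty v)⟩
      · rintro s t hst ⟨c, C, hc, hC, h⟩
        exact ⟨c, C, hc, hC, h.mono fun z hz v hv => hz v (hst hv)⟩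
      · rintro s t ⟨c, C, hc, hC, h⟩ ⟨c', C', hc', hC', h'⟩
        refine ⟨min c c', max C C', lt_min hc hc', lt_max_of_lt_left hC, ?_⟩
        filter_upwards [h, h'] with z hz hz' v hv
        rcases hv with hv | hv
        · exact ⟨(min_le_left _ _).trans (hz v hv).1, (hz v hv).2.trans (le_max_left _ _)⟩
        · exact ⟨(min_le_right _ _).trans (hz' v hv).1, (hz' v hv).2.trans (le_max_right _ _)⟩
      · intro v hv
        have hv0 : v ≠ 0 := by
          rintro rfl
          simp at hv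
        have h1 : 0 < g z₀ v v := hd0.gpos v hv0
        have h2 := (hgd v).eventually (p := fun r => g z₀ v v / 2 < r ∧ r < 2 * g z₀ v v)
          ((lt_mem_nhds (show g z₀ v v / 2 < g z₀ v v by linarith)).and
            (gt_mem_nhds (show g z₀ v v < 2 * g z₀ v v by linarith)))
        rw [nhds_prod_eq] at h2
        obtain ⟨P1, hP1, P2, hP2, hP⟩ := eventually_prod_iff.1 h2
        refine ⟨{u | P2 u}, mem_nhdsWithin_of_mem_nhds hP2, g z₀ v v / 2, 2 * g z₀ v v,
          by positivity, by positivity, ?_⟩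
        filter_upwards [hP1] with z hz u hu
        exact ⟨(hP hz hu).1.le, (hP hz hu).2.le⟩
    obtain ⟨c, C, hc, hC, h⟩ := hloc
    refine ⟨c, C, hc, hC, ?_⟩
    filter_upwards [h, hd] with z hz hdz v
    rcases eq_or_ne v 0 with rfl | hv
    · rw [hdz.gzero, norm_zero]
      constructor <;> simp
    · have h1 : v = ‖v‖ • (‖v‖⁻¹ • v) := by
        rw [smul_smul, mul_inv_cancel₀ (norm_ne_zero_iff.2 hv), one_smul]
      have h2 : ‖v‖⁻¹ • v ∈ sphere (0 : F n) 1 := by
        rw [mem_sphere_zero_iff_norm, norm_smul, norm_inv, norm_norm,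
          inv_mul_cancel₀ (norm_ne_zero_iff.2 hv)]
      have h3 := hz _ h2
      have h4 : g z v v = ‖v‖ ^ 2 * g z (‖v‖⁻¹ • v) (‖v‖⁻¹ • v) := by
        conv_lhs => rw [h1]
        rw [hdz.gscale]
      have h5 : 0 ≤ ‖v‖ ^ 2 := by positivity
      rw [h4]
      constructor
      · nlinarith [h3.1]
      · nlinarith [h3.2]
  obtain ⟨c, C, hc, hC, hb⟩ := hb
  have hbd : ∀ᶠ z in 𝓝 z₀, J z ∈ closedBall (0 : F n →L[ℝ] F n) (Real.sqrt (C / c)) := by
    filter_upwards [hb, hJ] with z hz hJz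
    rw [mem_closedBall_zero_iff]
    refine ContinuousLinearMap.opNorm_le_bound _ (Real.sqrt_nonneg _) fun v => ?_
    have h1 := (hz (J z v)).1
    rw [hJz.orth] at h1
    have h2 := (hz v).2
    have h3 : ‖J z v‖ ^ 2 ≤ C / c * ‖v‖ ^ 2 := by
      rw [div_mul_eq_mul_div, le_div_iff₀ hc]
      linarith
    have h4 : ‖J z v‖ ^ 2 ≤ (Real.sqrt (C / c) * ‖v‖) ^ 2 := by
      rw [mul_pow, Real.sq_sqrt (by positivity)]
      exact h3
    exact (sq_le_sq₀ (norm_nonneg _) (by positivity)).1 h4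
  -- limits along ultrafilters
  refine tendsto_iff_ultrafilter _ _ _ |>.2 fun U hU => ?_
  have hU1 : ∀ᶠ z in (U : Filter Z), J z ∈ closedBall (0 : F n →L[ℝ] F n) (Real.sqrt (C / c)) :=
    hU hbd
  obtain ⟨K, -, hK⟩ := (isCompact_closedBall (0 : F n →L[ℝ] F n)
    (Real.sqrt (C / c))).ultrafilter_le_nhds (U.map J) (le_principal_iff.2 hU1)
  have hK' : Tendsto J (U : Filter Z) (𝓝 K) := hK
  have hid : Tendsto (fun z : Z => z) (U : Filter Z) (𝓝 z₀) := hU
  have hKv : ∀ v, Tendsto (fun z => J z v) (U : Filter Z) (𝓝 (K v)) := fun v =>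
    ((ContinuousLinearMap.apply ℝ (F n) v).continuous.tendsto K).comp hK'
  have hJU : ∀ᶠ z in (U : Filter Z), Pol (w z) (g z) (J z) := hU hJ
  have hw2 : ∀ v u, Tendsto (fun z => w z v (J z u)) (U : Filter Z) (𝓝 (w z₀ v (K u))) := by
    intro v u
    exact (hw v (K u)).tendsto.comp (hid.prodMk_nhds (tendsto_const_nhds.prodMk_nhds (hKv u)))
  have hKpol : Pol (w z₀) (g z₀) K := by
    have k1 : ∀ v, K (K v) = -v := by
      intro v
      have h1 : Tendsto (fun z => J z (J z v)) (U : Filter Z) (𝓝 (K (K v))) :=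
        ((isBoundedBilinearMap_apply (𝕜 := ℝ) (E := F n) (F := F n)).continuous.tendsto
          (K, K v)).comp (hK'.prodMk_nhds (hKv v))
      have h2 : Tendsto (fun z => J z (J z v)) (U : Filter Z) (𝓝 (-v)) := by
        refine Tendsto.congr' ?_ tendsto_const_nhds
        filter_upwards [hJU] with z hz
        exact (hz.sq v).symm
      exact tendsto_nhds_unique h1 h2
    have k3 : ∀ v u, w z₀ v (K u) = w z₀ u (K v) := by
      intro v u
      refine tendsto_nhds_unique (hw2 v u) ?_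
      refine Tendsto.congr' ?_ (hw2 u v)
      filter_upwards [hJU] with z hz
      exact hz.symm u v
    have k4 : ∀ v, 0 ≤ w z₀ v (K v) := by
      intro v
      refine ge_of_tendsto (hw2 v v) ?_
      filter_upwards [hJU, hU hd] with z hz hdz
      rcases eq_or_ne v 0 with rfl | hv
      · have h1 := hdz.wsmul 0 0 (J z 0)
        simp only [zero_smul, zero_mul] at h1
        exact h1.ge
      · exact (hz.pos v hv).le
    refine ⟨k1, fun v u => ?_, k3, fun v hv => ?_⟩
    · have h1 : Tendsto (fun z => g z (J z v) (J z u)) (U : Filter Z) (𝓝 (g z₀ (K v) (K u))) :=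
        (hg (K v) (K u)).tendsto.comp (hid.prodMk_nhds ((hKv v).prodMk_nhds (hKv u)))
      have h2 : Tendsto (fun z => g z v u) (U : Filter Z) (𝓝 (g z₀ v u)) :=
        (hg v u).tendsto.comp (hid.prodMk_nhds (tendsto_const_nhds.prodMk_nhds tendsto_const_nhds))
      refine tendsto_nhds_unique h1 (h2.congr' ?_)
      filter_upwards [hJU] with z hz
      exact (hz.orth v u).symm
    · refine (k4 v).lt_of_ne fun h0 => hv ?_
      refine hd0.wnd v fun u' => ?_
      obtain ⟨u, rfl⟩ : ∃ u, u' = K u := ⟨-K u', by rw [map_neg, k1, neg_neg]⟩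
      -- Cauchy-Schwarz
      have wadd' : ∀ a b b', w z₀ a (b + b') = w z₀ a b + w z₀ a b' := fun a b b' => by
        rw [hd0.walt, hd0.wadd, neg_add, ← hd0.walt, ← hd0.walt]
      have wsmul' : ∀ (r : ℝ) a b, w z₀ a (r • b) = r * w z₀ a b := fun r a b => by
        rw [hd0.walt, hd0.wsmul, hd0.walt b a]
        ring
      have h1 : ∀ r : ℝ, 0 ≤ 2 * r * w z₀ v (K u) + w z₀ u (K u) := by
        intro r
        have h2 := k4 (r • v + u)
        rw [map_add, map_smul, hd0.wadd, wadd', wadd', hd0.wsmul, wsmul', wsmul', hd0.wsmul,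
          ← h0, k3 u v] at h2
        linarith
      by_contra h2
      have h3 := h1 (-(w z₀ u (K u) + 1) / (2 * w z₀ v (K u)))
      have h4 : 2 * (-(w z₀ u (K u) + 1) / (2 * w z₀ v (K u))) * w z₀ v (K u) =
          -(w z₀ u (K u) + 1) := by
        field_simp
      rw [h4] at h3
      linarith
  rw [Pol.unique hd0 hJ0 hKpol]
  exact hK'

end Pool.Agent.Q130.SF
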