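import Pool.Agent.Q130.SF.Rel

/-!
# Closed two-forms which are limits of nondegenerate forms, at a linear rate
-/

set_option autoImplicit false

open Set Filter Topology MeasureTheory
open scoped Manifold ContDiff

noncomputable section

namespace Pool.Agent.Q130.SF

open Pool.Agent.Y501.SY

variable {d : ℕ} {X : Type} [TopologicalSpace X] [ChartedSpace (E d) X]

/-- nondegenerate at a point -/
def nd (T : Form d X 2) (x : X) : Prop :=
  ∀ v : TangentSpace (𝓡 d) x, (∀ w, T x ![v, w] = 0) → v = 0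

/-- `σ + ε ((1 - s) θ + s η)` -/
def mix (σ θ η : Form d X 2) (ε s : ℝ) : Form d X 2 := σ + ε • ((1 - s) • θ + s • η)

/-- near `x` the forms `σ + ε ((1 - s) θ + s η)` are nondegenerate -/
def GoodAt (σ θ η : Form d X 2) (x : X) : Prop :=
  ∃ c : ℝ, 0 < c ∧ ∀ᶠ y in 𝓝 x, ∀ ε : ℝ, 0 < ε → ε ≤ c → ∀ s : ℝ, 0 ≤ s → s ≤ 1 →
    nd (mix σ θ η ε s) y

/-- `σ + ε θ` is nondegenerate near `x` at a linear rate -/
def RateAt (σ θ : Form d X 2) (x : X) : Prop :=
  ∃ c : ℝ, 0 < c ∧ ∀ᶠ p in 𝓝 (chartAt (E d) x x), ∀ ε : ℝ, 0 < ε → ε ≤ c → ∀ v : E d,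
    ∃ w : E d, ‖w‖ ≤ 1 ∧ c * ε * ‖v‖ ≤ pb (chartAt (E d) x).symm σ p ![v, w] +
      ε * pb (chartAt (E d) x).symm θ p ![v, w]

theorem alt_le (A : (E d) [⋀^Fin 2]→L[ℝ] ℝ) {v w : E d} (hw : ‖w‖ ≤ 1) :
    |A ![v, w]| ≤ ‖A‖ * ‖v‖ := by
  have h1 := A.le_opNorm ![v, w]
  rw [Real.norm_eq_abs, Fin.prod_univ_two] at h1
  refine h1.trans ?_
  show ‖A‖ * (‖v‖ * ‖w‖) ≤ ‖A‖ * ‖v‖
  have h2 : ‖v‖ * ‖w‖ ≤ ‖v‖ * 1 := mul_le_mul_of_nonneg_left hw (norm_nonneg v)
  rw [mul_one] at h2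
  exact mul_le_mul_of_nonneg_left h2 (norm_nonneg A)

variable [IsManifold (𝓡 d) ∞ X]

/-- nondegeneracy in a chart -/
theorem nd_of {T : Form d X 2} {x y : X} (hy : y ∈ (chartAt (E d) x).source)
    (h : ∀ v : E d, v ≠ 0 → ∃ w : E d, pb (chartAt (E d) x).symm T (chartAt (E d) x y) ![v, w] ≠ 0) :
    nd T y := by
  intro v hv
  by_contra hne
  have hmd := mdifferentiable_chart (I := 𝓡 d) x
  have h1 : mfderiv (𝓡 d) (𝓡 d) (chartAt (E d) x).symm (chartAt (E d) x y)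
      (mfderiv (𝓡 d) (𝓡 d) (chartAt (E d) x) y v) = v := by
    have h2 := hmd.symm_comp_deriv hy
    have h3 := congrArg (fun L => L v) h2
    exact h3
  obtain ⟨u, hu⟩ : ∃ u : E d, u = mfderiv (𝓡 d) (𝓡 d) (chartAt (E d) x) y v := ⟨_, rfl⟩
  have hu0 : u ≠ 0 := by
    rintro rfl
    rw [← hu] at h1
    apply hne
    rw [← h1]
    exact map_zero _
  obtain ⟨w, hw⟩ := h u hu0
  apply hw
  have e : (chartAt (E d) x).symm (chartAt (E d) x y) = y := (chartAt (E d) x).left_inv hy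
  have key : ∀ (y' : X) (L : E d →L[ℝ] TangentSpace (𝓡 d) y') (v' : TangentSpace (𝓡 d) y')
      (_ : y' = y) (_ : HEq v' v), (∀ w', T y' ![v', w'] = 0) := by
    rintro y' L v' rfl h2 w'
    have h3 : v' = v := eq_of_heq h2
    rw [h3]
    exact hv w'
  rw [pb_apply2]
  have h4 : mfderiv (𝓡 d) (𝓡 d) (chartAt (E d) x).symm (chartAt (E d) x y) u = v := by
    rw [hu]
    exact h1
  exact key _ (mfderiv (𝓡 d) (𝓡 d) (chartAt (E d) x).symm (chartAt (E d) x y)) _ e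
    (heq_of_eq h4) _

theorem nd_iff {T : Form d X 2} (x : X) {p : E d} (hp : p ∈ (chartAt (E d) x).target) :
    nd T ((chartAt (E d) x).symm p) ↔
      ∀ v : E d, (∀ w : E d, pb (chartAt (E d) x).symm T p ![v, w] = 0) → v = 0 := by
  constructor
  · intro h v hv
    have h0 : Pool.Agent.Y455.SY.A x p v = 0 := by
      refine h _ fun w' => ?_
      obtain ⟨w, hw⟩ := Pool.Agent.Y455.SY.A_surj x hp w'
      rw [← hw]
      have h1 := hv w
      rw [pb_apply2] at h1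
      exact h1
    have h1 := Pool.Agent.Y455.SY.BA x hp v
    rw [h0, map_zero] at h1
    exact h1.symm
  · intro h v' hv'
    obtain ⟨v, hv⟩ := Pool.Agent.Y455.SY.A_surj x hp v'
    have h1 : v = 0 := by
      refine h v fun w => ?_
      rw [pb_apply2]
      have h2 := hv' (Pool.Agent.Y455.SY.A x p w)
      rw [← hv] at h2
      exact h2
    rw [← hv, h1, map_zero]
    rfl

/-- goodness from a rate and closeness -/
theorem good_of {σ θ η : Form d X 2} {x y : X} (hy : y ∈ (chartAt (E d) x).source) {c : ℝ}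
    (hc : 0 < c) (h : ∀ᶠ p in 𝓝 (chartAt (E d) x y),
      (∀ ε : ℝ, 0 < ε → ε ≤ c → ∀ v : E d, ∃ w : E d, ‖w‖ ≤ 1 ∧
        c * ε * ‖v‖ ≤ pb (chartAt (E d) x).symm σ p ![v, w] +
          ε * pb (chartAt (E d) x).symm θ p ![v, w]) ∧
      ‖pb (chartAt (E d) x).symm η p - pb (chartAt (E d) x).symm θ p‖ ≤ c / 2) :
    GoodAt σ θ η y := by
  refine ⟨c, hc, ?_⟩
  have h1 : Tendsto (chartAt (E d) x) (𝓝 y) (𝓝 (chartAt (E d) x y)) :=
    (chartAt (E d) x).continuousAt hy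
  filter_upwards [h1.eventually h, (chartAt (E d) x).open_source.mem_nhds hy] with z hz hzs ε h2 h3
    s h4 h5
  refine nd_of hzs fun v hv => ?_
  obtain ⟨w, hw, hcw⟩ := hz.1 ε h2 h3 v
  refine ⟨w, ne_of_gt ?_⟩
  obtain ⟨A, hA⟩ : ∃ A, A = pb (chartAt (E d) x).symm σ (chartAt (E d) x z) := ⟨_, rfl⟩
  obtain ⟨B, hB⟩ : ∃ B, B = pb (chartAt (E d) x).symm θ (chartAt (E d) x z) := ⟨_, rfl⟩
  obtain ⟨C, hC⟩ : ∃ C, C = pb (chartAt (E d) x).symm η (chartAt (E d) x z) := ⟨_, rfl⟩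
  have e1 : pb (chartAt (E d) x).symm (mix σ θ η ε s) (chartAt (E d) x z) ![v, w] =
      A ![v, w] + ε * ((1 - s) * B ![v, w] + s * C ![v, w]) := by
    rw [hA, hB, hC]
    rfl
  have h6 := alt_le (C - B) (v := v) hw
  have h7 : (C - B) ![v, w] = C ![v, w] - B ![v, w] := rfl
  have h8 : ‖C - B‖ ≤ c / 2 := by
    rw [hC, hB]
    exact hz.2
  rw [← hA, ← hB] at hcw
  rw [h7] at h6
  have hv0 : 0 < ‖v‖ := norm_pos_iff.2 hv
  have h9 : |C ![v, w] - B ![v, w]| ≤ c / 2 * ‖v‖ :=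
    h6.trans (mul_le_mul_of_nonneg_right h8 hv0.le)
  have h10 : -(c / 2 * ‖v‖) ≤ C ![v, w] - B ![v, w] := (abs_le.1 h9).1
  rw [e1]
  have h11 : s * (C ![v, w] - B ![v, w]) ≥ -(c / 2 * ‖v‖) := by
    have h12 : s * (c / 2 * ‖v‖) ≤ 1 * (c / 2 * ‖v‖) :=
      mul_le_mul_of_nonneg_right h5 (by positivity)
    have h13 := mul_le_mul_of_nonneg_left h10 h4
    linarith
  have h14 : ε * (s * (C ![v, w] - B ![v, w])) ≥ ε * -(c / 2 * ‖v‖) :=
    mul_le_mul_of_nonneg_left h11 h2.le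
  have h15 : 0 < ε * (c / 2 * ‖v‖) := by positivity
  nlinarith

/-- a nondegenerate form is uniformly nondegenerate in a chart -/
theorem unif_nd {B : (E d) [⋀^Fin 2]→L[ℝ] ℝ} (h : ∀ v : E d, (∀ w : E d, B ![v, w] = 0) → v = 0) :
    ∃ c : ℝ, 0 < c ∧ ∀ v : E d, ∃ w : E d, ‖w‖ ≤ 1 ∧ c * ‖v‖ ≤ B ![v, w] := by
  have hcomp : IsCompact (Metric.sphere (0 : E d) 1) := isCompact_sphere _ _
  have hloc : ∃ c : ℝ, 0 < c ∧ ∀ v ∈ Metric.sphere (0 : E d) 1, ∃ w : E d, ‖w‖ ≤ 1 ∧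
      c ≤ B ![v, w] := by
    refine hcomp.induction_on (p := fun S => ∃ c : ℝ, 0 < c ∧ ∀ v ∈ S, ∃ w : E d, ‖w‖ ≤ 1 ∧
      c ≤ B ![v, w]) ?_ ?_ ?_ ?_
    · exact ⟨1, one_pos, fun v hv => absurd hv (notMem_empty v)⟩
    · rintro s t hst ⟨c, hc, h⟩
      exact ⟨c, hc, fun v hv => h v (hst hv)⟩
    · rintro s t ⟨c, hc, h⟩ ⟨c', hc', h'⟩
      refine ⟨min c c', lt_min hc hc', ?_⟩
      rintro v (hv | hv)
      · obtain ⟨w, h1, h2⟩ := h v hv
        exact ⟨w, h1, (min_le_left _ _).trans h2⟩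
      · obtain ⟨w, h1, h2⟩ := h' v hv
        exact ⟨w, h1, (min_le_right _ _).trans h2⟩
    · intro v hv
      have hv0 : v ≠ 0 := by
        rintro rfl
        simp at hv
      obtain ⟨w, hw⟩ : ∃ w : E d, B ![v, w] ≠ 0 := by
        by_contra hcon
        push Not at hcon
        exact hv0 (h v hcon)
      have hw0 : w ≠ 0 := by
        rintro rfl
        apply hw
        rw [alt2_swap]
        have h1 := alt2_smul B 0 0 v
        rw [zero_smul, zero_mul] at h1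
        rw [h1, neg_zero]
      have hlin : ∀ t : ℝ, B ![v, t • w] = t * B ![v, w] := by
        intro t
        rw [alt2_swap, alt2_smul, alt2_swap B w v]
        ring
      obtain ⟨u, hu1, hu2⟩ : ∃ u : E d, ‖u‖ ≤ 1 ∧ 0 < B ![v, u] := by
        rcases lt_or_gt_of_ne hw with h1 | h1
        · refine ⟨(-‖w‖⁻¹) • w, ?_, ?_⟩
          · rw [norm_smul, norm_neg, norm_inv, norm_norm, inv_mul_cancel₀ (norm_ne_zero_iff.2 hw0)]
          · rw [hlin]
            have h2 : 0 < ‖w‖⁻¹ := inv_pos.2 (norm_pos_iff.2 hw0)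
            nlinarith
        · refine ⟨‖w‖⁻¹ • w, ?_, ?_⟩
          · rw [norm_smul, norm_inv, norm_norm, inv_mul_cancel₀ (norm_ne_zero_iff.2 hw0)]
          · rw [hlin]
            have h2 : 0 < ‖w‖⁻¹ := inv_pos.2 (norm_pos_iff.2 hw0)
            positivity
      have hcont : ContinuousAt (fun v' : E d => B ![v', u]) v := by
        have h1 : Continuous (fun v' : E d => (![v', u] : Fin 2 → E d)) := by
          refine continuous_pi fun i => ?_
          fin_cases i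
          · exact continuous_id
          · exact continuous_const
        exact (B.cont.comp h1).continuousAt
      have h3 := hcont.eventually (lt_mem_nhds (show B ![v, u] / 2 < B ![v, u] by linarith))
      refine ⟨{v' | B ![v, u] / 2 < B ![v', u]}, mem_nhdsWithin_of_mem_nhds h3, B ![v, u] / 2,
        by positivity, fun v' hv' => ⟨u, hu1, ?_⟩⟩
      exact le_of_lt hv'
  obtain ⟨c, hc, h1⟩ := hloc
  refine ⟨c, hc, fun v => ?_⟩
  rcases eq_or_ne v 0 with rfl | hv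
  · refine ⟨0, by simp, ?_⟩
    have h2 := alt2_smul B 0 0 0
    rw [zero_smul, zero_mul] at h2
    rw [h2]
    simp
  · have h2 : ‖v‖⁻¹ • v ∈ Metric.sphere (0 : E d) 1 := by
      rw [mem_sphere_zero_iff_norm, norm_smul, norm_inv, norm_norm,
        inv_mul_cancel₀ (norm_ne_zero_iff.2 hv)]
    obtain ⟨w, hw1, hw2⟩ := h1 _ h2
    refine ⟨w, hw1, ?_⟩
    rw [alt2_smul] at hw2
    have h3 : 0 < ‖v‖ := norm_pos_iff.2 hv
    have h4 := mul_le_mul_of_nonneg_left hw2 h3.le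
    rw [← mul_assoc, mul_inv_cancel₀ h3.ne', one_mul] at h4
    linarith

/-- near a point where `σ` is nondegenerate -/
theorem good_of_nd {σ θ η : Form d X 2} (hσ : IsSmooth σ) (hθ : IsSmooth θ) (hη : IsSmooth η)
    {x : X} (h : nd σ x) : ∃ c : ℝ, 0 < c ∧ ∀ᶠ y in 𝓝 x, ∀ ε : ℝ, 0 ≤ ε → ε ≤ c →
      ∀ s : ℝ, 0 ≤ s → s ≤ 1 → nd (mix σ θ η ε s) y := by
  have hx : x ∈ (chartAt (E d) x).source := mem_chart_source (E d) x
  have hp : chartAt (E d) x x ∈ (chartAt (E d) x).target := mem_chart_target (E d) x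
  have h0 : nd σ ((chartAt (E d) x).symm (chartAt (E d) x x)) := by
    rw [(chartAt (E d) x).left_inv hx]
    exact h
  rw [nd_iff x hp] at h0
  obtain ⟨c, hc, hcc⟩ := unif_nd h0
  obtain ⟨A, hA⟩ : ∃ A : E d → (E d) [⋀^Fin 2]→L[ℝ] ℝ, A = pb (chartAt (E d) x).symm σ := ⟨_, rfl⟩
  obtain ⟨B, hB⟩ : ∃ B : E d → (E d) [⋀^Fin 2]→L[ℝ] ℝ, B = pb (chartAt (E d) x).symm θ := ⟨_, rfl⟩
  obtain ⟨C, hC⟩ : ∃ C : E d → (E d) [⋀^Fin 2]→L[ℝ] ℝ, C = pb (chartAt (E d) x).symm η := ⟨_, rfl⟩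
  have hcon : ∀ {τ : Form d X 2}, IsSmooth τ →
      ContinuousAt (pb (chartAt (E d) x).symm τ) (chartAt (E d) x x) := fun hτ =>
    (hτ _ _ (chartAt (E d) x).open_target contMDiffOn_chart_symm).continuousOn.continuousAt
      ((chartAt (E d) x).open_target.mem_nhds hp)
  have cA : ContinuousAt A (chartAt (E d) x x) := by rw [hA]; exact hcon hσ
  have cB : ContinuousAt B (chartAt (E d) x x) := by rw [hB]; exact hcon hθ
  have cC : ContinuousAt C (chartAt (E d) x x) := by rw [hC]; exact hcon hη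
  obtain ⟨M, hM⟩ : ∃ M, M = ‖B (chartAt (E d) x x)‖ + ‖C (chartAt (E d) x x)‖ + 1 := ⟨_, rfl⟩
  have hM0 : 0 < M := by rw [hM]; positivity
  have e1 : ∀ᶠ p in 𝓝 (chartAt (E d) x x), ‖A p - A (chartAt (E d) x x)‖ < c / 4 := by
    have h1 : ContinuousAt (fun p => ‖A p - A (chartAt (E d) x x)‖) (chartAt (E d) x x) :=
      (cA.sub continuousAt_const).norm
    refine h1.eventually (gt_mem_nhds ?_)
    show ‖A (chartAt (E d) x x) - A (chartAt (E d) x x)‖ < c / 4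
    rw [sub_self, norm_zero]
    positivity
  have e2 : ∀ᶠ p in 𝓝 (chartAt (E d) x x), ‖B p‖ + ‖C p‖ < M := by
    have h1 : ContinuousAt (fun p => ‖B p‖ + ‖C p‖) (chartAt (E d) x x) := cB.norm.add cC.norm
    refine h1.eventually (gt_mem_nhds ?_)
    show ‖B (chartAt (E d) x x)‖ + ‖C (chartAt (E d) x x)‖ < M
    rw [hM]
    linarith
  have h1 : Tendsto (chartAt (E d) x) (𝓝 x) (𝓝 (chartAt (E d) x x)) :=
    (chartAt (E d) x).continuousAt hx
  refine ⟨c / (4 * M), by positivity, ?_⟩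
  filter_upwards [h1.eventually (e1.and e2), (chartAt (E d) x).open_source.mem_nhds hx] with z hz hzs
    ε h2 h3 s h4 h5
  refine nd_of hzs fun v hv => ?_
  obtain ⟨w, hw, hcw⟩ := hcc v
  refine ⟨w, ne_of_gt ?_⟩
  have e3 : pb (chartAt (E d) x).symm (mix σ θ η ε s) (chartAt (E d) x z) ![v, w] =
      A (chartAt (E d) x z) ![v, w] + ε * ((1 - s) * B (chartAt (E d) x z) ![v, w] +
        s * C (chartAt (E d) x z) ![v, w]) := by
    rw [hA, hB, hC]
    rfl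
  rw [← hA] at hcw
  have hv0 : 0 < ‖v‖ := norm_pos_iff.2 hv
  have g1 := alt_le (A (chartAt (E d) x z) - A (chartAt (E d) x x)) (v := v) hw
  have g2 := alt_le (B (chartAt (E d) x z)) (v := v) hw
  have g3 := alt_le (C (chartAt (E d) x z)) (v := v) hw
  have g4 : (A (chartAt (E d) x z) - A (chartAt (E d) x x)) ![v, w] =
      A (chartAt (E d) x z) ![v, w] - A (chartAt (E d) x x) ![v, w] := rfl
  rw [g4] at g1
  have g5 : |A (chartAt (E d) x z) ![v, w] - A (chartAt (E d) x x) ![v, w]| ≤ c / 4 * ‖v‖ :=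
    g1.trans (mul_le_mul_of_nonneg_right hz.1.le hv0.le)
  have g6 := (abs_le.1 g5).1
  have g7 : |(1 - s) * B (chartAt (E d) x z) ![v, w] + s * C (chartAt (E d) x z) ![v, w]| ≤
      M * ‖v‖ := by
    calc |(1 - s) * B (chartAt (E d) x z) ![v, w] + s * C (chartAt (E d) x z) ![v, w]| ≤
        |(1 - s) * B (chartAt (E d) x z) ![v, w]| + |s * C (chartAt (E d) x z) ![v, w]| :=
          abs_add_le _ _
      _ ≤ 1 * (‖B (chartAt (E d) x z)‖ * ‖v‖) + 1 * (‖C (chartAt (E d) x z)‖ * ‖v‖) := by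
          rw [abs_mul, abs_mul]
          refine add_le_add (mul_le_mul ?_ g2 (abs_nonneg _) zero_le_one)
            (mul_le_mul ?_ g3 (abs_nonneg _) zero_le_one)
          · rw [abs_of_nonneg (by linarith)]
            linarith
          · rw [abs_of_nonneg h4]
            exact h5
      _ = (‖B (chartAt (E d) x z)‖ + ‖C (chartAt (E d) x z)‖) * ‖v‖ := by ring
      _ ≤ M * ‖v‖ := mul_le_mul_of_nonneg_right hz.2.le hv0.le
  have g8 := (abs_le.1 g7).1
  have g9 : ε * (M * ‖v‖) ≤ c / 4 * ‖v‖ := by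
    have h6 : ε * M ≤ c / 4 := by
      have h7 := mul_le_mul_of_nonneg_right h3 hM0.le
      have h8 : c / (4 * M) * M = c / 4 := by field_simp
      linarith
    have h7 := mul_le_mul_of_nonneg_right h6 hv0.le
    linarith
  have g10 := mul_le_mul_of_nonneg_left g8 h2
  have g11 : 0 < c * ‖v‖ := by positivity
  rw [e3]
  nlinarith

end Pool.Agent.Q130.SF
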