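import Pool.Agent.Q130.SF.Nd

/-!
# Closed two-forms which are limits of nondegenerate forms, at a linear rate: the theorem
-/

set_option autoImplicit false

open Set Filter Topology MeasureTheory
open scoped Manifold ContDiff

noncomputable section

namespace Pool.Agent.Q130.SF

open Pool.Agent.Y501.SY

variable {d : ℕ} {X : Type} [TopologicalSpace X] [ChartedSpace (E d) X]

/-- on `C` the form `θ` is a sum of forms `c da ∧ db`, where `(a, b)` maps `C ∩ tsupport c` to a
null set of the plane -/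
def NullSum (θ : Form d X 2) (C : Set X) : Prop :=
  ∃ (n : ℕ) (c a b : Fin n → X → ℝ), (∀ i, SmoothFun (d := d) (c i)) ∧
    (∀ i, SmoothFun (d := d) (a i)) ∧ (∀ i, SmoothFun (d := d) (b i)) ∧
    (∀ i, volume ((fun x => (a i x, b i x)) '' (C ∩ tsupport (c i))) = 0) ∧
    ∀ x ∈ C, ∀ v w : TangentSpace (𝓡 d) x, θ x ![v, w] =
      ∑ i, c i x * (dd (d := d) (a i) x v * dd (d := d) (b i) x w -
        dd (d := d) (a i) x w * dd (d := d) (b i) x v)

variable [IsManifold (𝓡 d) ∞ X]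

/-- approximation by exact forms -/
theorem approx (hG : S_GEN) (hPl : S_PLANAR) {K : Set X} (hK : IsCompact K) {ι : Type} [Fintype ι]
    (c a b : ι → X → ℝ)
    (hc : ∀ i, SmoothFun (d := d) (c i)) (ha : ∀ i, SmoothFun (d := d) (a i))
    (hb : ∀ i, SmoothFun (d := d) (b i))
    (hnull : ∀ i, volume ((fun x => (a i x, b i x)) '' (K ∩ tsupport (c i))) = 0) :
    ∃ e : ι × Bool → Form d X 2, (∀ k, IsSmooth (e k)) ∧ ∀ ε : ℝ, 0 < ε →
      ∃ (α : Form d X 1) (η : Form d X 2), Pair α η ∧ ∀ x ∈ K, ∃ t : ι × Bool → ℝ,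
        (∀ k, |t k| ≤ ε) ∧ ∀ v w : TangentSpace (𝓡 d) x, η x ![v, w] =
          ∑ i, c i x * (dd (d := d) (a i) x v * dd (d := d) (b i) x w -
            dd (d := d) (a i) x w * dd (d := d) (b i) x v) + ∑ k, t k * e k x ![v, w] := by
  classical
  refine ⟨fun k => if k.2 then hdfdg (fun _ => 1) (c k.1) (b k.1) else
    hdfdg (fun _ => 1) (c k.1) (a k.1), ?_, ?_⟩
  · rintro ⟨i, k⟩
    cases k
    · exact (hG d X (fun _ => 1) (c i) (a i) (SmoothFun.const 1) (hc i) (ha i)).2.1
    · exact (hG d X (fun _ => 1) (c i) (b i) (SmoothFun.const 1) (hc i) (hb i)).2.1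
  intro ε hε
  have hcpt : ∀ i, IsCompact ((fun x => (a i x, b i x)) '' (K ∩ tsupport (c i))) := fun i =>
    (hK.inter_right (isClosed_tsupport _)).image ((ha i).continuous.prodMk (hb i).continuous)
  choose P Q hPs hQs hPε hQε hPQ using fun i => hPl _ (hcpt i) (hnull i) ε hε
  have s1 : ∀ i, SmoothFun (d := d) (fun x => P i (a i x)) := fun i =>
    SmoothFun.comp1 (hPs i) (ha i)
  have s2 : ∀ i, SmoothFun (d := d) (fun x => Q i (a i x, b i x)) := fun i =>
    SmoothFun.comp2 (hQs i) (ha i) (hb i)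
  have s1' : ∀ i, SmoothFun (d := d) (fun x => c i x * P i (a i x)) := fun i => (hc i).mul (s1 i)
  have s2' : ∀ i, SmoothFun (d := d) (fun x => c i x * Q i (a i x, b i x)) := fun i =>
    (hc i).mul (s2 i)
  have s2'' : ∀ i, SmoothFun (d := d) (fun x => (-1) * (c i x * Q i (a i x, b i x))) := fun i =>
    (SmoothFun.const (-1)).mul (s2' i)
  refine ⟨∑ i, (fdg (fun x => c i x * P i (a i x)) (b i) +
      fdg (fun x => (-1) * (c i x * Q i (a i x, b i x))) (a i)),
    ∑ i, (dfdg (fun x => c i x * P i (a i x)) (b i) +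
      dfdg (fun x => (-1) * (c i x * Q i (a i x, b i x))) (a i)), ?_, ?_⟩
  · exact Pair.sum _ fun i _ => Pair.add _ _ _ _ (Pair.gen _ _ (s1' i) (hb i))
      (Pair.gen _ _ (s2'' i) (ha i))
  · intro x hx
    refine ⟨fun k => if k.2 then P k.1 (a k.1 x) else - Q k.1 (a k.1 x, b k.1 x), ?_, ?_⟩
    · rintro ⟨i, k⟩
      cases k
      · change |-Q i (a i x, b i x)| ≤ ε
        rw [abs_neg]; exact hQε i _
      · exact hPε i _
    intro v w
    rw [sum_apply2, Fintype.sum_prod_type, ← Finset.sum_add_distrib]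
    refine Finset.sum_congr rfl fun i _ => ?_
    rw [Fintype.sum_bool]
    simp only [if_true, Bool.false_eq_true, if_false]
    have h5 : (dfdg (d := d) (fun x => c i x * P i (a i x)) (b i) +
        dfdg (fun x => (-1) * (c i x * Q i (a i x, b i x))) (a i) : Form d X 2) x ![v, w] =
        dfdg (d := d) (fun x => c i x * P i (a i x)) (b i) x ![v, w] +
        dfdg (d := d) (fun x => (-1) * (c i x * Q i (a i x, b i x))) (a i) x ![v, w] := rfl
    rw [h5, hdfdg_apply, hdfdg_apply, dfdg_apply, dfdg_apply,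
      dd_mul (hc i) (s1 i), dd_mul (hc i) (s1 i), dd_comp1 (hPs i) (ha i),
      dd_comp1 (hPs i) (ha i), dd_mul (SmoothFun.const (-1)) (s2' i),
      dd_mul (SmoothFun.const (-1)) (s2' i), dd_mul (hc i) (s2 i), dd_mul (hc i) (s2 i),
      dd_comp2 (hQs i) (ha i) (hb i), dd_comp2 (hQs i) (ha i) (hb i)]
    have h6 : ∀ w : TangentSpace (𝓡 d) x, dd (d := d) (fun _ : X => (-1 : ℝ)) x w = 0 := by
      intro w
      unfold dd
      rw [mfderiv_const]; rfl
    rw [h6, h6]
    have h7 : c i x * fderiv ℝ (Q i) (a i x, b i x) ((0, 1) : ℝ × ℝ) =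
        c i x * (1 - deriv (P i) (a i x)) := by
      by_cases hcx : c i x = 0
      · rw [hcx, zero_mul, zero_mul]
      · have h8 := hPQ i (a i x, b i x) ⟨x, ⟨hx, subset_tsupport _ hcx⟩, rfl⟩
        have h9 : fderiv ℝ (Q i) (a i x, b i x) ((0, 1) : ℝ × ℝ) = 1 - deriv (P i) (a i x) := by
          have h8' : deriv (P i) (a i x) +
            fderiv ℝ (Q i) (a i x, b i x) ((0, 1) : ℝ × ℝ) = 1 := h8
          linarith
        rw [h9]
    generalize fderiv ℝ (Q i) (a i x, b i x) ((0, 1) : ℝ × ℝ) = q at *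
    generalize fderiv ℝ (Q i) (a i x, b i x) ((1, 0) : ℝ × ℝ) = r at *
    generalize dd (d := d) (a i) x v = av at *
    generalize dd (d := d) (a i) x w = aJ at *
    generalize dd (d := d) (b i) x v = bv at *
    generalize dd (d := d) (b i) x w = bJ at *
    linear_combination (av * bJ - aJ * bv) * h7

omit [IsManifold (𝓡 d) ∞ X] in
theorem isOpen_good (σ θ η : Form d X 2) : IsOpen {x | GoodAt σ θ η x} := by
  rw [isOpen_iff_eventually]
  rintro x ⟨c, hc, h⟩
  filter_upwards [eventually_eventually_nhds.2 h] with y hy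
  exact ⟨c, hc, hy⟩

omit [IsManifold (𝓡 d) ∞ X] in
theorem nd_congr {T T' : Form d X 2} {x : X} (h : T x = T' x) (h1 : nd T x) : nd T' x := by
  intro v hv
  refine h1 v fun w => ?_
  rw [h]
  exact hv w

omit [IsManifold (𝓡 d) ∞ X] in
theorem GoodAt.congr {σ θ η η' : Form d X 2} {x : X} (h : GoodAt σ θ η x)
    (he : ∀ᶠ y in 𝓝 x, η' y = η y) : GoodAt σ θ η' x := by
  obtain ⟨c, hc, h1⟩ := h
  refine ⟨c, hc, ?_⟩
  filter_upwards [h1, he] with y hy hy' ε h2 h3 s h4 h5
  refine nd_congr ?_ (hy ε h2 h3 s h4 h5)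
  show σ y + ε • ((1 - s) • θ y + s • η y) = σ y + ε • ((1 - s) • θ y + s • η' y)
  rw [hy']

omit [IsManifold (𝓡 d) ∞ X] in
theorem ext2 {x : X} {A B : (TangentSpace (𝓡 d) x) [⋀^Fin 2]→L[ℝ] ℝ}
    (h : ∀ v w : TangentSpace (𝓡 d) x, A ![v, w] = B ![v, w]) : A = B := by
  ext v
  have h3 : v = ![v 0, v 1] := by
    funext i
    fin_cases i <;> rfl
  rw [h3]
  exact h _ _

/-- an exact form which is good on a compact set -/
theorem comp_good (hG : S_GEN) (hPl : S_PLANAR) {σ θ : Form d X 2}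
    (hθ : IsSmooth θ) {C : Set X} (hC : IsCompact C) (hR : ∀ x ∈ C, RateAt σ θ x)
    (hN : NullSum θ C) :
    ∃ (α : Form d X 1) (η : Form d X 2), Pair α η ∧ ∀ x ∈ C, GoodAt σ θ η x := by
  classical
  obtain ⟨n, c, a, b, hc, ha, hb, hnull, hrep⟩ := hN
  obtain ⟨e, he, happ⟩ := approx hG hPl hC c a b hc ha hb hnull
  obtain ⟨δ, hδ, hp⟩ := unif hC
    (fun δ y => ∀ η : Form d X 2, IsSmooth η → (∃ t : Fin n × Bool → ℝ, (∀ k, |t k| ≤ δ) ∧
      ∀ v w : TangentSpace (𝓡 d) y, η y ![v, w] = θ y ![v, w] + ∑ k, t k * e k y ![v, w]) →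
      GoodAt σ θ η y)
    (fun δ δ' y hle hp η hη ⟨t, ht, h⟩ => hp η hη ⟨t, fun k => (ht k).trans hle, h⟩)
    (fun x hx => by
      obtain ⟨r, hr, hrr⟩ := hR x hx
      have hxs : x ∈ (chartAt (E d) x).source := mem_chart_source (E d) x
      have hp : chartAt (E d) x x ∈ (chartAt (E d) x).target := mem_chart_target (E d) x
      have hcon : ∀ {τ : Form d X 2}, IsSmooth τ → ∀ p ∈ (chartAt (E d) x).target,
          ContinuousAt (pb (chartAt (E d) x).symm τ) p := fun hτ p hp =>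
        (hτ _ _ (chartAt (E d) x).open_target contMDiffOn_chart_symm).continuousOn.continuousAt
          ((chartAt (E d) x).open_target.mem_nhds hp)
      obtain ⟨m, hm⟩ : ∃ m : E d → ℝ, m = fun p => ∑ k, ‖pb (chartAt (E d) x).symm (e k) p‖ :=
        ⟨_, rfl⟩
      have hmc : ContinuousAt m (chartAt (E d) x x) := by
        rw [hm]
        exact tendsto_finset_sum _ fun k _ => (hcon (he k) _ hp).norm
      have hm0 : ∀ p, 0 ≤ m p := fun p => by
        rw [hm]
        exact Finset.sum_nonneg fun k _ => norm_nonneg _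
      obtain ⟨M, hM⟩ : ∃ M, M = m (chartAt (E d) x x) + 1 := ⟨_, rfl⟩
      have hM0 : 0 < M := by
        rw [hM]
        linarith [hm0 (chartAt (E d) x x)]
      have hmM : ∀ᶠ p in 𝓝 (chartAt (E d) x x), m p < M :=
        hmc.eventually (gt_mem_nhds (by rw [hM]; linarith))
      have h1 : Tendsto (chartAt (E d) x) (𝓝 x) (𝓝 (chartAt (E d) x x)) :=
        (chartAt (E d) x).continuousAt hxs
      refine ⟨r / (4 * M), by positivity, ?_⟩
      filter_upwards [h1.eventually (eventually_eventually_nhds.2 hrr), h1.eventually hmM,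
        (chartAt (E d) x).open_source.mem_nhds hxs] with y hy1 hy2 hys η hη ht
      obtain ⟨t, ht, heq⟩ := ht
      have hyt : chartAt (E d) x y ∈ (chartAt (E d) x).target := (chartAt (E d) x).map_source hys
      have hle := (chartAt (E d) x).left_inv hys
      have heq' : ∀ v w : TangentSpace (𝓡 d) ((chartAt (E d) x).symm (chartAt (E d) x y)),
          η ((chartAt (E d) x).symm (chartAt (E d) x y)) ![v, w] =
            θ ((chartAt (E d) x).symm (chartAt (E d) x y)) ![v, w] +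
              ∑ k, t k * e k ((chartAt (E d) x).symm (chartAt (E d) x y)) ![v, w] := by
        rw [hle]
        exact heq
      have hdiff : pb (chartAt (E d) x).symm η (chartAt (E d) x y) -
          pb (chartAt (E d) x).symm θ (chartAt (E d) x y) =
            ∑ k, t k • pb (chartAt (E d) x).symm (e k) (chartAt (E d) x y) := by
        ext u
        have h3 : u = ![u 0, u 1] := by
          funext i
          fin_cases i <;> rfl
        have h4 : (∑ k, t k • pb (chartAt (E d) x).symm (e k) (chartAt (E d) x y)) ![u 0, u 1] =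
            ∑ k, t k * pb (chartAt (E d) x).symm (e k) (chartAt (E d) x y) ![u 0, u 1] := by
          rw [ContinuousAlternatingMap.sum_apply]
          rfl
        have h5 : (pb (chartAt (E d) x).symm η (chartAt (E d) x y) -
            pb (chartAt (E d) x).symm θ (chartAt (E d) x y)) ![u 0, u 1] =
            pb (chartAt (E d) x).symm η (chartAt (E d) x y) ![u 0, u 1] -
              pb (chartAt (E d) x).symm θ (chartAt (E d) x y) ![u 0, u 1] := rfl
        rw [h3, h4, h5, pb_apply2, pb_apply2, heq', add_sub_cancel_left]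
        refine Finset.sum_congr rfl fun k _ => ?_
        rw [pb_apply2]
      have hnorm : ‖pb (chartAt (E d) x).symm η (chartAt (E d) x y) -
          pb (chartAt (E d) x).symm θ (chartAt (E d) x y)‖ ≤ r / 4 := by
        rw [hdiff]
        calc ‖∑ k, t k • pb (chartAt (E d) x).symm (e k) (chartAt (E d) x y)‖ ≤
            ∑ k, ‖t k • pb (chartAt (E d) x).symm (e k) (chartAt (E d) x y)‖ := norm_sum_le _ _
          _ ≤ ∑ k, r / (4 * M) * ‖pb (chartAt (E d) x).symm (e k) (chartAt (E d) x y)‖ := by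
              refine Finset.sum_le_sum fun k _ => ?_
              rw [norm_smul, Real.norm_eq_abs]
              exact mul_le_mul_of_nonneg_right (ht k) (norm_nonneg _)
          _ = r / (4 * M) * m (chartAt (E d) x y) := by
              rw [hm, Finset.mul_sum]
          _ ≤ r / (4 * M) * M := mul_le_mul_of_nonneg_left hy2.le (by positivity)
          _ = r / 4 := by field_simp
      refine good_of hys hr ?_
      have hc1 : ContinuousAt (fun p => ‖pb (chartAt (E d) x).symm η p -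
          pb (chartAt (E d) x).symm θ p‖) (chartAt (E d) x y) :=
        ((hcon hη _ hyt).sub (hcon hθ _ hyt)).norm
      have hc2 : ∀ᶠ p in 𝓝 (chartAt (E d) x y), ‖pb (chartAt (E d) x).symm η p -
          pb (chartAt (E d) x).symm θ p‖ < r / 2 :=
        hc1.eventually (gt_mem_nhds (lt_of_le_of_lt hnorm (by linarith)))
      filter_upwards [hy1, hc2] with p h6 h7
      exact ⟨h6, h7.le⟩)
  obtain ⟨α, η, hpair, hη⟩ := happ δ hδ
  refine ⟨α, η, hpair, fun x hx => hp x hx η (hpair.props hG).2.1 ?_⟩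
  obtain ⟨t, ht, h1⟩ := hη x hx
  refine ⟨t, ht, fun v w => ?_⟩
  rw [h1, hrep x hx]

/-- gluing over the components of a compact set -/
theorem glue_good [CompactSpace X] [T2Space X] {σ θ : Form d X 2} {K : Set X} (hK : IsCompact K)
    (h : ∀ z ∈ K, ∃ (α : Form d X 1) (η : Form d X 2), Pair α η ∧
      ∀ x ∈ connectedComponentIn K z, GoodAt σ θ η x) :
    ∃ (α : Form d X 1) (η : Form d X 2), Pair α η ∧ ∀ x ∈ K, GoodAt σ θ η x := by
  classical
  have : CompactSpace ↥K := isCompact_iff_compactSpace.1 hK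
  have key : ∃ S' : Set ↥K, IsClopen S' ∧ (univ : Set ↥K) ⊆ S' ∧ ∃ (α : Form d X 1)
      (η : Form d X 2), Pair α η ∧ ∀ x : ↥K, x ∈ S' → GoodAt σ θ η x.1 := by
    refine (isCompact_univ (X := ↥K)).induction_on (p := fun S => ∃ S' : Set ↥K, IsClopen S' ∧
      S ⊆ S' ∧ ∃ (α : Form d X 1) (η : Form d X 2), Pair α η ∧
        ∀ x : ↥K, x ∈ S' → GoodAt σ θ η x.1) ?_ ?_ ?_ ?_
    · exact ⟨∅, isClopen_empty, subset_rfl, 0, 0, Pair.zero, fun x hx => absurd hx (notMem_empty x)⟩
    · rintro s t hst ⟨S', h1, h2, h3⟩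
      exact ⟨S', h1, hst.trans h2, h3⟩
    · rintro s t ⟨S', h1, h2, α, η, hp, hg⟩ ⟨T', h1', h2', α', η', hp', hg'⟩
      have c1 : IsCompact (Subtype.val '' S') := h1.isClosed.isCompact.image continuous_subtype_val
      have c2 : IsCompact (Subtype.val '' (T' \ S')) :=
        (h1'.diff h1).isClosed.isCompact.image continuous_subtype_val
      have hdis : ∀ x, x ∈ Subtype.val '' S' → x ∉ Subtype.val '' (T' \ S') := by
        rintro _ ⟨x, hx, rfl⟩ ⟨y, hy, hxy⟩
        have h3 : y = x := Subtype.ext hxy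
        rw [h3] at hy
        exact hy.2 hx
      obtain ⟨u, hu, -, hu1, hu0⟩ := cutoff (d := d) c1.isClosed c2.isClosed.isOpen_compl
        (fun x hx => hdis x hx)
      obtain ⟨u', hu', -, hu1', hu0'⟩ := cutoff (d := d) c2.isClosed c1.isClosed.isOpen_compl
        (fun x hx hx' => hdis x hx' hx)
      obtain ⟨α₁, η₁, p1, -, q1⟩ := hp.smulFun hu
      obtain ⟨α₂, η₂, p2, -, q2⟩ := hp'.smulFun hu'
      have hval : ∀ x, (∀ᶠ y in 𝓝 x, u y = 1) → (∀ᶠ y in 𝓝 x, u' y = 0) →
          ∀ᶠ y in 𝓝 x, (η₁ + η₂) y = η y := by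
        intro x e1 e2
        filter_upwards [eventually_eventually_nhds.2 e1, eventually_eventually_nhds.2 e2] with y
          hy1 hy2
        refine ext2 fun v w => ?_
        have h3 : (η₁ + η₂) y ![v, w] = η₁ y ![v, w] + η₂ y ![v, w] := rfl
        rw [h3, q1, q2, dd_eventually_const hy1, dd_eventually_const hy1,
          dd_eventually_const hy2, dd_eventually_const hy2, hy1.self_of_nhds,
          hy2.self_of_nhds]
        ring
      have hval' : ∀ x, (∀ᶠ y in 𝓝 x, u y = 0) → (∀ᶠ y in 𝓝 x, u' y = 1) →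
          ∀ᶠ y in 𝓝 x, (η₁ + η₂) y = η' y := by
        intro x e1 e2
        filter_upwards [eventually_eventually_nhds.2 e1, eventually_eventually_nhds.2 e2] with y
          hy1 hy2
        refine ext2 fun v w => ?_
        have h3 : (η₁ + η₂) y ![v, w] = η₁ y ![v, w] + η₂ y ![v, w] := rfl
        rw [h3, q1, q2, dd_eventually_const hy1, dd_eventually_const hy1,
          dd_eventually_const hy2, dd_eventually_const hy2, hy1.self_of_nhds,
          hy2.self_of_nhds]
        ring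
      refine ⟨S' ∪ T', h1.union h1', union_subset_union h2 h2', α₁ + α₂, η₁ + η₂,
        Pair.add _ _ _ _ p1 p2, fun x hx => ?_⟩
      by_cases hxS : x ∈ S'
      · have hx1 : x.1 ∈ Subtype.val '' S' := ⟨x, hxS, rfl⟩
        exact (hg x hxS).congr (hval x.1 (hu1 _ hx1) (hu0' _ (fun h => h hx1)))
      · have hxT : x ∈ T' := hx.resolve_left hxS
        have hx2 : x.1 ∈ Subtype.val '' (T' \ S') := ⟨x, ⟨hxT, hxS⟩, rfl⟩
        exact (hg' x hxT).congr (hval' x.1 (hu0 _ (fun h => h hx2)) (hu1' _ hx2))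
    · rintro ⟨z, hz⟩ -
      obtain ⟨α, η, hp, hg⟩ := h z hz
      have hsub : connectedComponent (⟨z, hz⟩ : ↥K) ⊆ Subtype.val ⁻¹' {x | GoodAt σ θ η x} := by
        intro x hx
        apply hg
        rw [connectedComponentIn_eq_image hz]
        exact ⟨x, hx, rfl⟩
      obtain ⟨s, hs, hzs, hsU⟩ := comp_clopen (⟨z, hz⟩ : ↥K)
        ((isOpen_good σ θ η).preimage continuous_subtype_val) hsub
      exact ⟨s, mem_nhdsWithin_of_mem_nhds (hs.isOpen.mem_nhds hzs), s, hs, subset_rfl, α, η, hp,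
        fun x hx => hsU hx⟩
  obtain ⟨S', -, h2, α, η, hp, hg⟩ := key
  exact ⟨α, η, hp, fun x hx => hg ⟨x, hx⟩ (h2 (mem_univ _))⟩

/-- **The theorem.** -/
theorem ndThm (hG : S_GEN) (hPl : S_PLANAR) [CompactSpace X] [T2Space X] {σ θ : Form d X 2}
    (hσ : IsSmooth σ) (hθ : IsSmooth θ) (hR : ∀ x, ¬ nd σ x → RateAt σ θ x)
    (hN : ∀ z, ¬ nd σ z → NullSum θ (connectedComponentIn {x | ¬ nd σ x} z))
    {W : Set X} (hW : IsOpen W) (hDW : ∀ x, ¬ nd σ x → x ∈ W) :
    ∃ (α : Form d X 1) (η : Form d X 2), IsSmooth α ∧ IsSmooth η ∧ IsD α η ∧ IsClosedForm η ∧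
      (∀ x, x ∉ W → α x = 0 ∧ η x = 0) ∧
      ∃ ε₀ : ℝ, 0 < ε₀ ∧ ∀ ε : ℝ, 0 < ε → ε ≤ ε₀ → ∀ s : ℝ, 0 ≤ s → s ≤ 1 →
        ∀ x, nd (mix σ θ η ε s) x := by
  have hDc : IsClosed {x | ¬ nd σ x} := by
    rw [← isOpen_compl_iff, isOpen_iff_eventually]
    intro x hx
    have hx' : nd σ x := by
      by_contra h; exact hx h
    obtain ⟨c, hc, h1⟩ := good_of_nd hσ hθ hθ hx'
    filter_upwards [h1] with y hy h
    refine h (nd_congr ?_ (hy 0 le_rfl hc.le 0 le_rfl zero_le_one))
    show σ y + (0 : ℝ) • ((1 - (0 : ℝ)) • θ y + (0 : ℝ) • θ y) = σ y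
    rw [zero_smul, add_zero]
  have hD : IsCompact {x | ¬ nd σ x} := hDc.isCompact
  obtain ⟨α, η, hpair, hη⟩ := glue_good (σ := σ) (θ := θ) hD (fun z hz => by
    refine comp_good hG hPl hθ (compact_comp hD hz) (fun x hx => ?_) (hN z hz)
    exact hR x (connectedComponentIn_subset _ _ hx))
  obtain ⟨u, hu, -, hu1, hu0⟩ := cutoff (d := d) hDc hW hDW
  obtain ⟨α', η', hp', hα', hη'⟩ := hpair.smulFun hu
  obtain ⟨s1, s2, s3, s4⟩ := hp'.props hG
  have hgood : ∀ x, GoodAt σ θ η' x := by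
    intro x
    by_cases hx : nd σ x
    · obtain ⟨c, hc, h1⟩ := good_of_nd hσ hθ s2 hx
      exact ⟨c, hc, h1.mono fun y hy ε h2 h3 s h4 h5 => hy ε h2.le h3 s h4 h5⟩
    · refine (hη x hx).congr ?_
      filter_upwards [eventually_eventually_nhds.2 (hu1 x hx)] with y hy
      refine ext2 fun v w => ?_
      rw [hη', dd_eventually_const hy, dd_eventually_const hy, hy.self_of_nhds]
      ring
  obtain ⟨ε, hε, ht⟩ := unif isCompact_univ
    (fun ε y => ∀ ε' : ℝ, 0 < ε' → ε' ≤ ε → ∀ s : ℝ, 0 ≤ s → s ≤ 1 → nd (mix σ θ η' ε' s) y)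
    (fun ε ε' y hle hp ε'' h0 h1 => hp ε'' h0 (h1.trans hle))
    (fun x _ => hgood x)
  refine ⟨α', η', s1, s2, s3, s4, fun x hx => ?_, ε, hε, fun ε' h1 h2 s h3 h4 x =>
    ht x (mem_univ x) ε' h1 h2 s h3 h4⟩
  have h1 := hu0 x hx
  constructor
  · ext v
    have h3 : v = ![v 0] := by
      funext i
      fin_cases i
      rfl
    rw [h3, hα', h1.self_of_nhds, zero_mul]
    rfl
  · refine ext2 fun v w => ?_
    rw [hη', h1.self_of_nhds, dd_eventually_const h1, dd_eventually_const h1]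
    simp

end Pool.Agent.Q130.SF
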