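import Pool.Agent.Q130.SF.Nd2
import Pool.Agent.Q130.SF.Ext

/-!
# Families of closed two-forms which are limits of nondegenerate forms, at a linear rate
-/

set_option autoImplicit false

open Set Filter Topology MeasureTheory
open scoped Manifold ContDiff

noncomputable section

namespace Pool.Agent.Q130.SF

open Pool.Agent.Y501.SY

variable {d : ℕ} {X : Type} [TopologicalSpace X] [ChartedSpace (E d) X] [IsManifold (𝓡 d) ∞ X]

/-- gluing over the components of a compact set -/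
theorem glue_gen (hG : S_GEN) [CompactSpace X] [T2Space X] {G : Form d X 2 → X → Prop}
    (hopen : ∀ η, IsSmooth η → IsOpen {x | G η x})
    (hcongr : ∀ (η η' : Form d X 2) (x : X), G η x → (∀ᶠ y in 𝓝 x, η' y = η y) → G η' x)
    {K : Set X} (hK : IsCompact K)
    (h : ∀ z ∈ K, ∃ (α : Form d X 1) (η : Form d X 2), Pair α η ∧
      ∀ x ∈ connectedComponentIn K z, G η x) :
    ∃ (α : Form d X 1) (η : Form d X 2), Pair α η ∧ ∀ x ∈ K, G η x := by
  classical
  have : CompactSpace ↥K := isCompact_iff_compactSpace.1 hK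
  have key : ∃ S' : Set ↥K, IsClopen S' ∧ (univ : Set ↥K) ⊆ S' ∧ ∃ (α : Form d X 1)
      (η : Form d X 2), Pair α η ∧ ∀ x : ↥K, x ∈ S' → G η x.1 := by
    refine (isCompact_univ (X := ↥K)).induction_on (p := fun S => ∃ S' : Set ↥K, IsClopen S' ∧
      S ⊆ S' ∧ ∃ (α : Form d X 1) (η : Form d X 2), Pair α η ∧
        ∀ x : ↥K, x ∈ S' → G η x.1) ?_ ?_ ?_ ?_
    · exact ⟨∅, isClopen_empty, subset_rfl, 0, 0, Pair.zero, fun x hx => absurd hx (notMem_empty x)⟩
    · rintro s t hst ⟨S', h1, h2, h3⟩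
      exact ⟨S', h1, hst.trans h2, h3⟩
    · rintro s t ⟨S', h1, h2, α, η, hp, hg⟩ ⟨T', h1', h2', α', η', hp', hg'⟩
      have c1 : IsCompact (Subtype.val '' S') := h1.isClosed.isCompact.image continuous_subtype_val
      have c2 : IsCompact (Subtype.val '' (T' \ S')) :=
        (h1'.diff h1).isClosed.isCompact.image continuous_subtype_val
      have hdis : ∀ x, x ∈ Subtype.val '' S' → x ∉ Subtype.val '' (T' \ S') := by
        rintro _ ⟨x, hx, rfl⟩ ⟨y, hy, hxy⟩
        have h3 : y = x := Subtype.ext hxy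
        rw [h3] at hy
        exact hy.2 hx
      obtain ⟨u, hu, -, hu1, hu0⟩ := cutoff (d := d) c1.isClosed c2.isClosed.isOpen_compl
        (fun x hx => hdis x hx)
      obtain ⟨u', hu', -, hu1', hu0'⟩ := cutoff (d := d) c2.isClosed c1.isClosed.isOpen_compl
        (fun x hx hx' => hdis x hx' hx)
      obtain ⟨α₁, η₁, p1, -, q1⟩ := hp.smulFun hu
      obtain ⟨α₂, η₂, p2, -, q2⟩ := hp'.smulFun hu'
      have hval : ∀ x, (∀ᶠ y in 𝓝 x, u y = 1) → (∀ᶠ y in 𝓝 x, u' y = 0) →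
          ∀ᶠ y in 𝓝 x, (η₁ + η₂) y = η y := by
        intro x e1 e2
        filter_upwards [eventually_eventually_nhds.2 e1, eventually_eventually_nhds.2 e2] with y
          hy1 hy2
        refine ext2 fun v w => ?_
        have h3 : (η₁ + η₂) y ![v, w] = η₁ y ![v, w] + η₂ y ![v, w] := rfl
        rw [h3, q1, q2, dd_eventually_const hy1, dd_eventually_const hy1,
          dd_eventually_const hy2, dd_eventually_const hy2, hy1.self_of_nhds,
          hy2.self_of_nhds]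
        ring
      have hval' : ∀ x, (∀ᶠ y in 𝓝 x, u y = 0) → (∀ᶠ y in 𝓝 x, u' y = 1) →
          ∀ᶠ y in 𝓝 x, (η₁ + η₂) y = η' y := by
        intro x e1 e2
        filter_upwards [eventually_eventually_nhds.2 e1, eventually_eventually_nhds.2 e2] with y
          hy1 hy2
        refine ext2 fun v w => ?_
        have h3 : (η₁ + η₂) y ![v, w] = η₁ y ![v, w] + η₂ y ![v, w] := rfl
        rw [h3, q1, q2, dd_eventually_const hy1, dd_eventually_const hy1,
          dd_eventually_const hy2, dd_eventually_const hy2, hy1.self_of_nhds,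
          hy2.self_of_nhds]
        ring
      refine ⟨S' ∪ T', h1.union h1', union_subset_union h2 h2', α₁ + α₂, η₁ + η₂,
        Pair.add _ _ _ _ p1 p2, fun x hx => ?_⟩
      by_cases hxS : x ∈ S'
      · have hx1 : x.1 ∈ Subtype.val '' S' := ⟨x, hxS, rfl⟩
        exact hcongr _ _ _ (hg x hxS) (hval x.1 (hu1 _ hx1) (hu0' _ (fun h => h hx1)))
      · have hxT : x ∈ T' := hx.resolve_left hxS
        have hx2 : x.1 ∈ Subtype.val '' (T' \ S') := ⟨x, ⟨hxT, hxS⟩, rfl⟩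
        exact hcongr _ _ _ (hg' x hxT) (hval' x.1 (hu0 _ (fun h => h hx2)) (hu1' _ hx2))
    · rintro ⟨z, hz⟩ -
      obtain ⟨α, η, hp, hg⟩ := h z hz
      have hsub : connectedComponent (⟨z, hz⟩ : ↥K) ⊆ Subtype.val ⁻¹' {x | G η x} := by
        intro x hx
        apply hg
        rw [connectedComponentIn_eq_image hz]
        exact ⟨x, hx, rfl⟩
      obtain ⟨s, hs, hzs, hsU⟩ := comp_clopen (⟨z, hz⟩ : ↥K)
        ((hopen η (hp.props hG).2.1).preimage continuous_subtype_val) hsub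
      exact ⟨s, mem_nhdsWithin_of_mem_nhds (hs.isOpen.mem_nhds hzs), s, hs, subset_rfl, α, η, hp,
        fun x hx => hsU hx⟩
  obtain ⟨S', -, h2, α, η, hp, hg⟩ := key
  exact ⟨α, η, hp, fun x hx => hg ⟨x, hx⟩ (h2 (mem_univ _))⟩


variable {P : Type} [TopologicalSpace P]

omit [IsManifold (𝓡 d) ∞ X] [TopologicalSpace P] in
/-- the rate of nondegeneracy in a chart -/
def Rt (σ θ : P → Form d X 2) (x₀ : X) (c : ℝ) (q : P × E d) : Prop :=
  ∀ ε : ℝ, 0 < ε → ε ≤ c → ∀ v : E d, ∃ w : E d, ‖w‖ ≤ 1 ∧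
    c * ε * ‖v‖ ≤ pb (chartAt (E d) x₀).symm (σ q.1) q.2 ![v, w] +
      ε * pb (chartAt (E d) x₀).symm (θ q.1) q.2 ![v, w]

/-- `σ + ε θ` is nondegenerate near `z` at a linear rate -/
def FRate (σ θ : P → Form d X 2) (z : P × X) : Prop :=
  ∃ c : ℝ, 0 < c ∧ ∀ᶠ q in 𝓝 ((z.1, chartAt (E d) z.2 z.2) : P × E d), Rt σ θ z.2 c q

/-- near `z` the forms `σ + ε ((1 - s) θ + s η)` are nondegenerate -/
def FGood (σ θ η : P → Form d X 2) (z : P × X) : Prop :=
  ∃ c : ℝ, 0 < c ∧ ∀ᶠ z' in 𝓝 z, ∀ ε : ℝ, 0 < ε → ε ≤ c → ∀ s : ℝ, 0 ≤ s → s ≤ 1 →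
    nd (mix (σ z'.1) (θ z'.1) (η z'.1) ε s) z'.2

omit [IsManifold (𝓡 d) ∞ X] in
theorem tend_chart {x : X} {z : P × X} (hy : z.2 ∈ (chartAt (E d) x).source) :
    Tendsto (fun z' : P × X => (z'.1, chartAt (E d) x z'.2)) (𝓝 z)
      (𝓝 (z.1, chartAt (E d) x z.2)) := by
  have h3 : ContinuousAt (chartAt (E d) x) z.2 := (chartAt (E d) x).continuousAt hy
  exact continuousAt_fst.prodMk (ContinuousAt.comp (f := Prod.snd) (x := z) h3 continuousAt_snd)

/-- goodness from a rate and closeness -/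
theorem fgood_of {σ θ η : P → Form d X 2} {x : X} {z : P × X}
    (hy : z.2 ∈ (chartAt (E d) x).source) {c : ℝ}
    (hc : 0 < c) (h : ∀ᶠ q in 𝓝 ((z.1, chartAt (E d) x z.2) : P × E d), Rt σ θ x c q ∧
      ‖pb (chartAt (E d) x).symm (η q.1) q.2 - pb (chartAt (E d) x).symm (θ q.1) q.2‖ ≤ c / 2) :
    FGood σ θ η z := by
  refine ⟨c, hc, ?_⟩
  have h1s : ∀ᶠ z' : P × X in 𝓝 z, z'.2 ∈ (chartAt (E d) x).source :=
    continuousAt_snd.eventually ((chartAt (E d) x).open_source.mem_nhds hy)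
  filter_upwards [(tend_chart hy).eventually h, h1s] with z' hz hzs ε h2 h3 s h4 h5
  refine nd_of hzs fun v hv => ?_
  obtain ⟨w, hw, hcw⟩ := hz.1 ε h2 h3 v
  refine ⟨w, ne_of_gt ?_⟩
  obtain ⟨A, hA⟩ : ∃ A, A = pb (chartAt (E d) x).symm (σ z'.1) (chartAt (E d) x z'.2) := ⟨_, rfl⟩
  obtain ⟨B, hB⟩ : ∃ B, B = pb (chartAt (E d) x).symm (θ z'.1) (chartAt (E d) x z'.2) := ⟨_, rfl⟩
  obtain ⟨C, hC⟩ : ∃ C, C = pb (chartAt (E d) x).symm (η z'.1) (chartAt (E d) x z'.2) := ⟨_, rfl⟩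
  have e1 : pb (chartAt (E d) x).symm (mix (σ z'.1) (θ z'.1) (η z'.1) ε s) (chartAt (E d) x z'.2) ![v, w] =
      A ![v, w] + ε * ((1 - s) * B ![v, w] + s * C ![v, w]) := by
    rw [hA, hB, hC]
    rfl
  have h6 := alt_le (C - B) (v := v) hw
  have h7 : (C - B) ![v, w] = C ![v, w] - B ![v, w] := rfl
  have h8 : ‖C - B‖ ≤ c / 2 := by
    rw [hC, hB]
    exact hz.2
  rw [← hA, ← hB] at hcw
  rw [h7] at h6
  have hv0 : 0 < ‖v‖ := norm_pos_iff.2 hv
  have h9 : |C ![v, w] - B ![v, w]| ≤ c / 2 * ‖v‖ :=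
    h6.trans (mul_le_mul_of_nonneg_right h8 hv0.le)
  have h10 : -(c / 2 * ‖v‖) ≤ C ![v, w] - B ![v, w] := (abs_le.1 h9).1
  rw [e1]
  have h11 : s * (C ![v, w] - B ![v, w]) ≥ -(c / 2 * ‖v‖) := by
    have h12 : s * (c / 2 * ‖v‖) ≤ 1 * (c / 2 * ‖v‖) :=
      mul_le_mul_of_nonneg_right h5 (by positivity)
    have h13 := mul_le_mul_of_nonneg_left h10 h4
    linarith
  have h14 : ε * (s * (C ![v, w] - B ![v, w])) ≥ ε * -(c / 2 * ‖v‖) :=
    mul_le_mul_of_nonneg_left h11 h2.le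
  have h15 : 0 < ε * (c / 2 * ‖v‖) := by positivity
  nlinarith

/-- near a point where `σ` is nondegenerate -/
theorem fgood_nd {σ θ η : P → Form d X 2} (hσ : CFam univ σ) (hθ : CFam univ θ)
    (hη : CFam univ η) {p₀ : P} {x : X} (h : nd (σ p₀) x) : ∃ c : ℝ, 0 < c ∧
      ∀ᶠ y : P × X in 𝓝 (p₀, x), ∀ ε : ℝ, 0 ≤ ε → ε ≤ c →
      ∀ s : ℝ, 0 ≤ s → s ≤ 1 → nd (mix (σ y.1) (θ y.1) (η y.1) ε s) y.2 := by
  have hx : x ∈ (chartAt (E d) x).source := mem_chart_source (E d) x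
  have hp : chartAt (E d) x x ∈ (chartAt (E d) x).target := mem_chart_target (E d) x
  have h0 : nd (σ p₀) ((chartAt (E d) x).symm (chartAt (E d) x x)) := by
    rw [(chartAt (E d) x).left_inv hx]
    exact h
  rw [nd_iff x hp] at h0
  obtain ⟨c, hc, hcc⟩ := unif_nd h0
  obtain ⟨A, hA⟩ : ∃ A : P × E d → (E d) [⋀^Fin 2]→L[ℝ] ℝ, A = fun q =>
      pb (chartAt (E d) x).symm (σ q.1) q.2 := ⟨_, rfl⟩
  obtain ⟨B, hB⟩ : ∃ B : P × E d → (E d) [⋀^Fin 2]→L[ℝ] ℝ, B = fun q =>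
      pb (chartAt (E d) x).symm (θ q.1) q.2 := ⟨_, rfl⟩
  obtain ⟨C, hC⟩ : ∃ C : P × E d → (E d) [⋀^Fin 2]→L[ℝ] ℝ, C = fun q =>
      pb (chartAt (E d) x).symm (η q.1) q.2 := ⟨_, rfl⟩
  have hcon : ∀ {τ : P → Form d X 2}, CFam univ τ →
      ContinuousAt (fun q : P × E d => pb (chartAt (E d) x).symm (τ q.1) q.2)
        (p₀, chartAt (E d) x x) := fun hτ =>
    (hτ.zero (chartAt (E d) x).open_target contMDiffOn_chart_symm).continuousAt
      (prod_mem_nhds univ_mem ((chartAt (E d) x).open_target.mem_nhds hp))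
  have cA : ContinuousAt A (p₀, chartAt (E d) x x) := by rw [hA]; exact hcon hσ
  have cB : ContinuousAt B (p₀, chartAt (E d) x x) := by rw [hB]; exact hcon hθ
  have cC : ContinuousAt C (p₀, chartAt (E d) x x) := by rw [hC]; exact hcon hη
  obtain ⟨M, hM⟩ : ∃ M, M = ‖B (p₀, chartAt (E d) x x)‖ + ‖C (p₀, chartAt (E d) x x)‖ + 1 := ⟨_, rfl⟩
  have hM0 : 0 < M := by rw [hM]; positivity
  have e1 : ∀ᶠ p in 𝓝 (p₀, chartAt (E d) x x), ‖A p - A (p₀, chartAt (E d) x x)‖ < c / 4 := by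
    have h1 : ContinuousAt (fun p => ‖A p - A (p₀, chartAt (E d) x x)‖) (p₀, chartAt (E d) x x) :=
      (cA.sub continuousAt_const).norm
    refine h1.eventually (gt_mem_nhds ?_)
    show ‖A (p₀, chartAt (E d) x x) - A (p₀, chartAt (E d) x x)‖ < c / 4
    rw [sub_self, norm_zero]
    positivity
  have e2 : ∀ᶠ p in 𝓝 (p₀, chartAt (E d) x x), ‖B p‖ + ‖C p‖ < M := by
    have h1 : ContinuousAt (fun p => ‖B p‖ + ‖C p‖) (p₀, chartAt (E d) x x) := cB.norm.add cC.norm
    refine h1.eventually (gt_mem_nhds ?_)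
    show ‖B (p₀, chartAt (E d) x x)‖ + ‖C (p₀, chartAt (E d) x x)‖ < M
    rw [hM]
    linarith
  have h1s : ∀ᶠ z' : P × X in 𝓝 (p₀, x), z'.2 ∈ (chartAt (E d) x).source :=
    continuousAt_snd.eventually ((chartAt (E d) x).open_source.mem_nhds hx)
  refine ⟨c / (4 * M), by positivity, ?_⟩
  filter_upwards [(tend_chart (z := (p₀, x)) hx).eventually (e1.and e2), h1s] with z hz hzs
    ε h2 h3 s h4 h5
  refine nd_of hzs fun v hv => ?_
  obtain ⟨w, hw, hcw⟩ := hcc v
  refine ⟨w, ne_of_gt ?_⟩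
  have e3 : pb (chartAt (E d) x).symm (mix (σ z.1) (θ z.1) (η z.1) ε s) (chartAt (E d) x z.2) ![v, w] =
      A (z.1, chartAt (E d) x z.2) ![v, w] + ε * ((1 - s) * B (z.1, chartAt (E d) x z.2) ![v, w] +
        s * C (z.1, chartAt (E d) x z.2) ![v, w]) := by
    rw [hA, hB, hC]
    rfl
  have hcw' : c * ‖v‖ ≤ A (p₀, chartAt (E d) x x) ![v, w] := by
    rw [hA]
    exact hcw
  have hv0 : 0 < ‖v‖ := norm_pos_iff.2 hv
  have g1 := alt_le (A (z.1, chartAt (E d) x z.2) - A (p₀, chartAt (E d) x x)) (v := v) hw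
  have g2 := alt_le (B (z.1, chartAt (E d) x z.2)) (v := v) hw
  have g3 := alt_le (C (z.1, chartAt (E d) x z.2)) (v := v) hw
  have g4 : (A (z.1, chartAt (E d) x z.2) - A (p₀, chartAt (E d) x x)) ![v, w] =
      A (z.1, chartAt (E d) x z.2) ![v, w] - A (p₀, chartAt (E d) x x) ![v, w] := rfl
  rw [g4] at g1
  have g5 : |A (z.1, chartAt (E d) x z.2) ![v, w] - A (p₀, chartAt (E d) x x) ![v, w]| ≤ c / 4 * ‖v‖ :=
    g1.trans (mul_le_mul_of_nonneg_right hz.1.le hv0.le)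
  have g6 := (abs_le.1 g5).1
  have g7 : |(1 - s) * B (z.1, chartAt (E d) x z.2) ![v, w] + s * C (z.1, chartAt (E d) x z.2) ![v, w]| ≤
      M * ‖v‖ := by
    calc |(1 - s) * B (z.1, chartAt (E d) x z.2) ![v, w] + s * C (z.1, chartAt (E d) x z.2) ![v, w]| ≤
        |(1 - s) * B (z.1, chartAt (E d) x z.2) ![v, w]| + |s * C (z.1, chartAt (E d) x z.2) ![v, w]| :=
          abs_add_le _ _
      _ ≤ 1 * (‖B (z.1, chartAt (E d) x z.2)‖ * ‖v‖) + 1 * (‖C (z.1, chartAt (E d) x z.2)‖ * ‖v‖) := by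
          rw [abs_mul, abs_mul]
          refine add_le_add (mul_le_mul ?_ g2 (abs_nonneg _) zero_le_one)
            (mul_le_mul ?_ g3 (abs_nonneg _) zero_le_one)
          · rw [abs_of_nonneg (by linarith)]
            linarith
          · rw [abs_of_nonneg h4]
            exact h5
      _ = (‖B (z.1, chartAt (E d) x z.2)‖ + ‖C (z.1, chartAt (E d) x z.2)‖) * ‖v‖ := by ring
      _ ≤ M * ‖v‖ := mul_le_mul_of_nonneg_right hz.2.le hv0.le
  have g8 := (abs_le.1 g7).1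
  have g9 : ε * (M * ‖v‖) ≤ c / 4 * ‖v‖ := by
    have h6 : ε * M ≤ c / 4 := by
      have h7 := mul_le_mul_of_nonneg_right h3 hM0.le
      have h8 : c / (4 * M) * M = c / 4 := by field_simp
      linarith
    have h7 := mul_le_mul_of_nonneg_right h6 hv0.le
    linarith
  have g10 := mul_le_mul_of_nonneg_left g8 h2
  have g11 : 0 < c * ‖v‖ := by positivity
  rw [e3]
  nlinarith


omit [IsManifold (𝓡 d) ∞ X] in
theorem fin_min {ι : Type} (t : Finset ι) (Q : ι → ℝ → Prop)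
    (mono : ∀ i δ δ', δ' ≤ δ → Q i δ → Q i δ') (h : ∀ i ∈ t, ∃ δ : ℝ, 0 < δ ∧ Q i δ) :
    ∃ δ : ℝ, 0 < δ ∧ ∀ i ∈ t, Q i δ := by
  classical
  induction t using Finset.induction_on with
  | empty => exact ⟨1, one_pos, fun i hi => absurd hi (Finset.notMem_empty i)⟩
  | insert a t ha ih =>
    obtain ⟨δ, hδ, h1⟩ := ih fun i hi => h i (Finset.mem_insert_of_mem hi)
    obtain ⟨δ', hδ', h1'⟩ := h a (Finset.mem_insert_self a t)
    refine ⟨min δ δ', lt_min hδ hδ', fun i hi => ?_⟩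
    rcases Finset.mem_insert.1 hi with rfl | hi
    · exact mono _ _ _ (min_le_right _ _) h1'
    · exact mono _ _ _ (min_le_left _ _) (h1 i hi)

omit [IsManifold (𝓡 d) ∞ X] in
/-- finitely many patches of the set of degenerate points -/
theorem patches [CompactSpace X] [T2Space X] [CompactSpace P] [T2Space P]
    {σ θ : P → Form d X 2} {F : Set (P × X)} (hF : IsCompact F)
    (hR : ∀ z ∈ F, FRate σ θ z) :
    ∃ (t : Finset (P × X)) (c : P × X → ℝ) (N : P × X → Set (P × X)), (∀ o, 0 < c o) ∧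
      (∀ o, IsClosed (N o)) ∧ (F ⊆ ⋃ o ∈ t, interior (N o)) ∧
      ∀ o, ∀ z ∈ N o, z.2 ∈ (chartAt (E d) o.2).source ∧
        ∀ᶠ q in 𝓝 ((z.1, chartAt (E d) o.2 z.2) : P × E d), Rt σ θ o.2 (c o) q := by
  classical
  have hloc : ∀ o : P × X, ∃ (c : ℝ) (N : Set (P × X)), 0 < c ∧ IsClosed N ∧ (o ∈ F → N ∈ 𝓝 o) ∧
      ∀ z ∈ N, z.2 ∈ (chartAt (E d) o.2).source ∧
        ∀ᶠ q in 𝓝 ((z.1, chartAt (E d) o.2 z.2) : P × E d), Rt σ θ o.2 c q := by
    intro o
    by_cases ho : o ∈ F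
    · obtain ⟨c, hc, h1⟩ := hR o ho
      have hs : o.2 ∈ (chartAt (E d) o.2).source := mem_chart_source (E d) o.2
      have h2 := (tend_chart hs).eventually (eventually_eventually_nhds.2 h1)
      have h3 : ∀ᶠ z' : P × X in 𝓝 o, z'.2 ∈ (chartAt (E d) o.2).source :=
        continuousAt_snd.eventually ((chartAt (E d) o.2).open_source.mem_nhds hs)
      obtain ⟨N, hN, hNc, hNs⟩ := exists_mem_nhds_isClosed_subset (h3.and h2)
      exact ⟨c, N, hc, hNc, fun _ => hN, fun z hz => hNs hz⟩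
    · exact ⟨1, ∅, one_pos, isClosed_empty, fun h => absurd h ho,
        fun z hz => absurd hz (notMem_empty z)⟩
  choose c N hc hNc hN hNs using hloc
  obtain ⟨t, -, ht⟩ := hF.elim_nhds_subcover (fun o => interior (N o)) fun o ho =>
    interior_mem_nhds.2 (hN o ho)
  exact ⟨t, c, N, hc, hNc, ht, hNs⟩

/-- `η` is close to `θ` at `z` -/
def Cl (θ : P → Form d X 2) (t : Finset (P × X)) (c : P × X → ℝ) (N : P × X → Set (P × X))
    (η : Form d X 2) (z : P × X) : Prop :=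
  ∀ o ∈ t, z ∈ N o → ‖pb (chartAt (E d) o.2).symm η (chartAt (E d) o.2 z.2) -
    pb (chartAt (E d) o.2).symm (θ z.1) (chartAt (E d) o.2 z.2)‖ < c o / 2

theorem isOpen_Cl {θ : P → Form d X 2} (hθ : CFam univ θ) {t : Finset (P × X)} {c : P × X → ℝ}
    {N : P × X → Set (P × X)} (hNc : ∀ o, IsClosed (N o))
    (hNs : ∀ o, ∀ z ∈ N o, z.2 ∈ (chartAt (E d) o.2).source) {η : Form d X 2} (hη : IsSmooth η) :
    IsOpen {z | Cl θ t c N η z} := by
  rw [isOpen_iff_eventually]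
  intro z hz
  have h1 : ∀ o ∈ t, ∀ᶠ z' in 𝓝 z, z' ∈ N o →
      ‖pb (chartAt (E d) o.2).symm η (chartAt (E d) o.2 z'.2) -
        pb (chartAt (E d) o.2).symm (θ z'.1) (chartAt (E d) o.2 z'.2)‖ < c o / 2 := by
    intro o ho
    by_cases hzN : z ∈ N o
    · have hs := hNs o z hzN
      have ht : chartAt (E d) o.2 z.2 ∈ (chartAt (E d) o.2).target :=
        (chartAt (E d) o.2).map_source hs
      have hn : univ ×ˢ (chartAt (E d) o.2).target ∈ 𝓝 (z.1, chartAt (E d) o.2 z.2) :=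
        prod_mem_nhds univ_mem ((chartAt (E d) o.2).open_target.mem_nhds ht)
      have c1 : ContinuousAt (fun q : P × E d => pb (chartAt (E d) o.2).symm (θ q.1) q.2)
          (z.1, chartAt (E d) o.2 z.2) :=
        (hθ.zero (chartAt (E d) o.2).open_target contMDiffOn_chart_symm).continuousAt hn
      have c2 : ContinuousAt (fun q : P × E d => pb (chartAt (E d) o.2).symm η q.2)
          (z.1, chartAt (E d) o.2 z.2) :=
        ((CFam.const (P := P) (S := univ) hη).zero (chartAt (E d) o.2).open_target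
          contMDiffOn_chart_symm).continuousAt hn
      have c3 := (c2.sub c1).norm
      have c4 : ∀ᶠ q : P × E d in 𝓝 (z.1, chartAt (E d) o.2 z.2),
          ‖pb (chartAt (E d) o.2).symm η q.2 - pb (chartAt (E d) o.2).symm (θ q.1) q.2‖ < c o / 2 :=
        c3.eventually (gt_mem_nhds (hz o ho hzN))
      filter_upwards [(tend_chart hs).eventually c4] with z' hz' _
      exact hz'
    · filter_upwards [(hNc o).isOpen_compl.mem_nhds hzN] with z' hz' h
      exact absurd h hz'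
  filter_upwards [(Filter.eventually_all_finset t).2 h1] with z' hz' o ho
  exact hz' o ho

omit [IsManifold (𝓡 d) ∞ X] [TopologicalSpace P] in
theorem Cl.congr {θ : P → Form d X 2} {t : Finset (P × X)} {c : P × X → ℝ}
    {N : P × X → Set (P × X)} (hNs : ∀ o, ∀ z ∈ N o, z.2 ∈ (chartAt (E d) o.2).source)
    {η η' : Form d X 2} {z : P × X} (h : Cl θ t c N η z) (he : η' z.2 = η z.2) :
    Cl θ t c N η' z := by
  intro o ho hz
  have h1 := h o ho hz
  have h2 : pb (chartAt (E d) o.2).symm η' (chartAt (E d) o.2 z.2) =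
      pb (chartAt (E d) o.2).symm η (chartAt (E d) o.2 z.2) := by
    have h3 := (chartAt (E d) o.2).left_inv (hNs o z hz)
    have h4 : η' ((chartAt (E d) o.2).symm (chartAt (E d) o.2 z.2)) =
        η ((chartAt (E d) o.2).symm (chartAt (E d) o.2 z.2)) := by
      rw [h3]
      exact he
    unfold pb
    rw [h4]
  rw [h2]
  exact h1

omit [IsManifold (𝓡 d) ∞ X] [TopologicalSpace P] in
theorem convex_Cl (θ : P → Form d X 2) (t : Finset (P × X)) (c : P × X → ℝ)
    (N : P × X → Set (P × X)) (z : P × X) : Convex ℝ {η : Form d X 2 | Cl θ t c N η z} := by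
  intro η h η' h' a b ha hb hab o ho hz
  have h1 := h o ho hz
  have h2 := h' o ho hz
  have e1 : pb (chartAt (E d) o.2).symm (a • η + b • η') (chartAt (E d) o.2 z.2) -
      pb (chartAt (E d) o.2).symm (θ z.1) (chartAt (E d) o.2 z.2) =
      a • (pb (chartAt (E d) o.2).symm η (chartAt (E d) o.2 z.2) -
        pb (chartAt (E d) o.2).symm (θ z.1) (chartAt (E d) o.2 z.2)) +
      b • (pb (chartAt (E d) o.2).symm η' (chartAt (E d) o.2 z.2) -
        pb (chartAt (E d) o.2).symm (θ z.1) (chartAt (E d) o.2 z.2)) := by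
    have e2 : pb (chartAt (E d) o.2).symm (a • η + b • η') (chartAt (E d) o.2 z.2) =
        a • pb (chartAt (E d) o.2).symm η (chartAt (E d) o.2 z.2) +
        b • pb (chartAt (E d) o.2).symm η' (chartAt (E d) o.2 z.2) := rfl
    have e3 : pb (chartAt (E d) o.2).symm (θ z.1) (chartAt (E d) o.2 z.2) =
        a • pb (chartAt (E d) o.2).symm (θ z.1) (chartAt (E d) o.2 z.2) +
        b • pb (chartAt (E d) o.2).symm (θ z.1) (chartAt (E d) o.2 z.2) := by
      rw [← add_smul, hab, one_smul]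
    rw [e2, smul_sub, smul_sub]
    nth_rewrite 1 [e3]
    abel
  rw [e1]
  refine lt_of_le_of_lt (norm_add_le _ _) ?_
  rw [norm_smul, norm_smul, Real.norm_eq_abs, Real.norm_eq_abs, abs_of_nonneg ha, abs_of_nonneg hb]
  rcases eq_or_lt_of_le ha with h0 | h0
  · have hb1 : b = 1 := by linarith
    rw [← h0, hb1, zero_mul, zero_add, one_mul]
    exact h2
  · have h3 := mul_lt_mul_of_pos_left h1 h0
    have h4 := mul_le_mul_of_nonneg_left h2.le hb
    have h5 : a * (c o / 2) + b * (c o / 2) = c o / 2 := by rw [← add_mul, hab, one_mul]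
    linarith

/-- closeness on a compact set -/
theorem comp_close (hG : S_GEN) (hPl : S_PLANAR) {θ : P → Form d X 2} {p : P}
    {t : Finset (P × X)} {c : P × X → ℝ} {N : P × X → Set (P × X)} (hc : ∀ o, 0 < c o)
    (hNc : ∀ o, IsClosed (N o)) (hNs : ∀ o, ∀ z ∈ N o, z.2 ∈ (chartAt (E d) o.2).source)
    {C : Set X} (hC : IsCompact C) (hN : NullSum (θ p) C) :
    ∃ (α : Form d X 1) (η : Form d X 2), Pair α η ∧ ∀ x ∈ C, Cl θ t c N η (p, x) := by
  classical
  obtain ⟨n, c', a, b, hc', ha, hb, hnull, hrep⟩ := hN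
  obtain ⟨e, he, happ⟩ := approx hG hPl hC c' a b hc' ha hb hnull
  obtain ⟨δ, hδ, hp⟩ : ∃ δ : ℝ, 0 < δ ∧ ∀ o ∈ t, ∀ y ∈ C, (p, y) ∈ N o → ∀ η : Form d X 2,
      (∃ r : Fin n × Bool → ℝ, (∀ k, |r k| ≤ δ) ∧
        ∀ v w : TangentSpace (𝓡 d) y, η y ![v, w] = θ p y ![v, w] + ∑ k, r k * e k y ![v, w]) →
      ‖pb (chartAt (E d) o.2).symm η (chartAt (E d) o.2 y) -
        pb (chartAt (E d) o.2).symm (θ p) (chartAt (E d) o.2 y)‖ < c o / 2 := by
    refine fin_min t (fun o δ => ∀ y ∈ C, (p, y) ∈ N o → ∀ η : Form d X 2,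
      (∃ r : Fin n × Bool → ℝ, (∀ k, |r k| ≤ δ) ∧
        ∀ v w : TangentSpace (𝓡 d) y, η y ![v, w] = θ p y ![v, w] + ∑ k, r k * e k y ![v, w]) →
      ‖pb (chartAt (E d) o.2).symm η (chartAt (E d) o.2 y) -
        pb (chartAt (E d) o.2).symm (θ p) (chartAt (E d) o.2 y)‖ < c o / 2)
      (fun o δ δ' hle h y hy hyN η hη => h y hy hyN η (by
        obtain ⟨r, hr, h1⟩ := hη
        exact ⟨r, fun k => (hr k).trans hle, h1⟩)) fun o _ => ?_
    have hC' : IsCompact (C ∩ {y | (p, y) ∈ N o}) :=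
      hC.inter_right ((hNc o).preimage (by fun_prop))
    obtain ⟨m, hm⟩ : ∃ m : X → ℝ, m = fun y =>
      ∑ k, ‖pb (chartAt (E d) o.2).symm (e k) (chartAt (E d) o.2 y)‖ := ⟨_, rfl⟩
    have hmc : ContinuousOn m (C ∩ {y | (p, y) ∈ N o}) := by
      rw [hm]
      refine continuousOn_finsetSum _ fun k _ => ContinuousOn.norm ?_
      have h1 : ContinuousOn (pb (chartAt (E d) o.2).symm (e k)) (chartAt (E d) o.2).target :=
        (he k _ _ (chartAt (E d) o.2).open_target contMDiffOn_chart_symm).continuousOn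
      have h2 : ContinuousOn (chartAt (E d) o.2) (C ∩ {y | (p, y) ∈ N o}) :=
        (chartAt (E d) o.2).continuousOn.mono fun y hy => hNs o _ hy.2
      exact h1.comp h2 fun y hy => (chartAt (E d) o.2).map_source (hNs o _ hy.2)
    obtain ⟨B, hB⟩ := hC'.exists_bound_of_continuousOn hmc
    refine ⟨c o / (4 * (|B| + 1)), by have := hc o; positivity, fun y hy hyN η hη => ?_⟩
    obtain ⟨r, hr, heq⟩ := hη
    have hle := (chartAt (E d) o.2).left_inv (hNs o _ hyN)
    have heq' : ∀ v w : TangentSpace (𝓡 d) ((chartAt (E d) o.2).symm (chartAt (E d) o.2 y)),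
        η ((chartAt (E d) o.2).symm (chartAt (E d) o.2 y)) ![v, w] =
          θ p ((chartAt (E d) o.2).symm (chartAt (E d) o.2 y)) ![v, w] +
            ∑ k, r k * e k ((chartAt (E d) o.2).symm (chartAt (E d) o.2 y)) ![v, w] := by
      have hle' : (chartAt (E d) o.2).symm (chartAt (E d) o.2 y) = y := hle
      rw [hle']
      exact heq
    have hdiff : pb (chartAt (E d) o.2).symm η (chartAt (E d) o.2 y) -
        pb (chartAt (E d) o.2).symm (θ p) (chartAt (E d) o.2 y) =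
          ∑ k, r k • pb (chartAt (E d) o.2).symm (e k) (chartAt (E d) o.2 y) := by
      ext u
      have h3 : u = ![u 0, u 1] := by
        funext i
        fin_cases i <;> rfl
      have h4 : (∑ k, r k • pb (chartAt (E d) o.2).symm (e k) (chartAt (E d) o.2 y)) ![u 0, u 1] =
          ∑ k, r k * pb (chartAt (E d) o.2).symm (e k) (chartAt (E d) o.2 y) ![u 0, u 1] := by
        rw [ContinuousAlternatingMap.sum_apply]
        rfl
      have h5 : (pb (chartAt (E d) o.2).symm η (chartAt (E d) o.2 y) -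
          pb (chartAt (E d) o.2).symm (θ p) (chartAt (E d) o.2 y)) ![u 0, u 1] =
          pb (chartAt (E d) o.2).symm η (chartAt (E d) o.2 y) ![u 0, u 1] -
            pb (chartAt (E d) o.2).symm (θ p) (chartAt (E d) o.2 y) ![u 0, u 1] := rfl
      rw [h3, h4, h5, pb_apply2, pb_apply2, heq', add_sub_cancel_left]
      refine Finset.sum_congr rfl fun k _ => ?_
      rw [pb_apply2]
    have hmB : m y ≤ |B| + 1 := by
      have h1 := hB y ⟨hy, hyN⟩
      have h2 : m y ≤ ‖m y‖ := le_abs_self _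
      have h3 : B ≤ |B| := le_abs_self _
      linarith
    have hB0 : 0 < |B| + 1 := by positivity
    have hc0 := hc o
    have hnorm : ‖pb (chartAt (E d) o.2).symm η (chartAt (E d) o.2 y) -
        pb (chartAt (E d) o.2).symm (θ p) (chartAt (E d) o.2 y)‖ ≤ c o / 4 := by
      rw [hdiff]
      calc ‖∑ k, r k • pb (chartAt (E d) o.2).symm (e k) (chartAt (E d) o.2 y)‖ ≤
          ∑ k, ‖r k • pb (chartAt (E d) o.2).symm (e k) (chartAt (E d) o.2 y)‖ := norm_sum_le _ _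
        _ ≤ ∑ k, c o / (4 * (|B| + 1)) *
            ‖pb (chartAt (E d) o.2).symm (e k) (chartAt (E d) o.2 y)‖ := by
            refine Finset.sum_le_sum fun k _ => ?_
            rw [norm_smul, Real.norm_eq_abs]
            exact mul_le_mul_of_nonneg_right (hr k) (norm_nonneg _)
        _ = c o / (4 * (|B| + 1)) * m y := by
            rw [hm, Finset.mul_sum]
        _ ≤ c o / (4 * (|B| + 1)) * (|B| + 1) := mul_le_mul_of_nonneg_left hmB (by positivity)
        _ = c o / 4 := by field_simp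
    linarith
  obtain ⟨α, η, hpair, hη⟩ := happ δ hδ
  refine ⟨α, η, hpair, fun x hx o ho hxN => hp o ho x hx hxN η ?_⟩
  obtain ⟨r, hr, h1⟩ := hη x hx
  refine ⟨r, hr, fun v w => ?_⟩
  rw [h1, hrep x hx]

theorem sum_props {ι : Type} (s : Finset ι) (r : ι → ℝ) {α : ι → Form d X 1}
    {η : ι → Form d X 2} (h : ∀ i, IsSmooth (α i) ∧ IsSmooth (η i) ∧ IsD (α i) (η i) ∧
      IsClosedForm (η i)) :
    IsSmooth (∑ i ∈ s, r i • α i) ∧ IsSmooth (∑ i ∈ s, r i • η i) ∧
      IsD (∑ i ∈ s, r i • α i) (∑ i ∈ s, r i • η i) ∧ IsClosedForm (∑ i ∈ s, r i • η i) := by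
  classical
  induction s using Finset.induction_on with
  | empty =>
    simp only [Finset.sum_empty]
    exact ⟨IsSmooth.zero, IsSmooth.zero, IsD.zero, IsD.zero⟩
  | insert a s ha ih =>
    simp only [Finset.sum_insert ha]
    obtain ⟨h1, h2, h3, h4⟩ := ih
    obtain ⟨g1, g2, g3, g4⟩ := h a
    have k1 := g1.smul (r a)
    have k2 := g2.smul (r a)
    have k3 := g3.smul (r a)
    have k4 : IsClosedForm (r a • η a) := by
      have := IsD.smul (η := (0 : Form d X 3)) (c := r a) g4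
      rwa [smul_zero] at this
    refine ⟨k1.add h1, k2.add h2, k3.add h3 k1 h1, ?_⟩
    have := k4.add h4 k2 h2
    rwa [add_zero] at this

/-- **The theorem for families.** -/
theorem ndFam (hG : S_GEN) (hPl : S_PLANAR) [CompactSpace X] [T2Space X] [CompactSpace P]
    [T2Space P] {σ θ : P → Form d X 2} (hσ : CFam univ σ) (hθ : CFam univ θ)
    (hR : ∀ (p : P) (x : X), ¬ nd (σ p) x → FRate σ θ (p, x))
    (hN : ∀ (p : P) (z : X), ¬ nd (σ p) z →
      NullSum (θ p) (connectedComponentIn {x | ¬ nd (σ p) x} z)) :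
    ∃ (α : P → Form d X 1) (η : P → Form d X 2), CFam univ α ∧ CFam univ η ∧
      (∀ p, IsSmooth (α p) ∧ IsSmooth (η p) ∧ IsD (α p) (η p) ∧ IsClosedForm (η p)) ∧
      ∃ ε₀ : ℝ, 0 < ε₀ ∧ ∀ ε : ℝ, 0 < ε → ε ≤ ε₀ → ∀ s : ℝ, 0 ≤ s → s ≤ 1 →
        ∀ p x, nd (mix (σ p) (θ p) (η p) ε s) x := by
  classical
  obtain ⟨F, hFdef⟩ : ∃ F : Set (P × X), F = {z | ¬ nd (σ z.1) z.2} := ⟨_, rfl⟩
  have hmemF : ∀ z, z ∈ F ↔ ¬ nd (σ z.1) z.2 := fun z => by rw [hFdef]; rfl
  have hFc : IsClosed F := by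
    rw [← isOpen_compl_iff, isOpen_iff_eventually]
    rintro ⟨p, x⟩ hx
    have hx' : nd (σ p) x := by
      by_contra h
      exact hx ((hmemF _).2 h)
    obtain ⟨c, hc, h1⟩ := fgood_nd hσ hθ hθ hx'
    filter_upwards [h1] with y hy h
    refine (hmemF _).1 h (nd_congr ?_ (hy 0 le_rfl hc.le 0 le_rfl zero_le_one))
    show σ y.1 y.2 + (0 : ℝ) • ((1 - (0 : ℝ)) • θ y.1 y.2 + (0 : ℝ) • θ y.1 y.2) = σ y.1 y.2
    rw [zero_smul, add_zero]
  have hFk : IsCompact F := hFc.isCompact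
  obtain ⟨t, c, N, hc, hNc, hcov, hNs'⟩ := patches hFk
    (fun z hz => hR z.1 z.2 ((hmemF z).1 hz))
  have hNs : ∀ o, ∀ z ∈ N o, z.2 ∈ (chartAt (E d) o.2).source := fun o z hz => (hNs' o z hz).1
  -- single parameters
  have hex : ∀ p : P, ∃ (α : Form d X 1) (η : Form d X 2), Pair α η ∧
      ∀ x ∈ {x | ¬ nd (σ p) x}, Cl θ t c N η (p, x) := by
    intro p
    have hK : IsCompact {x | ¬ nd (σ p) x} := by
      have h1 : {x | ¬ nd (σ p) x} = (fun x => (p, x)) ⁻¹' F := by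
        ext x
        exact (hmemF (p, x)).symm
      rw [h1]
      exact (hFc.preimage (by fun_prop)).isCompact
    refine glue_gen hG (G := fun η x => Cl θ t c N η (p, x)) (fun η hη => ?_) ?_ hK
      (fun z hz => comp_close hG hPl hc hNc hNs (compact_comp hK hz) (hN p z hz))
    · exact (isOpen_Cl hθ hNc hNs hη).preimage (by fun_prop : Continuous fun x : X => (p, x))
    · intro η η' x h he
      exact h.congr hNs he.self_of_nhds
  choose α₀ η₀ hpair hcl using hex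
  have hprops := fun p => (hpair p).props hG
  obtain ⟨G, hGd⟩ : ∃ G : P → Set P, ∀ o, G o = interior {p | ∀ x, (p, x) ∈ F →
      Cl θ t c N (η₀ o) (p, x)} := ⟨_, fun _ => rfl⟩
  have hGo : ∀ o, IsOpen (G o) := fun o => by rw [hGd]; exact isOpen_interior
  have hGs : ∀ o, ∀ p ∈ G o, ∀ x, (p, x) ∈ F → Cl θ t c N (η₀ o) (p, x) := by
    intro o p hp
    rw [hGd] at hp
    have h1 := interior_subset hp
    exact h1
  have hGm : ∀ o, o ∈ G o := by
    intro o
    rw [hGd, mem_interior_iff_mem_nhds]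
    have key : ∀ x ∈ (univ : Set X), ∀ᶠ z : P × X in 𝓝 (o, x), z ∈ F →
        Cl θ t c N (η₀ o) z := by
      intro x _
      by_cases hx : (o, x) ∈ F
      · have h1 := (isOpen_Cl hθ hNc hNs (t := t) (c := c) (hprops o).2.1).mem_nhds
          (show (o, x) ∈ {z | Cl θ t c N (η₀ o) z} from hcl o x ((hmemF _).1 hx))
        filter_upwards [h1] with z hz _
        exact hz
      · filter_upwards [hFc.isOpen_compl.mem_nhds hx] with z hz h
        exact absurd h hz
    have h1 := IsCompact.eventually_forall_of_forall_eventually (x₀ := o)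
      (isCompact_univ (X := X)) (P := fun p x => (p, x) ∈ F → Cl θ t c N (η₀ o) (p, x)) key
    filter_upwards [h1] with p hp x
    exact hp x (mem_univ x)
  obtain ⟨t', ht'⟩ := isCompact_univ.elim_finite_subcover G hGo
    (fun p _ => mem_iUnion.2 ⟨p, hGm p⟩)
  obtain ⟨f, hf⟩ := PartitionOfUnity.exists_isSubordinate isClosed_univ
    (fun i : {o // o ∈ t'} => G i.1) (fun i => hGo i.1) (by
      intro p hp
      obtain ⟨o, ho, hpo⟩ := mem_iUnion₂.1 (ht' hp)
      exact mem_iUnion.2 ⟨⟨o, ho⟩, hpo⟩)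
  have hfs : ∀ p, ∑ i, f i p = 1 := by
    intro p
    have h1 := f.sum_eq_one (mem_univ p)
    rwa [finsum_eq_sum_of_fintype] at h1
  have hf0 : ∀ i p, f i p ≠ 0 → p ∈ G i.1 := fun i p h =>
    hf i (subset_tsupport _ h)
  have hconv : ∀ (K : Set (Form d X 2)), Convex ℝ K → ∀ p, (∀ i : {o // o ∈ t'}, f i p ≠ 0 →
      η₀ i.1 ∈ K) → ∑ i, f i p • η₀ i.1 ∈ K := by
    intro K hK p h
    have h1 : ∑ i, f i p • η₀ i.1 = ∑ i ∈ Finset.univ.filter (fun i => f i p ≠ 0),
        f i p • η₀ i.1 := by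
      rw [Finset.sum_filter_of_ne]
      intro i _ h2 h3
      exact h2 (by rw [h3, zero_smul])
    rw [h1]
    refine hK.sum_mem (fun i _ => f.nonneg i p) ?_ fun i hi => h i (Finset.mem_filter.1 hi).2
    rw [← hfs p, Finset.sum_filter_of_ne]
    intro i _ h2
    exact h2
  have c1 := CFam.sum (S := (univ : Set P)) (Finset.univ : Finset {o // o ∈ t'})
    (A := fun i p => f i p • α₀ i.1)
    (fun i => (CFam.cut (G := univ) (CFam.const (hprops i.1).1) isOpen_univ (f i).continuous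
      (subset_univ _) (fun _ _ => (hprops i.1).1)).1)
    (fun i p _ => (hprops i.1).1.smul _)
  have c2 := CFam.sum (S := (univ : Set P)) (Finset.univ : Finset {o // o ∈ t'})
    (A := fun i p => f i p • η₀ i.1)
    (fun i => (CFam.cut (G := univ) (CFam.const (hprops i.1).2.1) isOpen_univ (f i).continuous
      (subset_univ _) (fun _ _ => (hprops i.1).2.1)).1)
    (fun i p _ => (hprops i.1).2.1.smul _)
  obtain ⟨η, hη⟩ : ∃ η : P → Form d X 2, η = fun p => ∑ i : {o // o ∈ t'}, f i p • η₀ i.1 :=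
    ⟨_, rfl⟩
  have hηc : CFam univ η := by rw [hη]; exact c2.1
  have hηcl : ∀ z ∈ F, Cl θ t c N (η z.1) z := by
    intro z hz
    rw [hη]
    exact hconv _ (convex_Cl θ t c N z) z.1 fun i h => hGs i.1 z.1 (hf0 i z.1 h) z.2 hz
  have hgood : ∀ z : P × X, FGood σ θ η z := by
    intro z
    by_cases hz : z ∈ F
    · obtain ⟨o, ho, hzo⟩ := mem_iUnion₂.1 (hcov hz)
      have hzN : z ∈ N o := interior_subset hzo
      obtain ⟨hs, hrate⟩ := hNs' o z hzN
      refine fgood_of hs (hc o) ?_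
      have ht : chartAt (E d) o.2 z.2 ∈ (chartAt (E d) o.2).target :=
        (chartAt (E d) o.2).map_source hs
      have hn : univ ×ˢ (chartAt (E d) o.2).target ∈ 𝓝 (z.1, chartAt (E d) o.2 z.2) :=
        prod_mem_nhds univ_mem ((chartAt (E d) o.2).open_target.mem_nhds ht)
      have d1 : ContinuousAt (fun q : P × E d => pb (chartAt (E d) o.2).symm (θ q.1) q.2)
          (z.1, chartAt (E d) o.2 z.2) :=
        (hθ.zero (chartAt (E d) o.2).open_target contMDiffOn_chart_symm).continuousAt hn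
      have d2 : ContinuousAt (fun q : P × E d => pb (chartAt (E d) o.2).symm (η q.1) q.2)
          (z.1, chartAt (E d) o.2 z.2) :=
        (hηc.zero (chartAt (E d) o.2).open_target contMDiffOn_chart_symm).continuousAt hn
      have d3 : ∀ᶠ q : P × E d in 𝓝 (z.1, chartAt (E d) o.2 z.2),
          ‖pb (chartAt (E d) o.2).symm (η q.1) q.2 -
            pb (chartAt (E d) o.2).symm (θ q.1) q.2‖ < c o / 2 :=
        (d2.sub d1).norm.eventually (gt_mem_nhds (hηcl z hz o ho hzN))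
      filter_upwards [hrate, d3] with q h1 h2
      exact ⟨h1, h2.le⟩
    · have hz' : nd (σ z.1) z.2 := by
        by_contra h
        exact hz ((hmemF z).2 h)
      obtain ⟨c', hc', h1⟩ := fgood_nd (p₀ := z.1) (x := z.2) hσ hθ hηc hz'
      exact ⟨c', hc', h1.mono fun y hy ε h2 h3 s h4 h5 => hy ε h2.le h3 s h4 h5⟩
  obtain ⟨ε₀, hε₀, hfin⟩ := Pool.Agent.Y501.SY.unif (X := P × X) isCompact_univ
    (fun ε y => ∀ ε' : ℝ, 0 < ε' → ε' ≤ ε → ∀ s : ℝ, 0 ≤ s → s ≤ 1 →
      nd (mix (σ y.1) (θ y.1) (η y.1) ε' s) y.2)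
    (fun ε ε' y hle hp ε'' h0 h1 => hp ε'' h0 (h1.trans hle))
    (fun z _ => hgood z)
  refine ⟨fun p => ∑ i, f i p • α₀ i.1, η, c1.1, hηc, fun p => ?_, ε₀, hε₀,
    fun ε h1 h2 s h3 h4 p x => hfin (p, x) (mem_univ _) ε h1 h2 s h3 h4⟩
  rw [hη]
  exact sum_props Finset.univ (fun i : {o // o ∈ t'} => f i p) (α := fun i => α₀ i.1)
    (η := fun i => η₀ i.1) fun i => hprops i.1

end Pool.Agent.Q130.SF
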