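import Pool.Agent.Q130.SF.Dec

/-!
# Two-forms in dimension four: the Pfaffian
-/

set_option autoImplicit false

open Set Filter Topology
open scoped Manifold ContDiff

noncomputable section

namespace Pool.Agent.Q130.SF

open Pool.Agent.Y501.SY

section

variable {V : Type} [NormedAddCommGroup V] [NormedSpace ℝ V]

/-- the value of `A ∧ B` -/
def mx (A B : V [⋀^Fin 2]→L[ℝ] ℝ) (v : Fin 4 → V) : ℝ :=
  A ![v 0, v 1] * B ![v 2, v 3] - A ![v 0, v 2] * B ![v 1, v 3] + A ![v 0, v 3] * B ![v 1, v 2] +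
    A ![v 2, v 3] * B ![v 0, v 1] - A ![v 1, v 3] * B ![v 0, v 2] + A ![v 1, v 2] * B ![v 0, v 3]

/-- half of the value of `A ∧ A` -/
def pf (A : V [⋀^Fin 2]→L[ℝ] ℝ) (v : Fin 4 → V) : ℝ :=
  A ![v 0, v 1] * A ![v 2, v 3] - A ![v 0, v 2] * A ![v 1, v 3] + A ![v 0, v 3] * A ![v 1, v 2]

theorem pf_add (A B : V [⋀^Fin 2]→L[ℝ] ℝ) (ε : ℝ) (v : Fin 4 → V) :
    pf (A + ε • B) v = pf A v + ε * mx A B v + ε ^ 2 * pf B v := by
  simp only [pf, mx, ContinuousAlternatingMap.add_apply, ContinuousAlternatingMap.smul_apply,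
    smul_eq_mul]
  ring

theorem mx_add (A B B' : V [⋀^Fin 2]→L[ℝ] ℝ) (v : Fin 4 → V) :
    mx A (B + B') v = mx A B v + mx A B' v := by
  simp only [mx, ContinuousAlternatingMap.add_apply]
  ring

theorem mx_smul (A B : V [⋀^Fin 2]→L[ℝ] ℝ) (c : ℝ) (v : Fin 4 → V) :
    mx A (c • B) v = c * mx A B v := by
  simp only [mx, ContinuousAlternatingMap.smul_apply, smul_eq_mul]
  ring

theorem mx_self (A : V [⋀^Fin 2]→L[ℝ] ℝ) (v : Fin 4 → V) : mx A A v = 2 * pf A v := by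
  simp only [mx, pf]
  ring

theorem mx_zero (A : V [⋀^Fin 2]→L[ℝ] ℝ) (v : Fin 4 → V) : mx A 0 v = 0 := by
  have h0 : ∀ u : Fin 2 → V, (0 : V [⋀^Fin 2]→L[ℝ] ℝ) u = 0 := fun u => rfl
  simp only [mx, h0]
  ring

theorem ev_cont (v w : V) : Continuous fun A : V [⋀^Fin 2]→L[ℝ] ℝ => A ![v, w] :=
  (ContinuousAlternatingMap.apply ℝ V ℝ ![v, w]).continuous

theorem mx_cont (v : Fin 4 → V) :
    Continuous fun z : (V [⋀^Fin 2]→L[ℝ] ℝ) × (V [⋀^Fin 2]→L[ℝ] ℝ) => mx z.1 z.2 v := by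
  unfold mx
  have h1 : ∀ v w : V, Continuous fun z : (V [⋀^Fin 2]→L[ℝ] ℝ) × (V [⋀^Fin 2]→L[ℝ] ℝ) =>
      z.1 ![v, w] := fun v w => (ev_cont v w).comp continuous_fst
  have h2 : ∀ v w : V, Continuous fun z : (V [⋀^Fin 2]→L[ℝ] ℝ) × (V [⋀^Fin 2]→L[ℝ] ℝ) =>
      z.2 ![v, w] := fun v w => (ev_cont v w).comp continuous_snd
  exact ((((((h1 _ _).mul (h2 _ _)).sub ((h1 _ _).mul (h2 _ _))).add ((h1 _ _).mul (h2 _ _))).add
    ((h1 _ _).mul (h2 _ _))).sub ((h1 _ _).mul (h2 _ _))).add ((h1 _ _).mul (h2 _ _))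

theorem pf_cont (v : Fin 4 → V) : Continuous fun A : V [⋀^Fin 2]→L[ℝ] ℝ => pf A v := by
  unfold pf
  exact (((ev_cont _ _).mul (ev_cont _ _)).sub ((ev_cont _ _).mul (ev_cont _ _))).add
    ((ev_cont _ _).mul (ev_cont _ _))

end

/-- expansion in dimension four -/
theorem ex4 (B : (E 4) [⋀^Fin 2]→L[ℝ] ℝ) (v w : E 4) :
    B ![v, w] = B ![bs 4 0, bs 4 1] * (v 0 * w 1 - v 1 * w 0) +
      B ![bs 4 0, bs 4 2] * (v 0 * w 2 - v 2 * w 0) + B ![bs 4 0, bs 4 3] * (v 0 * w 3 - v 3 * w 0) +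
      B ![bs 4 1, bs 4 2] * (v 1 * w 2 - v 2 * w 1) + B ![bs 4 1, bs 4 3] * (v 1 * w 3 - v 3 * w 1) +
      B ![bs 4 2, bs 4 3] * (v 2 * w 3 - v 3 * w 2) := by
  rw [expand2]
  simp only [Fin.sum_univ_four]
  rw [alt2_swap B (bs 4 1) (bs 4 0), alt2_swap B (bs 4 2) (bs 4 0), alt2_swap B (bs 4 3) (bs 4 0),
    alt2_swap B (bs 4 2) (bs 4 1), alt2_swap B (bs 4 3) (bs 4 1), alt2_swap B (bs 4 3) (bs 4 2)]
  ring

/-- the determinant of a frame -/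
def dt (v : Fin 4 → E 4) : ℝ :=
  (v 0 0 * v 1 1 - v 0 1 * v 1 0) * (v 2 2 * v 3 3 - v 2 3 * v 3 2) -
  (v 0 0 * v 1 2 - v 0 2 * v 1 0) * (v 2 1 * v 3 3 - v 2 3 * v 3 1) +
  (v 0 0 * v 1 3 - v 0 3 * v 1 0) * (v 2 1 * v 3 2 - v 2 2 * v 3 1) +
  (v 0 1 * v 1 2 - v 0 2 * v 1 1) * (v 2 0 * v 3 3 - v 2 3 * v 3 0) -
  (v 0 1 * v 1 3 - v 0 3 * v 1 1) * (v 2 0 * v 3 2 - v 2 2 * v 3 0) +
  (v 0 2 * v 1 3 - v 0 3 * v 1 2) * (v 2 0 * v 3 1 - v 2 1 * v 3 0)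

theorem mx_frame (A B : (E 4) [⋀^Fin 2]→L[ℝ] ℝ) (v : Fin 4 → E 4) :
    mx A B v = dt v * mx A B (bs 4) := by
  unfold mx dt
  rw [ex4 A (v 0) (v 1), ex4 A (v 0) (v 2), ex4 A (v 0) (v 3), ex4 A (v 2) (v 3), ex4 A (v 1) (v 3),
    ex4 A (v 1) (v 2), ex4 B (v 0) (v 1), ex4 B (v 0) (v 2), ex4 B (v 0) (v 3), ex4 B (v 2) (v 3),
    ex4 B (v 1) (v 3), ex4 B (v 1) (v 2)]
  ring

theorem pf_frame (A : (E 4) [⋀^Fin 2]→L[ℝ] ℝ) (v : Fin 4 → E 4) :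
    pf A v = dt v * pf A (bs 4) := by
  have h := mx_frame A A v
  rw [mx_self, mx_self] at h
  linarith

theorem bs_norm (j : Fin 4) : ‖bs 4 j‖ = 1 := by
  simp [bs]

theorem r_expand (A : (E 4) [⋀^Fin 2]→L[ℝ] ℝ) (v : E 4) :
    A ![bs 4 0, v] = A ![bs 4 0, bs 4 1] * v 1 + A ![bs 4 0, bs 4 2] * v 2 +
      A ![bs 4 0, bs 4 3] * v 3 ∧
    A ![bs 4 1, v] = -A ![bs 4 0, bs 4 1] * v 0 + A ![bs 4 1, bs 4 2] * v 2 +
      A ![bs 4 1, bs 4 3] * v 3 ∧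
    A ![bs 4 2, v] = -A ![bs 4 0, bs 4 2] * v 0 - A ![bs 4 1, bs 4 2] * v 1 +
      A ![bs 4 2, bs 4 3] * v 3 ∧
    A ![bs 4 3, v] = -A ![bs 4 0, bs 4 3] * v 0 - A ![bs 4 1, bs 4 3] * v 1 -
      A ![bs 4 2, bs 4 3] * v 2 := by
  have hself : ∀ v : E 4, A ![v, v] = 0 := by
    intro v
    have := alt2_swap A v v
    linarith
  have h : ∀ u : E 4, A ![u, v] = v 0 * A ![u, bs 4 0] + v 1 * A ![u, bs 4 1] +
      v 2 * A ![u, bs 4 2] + v 3 * A ![u, bs 4 3] := by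
    intro u
    have := lin_expand (d := 4) (blin A u) v
    rw [Fin.sum_univ_four] at this
    exact this
  refine ⟨?_, ?_, ?_, ?_⟩
  · rw [h, hself]
    ring
  · rw [h, hself, alt2_swap A (bs 4 1) (bs 4 0)]
    ring
  · rw [h, hself, alt2_swap A (bs 4 2) (bs 4 0), alt2_swap A (bs 4 2) (bs 4 1)]
    ring
  · rw [h, hself, alt2_swap A (bs 4 3) (bs 4 0), alt2_swap A (bs 4 3) (bs 4 1),
      alt2_swap A (bs 4 3) (bs 4 2)]
    ring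

/-- the lower bound by the Pfaffian -/
theorem pf_rate (A : (E 4) [⋀^Fin 2]→L[ℝ] ℝ) {C : ℝ} (hC : 0 < C) (hA : ‖A‖ ≤ C) (v : E 4) :
    ∃ w : E 4, ‖w‖ ≤ 1 ∧ |pf A (bs 4)| / (24 * C) * ‖v‖ ≤ A ![v, w] := by
  obtain ⟨w, hw, h⟩ := norming (blin A v)
  refine ⟨w, hw, le_trans ?_ h⟩
  obtain ⟨N, hN⟩ : ∃ N, N = ‖blin A v‖ := ⟨_, rfl⟩
  rw [← hN]
  have hN0 : 0 ≤ N := by rw [hN]; exact norm_nonneg _
  obtain ⟨h0, h1, h2, h3⟩ := r_expand A v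
  have hr : ∀ k : Fin 4, |A ![bs 4 k, v]| ≤ N := by
    intro k
    rw [alt2_swap, abs_neg, hN]
    have := (blin A v).le_opNorm (bs 4 k)
    rw [bs_norm, mul_one] at this
    exact this
  have ha : ∀ j k : Fin 4, |A ![bs 4 j, bs 4 k]| ≤ C := by
    intro j k
    have := g_norm A (bs 4 j) (bs 4 k)
    rw [bs_norm, bs_norm, mul_one, mul_one] at this
    exact this.trans hA
  have hp : ∀ x y : ℝ, |x| ≤ C → |y| ≤ N → |x * y| ≤ C * N := by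
    intro x y hx hy
    rw [abs_mul]
    exact mul_le_mul hx hy (abs_nonneg _) hC.le
  have tri : ∀ x y z : ℝ, |x| ≤ C * N → |y| ≤ C * N → |z| ≤ C * N →
      |x + y + z| ≤ 3 * (C * N) := by
    intro x y z hx hy hz
    have := abs_add_three x y z
    linarith
  obtain ⟨P, hP⟩ : ∃ P, P = pf A (bs 4) := ⟨_, rfl⟩
  rw [← hP]
  have hP' : P = A ![bs 4 0, bs 4 1] * A ![bs 4 2, bs 4 3] -
      A ![bs 4 0, bs 4 2] * A ![bs 4 1, bs 4 3] + A ![bs 4 0, bs 4 3] * A ![bs 4 1, bs 4 2] := hP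
  have neg : ∀ x : ℝ, |x| ≤ C → |-x| ≤ C := fun x hx => by rw [abs_neg]; exact hx
  have e0 : |P * v 0| ≤ 3 * (C * N) := by
    have e : P * v 0 = -A ![bs 4 2, bs 4 3] * A ![bs 4 1, v] + A ![bs 4 1, bs 4 3] * A ![bs 4 2, v] +
        -A ![bs 4 1, bs 4 2] * A ![bs 4 3, v] := by
      rw [h1, h2, h3, hP']
      ring
    rw [e]
    exact tri _ _ _ (hp _ _ (neg _ (ha _ _)) (hr _)) (hp _ _ (ha _ _) (hr _))
      (hp _ _ (neg _ (ha _ _)) (hr _))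
  have e1 : |P * v 1| ≤ 3 * (C * N) := by
    have e : P * v 1 = A ![bs 4 2, bs 4 3] * A ![bs 4 0, v] + -A ![bs 4 0, bs 4 3] * A ![bs 4 2, v] +
        A ![bs 4 0, bs 4 2] * A ![bs 4 3, v] := by
      rw [h0, h2, h3, hP']
      ring
    rw [e]
    exact tri _ _ _ (hp _ _ (ha _ _) (hr _)) (hp _ _ (neg _ (ha _ _)) (hr _))
      (hp _ _ (ha _ _) (hr _))
  have e2 : |P * v 2| ≤ 3 * (C * N) := by
    have e : P * v 2 = -A ![bs 4 1, bs 4 3] * A ![bs 4 0, v] + A ![bs 4 0, bs 4 3] * A ![bs 4 1, v] +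
        -A ![bs 4 0, bs 4 1] * A ![bs 4 3, v] := by
      rw [h0, h1, h3, hP']
      ring
    rw [e]
    exact tri _ _ _ (hp _ _ (neg _ (ha _ _)) (hr _)) (hp _ _ (ha _ _) (hr _))
      (hp _ _ (neg _ (ha _ _)) (hr _))
  have e3 : |P * v 3| ≤ 3 * (C * N) := by
    have e : P * v 3 = A ![bs 4 1, bs 4 2] * A ![bs 4 0, v] + -A ![bs 4 0, bs 4 2] * A ![bs 4 1, v] +
        A ![bs 4 0, bs 4 1] * A ![bs 4 2, v] := by
      rw [h0, h1, h2, hP']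
      ring
    rw [e]
    exact tri _ _ _ (hp _ _ (ha _ _) (hr _)) (hp _ _ (neg _ (ha _ _)) (hr _))
      (hp _ _ (ha _ _) (hr _))
  have hv : ‖v‖ ≤ |v 0| + |v 1| + |v 2| + |v 3| := by
    have h4 : v = v 0 • bs 4 0 + v 1 • bs 4 1 + v 2 • bs 4 2 + v 3 • bs 4 3 := by
      ext i
      fin_cases i <;> simp [bs]
    calc ‖v‖ = ‖v 0 • bs 4 0 + v 1 • bs 4 1 + v 2 • bs 4 2 + v 3 • bs 4 3‖ := by rw [← h4]
      _ ≤ ‖v 0 • bs 4 0‖ + ‖v 1 • bs 4 1‖ + ‖v 2 • bs 4 2‖ + ‖v 3 • bs 4 3‖ := norm_add₄_le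
      _ = _ := by simp only [norm_smul, bs_norm, mul_one, Real.norm_eq_abs]
  have h5 : |P| * ‖v‖ ≤ 12 * (C * N) := by
    have h6 := mul_le_mul_of_nonneg_left hv (abs_nonneg P)
    rw [abs_mul] at e0 e1 e2 e3
    nlinarith
  rw [div_mul_eq_mul_div, div_le_div_iff₀ (by positivity) (by norm_num)]
  nlinarith

/-- a linear rate of nondegeneracy from the positivity of `S ∧ T` -/
theorem rate4 {Z : Type} [TopologicalSpace Z] {S T : Z → (E 4) [⋀^Fin 2]→L[ℝ] ℝ} {u₀ : Z}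
    (hS : ContinuousAt S u₀) (hT : ContinuousAt T u₀) {s : ℝ}
    (hm : 0 < s * mx (S u₀) (T u₀) (bs 4)) (hp : ∀ᶠ q in 𝓝 u₀, 0 ≤ s * pf (S q) (bs 4)) :
    ∃ c : ℝ, 0 < c ∧ ∀ᶠ q in 𝓝 u₀, ∀ ε : ℝ, 0 < ε → ε ≤ c → ∀ v : E 4, ∃ w : E 4, ‖w‖ ≤ 1 ∧
      c * ε * ‖v‖ ≤ S q ![v, w] + ε * T q ![v, w] := by
  obtain ⟨m, hmd⟩ : ∃ m, m = s * mx (S u₀) (T u₀) (bs 4) := ⟨_, rfl⟩
  rw [← hmd] at hm
  have hs : 0 < |s| := by
    rw [abs_pos]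
    rintro rfl
    rw [zero_mul] at hmd
    exact hm.ne' hmd
  have c1 : ContinuousAt (fun q => s * mx (S q) (T q) (bs 4)) u₀ :=
    continuousAt_const.mul (ContinuousAt.comp (g := fun z : _ × _ => mx z.1 z.2 (bs 4))
      (f := fun q => (S q, T q)) (mx_cont (bs 4)).continuousAt (hS.prodMk hT))
  have c2 : ContinuousAt (fun q => |s * pf (T q) (bs 4)|) u₀ :=
    (continuousAt_const.mul (ContinuousAt.comp (g := fun A => pf A (bs 4)) (f := T)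
      (pf_cont (bs 4)).continuousAt hT)).abs
  obtain ⟨M, hM⟩ : ∃ M, M = |s * pf (T u₀) (bs 4)| + 1 := ⟨_, rfl⟩
  obtain ⟨N, hN⟩ : ∃ N, N = ‖S u₀‖ + ‖T u₀‖ + 2 := ⟨_, rfl⟩
  have hM0 : 0 < M := by rw [hM]; positivity
  have hN0 : 0 < N := by rw [hN]; positivity
  have e1 : ∀ᶠ q in 𝓝 u₀, m / 2 < s * mx (S q) (T q) (bs 4) :=
    c1.eventually_const_lt (by show m / 2 < s * mx (S u₀) (T u₀) (bs 4); rw [← hmd]; linarith)
  have e2 : ∀ᶠ q in 𝓝 u₀, |s * pf (T q) (bs 4)| < M := c2.eventually_lt_const (by rw [hM]; linarith)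
  have e3 : ∀ᶠ q in 𝓝 u₀, ‖S q‖ < ‖S u₀‖ + 1 := hS.norm.eventually_lt_const (by linarith)
  have e4 : ∀ᶠ q in 𝓝 u₀, ‖T q‖ < ‖T u₀‖ + 1 := hT.norm.eventually_lt_const (by linarith)
  refine ⟨min (min 1 (m / (4 * M))) (m / (4 * |s|) / (24 * N)), by positivity, ?_⟩
  filter_upwards [e1, e2, e3, e4, hp] with q g1 g2 g3 g4 g5 ε hε hεc v
  have k1 : ε ≤ 1 := hεc.trans ((min_le_left _ _).trans (min_le_left _ _))
  have k2 : ε ≤ m / (4 * M) := hεc.trans ((min_le_left _ _).trans (min_le_right _ _))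
  have hn : ‖S q + ε • T q‖ ≤ N := by
    have n1 : ‖S q + ε • T q‖ ≤ ‖S q‖ + ‖ε • T q‖ := norm_add_le _ _
    have n2 : ‖ε • T q‖ ≤ ‖T q‖ := by
      rw [norm_smul, Real.norm_eq_abs, abs_of_pos hε]
      exact mul_le_of_le_one_left (norm_nonneg _) k1
    rw [hN]
    linarith
  obtain ⟨w, hw, h⟩ := pf_rate (S q + ε • T q) hN0 hn v
  refine ⟨w, hw, ?_⟩
  have h1 : (S q + ε • T q) ![v, w] = S q ![v, w] + ε * T q ![v, w] := rfl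
  rw [← h1]
  refine le_trans ?_ h
  apply mul_le_mul_of_nonneg_right _ (norm_nonneg v)
  have hpf : ε * (m / 4) ≤ |s| * |pf (S q + ε • T q) (bs 4)| := by
    rw [← abs_mul, pf_add]
    refine le_trans ?_ (le_abs_self _)
    have k3 : ε ^ 2 * |s * pf (T q) (bs 4)| ≤ ε * (m / 4) := by
      have k4 : ε * |s * pf (T q) (bs 4)| ≤ m / 4 := by
        calc ε * |s * pf (T q) (bs 4)| ≤ m / (4 * M) * M :=
              mul_le_mul k2 g2.le (abs_nonneg _) (by positivity)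
          _ = m / 4 := by field_simp
      calc ε ^ 2 * |s * pf (T q) (bs 4)| = ε * (ε * |s * pf (T q) (bs 4)|) := by ring
        _ ≤ _ := mul_le_mul_of_nonneg_left k4 hε.le
    have k5 : -(ε ^ 2 * |s * pf (T q) (bs 4)|) ≤ ε ^ 2 * (s * pf (T q) (bs 4)) := by
      have := neg_abs_le (s * pf (T q) (bs 4))
      nlinarith [sq_nonneg ε]
    have k6 : ε * (m / 2) ≤ ε * (s * mx (S q) (T q) (bs 4)) :=
      mul_le_mul_of_nonneg_left g1.le hε.le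
    have k7 : s * (pf (S q) (bs 4) + ε * mx (S q) (T q) (bs 4) + ε ^ 2 * pf (T q) (bs 4)) =
        s * pf (S q) (bs 4) + ε * (s * mx (S q) (T q) (bs 4)) +
          ε ^ 2 * (s * pf (T q) (bs 4)) := by ring
    rw [k7]
    linarith
  have k8 : min (min 1 (m / (4 * M))) (m / (4 * |s|) / (24 * N)) ≤ m / (4 * |s|) / (24 * N) :=
    min_le_right _ _
  calc min (min 1 (m / (4 * M))) (m / (4 * |s|) / (24 * N)) * ε ≤
        m / (4 * |s|) / (24 * N) * ε := mul_le_mul_of_nonneg_right k8 hε.le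
    _ = ε * (m / 4) / |s| / (24 * N) := by field_simp
    _ ≤ |s| * |pf (S q + ε • T q) (bs 4)| / |s| / (24 * N) := by gcongr
    _ = |pf (S q + ε • T q) (bs 4)| / (24 * N) := by field_simp

end Pool.Agent.Q130.SF
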