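import Pool.Agent.Q130.SF.Pf

/-!
# Closed two-forms with nonnegative square on manifolds of dimension four
-/

set_option autoImplicit false

open Set Filter Topology
open scoped Manifold ContDiff

noncomputable section

namespace Pool.Agent.Q130.SF

open Pool.Agent.Y501.SY

variable {X : Type} [TopologicalSpace X] [ChartedSpace (E 4) X]

/-- the value of `σ ∧ θ` -/
def wdg (σ θ : Form 4 X 2) (x : X) (v : Fin 4 → TangentSpace (𝓡 4) x) : ℝ :=
  σ x ![v 0, v 1] * θ x ![v 2, v 3] - σ x ![v 0, v 2] * θ x ![v 1, v 3] +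
    σ x ![v 0, v 3] * θ x ![v 1, v 2] + σ x ![v 2, v 3] * θ x ![v 0, v 1] -
    σ x ![v 1, v 3] * θ x ![v 0, v 2] + σ x ![v 1, v 2] * θ x ![v 0, v 3]

/-- half of the value of `σ ∧ σ` -/
def hlf (σ : Form 4 X 2) (x : X) (v : Fin 4 → TangentSpace (𝓡 4) x) : ℝ :=
  σ x ![v 0, v 1] * σ x ![v 2, v 3] - σ x ![v 0, v 2] * σ x ![v 1, v 3] +
    σ x ![v 0, v 3] * σ x ![v 1, v 2]

/-- `σ ∧ θ` is positive for the orientation by `Ω ∧ Ω` -/
def Pos (Ω σ θ : Form 4 X 2) (x : X) : Prop :=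
  ∀ v : Fin 4 → TangentSpace (𝓡 4) x, hlf Ω x v ≠ 0 → 0 < hlf Ω x v * wdg σ θ x v

/-- `σ ∧ σ` is nonnegative for the orientation by `Ω ∧ Ω` -/
def SS (Ω σ : Form 4 X 2) (x : X) : Prop :=
  ∀ v : Fin 4 → TangentSpace (𝓡 4) x, 0 ≤ hlf Ω x v * hlf σ x v

variable [IsManifold (𝓡 4) ∞ X]

theorem dt_bs : dt (bs 4) = 1 := by
  simp [dt, bs]

theorem frame_eq (x : X) {p : E 4} (hp : p ∈ (chartAt (E 4) x).target) :
    ∃ F : (Fin 4 → TangentSpace (𝓡 4) ((chartAt (E 4) x).symm p)) → ℝ,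
      (∀ (σ θ : Form 4 X 2) v, wdg σ θ ((chartAt (E 4) x).symm p) v =
        F v * mx (pb (chartAt (E 4) x).symm σ p) (pb (chartAt (E 4) x).symm θ p) (bs 4)) ∧
      (∀ (σ : Form 4 X 2) v, hlf σ ((chartAt (E 4) x).symm p) v =
        F v * pf (pb (chartAt (E 4) x).symm σ p) (bs 4)) ∧ ∃ v, F v = 1 := by
  have hmd := mdifferentiable_chart (I := 𝓡 4) x
  obtain ⟨L, hL⟩ : ∃ L, L = mfderiv (𝓡 4) (𝓡 4) (chartAt (E 4) x).symm p := ⟨_, rfl⟩
  obtain ⟨L', hL'⟩ : ∃ L', L' = mfderiv (𝓡 4) (𝓡 4) (chartAt (E 4) x)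
    ((chartAt (E 4) x).symm p) := ⟨_, rfl⟩
  have e1 : ∀ v, L' (L v) = v := by
    intro v
    have h5 := hmd.comp_symm_deriv hp
    rw [hL, hL']
    exact congrArg (fun A => A v) h5
  have e2 : ∀ v, L (L' v) = v := by
    intro v
    have h5 := hmd.symm_comp_deriv ((chartAt (E 4) x).map_target hp)
    rw [(chartAt (E 4) x).right_inv hp] at h5
    rw [hL, hL']
    exact congrArg (fun A => A v) h5
  obtain ⟨A, hA⟩ : ∃ A : TangentSpace (𝓡 4) ((chartAt (E 4) x).symm p) → E 4,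
    A = fun v => (L' v : E 4) := ⟨_, rfl⟩
  have e2' : ∀ v, L (A v) = v := by
    intro v
    rw [hA]
    exact e2 v
  have e3' : ∀ (θ : Form 4 X 2) (a b : E 4), pb (chartAt (E 4) x).symm θ p ![a, b] =
      θ ((chartAt (E 4) x).symm p) ![L a, L b] := by
    intro θ a b
    rw [pb_apply2, hL]
  have e3 : ∀ (θ : Form 4 X 2) (v w : TangentSpace (𝓡 4) ((chartAt (E 4) x).symm p)),
      θ ((chartAt (E 4) x).symm p) ![v, w] = pb (chartAt (E 4) x).symm θ p ![A v, A w] := by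
    intro θ v w
    rw [e3', e2', e2']
  refine ⟨fun v => dt (fun i => A (v i)), fun σ θ v => ?_, fun σ v => ?_,
    ⟨fun i => L (bs 4 i), ?_⟩⟩
  · rw [← mx_frame]
    unfold wdg mx
    simp only [e3]
  · rw [← pf_frame]
    unfold hlf pf
    simp only [e3]
  · have : (fun i => A (L (bs 4 i))) = bs 4 := by
      funext i
      rw [hA]
      exact e1 _
    show dt (fun i => A (L (bs 4 i))) = 1
    rw [this, dt_bs]

theorem pos_iff4 (x : X) {p : E 4} (hp : p ∈ (chartAt (E 4) x).target) (Ω σ θ : Form 4 X 2) :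
    Pos Ω σ θ ((chartAt (E 4) x).symm p) ↔ (pf (pb (chartAt (E 4) x).symm Ω p) (bs 4) ≠ 0 →
      0 < pf (pb (chartAt (E 4) x).symm Ω p) (bs 4) *
        mx (pb (chartAt (E 4) x).symm σ p) (pb (chartAt (E 4) x).symm θ p) (bs 4)) := by
  obtain ⟨F, h1, h2, v₀, h3⟩ := frame_eq x hp
  constructor
  · intro h h4
    have h5 := h v₀ (by rw [h2, h3, one_mul]; exact h4)
    rw [h1, h2, h3, one_mul, one_mul] at h5
    exact h5
  · intro h v hv
    rw [h2] at hv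
    have hF : F v ≠ 0 := left_ne_zero_of_mul hv
    have h5 := h (right_ne_zero_of_mul hv)
    rw [h1, h2]
    have h6 : 0 < F v ^ 2 := by positivity
    have h7 := mul_pos h6 h5
    nlinarith

theorem ss_iff (x : X) {p : E 4} (hp : p ∈ (chartAt (E 4) x).target) (Ω σ : Form 4 X 2) :
    SS Ω σ ((chartAt (E 4) x).symm p) ↔ 0 ≤ pf (pb (chartAt (E 4) x).symm Ω p) (bs 4) *
      pf (pb (chartAt (E 4) x).symm σ p) (bs 4) := by
  obtain ⟨F, h1, h2, v₀, h3⟩ := frame_eq x hp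
  constructor
  · intro h
    have h5 := h v₀
    rw [h2, h2, h3, one_mul, one_mul] at h5
    exact h5
  · intro h v
    rw [h2, h2]
    have h7 := mul_nonneg (sq_nonneg (F v)) h
    nlinarith

theorem vol_iff (x : X) {p : E 4} (hp : p ∈ (chartAt (E 4) x).target) (Ω : Form 4 X 2) :
    (∃ v, hlf Ω ((chartAt (E 4) x).symm p) v ≠ 0) ↔
      pf (pb (chartAt (E 4) x).symm Ω p) (bs 4) ≠ 0 := by
  obtain ⟨F, h1, h2, v₀, h3⟩ := frame_eq x hp
  constructor
  · rintro ⟨v, hv⟩ h4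
    rw [h2, h4, mul_zero] at hv
    exact hv rfl
  · intro h
    exact ⟨v₀, by rw [h2, h3, one_mul]; exact h⟩

variable {P : Type} [TopologicalSpace P]

theorem con4 {τ : P → Form 4 X 2} (hτ : CFam univ τ) (p₀ : P) (x : X) :
    ContinuousAt (fun q : P × E 4 => pb (chartAt (E 4) x).symm (τ q.1) q.2)
      (p₀, chartAt (E 4) x x) :=
  (hτ.zero (chartAt (E 4) x).open_target contMDiffOn_chart_symm).continuousAt
    (prod_mem_nhds univ_mem ((chartAt (E 4) x).open_target.mem_nhds (mem_chart_target (E 4) x)))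

/-- positivity is an open condition -/
theorem pos_open {Ω : Form 4 X 2} (hΩ : IsSmooth Ω) (hvol : ∀ x, ∃ v, hlf Ω x v ≠ 0)
    {σ θ : P → Form 4 X 2} (hσ : CFam univ σ) (hθ : CFam univ θ) {p₀ : P} {x : X}
    (h : Pos Ω (σ p₀) (θ p₀) x) :
    ∀ᶠ z : P × X in 𝓝 (p₀, x), Pos Ω (σ z.1) (θ z.1) z.2 := by
  have hx : x ∈ (chartAt (E 4) x).source := mem_chart_source (E 4) x
  have hp : chartAt (E 4) x x ∈ (chartAt (E 4) x).target := mem_chart_target (E 4) x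
  have h0 : Pos Ω (σ p₀) (θ p₀) ((chartAt (E 4) x).symm (chartAt (E 4) x x)) := by
    rw [(chartAt (E 4) x).left_inv hx]
    exact h
  have hv0 : ∃ v, hlf Ω ((chartAt (E 4) x).symm (chartAt (E 4) x x)) v ≠ 0 := hvol _
  rw [vol_iff x hp] at hv0
  have h1 := (pos_iff4 x hp Ω (σ p₀) (θ p₀)).1 h0 hv0
  have cΩ := con4 (CFam.const (P := P) (S := univ) hΩ) p₀ x
  have c1 : ContinuousAt (fun q : P × E 4 => pf (pb (chartAt (E 4) x).symm Ω q.2) (bs 4) *
      mx (pb (chartAt (E 4) x).symm (σ q.1) q.2) (pb (chartAt (E 4) x).symm (θ q.1) q.2) (bs 4))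
      (p₀, chartAt (E 4) x x) :=
    (ContinuousAt.comp (g := fun A => pf A (bs 4)) (f := fun q : P × E 4 =>
      pb (chartAt (E 4) x).symm Ω q.2) (pf_cont (bs 4)).continuousAt cΩ).mul
      (ContinuousAt.comp (g := fun z : _ × _ => mx z.1 z.2 (bs 4))
        (f := fun q : P × E 4 => (pb (chartAt (E 4) x).symm (σ q.1) q.2,
          pb (chartAt (E 4) x).symm (θ q.1) q.2)) (mx_cont (bs 4)).continuousAt
        ((con4 hσ p₀ x).prodMk (con4 hθ p₀ x)))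
  have h2 := c1.eventually_const_lt h1
  have h1s : ∀ᶠ z' : P × X in 𝓝 (p₀, x), z'.2 ∈ (chartAt (E 4) x).source :=
    continuousAt_snd.eventually ((chartAt (E 4) x).open_source.mem_nhds hx)
  filter_upwards [(tend_chart (z := (p₀, x)) hx).eventually h2, h1s] with z hz hzs
  have h3 := (pos_iff4 x ((chartAt (E 4) x).map_source hzs) Ω (σ z.1) (θ z.1)).2 (fun _ => hz)
  rw [(chartAt (E 4) x).left_inv hzs] at h3
  exact h3

/-- the rate of nondegeneracy -/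
theorem frate4 {Ω : Form 4 X 2} (hΩ : IsSmooth Ω) (hvol : ∀ x, ∃ v, hlf Ω x v ≠ 0)
    {σ θ : P → Form 4 X 2} (hσ : CFam univ σ) (hθ : CFam univ θ)
    (hss : ∀ p x, SS Ω (σ p) x) {p₀ : P} {x : X}
    (h : Pos Ω (σ p₀) (θ p₀) x) : FRate σ θ (p₀, x) := by
  have hx : x ∈ (chartAt (E 4) x).source := mem_chart_source (E 4) x
  have hp : chartAt (E 4) x x ∈ (chartAt (E 4) x).target := mem_chart_target (E 4) x
  have h0 : Pos Ω (σ p₀) (θ p₀) ((chartAt (E 4) x).symm (chartAt (E 4) x x)) := by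
    rw [(chartAt (E 4) x).left_inv hx]
    exact h
  have hv0 : ∃ v, hlf Ω ((chartAt (E 4) x).symm (chartAt (E 4) x x)) v ≠ 0 := hvol _
  rw [vol_iff x hp] at hv0
  have h1 := (pos_iff4 x hp Ω (σ p₀) (θ p₀)).1 h0 hv0
  have cΩ := con4 (CFam.const (P := P) (S := univ) hΩ) p₀ x
  refine rate4 (Z := P × E 4) (S := fun q => pb (chartAt (E 4) x).symm (σ q.1) q.2)
    (T := fun q => pb (chartAt (E 4) x).symm (θ q.1) q.2) (con4 hσ p₀ x) (con4 hθ p₀ x)
    (s := pf (pb (chartAt (E 4) x).symm Ω (chartAt (E 4) x x)) (bs 4)) h1 ?_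
  have c2 : ContinuousAt (fun q : P × E 4 =>
      pf (pb (chartAt (E 4) x).symm Ω (chartAt (E 4) x x)) (bs 4) *
        pf (pb (chartAt (E 4) x).symm Ω q.2) (bs 4)) (p₀, chartAt (E 4) x x) :=
    continuousAt_const.mul (ContinuousAt.comp (g := fun A => pf A (bs 4)) (f := fun q : P × E 4 =>
      pb (chartAt (E 4) x).symm Ω q.2) (pf_cont (bs 4)).continuousAt cΩ)
  have h2 := c2.eventually_const_lt (u := (0 : ℝ)) (mul_self_pos.2 hv0)
  have h3 : ∀ᶠ q : P × E 4 in 𝓝 (p₀, chartAt (E 4) x x), q.2 ∈ (chartAt (E 4) x).target :=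
    continuousAt_snd.eventually ((chartAt (E 4) x).open_target.mem_nhds hp)
  filter_upwards [h2, h3] with q hq hqt
  have h4 := (ss_iff x hqt Ω (σ q.1)).1 (hss _ _)
  obtain ⟨s, hs⟩ : ∃ s, s = pf (pb (chartAt (E 4) x).symm Ω (chartAt (E 4) x x)) (bs 4) := ⟨_, rfl⟩
  obtain ⟨t, ht⟩ : ∃ t, t = pf (pb (chartAt (E 4) x).symm Ω q.2) (bs 4) := ⟨_, rfl⟩
  obtain ⟨r, hr⟩ : ∃ r, r = pf (pb (chartAt (E 4) x).symm (σ q.1) q.2) (bs 4) := ⟨_, rfl⟩
  rw [← hs, ← ht] at hq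
  rw [← ht, ← hr] at h4
  rw [← hs, ← hr]
  have ht0 : t ≠ 0 := right_ne_zero_of_mul hq.ne'
  have h5 : 0 ≤ (s * t) * (t * r) := mul_nonneg hq.le h4
  have h6 : (s * t) * (t * r) = t ^ 2 * (s * r) := by ring
  rw [h6] at h5
  exact nonneg_of_mul_nonneg_right h5 (by positivity)

end Pool.Agent.Q130.SF
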