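import Pool.Agent.Q130.SF.PfM

/-!
# Forms `θ` with `σ ∧ θ` positive
-/

set_option autoImplicit false

open Set Filter Topology MeasureTheory
open scoped Manifold ContDiff

noncomputable section

namespace Pool.Agent.Q130.SF

open Pool.Agent.Y501.SY

variable {X : Type} [TopologicalSpace X] [ChartedSpace (E 4) X] [IsManifold (𝓡 4) ∞ X]

/-- a coordinate -/
def prj (j : Fin 4) (u : E 4) : ℝ := u j

/-- `g` is a system of coordinates at `y`, up to the chart -/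
def CoordAt (g : Fin 4 → X → ℝ) (z y : X) : Prop :=
  ∀ (j : Fin 4) (v : TangentSpace (𝓡 4) y), dd (d := 4) (g j) y v =
    prj j (mfderiv (𝓡 4) (𝓡 4) (chartAt (E 4) z) y v)

theorem val_eq (x : X) {p : E 4} (hp : p ∈ (chartAt (E 4) x).target) (θ : Form 4 X 2)
    (v w : TangentSpace (𝓡 4) ((chartAt (E 4) x).symm p)) : ∃ a b : E 4,
      θ ((chartAt (E 4) x).symm p) ![v, w] = pb (chartAt (E 4) x).symm θ p ![a, b] := by
  have hmd := mdifferentiable_chart (I := 𝓡 4) x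
  obtain ⟨L, hL⟩ : ∃ L, L = mfderiv (𝓡 4) (𝓡 4) (chartAt (E 4) x).symm p := ⟨_, rfl⟩
  obtain ⟨L', hL'⟩ : ∃ L', L' = mfderiv (𝓡 4) (𝓡 4) (chartAt (E 4) x)
    ((chartAt (E 4) x).symm p) := ⟨_, rfl⟩
  have e2 : ∀ v, L (L' v) = v := by
    intro v
    have h5 := hmd.symm_comp_deriv ((chartAt (E 4) x).map_target hp)
    rw [(chartAt (E 4) x).right_inv hp] at h5
    rw [hL, hL']
    exact congrArg (fun A => A v) h5
  obtain ⟨A, hA⟩ : ∃ A : TangentSpace (𝓡 4) ((chartAt (E 4) x).symm p) → E 4,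
    A = fun v => (L' v : E 4) := ⟨_, rfl⟩
  have e2' : ∀ v, L (A v) = v := by
    intro v
    rw [hA]
    exact e2 v
  refine ⟨A v, A w, ?_⟩
  rw [pb_apply2, ← hL, e2', e2']

theorem coords [T2Space X] (z : X) : ∃ g : Fin 4 → X → ℝ, (∀ j, SmoothFun (d := 4) (g j)) ∧
    CoordAt g z z := by
  have hz : z ∈ (chartAt (E 4) z).source := mem_chart_source (E 4) z
  have hcd : (chartAt (E 4) z).MDifferentiable (𝓡 4) (𝓡 4) := mdifferentiable_chart (I := 𝓡 4) z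
  obtain ⟨b⟩ : Nonempty (SmoothBumpFunction (𝓡 4) z) := inferInstance
  let F : X → E 4 := fun x => b x • chartAt (E 4) z x
  have hF : ContMDiff (𝓡 4) 𝓘(ℝ, E 4) ∞ F := b.contMDiff_smul (contMDiffOn_chart (I := 𝓡 4))
  have hFc : F =ᶠ[𝓝 z] chartAt (E 4) z := by
    filter_upwards [b.eventuallyEq_one] with x hx
    change b x • chartAt (E 4) z x = chartAt (E 4) z x
    rw [hx]
    exact one_smul ℝ (chartAt (E 4) z x)
  refine ⟨fun j x => F x j, fun j =>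
    ((EuclideanSpace.proj (𝕜 := ℝ) j : E 4 →L[ℝ] ℝ).contDiff.contMDiff).comp hF, fun j v => ?_⟩
  have hcdz : MDifferentiableAt (𝓡 4) 𝓘(ℝ, E 4) (chartAt (E 4) z) z := hcd.mdifferentiableAt hz
  have e1 : (fun x => F x j) =ᶠ[𝓝 z] (EuclideanSpace.proj (𝕜 := ℝ) j : E 4 →L[ℝ] ℝ) ∘
      (chartAt (E 4) z) := by
    filter_upwards [hFc] with x hx
    change F x j = chartAt (E 4) z x j
    rw [hx]
  unfold dd
  rw [e1.mfderiv_eq, mfderiv_comp z
    ((EuclideanSpace.proj (𝕜 := ℝ) j : E 4 →L[ℝ] ℝ).contDiff.contMDiff.mdifferentiableAt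
      (n := 1) one_ne_zero) hcdz,
    mfderiv_eq_fderiv, ContinuousLinearMap.fderiv]
  rfl

/-- the local form -/
theorem theta_local [T2Space X] (hG : S_GEN) {Ω σ : Form 4 X 2} {z : X}
    (hvol : ∃ v, hlf Ω z v ≠ 0) (hσ : ∃ v w : TangentSpace (𝓡 4) z, σ z ![v, w] ≠ 0) :
    ∃ θ : Form 4 X 2, IsSmooth θ ∧ Pos Ω σ θ z := by
  obtain ⟨g, hg, hc⟩ := coords z
  have hz : z ∈ (chartAt (E 4) z).source := mem_chart_source (E 4) z
  have hp : chartAt (E 4) z z ∈ (chartAt (E 4) z).target := mem_chart_target (E 4) z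
  obtain ⟨p, hpd⟩ : ∃ p, p = chartAt (E 4) z z := ⟨_, rfl⟩
  rw [← hpd] at hp
  have hzp : (chartAt (E 4) z).symm p = z := by rw [hpd]; exact (chartAt (E 4) z).left_inv hz
  have hc' : CoordAt g z ((chartAt (E 4) z).symm p) := by rw [hzp]; exact hc
  have hvol' : ∃ v, hlf Ω ((chartAt (E 4) z).symm p) v ≠ 0 := by rw [hzp]; exact hvol
  rw [vol_iff z hp] at hvol'
  obtain ⟨s, hs⟩ : ∃ s, s = pf (pb (chartAt (E 4) z).symm Ω p) (bs 4) := ⟨_, rfl⟩
  obtain ⟨B, hB⟩ : ∃ B, B = pb (chartAt (E 4) z).symm σ p := ⟨_, rfl⟩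
  obtain ⟨m, hm⟩ : ∃ m : Fin 4 → Fin 4 → ℝ, m = fun j k =>
    (!![0, s * B ![bs 4 2, bs 4 3], -(s * B ![bs 4 1, bs 4 3]), s * B ![bs 4 1, bs 4 2];
       0, 0, s * B ![bs 4 0, bs 4 3], -(s * B ![bs 4 0, bs 4 2]);
       0, 0, 0, s * B ![bs 4 0, bs 4 1];
       0, 0, 0, 0] : Matrix (Fin 4) (Fin 4) ℝ) j k := ⟨_, rfl⟩
  obtain ⟨θ, hθ⟩ : ∃ θ : Form 4 X 2, θ = ∑ j, ∑ k, m j k • dfdg (g j) (g k) := ⟨_, rfl⟩
  have hθs : IsSmooth θ := by
    rw [hθ]
    refine IsSmooth.sum _ fun j _ => IsSmooth.sum _ fun k _ => IsSmooth.smul ?_ _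
    have h1 := (hG 4 X (fun _ => 1) (g j) (g k) (SmoothFun.const 1) (hg j) (hg k)).2.1
    have h2 : hdfdg (d := 4) (fun _ => 1) (g j) (g k) = dfdg (d := 4) (g j) (g k) := by
      funext x
      exact one_smul _ _
    rw [h2] at h1
    exact h1
  have hθv : ∀ (y : X) (v w : TangentSpace (𝓡 4) y), θ y ![v, w] =
      ∑ j, ∑ k, m j k * (dd (d := 4) (g j) y v * dd (d := 4) (g k) y w -
        dd (d := 4) (g j) y w * dd (d := 4) (g k) y v) := by
    intro y v w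
    rw [hθ]
    simp only [Finset.sum_apply, Pi.smul_apply, ContinuousAlternatingMap.sum_apply,
      ContinuousAlternatingMap.smul_apply, smul_eq_mul]
    refine Finset.sum_congr rfl fun j _ => Finset.sum_congr rfl fun k _ => ?_
    rw [show dfdg (d := 4) (g j) (g k) y ![v, w] =
        dd (g j) y v * dd (g k) y w - dd (g j) y w * dd (g k) y v from
      wedge_apply (V := E 4) (dd (g j) y) (dd (g k) y) ![v, w]]
  refine ⟨θ, hθs, ?_⟩
  rw [← hzp, pos_iff4 z hp]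
  intro _
  have hmd := mdifferentiable_chart (I := 𝓡 4) z
  obtain ⟨L, hL⟩ : ∃ L, L = mfderiv (𝓡 4) (𝓡 4) (chartAt (E 4) z).symm p := ⟨_, rfl⟩
  have e1 : ∀ (j : Fin 4) (v : E 4), prj j (mfderiv (𝓡 4) (𝓡 4) (chartAt (E 4) z)
      ((chartAt (E 4) z).symm p) (L v)) = v j := by
    intro j v
    have h5 := hmd.comp_symm_deriv hp
    rw [hL]
    exact congrArg (fun A => prj j (A v)) h5
  have hval : ∀ i l : Fin 4, pb (chartAt (E 4) z).symm θ p ![bs 4 i, bs 4 l] =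
      ∑ j, ∑ k, m j k * (bs 4 i j * bs 4 l k - bs 4 l j * bs 4 i k) := by
    intro i l
    rw [pb_apply2, ← hL, hθv]
    refine Finset.sum_congr rfl fun j _ => Finset.sum_congr rfl fun k _ => ?_
    rw [hc' j (L (bs 4 i)), hc' k (L (bs 4 l)), hc' j (L (bs 4 l)), hc' k (L (bs 4 i)), e1, e1, e1, e1]
  have hB0 : ∃ v w : E 4, B ![v, w] ≠ 0 := by
    have hσ' : ∃ v w : TangentSpace (𝓡 4) ((chartAt (E 4) z).symm p),
        σ ((chartAt (E 4) z).symm p) ![v, w] ≠ 0 := by rw [hzp]; exact hσ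
    obtain ⟨v, w, hvw⟩ := hσ'
    obtain ⟨a, b, hab⟩ := val_eq z hp σ v w
    exact ⟨a, b, by rw [hB, ← hab]; exact hvw⟩
  have hb : ∀ i j : Fin 4, bs 4 i j = if j = i then 1 else 0 := by
    intro i j
    simp [bs]
  have v01 : pb (chartAt (E 4) z).symm θ p ![bs 4 0, bs 4 1] = s * B ![bs 4 2, bs 4 3] := by
    rw [hval, hm]
    simp [Fin.sum_univ_four, hb]
  have v02 : pb (chartAt (E 4) z).symm θ p ![bs 4 0, bs 4 2] = -(s * B ![bs 4 1, bs 4 3]) := by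
    rw [hval, hm]
    simp [Fin.sum_univ_four, hb]
  have v03 : pb (chartAt (E 4) z).symm θ p ![bs 4 0, bs 4 3] = s * B ![bs 4 1, bs 4 2] := by
    rw [hval, hm]
    simp [Fin.sum_univ_four, hb]
  have v12 : pb (chartAt (E 4) z).symm θ p ![bs 4 1, bs 4 2] = s * B ![bs 4 0, bs 4 3] := by
    rw [hval, hm]
    simp [Fin.sum_univ_four, hb]
  have v13 : pb (chartAt (E 4) z).symm θ p ![bs 4 1, bs 4 3] = -(s * B ![bs 4 0, bs 4 2]) := by
    rw [hval, hm]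
    simp [Fin.sum_univ_four, hb]
  have v23 : pb (chartAt (E 4) z).symm θ p ![bs 4 2, bs 4 3] = s * B ![bs 4 0, bs 4 1] := by
    rw [hval, hm]
    simp [Fin.sum_univ_four, hb]
  rw [← hs, ← hB]
  unfold mx
  rw [v01, v02, v03, v12, v13, v23]
  have hs0 : s ≠ 0 := by rw [hs]; exact hvol'
  have hsq : s * (B ![bs 4 0, bs 4 1] * (s * B ![bs 4 0, bs 4 1]) -
      B ![bs 4 0, bs 4 2] * -(s * B ![bs 4 0, bs 4 2]) +
      B ![bs 4 0, bs 4 3] * (s * B ![bs 4 0, bs 4 3]) +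
      B ![bs 4 2, bs 4 3] * (s * B ![bs 4 2, bs 4 3]) -
      B ![bs 4 1, bs 4 3] * -(s * B ![bs 4 1, bs 4 3]) +
      B ![bs 4 1, bs 4 2] * (s * B ![bs 4 1, bs 4 2])) = s ^ 2 * (B ![bs 4 0, bs 4 1] ^ 2 +
        B ![bs 4 0, bs 4 2] ^ 2 + B ![bs 4 0, bs 4 3] ^ 2 + B ![bs 4 2, bs 4 3] ^ 2 +
        B ![bs 4 1, bs 4 3] ^ 2 + B ![bs 4 1, bs 4 2] ^ 2) := by ring
  rw [hsq]
  apply mul_pos (by positivity)
  by_contra hcon
  have hz : ∀ x y z u v w : ℝ, ¬ 0 < x ^ 2 + y ^ 2 + z ^ 2 + u ^ 2 + v ^ 2 + w ^ 2 →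
      x = 0 ∧ y = 0 ∧ z = 0 ∧ u = 0 ∧ v = 0 ∧ w = 0 := by
    intro x y z u v w h
    have h := not_lt.1 h
    have key : ∀ a : ℝ, a ^ 2 ≤ 0 → a = 0 := fun a h =>
      (pow_eq_zero_iff two_ne_zero).1 (le_antisymm h (sq_nonneg a))
    have s1 := sq_nonneg x
    have s2 := sq_nonneg y
    have s3 := sq_nonneg z
    have s4 := sq_nonneg u
    have s5 := sq_nonneg v
    have s6 := sq_nonneg w
    refine ⟨key _ ?_, key _ ?_, key _ ?_, key _ ?_, key _ ?_, key _ ?_⟩ <;> linarith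
  obtain ⟨k1, k2, k3, k4, k5, k6⟩ := hz _ _ _ _ _ _ hcon
  obtain ⟨v, w, hvw⟩ := hB0
  apply hvw
  rw [ex4, k1, k2, k3, k4, k5, k6]
  ring

variable {P : Type} [TopologicalSpace P]

/-- sums -/
theorem wdg_sum {ι : Type} (σ : Form 4 X 2) (t : Finset ι) (c : ι → ℝ) (θ : ι → Form 4 X 2) (x : X)
    (v : Fin 4 → TangentSpace (𝓡 4) x) :
    wdg σ (∑ i ∈ t, c i • θ i) x v = ∑ i ∈ t, c i * wdg σ (θ i) x v := by
  classical
  induction t using Finset.induction_on with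
  | empty =>
    rw [Finset.sum_empty, Finset.sum_empty]
    have h0 : ∀ u : Fin 2 → TangentSpace (𝓡 4) x, (0 : Form 4 X 2) x u = 0 := fun u => rfl
    simp only [wdg, h0]
    ring
  | insert i t hi ih =>
    rw [Finset.sum_insert hi, Finset.sum_insert hi, ← ih]
    have h0 : ∀ u : Fin 2 → TangentSpace (𝓡 4) x,
        (c i • θ i + ∑ i ∈ t, c i • θ i : Form 4 X 2) x u =
          c i * θ i x u + (∑ i ∈ t, c i • θ i : Form 4 X 2) x u := fun u => rfl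
    simp only [wdg, h0]
    ring

/-- the positive form for one form -/
theorem theta_one [CompactSpace X] [T2Space X] (hG : S_GEN) {Ω σ : Form 4 X 2} (hΩ : IsSmooth Ω)
    (hvol : ∀ x, ∃ v, hlf Ω x v ≠ 0) (hσs : IsSmooth σ)
    (hσ : ∀ x, ∃ v w : TangentSpace (𝓡 4) x, σ x ![v, w] ≠ 0) :
    ∃ θ : Form 4 X 2, IsSmooth θ ∧ ∀ x, Pos Ω σ θ x := by
  classical
  choose θ hθs hθ using fun z : X => theta_local hG (hvol z) (hσ z)
  have hopen : ∀ z, ∀ᶠ y in 𝓝 z, Pos Ω σ (θ z) y := by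
    intro z
    have h1 := pos_open (P := Unit) (p₀ := ()) hΩ hvol (CFam.const (S := univ) hσs)
      (CFam.const (S := univ) (hθs z)) (hθ z)
    have h2 : Tendsto (fun y : X => (((), y) : Unit × X)) (𝓝 z) (𝓝 ((), z)) :=
      (continuous_const.prodMk continuous_id).tendsto z
    exact h2.eventually h1
  choose W hWsub hWo hzW using fun z => eventually_nhds_iff.1 (hopen z)
  choose f hf hf01 hf1 hf0 using fun z : X => cutoff (d := 4) (D := {z}) isClosed_singleton (hWo z)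
    (singleton_subset_iff.2 (hzW z))
  obtain ⟨t, ht⟩ := CompactSpace.elim_nhds_subcover (fun z => {y | f z y = 1})
    (fun z => hf1 z z rfl)
  refine ⟨∑ z ∈ t, mulF (f z) (θ z), IsSmooth.sum _ fun z _ => mulF_smooth (hf z) (hθs z),
    fun x v hv => ?_⟩
  have hx : x ∈ ⋃ z ∈ t, {y | f z y = 1} := by rw [ht]; trivial
  have hx' : ∃ z ∈ t, f z x = 1 := by simpa using hx
  obtain ⟨z₀, hz₀, h1⟩ := hx'
  have h2 : wdg σ (∑ z ∈ t, mulF (f z) (θ z)) x v = ∑ z ∈ t, f z x * wdg σ (θ z) x v := by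
    rw [← wdg_sum]
    have h3 : (∑ z ∈ t, mulF (f z) (θ z) : Form 4 X 2) x = (∑ z ∈ t, f z x • θ z : Form 4 X 2) x := by
      rw [Finset.sum_apply, Finset.sum_apply]
      rfl
    unfold wdg
    rw [h3]
  rw [h2, Finset.mul_sum]
  have hterm : ∀ z, f z x ≠ 0 → 0 < hlf Ω x v * wdg σ (θ z) x v := by
    intro z hz
    have hxW : x ∈ W z := by
      by_contra h
      exact hz (hf0 z x h).self_of_nhds
    exact hWsub z x hxW v hv
  refine Finset.sum_pos' (fun z _ => ?_) ⟨z₀, hz₀, ?_⟩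
  · by_cases hz : f z x = 0
    · rw [hz, zero_mul, mul_zero]
    · have := mul_nonneg (hf01 z x).1 (hterm z hz).le
      nlinarith
  · rw [h1, one_mul]
    exact hterm z₀ (by rw [h1]; exact one_ne_zero)

/-- the positive forms for a family -/
theorem theta_fam [CompactSpace X] [T2Space X] [CompactSpace P] [T2Space P] (hG : S_GEN)
    {Ω : Form 4 X 2} {σ : P → Form 4 X 2} (hΩ : IsSmooth Ω)
    (hvol : ∀ x, ∃ v, hlf Ω x v ≠ 0) (hσs : ∀ p, IsSmooth (σ p)) (hσf : CFam univ σ)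
    (hσ : ∀ p x, ∃ v w : TangentSpace (𝓡 4) x, σ p x ![v, w] ≠ 0) :
    ∃ θ : P → Form 4 X 2, (∀ p, IsSmooth (θ p)) ∧ CFam univ θ ∧ ∀ p x, Pos Ω (σ p) (θ p) x := by
  classical
  choose θ hθs hθ using fun p : P => theta_one hG hΩ hvol (hσs p) (hσ p)
  have hopen : ∀ p₀, ∀ᶠ p in 𝓝 p₀, ∀ x, Pos Ω (σ p) (θ p₀) x := by
    intro p₀
    have h1 := IsCompact.eventually_forall_of_forall_eventually (x₀ := p₀)
      (isCompact_univ (X := X)) (P := fun p x => Pos Ω (σ p) (θ p₀) x)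
      (fun x _ => pos_open hΩ hvol hσf (CFam.const (S := univ) (hθs p₀)) (hθ p₀ x))
    filter_upwards [h1] with p hp x
    exact hp x (mem_univ x)
  choose W hWsub hWo hpW using fun p => eventually_nhds_iff.1 (hopen p)
  have hur : ∀ p, ∃ g : P → ℝ, Continuous g ∧ (∀ q, 0 ≤ g q) ∧ g p = 1 ∧ ∀ q, q ∉ W p → g q = 0 := by
    intro p
    have hdis : Disjoint (W p)ᶜ {p} := by
      rw [Set.disjoint_left]
      intro q hq hq'
      rw [mem_singleton_iff.1 hq'] at hq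
      exact hq (hpW p)
    obtain ⟨g, hg0, hg1, hgI⟩ := exists_continuous_zero_one_of_isClosed (hWo p).isClosed_compl
      (isClosed_singleton (x := p)) hdis
    exact ⟨g, g.continuous, fun q => (hgI q).1, hg1 rfl, fun q hq => hg0 hq⟩
  choose g hgc hg0 hg1 hgW using hur
  obtain ⟨t, ht⟩ := CompactSpace.elim_nhds_subcover (fun p => {q | 0 < g p q}) (fun p =>
    (hgc p).continuousAt.eventually_const_lt (by rw [hg1]; exact one_pos))
  have hcut : ∀ i, CFam univ (fun q => g i q • θ i) ∧ ∀ q, IsSmooth (g i q • θ i) := fun i =>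
    CFam.cut (CFam.const (S := univ) (hθs i)) isOpen_univ (hgc i) (subset_univ _)
      (fun _ _ => hθs i)
  have hsm : ∀ (s : Finset P) (q : P), IsSmooth (∑ i ∈ s, g i q • θ i) := fun s q =>
    IsSmooth.sum _ fun i _ => (hcut i).2 q
  have hfam : ∀ s : Finset P, CFam univ (fun q => ∑ i ∈ s, g i q • θ i) := by
    intro s
    induction s using Finset.induction_on with
    | empty =>
      simp only [Finset.sum_empty]
      exact CFam.const IsSmooth.zero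
    | insert i s hi ih =>
      simp only [Finset.sum_insert hi]
      exact CFam.add (hcut i).1 ih (fun q _ => (hcut i).2 q) (fun q _ => hsm s q)
  refine ⟨fun q => ∑ i ∈ t, g i q • θ i, hsm t, hfam t, fun q x v hv => ?_⟩
  have hq : q ∈ ⋃ p ∈ t, {q | 0 < g p q} := by rw [ht]; trivial
  have hq' : ∃ p ∈ t, 0 < g p q := by simpa using hq
  obtain ⟨p₀, hp₀, h1⟩ := hq'
  rw [wdg_sum, Finset.mul_sum]
  have hterm : ∀ p, g p q ≠ 0 → 0 < hlf Ω x v * wdg (σ q) (θ p) x v := by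
    intro p hp
    have hqW : q ∈ W p := by
      by_contra h
      exact hp (hgW p q h)
    exact hWsub p q hqW x v hv
  refine Finset.sum_pos' (fun p _ => ?_) ⟨p₀, hp₀, ?_⟩
  · by_cases hp : g p q = 0
    · rw [hp, zero_mul, mul_zero]
    · have := mul_nonneg (hg0 p q) (hterm p hp).le
      nlinarith
  · have := mul_pos h1 (hterm p₀ h1.ne')
    nlinarith

/-- **Families of closed forms with nonnegative square.** -/
theorem main4 [CompactSpace X] [T2Space X] [CompactSpace P] [T2Space P] (hG : S_GEN)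
    (hPl : S_PLANAR) {Ω : Form 4 X 2} {σ : P → Form 4 X 2} (hΩ : IsSmooth Ω)
    (hvol : ∀ x, ∃ v, hlf Ω x v ≠ 0) (hσs : ∀ p, IsSmooth (σ p)) (hσf : CFam univ σ)
    (hσ : ∀ p x, ∃ v w : TangentSpace (𝓡 4) x, σ p x ![v, w] ≠ 0) (hss : ∀ p x, SS Ω (σ p) x)
    (hH : ∀ (p : P) (z : X), ¬ nd (σ p) z → ∀ x : X, μH[2] (chartAt (E 4) x ''
      (connectedComponentIn {x | ¬ nd (σ p) x} z ∩ (chartAt (E 4) x).source)) = 0) :
    ∃ θ : P → Form 4 X 2, (∀ p, IsSmooth (θ p)) ∧ CFam univ θ ∧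
    ∃ (α : P → Form 4 X 1) (η : P → Form 4 X 2), CFam univ α ∧ CFam univ η ∧
      (∀ p, IsSmooth (α p) ∧ IsSmooth (η p) ∧ IsD (α p) (η p) ∧ IsClosedForm (η p)) ∧
      ∃ ε₀ : ℝ, 0 < ε₀ ∧ ∀ ε : ℝ, 0 < ε → ε ≤ ε₀ → ∀ s : ℝ, 0 ≤ s → s ≤ 1 →
        ∀ p x, nd (mix (σ p) (θ p) (η p) ε s) x := by
  obtain ⟨θ, hθs, hθf, hpos⟩ := theta_fam hG hΩ hvol hσs hσf hσ
  exact ⟨θ, hθs, hθf, ndFam hG hPl hσf hθf (fun p x _ => frate4 hΩ hvol hσf hθf hss (hpos p x))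
    (fun p z hz => nullSum_of_haus (hθs p) (hH p z hz))⟩

end Pool.Agent.Q130.SF
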