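import Pool.Agent.Q130.SF.Dec

/-!
# Two-forms in dimension `2 n`: the top power
-/

set_option autoImplicit false

open Set Filter Topology
open scoped Manifold ContDiff

noncomputable section

namespace Pool.Agent.Q130.SF

open Pool.Agent.Y501.SY

section gen

variable {n : ℕ} {V : Type} [AddCommGroup V] [Module ℝ V] [TopologicalSpace V]

/-- the value of the top power `A ^ n`, up to a positive factor -/
def pw (A : V [⋀^Fin 2]→L[ℝ] ℝ) (v : Fin n × Fin 2 → V) : ℝ :=
  ∑ π : Equiv.Perm (Fin n × Fin 2), ((Equiv.Perm.sign π : ℤ) : ℝ) *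
    ∏ i : Fin n, A ![v (π (i, 0)), v (π (i, 1))]

/-- the value of `A ^ (n - 1) ∧ B`, up to a positive factor -/
def lw (A B : V [⋀^Fin 2]→L[ℝ] ℝ) (v : Fin n × Fin 2 → V) : ℝ :=
  ∑ π : Equiv.Perm (Fin n × Fin 2), ((Equiv.Perm.sign π : ℤ) : ℝ) *
    ∑ i : Fin n, (∏ j ∈ Finset.univ.erase i, A ![v (π (j, 0)), v (π (j, 1))]) *
      B ![v (π (i, 0)), v (π (i, 1))]

theorem lw_add (A B B' : V [⋀^Fin 2]→L[ℝ] ℝ) (v : Fin n × Fin 2 → V) :
    lw A (B + B') v = lw A B v + lw A B' v := by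
  have h0 : ∀ u : Fin 2 → V, (B + B') u = B u + B' u := fun u => rfl
  unfold lw
  simp only [h0, mul_add, Finset.sum_add_distrib]

theorem lw_smul (A B : V [⋀^Fin 2]→L[ℝ] ℝ) (c : ℝ) (v : Fin n × Fin 2 → V) :
    lw A (c • B) v = c * lw A B v := by
  have h0 : ∀ u : Fin 2 → V, (c • B) u = c * B u := fun u => rfl
  unfold lw
  simp only [h0]
  rw [Finset.mul_sum]
  refine Finset.sum_congr rfl fun π _ => ?_
  have h1 : ∀ f g : Fin n → ℝ, ∑ i, f i * (c * g i) = c * ∑ i, f i * g i := by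
    intro f g
    rw [Finset.mul_sum]
    exact Finset.sum_congr rfl fun i _ => by ring
  rw [h1 (fun i => ∏ j ∈ Finset.univ.erase i, A ![v (π (j, 0)), v (π (j, 1))])
    (fun i => B ![v (π (i, 0)), v (π (i, 1))])]
  ring

theorem lw_zero (A : V [⋀^Fin 2]→L[ℝ] ℝ) (v : Fin n × Fin 2 → V) : lw A 0 v = 0 := by
  have h := lw_smul A (0 : V [⋀^Fin 2]→L[ℝ] ℝ) 0 v
  rw [zero_smul, zero_mul] at h
  exact h

/-- the derivative of the top power -/
theorem pw_deriv (A B : V [⋀^Fin 2]→L[ℝ] ℝ) (v : Fin n × Fin 2 → V) (t : ℝ) :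
    HasDerivAt (fun t : ℝ => pw (A + t • B) v) (lw (A + t • B) B v) t := by
  have h0 : ∀ (t : ℝ) (u : Fin 2 → V), (A + t • B) u = A u + t * B u := fun t u => rfl
  unfold pw lw
  refine HasDerivAt.fun_sum fun π _ => HasDerivAt.const_mul _ ?_
  have h1 : ∀ i ∈ (Finset.univ : Finset (Fin n)), HasDerivAt
      (fun t : ℝ => (A + t • B) ![v (π (i, 0)), v (π (i, 1))]) (B ![v (π (i, 0)), v (π (i, 1))]) t := by
    intro i _
    simp only [h0]
    simpa using ((hasDerivAt_id t).mul_const (B ![v (π (i, 0)), v (π (i, 1))])).const_add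
      (A ![v (π (i, 0)), v (π (i, 1))])
  have h2 := HasDerivAt.fun_finsetProd h1
  simpa using h2

theorem t_swap (B : V [⋀^Fin 2]→L[ℝ] ℝ) (v w : V) : B ![v, w] = -B ![w, v] := by
  have h1 := B.map_swap ![w, v] (i := 0) (j := 1) (by decide)
  have h2 : (![w, v] : Fin 2 → V) ∘ Equiv.swap (0 : Fin 2) 1 = ![v, w] := by
    funext i
    fin_cases i <;> rfl
  rw [h2] at h1
  exact h1

theorem t_add (B : V [⋀^Fin 2]→L[ℝ] ℝ) (v v' w : V) :
    B ![v + v', w] = B ![v, w] + B ![v', w] := by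
  have h := B.map_update_add ![v, w] 0 v v'
  have e : ∀ u : V, Function.update ![v, w] 0 u = ![u, w] := by
    intro u
    funext i
    fin_cases i <;> rfl
  rw [e, e, e] at h
  exact h

theorem t_smul (B : V [⋀^Fin 2]→L[ℝ] ℝ) (c : ℝ) (v w : V) : B ![c • v, w] = c * B ![v, w] := by
  have h := B.map_update_smul ![v, w] 0 c v
  have e : ∀ u : V, Function.update ![v, w] 0 u = ![u, w] := by
    intro u
    funext i
    fin_cases i <;> rfl
  rw [e, e] at h
  exact h

theorem t_add' (B : V [⋀^Fin 2]→L[ℝ] ℝ) (v w w' : V) :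
    B ![v, w + w'] = B ![v, w] + B ![v, w'] := by
  rw [t_swap, t_add, t_swap B w v, t_swap B w' v]
  ring

theorem t_smul' (B : V [⋀^Fin 2]→L[ℝ] ℝ) (c : ℝ) (v w : V) : B ![v, c • w] = c * B ![v, w] := by
  rw [t_swap, t_smul, t_swap B w v]
  ring

/-- the product as a multilinear map -/
def pm (A : V [⋀^Fin 2]→L[ℝ] ℝ) (n : ℕ) : MultilinearMap ℝ (fun _ : Fin n × Fin 2 => V) ℝ where
  toFun v := ∏ i : Fin n, A ![v (i, 0), v (i, 1)]
  map_update_add' := by
    intro inst v q x y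
    have : inst = instDecidableEqProd := Subsingleton.elim _ _
    subst this
    obtain ⟨i₀, k⟩ := q
    have hne : ∀ (z : V), ∏ i ∈ Finset.univ.erase i₀, A ![Function.update v (i₀, k) z (i, 0),
        Function.update v (i₀, k) z (i, 1)] = ∏ i ∈ Finset.univ.erase i₀, A ![v (i, 0), v (i, 1)] := by
      intro z
      refine Finset.prod_congr rfl fun i hi => ?_
      have hi' : i ≠ i₀ := (Finset.mem_erase.1 hi).1
      rw [Function.update_of_ne (fun h => hi' (congrArg Prod.fst h)),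
        Function.update_of_ne (fun h => hi' (congrArg Prod.fst h))]
    rw [← Finset.mul_prod_erase _ _ (Finset.mem_univ i₀), ← Finset.mul_prod_erase _ _ (Finset.mem_univ i₀),
      ← Finset.mul_prod_erase _ _ (Finset.mem_univ i₀), hne, hne, hne, ← add_mul]
    congr 1
    fin_cases k
    · simp [Function.update, t_add]
    · simp [Function.update, t_add']
  map_update_smul' := by
    intro inst v q c x
    have : inst = instDecidableEqProd := Subsingleton.elim _ _
    subst this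
    obtain ⟨i₀, k⟩ := q
    have hne : ∀ (z : V), ∏ i ∈ Finset.univ.erase i₀, A ![Function.update v (i₀, k) z (i, 0),
        Function.update v (i₀, k) z (i, 1)] = ∏ i ∈ Finset.univ.erase i₀, A ![v (i, 0), v (i, 1)] := by
      intro z
      refine Finset.prod_congr rfl fun i hi => ?_
      have hi' : i ≠ i₀ := (Finset.mem_erase.1 hi).1
      rw [Function.update_of_ne (fun h => hi' (congrArg Prod.fst h)),
        Function.update_of_ne (fun h => hi' (congrArg Prod.fst h))]
    rw [← Finset.mul_prod_erase _ _ (Finset.mem_univ i₀), ← Finset.mul_prod_erase _ _ (Finset.mem_univ i₀),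
      hne, hne, smul_eq_mul, ← mul_assoc]
    congr 1
    fin_cases k
    · simp [Function.update, t_smul]
    · simp [Function.update, t_smul']

/-- the top power as an alternating map -/
def pa (A : V [⋀^Fin 2]→L[ℝ] ℝ) (n : ℕ) : V [⋀^Fin n × Fin 2]→ₗ[ℝ] ℝ :=
  MultilinearMap.alternatization (pm A n)

theorem pa_apply (A : V [⋀^Fin 2]→L[ℝ] ℝ) (v : Fin n × Fin 2 → V) : pa A n v = pw A v := by
  unfold pa pw
  rw [MultilinearMap.alternatization_apply]
  refine Finset.sum_congr rfl fun π _ => ?_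
  rw [Units.smul_def, zsmul_eq_mul]
  rfl

theorem pw_frame' (b : Module.Basis (Fin n × Fin 2) ℝ V) (A : V [⋀^Fin 2]→L[ℝ] ℝ)
    (v : Fin n × Fin 2 → V) : pw A v = b.det v * pw A b := by
  rw [← pa_apply, ← pa_apply]
  have h := (pa A n).eq_smul_basis_det b
  have h1 : pa A n v = (pa A n b • b.det) v := congrArg (fun f : V [⋀^Fin n × Fin 2]→ₗ[ℝ] ℝ => f v) h
  rw [h1, AlternatingMap.smul_apply, smul_eq_mul, mul_comm]

theorem lw_frame' (b : Module.Basis (Fin n × Fin 2) ℝ V) (A B : V [⋀^Fin 2]→L[ℝ] ℝ)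
    (v : Fin n × Fin 2 → V) : lw A B v = b.det v * lw A B b := by
  have h1 := pw_deriv A B v 0
  have h2 := (pw_deriv A B b 0).const_mul (b.det v)
  have h3 : (fun t : ℝ => pw (A + t • B) v) = fun t : ℝ => b.det v * pw (A + t • B) b := by
    funext t
    exact pw_frame' b _ v
  rw [h3] at h1
  have h4 := h1.unique h2
  rw [zero_smul, add_zero] at h4
  exact h4

end gen

section norm

variable {n : ℕ} {V : Type} [NormedAddCommGroup V] [NormedSpace ℝ V]

theorem ev_cont' (v w : V) : Continuous fun A : V [⋀^Fin 2]→L[ℝ] ℝ => A ![v, w] :=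
  (ContinuousAlternatingMap.apply ℝ V ℝ ![v, w]).continuous

theorem pw_cont (v : Fin n × Fin 2 → V) : Continuous fun A : V [⋀^Fin 2]→L[ℝ] ℝ => pw A v := by
  unfold pw
  exact continuous_finsetSum _ fun π _ => continuous_const.mul
    (continuous_finsetProd _ fun i _ => ev_cont' _ _)

theorem lw_cont (v : Fin n × Fin 2 → V) :
    Continuous fun z : (V [⋀^Fin 2]→L[ℝ] ℝ) × (V [⋀^Fin 2]→L[ℝ] ℝ) => lw z.1 z.2 v := by
  unfold lw
  exact continuous_finsetSum _ fun π _ => continuous_const.mul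
    (continuous_finsetSum _ fun i _ => (continuous_finsetProd _ fun j _ =>
      (ev_cont' _ _).comp continuous_fst).mul ((ev_cont' _ _).comp continuous_snd))

/-- the lower bound by the top power -/
theorem pw_rate (b : Module.Basis (Fin n × Fin 2) ℝ V) (hb : ∀ k, ‖b k‖ ≤ 1)
    (A : V [⋀^Fin 2]→L[ℝ] ℝ) {C : ℝ} (hC : 1 ≤ C) (hA : ‖A‖ ≤ C) (v : V) :
    ∃ w : V, ‖w‖ ≤ 1 ∧ 0 ≤ A ![v, w] ∧ |pw A b| * ‖v‖ ≤
      2 * (Fintype.card (Fin n × Fin 2) * (Fintype.card (Equiv.Perm (Fin n × Fin 2)) * C ^ n)) *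
        A ![v, w] := by
  obtain ⟨w, hw, h⟩ := norming (blin A v)
  refine ⟨w, hw, le_trans (by positivity) h, ?_⟩
  obtain ⟨N, hN⟩ : ∃ N, N = ‖blin A v‖ := ⟨_, rfl⟩
  have hN0 : 0 ≤ N := by rw [hN]; exact norm_nonneg _
  have hC0 : (0 : ℝ) ≤ C := by linarith
  have hAw : N / 2 ≤ A ![v, w] := by rw [hN]; exact h
  have hr : ∀ k, |A ![v, b k]| ≤ N := by
    intro k
    have h1 := (blin A v).le_opNorm (b k)
    have h2 : ‖blin A v‖ * ‖b k‖ ≤ ‖blin A v‖ := mul_le_of_le_one_right (norm_nonneg _) (hb k)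
    rw [hN]
    exact h1.trans h2
  have hr' : ∀ k, |A ![b k, v]| ≤ N := by
    intro k
    rw [t_swap, abs_neg]
    exact hr k
  have ha : ∀ j k, |A ![b j, b k]| ≤ C := by
    intro j k
    have h1 := g_norm A (b j) (b k)
    have h2 : ‖A‖ * ‖b j‖ * ‖b k‖ ≤ ‖A‖ := by
      have h3 : ‖A‖ * ‖b j‖ ≤ ‖A‖ := mul_le_of_le_one_right (norm_nonneg _) (hb j)
      exact (mul_le_of_le_one_right (by positivity) (hb k)).trans h3
    exact (h1.trans h2).trans hA
  -- the coordinates
  have hcoord : ∀ q, |b.repr v q| * |pw A b| ≤ Fintype.card (Equiv.Perm (Fin n × Fin 2)) * C ^ n * N := by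
    intro q
    have e1 : pw A (Function.update b q v) = b.repr v q * pw A b := by
      rw [← pa_apply, ← pa_apply]
      conv_lhs => rw [← b.sum_repr v]
      rw [AlternatingMap.map_update_sum]
      rw [Finset.sum_eq_single q]
      · rw [AlternatingMap.map_update_smul, Function.update_eq_self, smul_eq_mul]
      · intro k _ hk
        rw [AlternatingMap.map_update_smul, AlternatingMap.map_update_self _ _ hk.symm, smul_zero]
      · intro h
        exact absurd (Finset.mem_univ _) h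
    rw [← abs_mul, ← e1]
    unfold pw
    refine (Finset.abs_sum_le_sum_abs _ _).trans ?_
    have h2 : ∀ π ∈ (Finset.univ : Finset (Equiv.Perm (Fin n × Fin 2))),
        |((Equiv.Perm.sign π : ℤ) : ℝ) * ∏ i : Fin n,
          A ![Function.update b q v (π (i, 0)), Function.update b q v (π (i, 1))]| ≤ C ^ n * N := by
      intro π _
      have h3 : |((Equiv.Perm.sign π : ℤ) : ℝ)| = 1 := by
        rcases Int.units_eq_one_or (Equiv.Perm.sign π) with h | h <;> rw [h] <;> simp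
      rw [abs_mul, h3, one_mul, Finset.abs_prod]
      obtain ⟨i₀, hi₀⟩ : ∃ i₀, i₀ = (π.symm q).1 := ⟨_, rfl⟩
      rw [← Finset.mul_prod_erase _ _ (Finset.mem_univ i₀)]
      have h4 : ∏ i ∈ Finset.univ.erase i₀,
          |A ![Function.update b q v (π (i, 0)), Function.update b q v (π (i, 1))]| ≤ C ^ n := by
        calc ∏ i ∈ Finset.univ.erase i₀,
            |A ![Function.update b q v (π (i, 0)), Function.update b q v (π (i, 1))]| ≤
              ∏ i ∈ Finset.univ.erase i₀, C := by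
              refine Finset.prod_le_prod (fun i _ => abs_nonneg _) fun i hi => ?_
              have hi' : i ≠ i₀ := (Finset.mem_erase.1 hi).1
              have h5 : ∀ k, π (i, k) ≠ q := by
                intro k h
                apply hi'
                rw [hi₀, ← h, Equiv.symm_apply_apply]
              rw [Function.update_of_ne (h5 0), Function.update_of_ne (h5 1)]
              exact ha _ _
          _ = C ^ (Finset.univ.erase i₀).card := Finset.prod_const C
          _ ≤ C ^ n := pow_le_pow_right₀ hC (by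
              rw [Finset.card_erase_of_mem (Finset.mem_univ _), Finset.card_univ, Fintype.card_fin]
              exact Nat.sub_le _ _)
      have h5 : |A ![Function.update b q v (π (i₀, 0)), Function.update b q v (π (i₀, 1))]| ≤ N := by
        have h6 : π (i₀, (π.symm q).2) = q := by
          rw [hi₀, Prod.mk.eta, Equiv.apply_symm_apply]
        have h7 : π (i₀, 0) ≠ π (i₀, 1) := by
          intro h
          have := π.injective h
          simp at this
        rcases Fin.exists_fin_two.1 ⟨(π.symm q).2, rfl⟩ with h8 | h8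
        · rw [h8] at h6
          rw [h6, Function.update_self, Function.update_of_ne (by rw [← h6]; exact h7.symm)]
          exact hr _
        · rw [h8] at h6
          rw [h6, Function.update_self, Function.update_of_ne (by rw [← h6]; exact h7)]
          exact hr' _
      rw [mul_comm]
      exact mul_le_mul h4 h5 (abs_nonneg _) (by positivity)
    refine (Finset.sum_le_sum h2).trans ?_
    rw [Finset.sum_const, Finset.card_univ, nsmul_eq_mul, mul_assoc]
  have hv : ‖v‖ ≤ ∑ q, |b.repr v q| := by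
    conv_lhs => rw [← b.sum_repr v]
    refine (norm_sum_le _ _).trans (Finset.sum_le_sum fun q _ => ?_)
    rw [norm_smul, Real.norm_eq_abs]
    exact mul_le_of_le_one_right (abs_nonneg _) (hb q)
  have h5 : |pw A b| * ‖v‖ ≤ Fintype.card (Fin n × Fin 2) *
      (Fintype.card (Equiv.Perm (Fin n × Fin 2)) * C ^ n * N) := by
    calc |pw A b| * ‖v‖ ≤ |pw A b| * ∑ q, |b.repr v q| :=
          mul_le_mul_of_nonneg_left hv (abs_nonneg _)
      _ = ∑ q, |b.repr v q| * |pw A b| := by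
          rw [Finset.mul_sum]
          exact Finset.sum_congr rfl fun q _ => mul_comm _ _
      _ ≤ ∑ q : Fin n × Fin 2, (Fintype.card (Equiv.Perm (Fin n × Fin 2)) * C ^ n * N) :=
          Finset.sum_le_sum fun q _ => hcoord q
      _ = _ := by rw [Finset.sum_const, Finset.card_univ, nsmul_eq_mul]
  refine h5.trans ?_
  have h6 : (0 : ℝ) ≤ Fintype.card (Fin n × Fin 2) *
      (Fintype.card (Equiv.Perm (Fin n × Fin 2)) * C ^ n) := by positivity
  have h7 := mul_le_mul_of_nonneg_left hAw h6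
  linarith

/-- a linear rate of nondegeneracy from the positivity of `S ^ (n - 1) ∧ T` -/
theorem rateG (b : Module.Basis (Fin n × Fin 2) ℝ V) (hb : ∀ k, ‖b k‖ ≤ 1)
    {Z : Type} [TopologicalSpace Z] {S T : Z → V [⋀^Fin 2]→L[ℝ] ℝ} {u₀ : Z}
    (hS : ContinuousAt S u₀) (hT : ContinuousAt T u₀) {s : ℝ}
    (hm : 0 < s * lw (S u₀) (T u₀) b) (hp : ∀ᶠ q in 𝓝 u₀, 0 ≤ s * pw (S q) b) :
    ∃ c : ℝ, 0 < c ∧ ∀ᶠ q in 𝓝 u₀, ∀ ε : ℝ, 0 < ε → ε ≤ c → ∀ v : V, ∃ w : V, ‖w‖ ≤ 1 ∧
      c * ε * ‖v‖ ≤ S q ![v, w] + ε * T q ![v, w] := by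
  obtain ⟨m, hmd⟩ : ∃ m, m = s * lw (S u₀) (T u₀) b := ⟨_, rfl⟩
  rw [← hmd] at hm
  have hs : 0 < |s| := by
    rw [abs_pos]
    rintro rfl
    rw [zero_mul] at hmd
    exact hm.ne' hmd
  have c1 : ContinuousAt (fun z : Z × ℝ => s * lw (S z.1 + z.2 • T z.1) (T z.1) b) (u₀, 0) := by
    have k1 : ContinuousAt (fun z : Z × ℝ => S z.1) (u₀, 0) :=
      ContinuousAt.comp (g := S) (f := Prod.fst) (x := (u₀, (0 : ℝ))) hS continuousAt_fst
    have k2 : ContinuousAt (fun z : Z × ℝ => T z.1) (u₀, 0) :=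
      ContinuousAt.comp (g := T) (f := Prod.fst) (x := (u₀, (0 : ℝ))) hT continuousAt_fst
    exact continuousAt_const.mul (ContinuousAt.comp (g := fun z : _ × _ => lw z.1 z.2 b)
      (f := fun z : Z × ℝ => (S z.1 + z.2 • T z.1, T z.1)) (lw_cont b).continuousAt
      ((k1.add (continuousAt_snd.smul k2)).prodMk k2))
  have e1 : ∀ᶠ z : Z × ℝ in 𝓝 (u₀, 0), m / 2 < s * lw (S z.1 + z.2 • T z.1) (T z.1) b := by
    refine c1.eventually_const_lt ?_
    show m / 2 < s * lw (S u₀ + (0 : ℝ) • T u₀) (T u₀) b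
    rw [zero_smul, add_zero, ← hmd]
    linarith
  rw [nhds_prod_eq] at e1
  obtain ⟨p₁, hp₁, p₂, hp₂, h12⟩ := eventually_prod_iff.1 e1
  obtain ⟨δ, hδ, hδ'⟩ := Metric.eventually_nhds_iff.1 hp₂
  obtain ⟨N, hN⟩ : ∃ N, N = ‖S u₀‖ + ‖T u₀‖ + 2 := ⟨_, rfl⟩
  have hN1 : 1 ≤ N := by rw [hN]; linarith [norm_nonneg (S u₀), norm_nonneg (T u₀)]
  have e3 : ∀ᶠ q in 𝓝 u₀, ‖S q‖ < ‖S u₀‖ + 1 := hS.norm.eventually_lt_const (by linarith)
  have e4 : ∀ᶠ q in 𝓝 u₀, ‖T q‖ < ‖T u₀‖ + 1 := hT.norm.eventually_lt_const (by linarith)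
  obtain ⟨K, hK⟩ : ∃ K, K = 2 * (Fintype.card (Fin n × Fin 2) *
    (Fintype.card (Equiv.Perm (Fin n × Fin 2)) * N ^ n)) + (1 : ℝ) := ⟨_, rfl⟩
  have hK0 : 0 < K := by rw [hK]; positivity
  refine ⟨min (min 1 (δ / 2)) (m / 2 / (|s| * K)), by positivity, ?_⟩
  filter_upwards [hp₁, e3, e4, hp] with q g1 g3 g4 g5 ε hε hεc v
  have k1 : ε ≤ 1 := hεc.trans ((min_le_left _ _).trans (min_le_left _ _))
  have k2 : ε ≤ δ / 2 := hεc.trans ((min_le_left _ _).trans (min_le_right _ _))
  have hn : ‖S q + ε • T q‖ ≤ N := by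
    have n1 : ‖S q + ε • T q‖ ≤ ‖S q‖ + ‖ε • T q‖ := norm_add_le _ _
    have n2 : ‖ε • T q‖ ≤ ‖T q‖ := by
      rw [norm_smul, Real.norm_eq_abs, abs_of_pos hε]
      exact mul_le_of_le_one_left (norm_nonneg _) k1
    rw [hN]
    linarith
  obtain ⟨w, hw, h0, h⟩ := pw_rate b hb (S q + ε • T q) hN1 hn v
  refine ⟨w, hw, ?_⟩
  have h1 : (S q + ε • T q) ![v, w] = S q ![v, w] + ε * T q ![v, w] := rfl
  rw [← h1]
  have hg : ∀ t : ℝ, HasDerivAt (fun t : ℝ => s * pw (S q + t • T q) b)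
      (s * lw (S q + t • T q) (T q) b) t := fun t => (pw_deriv (S q) (T q) b t).const_mul s
  have hmv : m / 2 * (ε - 0) ≤ s * pw (S q + ε • T q) b - s * pw (S q + (0 : ℝ) • T q) b := by
    refine Convex.mul_sub_le_image_sub_of_le_deriv (convex_Icc (0 : ℝ) ε)
      (f := fun t : ℝ => s * pw (S q + t • T q) b)
      (fun t _ => (hg t).continuousAt.continuousWithinAt)
      (fun t _ => (hg t).differentiableAt.differentiableWithinAt) (fun t ht => ?_) 0
      (left_mem_Icc.2 hε.le) ε (right_mem_Icc.2 hε.le) hε.le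
    rw [(hg t).deriv]
    rw [interior_Icc] at ht
    refine (h12 g1 (hδ' ?_)).le
    rw [Real.dist_eq, sub_zero, abs_of_pos ht.1]
    linarith [ht.2]
  rw [zero_smul, add_zero, sub_zero] at hmv
  have h5 : m / 2 * ε ≤ |s| * |pw (S q + ε • T q) b| := by
    rw [← abs_mul]
    refine le_trans ?_ (le_abs_self _)
    linarith
  have h6 : |pw (S q + ε • T q) b| * ‖v‖ ≤ K * (S q + ε • T q) ![v, w] := by
    rw [hK, add_mul, one_mul]
    linarith
  have h7 : m / 2 * ε * ‖v‖ ≤ |s| * K * (S q + ε • T q) ![v, w] := by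
    calc m / 2 * ε * ‖v‖ ≤ |s| * |pw (S q + ε • T q) b| * ‖v‖ :=
          mul_le_mul_of_nonneg_right h5 (norm_nonneg _)
      _ = |s| * (|pw (S q + ε • T q) b| * ‖v‖) := by ring
      _ ≤ |s| * (K * (S q + ε • T q) ![v, w]) := mul_le_mul_of_nonneg_left h6 hs.le
      _ = _ := by ring
  have hsK : 0 < |s| * K := by positivity
  calc min (min 1 (δ / 2)) (m / 2 / (|s| * K)) * ε * ‖v‖ ≤ m / 2 / (|s| * K) * ε * ‖v‖ := by
        gcongr
        exact min_le_right _ _
    _ = m / 2 * ε * ‖v‖ / (|s| * K) := by ring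
    _ ≤ (S q + ε • T q) ![v, w] := by
        rw [div_le_iff₀ hsK, mul_comm ((S q + ε • T q) ![v, w])]
        exact h7

end norm

end Pool.Agent.Q130.SF
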