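import Pool.Agent.Q130.SF.Pg

/-!
# Closed two-forms with nonnegative top power on manifolds of dimension `2 n`
-/

set_option autoImplicit false

open Set Filter Topology MeasureTheory
open scoped Manifold ContDiff

noncomputable section

namespace Pool.Agent.Q130.SF

open Pool.Agent.Y501.SY

/-- the standard basis of `ℝ ^ (2 n)` -/
def bb (n : ℕ) : Module.Basis (Fin n × Fin 2) ℝ (E (n * 2)) :=
  (EuclideanSpace.basisFun (Fin (n * 2)) ℝ).toBasis.reindex finProdFinEquiv.symm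

theorem bb_norm (n : ℕ) (k : Fin n × Fin 2) : ‖bb n k‖ ≤ 1 := by
  simp [bb]

variable {n : ℕ} {X : Type} [TopologicalSpace X] [ChartedSpace (E (n * 2)) X]

/-- `σ ^ (n - 1) ∧ θ` is positive for the orientation by `Ω ^ n` -/
def PosG (Ω σ θ : Form (n * 2) X 2) (x : X) : Prop :=
  ∀ v : Fin n × Fin 2 → TangentSpace (𝓡 (n * 2)) x, pw (Ω x) v ≠ 0 →
    0 < pw (Ω x) v * lw (σ x) (θ x) v

/-- `σ ^ n` is nonnegative for the orientation by `Ω ^ n` -/
def SSG (Ω σ : Form (n * 2) X 2) (x : X) : Prop :=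
  ∀ v : Fin n × Fin 2 → TangentSpace (𝓡 (n * 2)) x, 0 ≤ pw (Ω x) v * pw (σ x) v

variable [IsManifold (𝓡 (n * 2)) ∞ X]

theorem frame_eqG (x : X) {p : E (n * 2)} (hp : p ∈ (chartAt (E (n * 2)) x).target) :
    ∃ F : (Fin n × Fin 2 → TangentSpace (𝓡 (n * 2)) ((chartAt (E (n * 2)) x).symm p)) → ℝ,
      (∀ (σ θ : Form (n * 2) X 2) v, lw (σ ((chartAt (E (n * 2)) x).symm p))
        (θ ((chartAt (E (n * 2)) x).symm p)) v = F v * lw (pb (chartAt (E (n * 2)) x).symm σ p)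
          (pb (chartAt (E (n * 2)) x).symm θ p) (bb n)) ∧
      (∀ (σ : Form (n * 2) X 2) v, pw (σ ((chartAt (E (n * 2)) x).symm p)) v =
        F v * pw (pb (chartAt (E (n * 2)) x).symm σ p) (bb n)) ∧ ∃ v, F v = 1 := by
  have hmd := mdifferentiable_chart (I := 𝓡 (n * 2)) x
  obtain ⟨L, hL⟩ : ∃ L, L = mfderiv (𝓡 (n * 2)) (𝓡 (n * 2)) (chartAt (E (n * 2)) x).symm p :=
    ⟨_, rfl⟩
  obtain ⟨L', hL'⟩ : ∃ L', L' = mfderiv (𝓡 (n * 2)) (𝓡 (n * 2)) (chartAt (E (n * 2)) x)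
    ((chartAt (E (n * 2)) x).symm p) := ⟨_, rfl⟩
  have e1 : ∀ v, L' (L v) = v := by
    intro v
    have h5 := hmd.comp_symm_deriv hp
    rw [hL, hL']
    exact congrArg (fun A => A v) h5
  have e2 : ∀ v, L (L' v) = v := by
    intro v
    have h5 := hmd.symm_comp_deriv ((chartAt (E (n * 2)) x).map_target hp)
    rw [(chartAt (E (n * 2)) x).right_inv hp] at h5
    rw [hL, hL']
    exact congrArg (fun A => A v) h5
  obtain ⟨A, hA⟩ : ∃ A : TangentSpace (𝓡 (n * 2)) ((chartAt (E (n * 2)) x).symm p) → E (n * 2),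
    A = fun v => (L' v : E (n * 2)) := ⟨_, rfl⟩
  have e2' : ∀ v, L (A v) = v := by
    intro v
    rw [hA]
    exact e2 v
  have e3' : ∀ (θ : Form (n * 2) X 2) (a b : E (n * 2)),
      pb (chartAt (E (n * 2)) x).symm θ p ![a, b] =
      θ ((chartAt (E (n * 2)) x).symm p) ![L a, L b] := by
    intro θ a b
    rw [pb_apply2, hL]
  have e3 : ∀ (θ : Form (n * 2) X 2)
      (v w : TangentSpace (𝓡 (n * 2)) ((chartAt (E (n * 2)) x).symm p)),
      θ ((chartAt (E (n * 2)) x).symm p) ![v, w] =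
        pb (chartAt (E (n * 2)) x).symm θ p ![A v, A w] := by
    intro θ v w
    rw [e3', e2', e2']
  refine ⟨fun v => (bb n).det (fun i => A (v i)), fun σ θ v => ?_, fun σ v => ?_,
    ⟨fun i => L (bb n i), ?_⟩⟩
  · rw [← lw_frame']
    unfold lw
    simp only [e3]
  · rw [← pw_frame']
    unfold pw
    simp only [e3]
  · have : (fun i => A (L (bb n i))) = bb n := by
      funext i
      rw [hA]
      exact e1 _
    show (bb n).det (fun i => A (L (bb n i))) = 1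
    rw [this, (bb n).det_self]

theorem posG_iff (x : X) {p : E (n * 2)} (hp : p ∈ (chartAt (E (n * 2)) x).target)
    (Ω σ θ : Form (n * 2) X 2) :
    PosG Ω σ θ ((chartAt (E (n * 2)) x).symm p) ↔
      (pw (pb (chartAt (E (n * 2)) x).symm Ω p) (bb n) ≠ 0 →
      0 < pw (pb (chartAt (E (n * 2)) x).symm Ω p) (bb n) *
        lw (pb (chartAt (E (n * 2)) x).symm σ p) (pb (chartAt (E (n * 2)) x).symm θ p) (bb n)) := by
  obtain ⟨F, h1, h2, v₀, h3⟩ := frame_eqG x hp
  constructor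
  · intro h h4
    have h5 := h v₀ (by rw [h2, h3, one_mul]; exact h4)
    rw [h1, h2, h3, one_mul, one_mul] at h5
    exact h5
  · intro h v hv
    rw [h2] at hv
    have hF : F v ≠ 0 := left_ne_zero_of_mul hv
    have h5 := h (right_ne_zero_of_mul hv)
    rw [h1, h2]
    have h6 : 0 < F v ^ 2 := by positivity
    have h7 := mul_pos h6 h5
    nlinarith

theorem ssG_iff (x : X) {p : E (n * 2)} (hp : p ∈ (chartAt (E (n * 2)) x).target)
    (Ω σ : Form (n * 2) X 2) :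
    SSG Ω σ ((chartAt (E (n * 2)) x).symm p) ↔
      0 ≤ pw (pb (chartAt (E (n * 2)) x).symm Ω p) (bb n) *
      pw (pb (chartAt (E (n * 2)) x).symm σ p) (bb n) := by
  obtain ⟨F, h1, h2, v₀, h3⟩ := frame_eqG x hp
  constructor
  · intro h
    have h5 := h v₀
    rw [h2, h2, h3, one_mul, one_mul] at h5
    exact h5
  · intro h v
    rw [h2, h2]
    have h7 := mul_nonneg (sq_nonneg (F v)) h
    nlinarith

theorem volG_iff (x : X) {p : E (n * 2)} (hp : p ∈ (chartAt (E (n * 2)) x).target)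
    (Ω : Form (n * 2) X 2) :
    (∃ v : Fin n × Fin 2 → TangentSpace (𝓡 (n * 2)) ((chartAt (E (n * 2)) x).symm p),
      pw (Ω ((chartAt (E (n * 2)) x).symm p)) v ≠ 0) ↔
      pw (pb (chartAt (E (n * 2)) x).symm Ω p) (bb n) ≠ 0 := by
  obtain ⟨F, h1, h2, v₀, h3⟩ := frame_eqG x hp
  constructor
  · rintro ⟨v, hv⟩ h4
    rw [h2, h4, mul_zero] at hv
    exact hv rfl
  · intro h
    exact ⟨v₀, by rw [h2, h3, one_mul]; exact h⟩

theorem conG {τ : Form (n * 2) X 2} (hτ : IsSmooth τ) (x : X) :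
    ContinuousAt (pb (chartAt (E (n * 2)) x).symm τ) (chartAt (E (n * 2)) x x) :=
  (hτ _ _ (chartAt (E (n * 2)) x).open_target contMDiffOn_chart_symm).continuousOn.continuousAt
    ((chartAt (E (n * 2)) x).open_target.mem_nhds (mem_chart_target (E (n * 2)) x))

/-- positivity is an open condition -/
theorem posG_open {Ω : Form (n * 2) X 2} (hΩ : IsSmooth Ω)
    (hvol : ∀ x, ∃ v : Fin n × Fin 2 → TangentSpace (𝓡 (n * 2)) x, pw (Ω x) v ≠ 0)
    {σ θ : Form (n * 2) X 2} (hσ : IsSmooth σ) (hθ : IsSmooth θ) {x : X}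
    (h : PosG Ω σ θ x) : ∀ᶠ z in 𝓝 x, PosG Ω σ θ z := by
  have hx : x ∈ (chartAt (E (n * 2)) x).source := mem_chart_source (E (n * 2)) x
  have hp : chartAt (E (n * 2)) x x ∈ (chartAt (E (n * 2)) x).target := mem_chart_target (E (n * 2)) x
  have h0 : PosG Ω σ θ ((chartAt (E (n * 2)) x).symm (chartAt (E (n * 2)) x x)) := by
    rw [(chartAt (E (n * 2)) x).left_inv hx]
    exact h
  have hv0 := hvol ((chartAt (E (n * 2)) x).symm (chartAt (E (n * 2)) x x))
  rw [volG_iff x hp] at hv0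
  have h1 := (posG_iff x hp Ω σ θ).1 h0 hv0
  have c1 : ContinuousAt (fun q : E (n * 2) => pw (pb (chartAt (E (n * 2)) x).symm Ω q) (bb n) *
      lw (pb (chartAt (E (n * 2)) x).symm σ q) (pb (chartAt (E (n * 2)) x).symm θ q) (bb n))
      (chartAt (E (n * 2)) x x) :=
    (ContinuousAt.comp (g := fun A => pw A (bb n)) (f := pb (chartAt (E (n * 2)) x).symm Ω)
      (pw_cont (bb n)).continuousAt (conG hΩ x)).mul
      (ContinuousAt.comp (g := fun z : _ × _ => lw z.1 z.2 (bb n))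
        (f := fun q => (pb (chartAt (E (n * 2)) x).symm σ q,
          pb (chartAt (E (n * 2)) x).symm θ q)) (lw_cont (bb n)).continuousAt
        ((conG hσ x).prodMk (conG hθ x)))
  have h2 := c1.eventually_const_lt h1
  filter_upwards [((chartAt (E (n * 2)) x).continuousAt hx).eventually h2,
    (chartAt (E (n * 2)) x).open_source.mem_nhds hx] with z hz hzs
  have h3 := (posG_iff x ((chartAt (E (n * 2)) x).map_source hzs) Ω σ θ).2 (fun _ => hz)
  rw [(chartAt (E (n * 2)) x).left_inv hzs] at h3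
  exact h3

/-- the rate of nondegeneracy -/
theorem rateAtG {Ω : Form (n * 2) X 2} (hΩ : IsSmooth Ω)
    (hvol : ∀ x, ∃ v : Fin n × Fin 2 → TangentSpace (𝓡 (n * 2)) x, pw (Ω x) v ≠ 0)
    {σ θ : Form (n * 2) X 2} (hσ : IsSmooth σ) (hθ : IsSmooth θ)
    (hss : ∀ x, SSG Ω σ x) {x : X} (h : PosG Ω σ θ x) : RateAt σ θ x := by
  have hx : x ∈ (chartAt (E (n * 2)) x).source := mem_chart_source (E (n * 2)) x
  have hp : chartAt (E (n * 2)) x x ∈ (chartAt (E (n * 2)) x).target := mem_chart_target (E (n * 2)) x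
  have h0 : PosG Ω σ θ ((chartAt (E (n * 2)) x).symm (chartAt (E (n * 2)) x x)) := by
    rw [(chartAt (E (n * 2)) x).left_inv hx]
    exact h
  have hv0 := hvol ((chartAt (E (n * 2)) x).symm (chartAt (E (n * 2)) x x))
  rw [volG_iff x hp] at hv0
  have h1 := (posG_iff x hp Ω σ θ).1 h0 hv0
  refine rateG (bb n) (bb_norm n) (Z := E (n * 2)) (S := pb (chartAt (E (n * 2)) x).symm σ)
    (T := pb (chartAt (E (n * 2)) x).symm θ) (conG hσ x) (conG hθ x)
    (s := pw (pb (chartAt (E (n * 2)) x).symm Ω (chartAt (E (n * 2)) x x)) (bb n)) h1 ?_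
  have c2 : ContinuousAt (fun q : E (n * 2) =>
      pw (pb (chartAt (E (n * 2)) x).symm Ω (chartAt (E (n * 2)) x x)) (bb n) *
        pw (pb (chartAt (E (n * 2)) x).symm Ω q) (bb n)) (chartAt (E (n * 2)) x x) :=
    continuousAt_const.mul (ContinuousAt.comp (g := fun A => pw A (bb n))
      (f := pb (chartAt (E (n * 2)) x).symm Ω) (pw_cont (bb n)).continuousAt (conG hΩ x))
  have h2 := c2.eventually_const_lt (u := (0 : ℝ)) (mul_self_pos.2 hv0)
  filter_upwards [h2, (chartAt (E (n * 2)) x).open_target.mem_nhds hp] with q hq hqt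
  have h4 := (ssG_iff x hqt Ω σ).1 (hss _)
  obtain ⟨s, hs⟩ : ∃ s, s = pw (pb (chartAt (E (n * 2)) x).symm Ω (chartAt (E (n * 2)) x x)) (bb n) :=
    ⟨_, rfl⟩
  obtain ⟨t, ht⟩ : ∃ t, t = pw (pb (chartAt (E (n * 2)) x).symm Ω q) (bb n) := ⟨_, rfl⟩
  obtain ⟨r, hr⟩ : ∃ r, r = pw (pb (chartAt (E (n * 2)) x).symm σ q) (bb n) := ⟨_, rfl⟩
  rw [← hs, ← ht] at hq
  rw [← ht, ← hr] at h4
  rw [← hs, ← hr]
  have ht0 : t ≠ 0 := right_ne_zero_of_mul hq.ne'
  have h5 : 0 ≤ (s * t) * (t * r) := mul_nonneg hq.le h4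
  have h6 : (s * t) * (t * r) = t ^ 2 * (s * r) := by ring
  rw [h6] at h5
  exact nonneg_of_mul_nonneg_right h5 (by positivity)

end Pool.Agent.Q130.SF
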