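import Pool.Agent.Q130.SF.PgM

/-!
# Forms `θ` with `σ ^ (n - 1) ∧ θ` positive
-/

set_option autoImplicit false

open Set Filter Topology MeasureTheory
open scoped Manifold ContDiff

noncomputable section

namespace Pool.Agent.Q130.SF

open Pool.Agent.Y501.SY

/-- a coordinate -/
def prjG {d : ℕ} (j : Fin d) (u : E d) : ℝ := u j

/-- `g` is a system of coordinates at `y`, up to the chart -/
def CoordG {d : ℕ} {X : Type} [TopologicalSpace X] [ChartedSpace (E d) X] (g : Fin d → X → ℝ)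
    (z y : X) : Prop :=
  ∀ (j : Fin d) (v : TangentSpace (𝓡 d) y), dd (d := d) (g j) y v =
    prjG j (mfderiv (𝓡 d) (𝓡 d) (chartAt (E d) z) y v)

theorem coordsG {d : ℕ} {X : Type} [TopologicalSpace X] [ChartedSpace (E d) X]
    [IsManifold (𝓡 d) ∞ X] [T2Space X] (z : X) :
    ∃ g : Fin d → X → ℝ, (∀ j, SmoothFun (d := d) (g j)) ∧ CoordG g z z := by
  have hz : z ∈ (chartAt (E d) z).source := mem_chart_source (E d) z
  have hcd : (chartAt (E d) z).MDifferentiable (𝓡 d) (𝓡 d) := mdifferentiable_chart (I := 𝓡 d) z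
  obtain ⟨b⟩ : Nonempty (SmoothBumpFunction (𝓡 d) z) := inferInstance
  let F : X → E d := fun x => b x • chartAt (E d) z x
  have hF : ContMDiff (𝓡 d) 𝓘(ℝ, E d) ∞ F := b.contMDiff_smul (contMDiffOn_chart (I := 𝓡 d))
  have hFc : F =ᶠ[𝓝 z] chartAt (E d) z := by
    filter_upwards [b.eventuallyEq_one] with x hx
    change b x • chartAt (E d) z x = chartAt (E d) z x
    rw [hx]
    exact one_smul ℝ (chartAt (E d) z x)
  refine ⟨fun j x => F x j, fun j =>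
    ((EuclideanSpace.proj (𝕜 := ℝ) j : E d →L[ℝ] ℝ).contDiff.contMDiff).comp hF, fun j v => ?_⟩
  have hcdz : MDifferentiableAt (𝓡 d) 𝓘(ℝ, E d) (chartAt (E d) z) z := hcd.mdifferentiableAt hz
  have e1 : (fun x => F x j) =ᶠ[𝓝 z] (EuclideanSpace.proj (𝕜 := ℝ) j : E d →L[ℝ] ℝ) ∘
      (chartAt (E d) z) := by
    filter_upwards [hFc] with x hx
    change F x j = chartAt (E d) z x j
    rw [hx]
  unfold dd
  rw [e1.mfderiv_eq, mfderiv_comp z
    ((EuclideanSpace.proj (𝕜 := ℝ) j : E d →L[ℝ] ℝ).contDiff.contMDiff.mdifferentiableAt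
      (n := 1) one_ne_zero) hcdz,
    mfderiv_eq_fderiv, ContinuousLinearMap.fderiv]
  rfl

variable {n : ℕ} {X : Type} [TopologicalSpace X] [ChartedSpace (E (n * 2)) X]
  [IsManifold (𝓡 (n * 2)) ∞ X]

/-- the local form -/
theorem theta_localG [T2Space X] (hG : S_GEN) {Ω σ : Form (n * 2) X 2} {z : X}
    (hvol : ∃ v : Fin n × Fin 2 → TangentSpace (𝓡 (n * 2)) z, pw (Ω z) v ≠ 0)
    (hσ : ∃ (B : (TangentSpace (𝓡 (n * 2)) z) [⋀^Fin 2]→L[ℝ] ℝ)
      (v : Fin n × Fin 2 → TangentSpace (𝓡 (n * 2)) z), lw (σ z) B v ≠ 0) :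
    ∃ θ : Form (n * 2) X 2, IsSmooth θ ∧ PosG Ω σ θ z := by
  obtain ⟨g, hg, hc⟩ := coordsG (d := n * 2) z
  have hz : z ∈ (chartAt (E (n * 2)) z).source := mem_chart_source (E (n * 2)) z
  have hp : chartAt (E (n * 2)) z z ∈ (chartAt (E (n * 2)) z).target := mem_chart_target (E (n * 2)) z
  obtain ⟨p, hpd⟩ : ∃ p, p = chartAt (E (n * 2)) z z := ⟨_, rfl⟩
  rw [← hpd] at hp
  have hzp : (chartAt (E (n * 2)) z).symm p = z := by
    rw [hpd]; exact (chartAt (E (n * 2)) z).left_inv hz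
  have hc' : CoordG g z ((chartAt (E (n * 2)) z).symm p) := by rw [hzp]; exact hc
  have hvol' : ∃ v : Fin n × Fin 2 → TangentSpace (𝓡 (n * 2)) ((chartAt (E (n * 2)) z).symm p),
      pw (Ω ((chartAt (E (n * 2)) z).symm p)) v ≠ 0 := by rw [hzp]; exact hvol
  have hσ' : ∃ (B : (TangentSpace (𝓡 (n * 2)) ((chartAt (E (n * 2)) z).symm p)) [⋀^Fin 2]→L[ℝ] ℝ)
      (v : Fin n × Fin 2 → TangentSpace (𝓡 (n * 2)) ((chartAt (E (n * 2)) z).symm p)),
      lw (σ ((chartAt (E (n * 2)) z).symm p)) B v ≠ 0 := by rw [hzp]; exact hσ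
  rw [volG_iff z hp] at hvol'
  obtain ⟨B, v₀, hB⟩ := hσ'
  have hmd := mdifferentiable_chart (I := 𝓡 (n * 2)) z
  obtain ⟨L, hL⟩ : ∃ L, L = mfderiv (𝓡 (n * 2)) (𝓡 (n * 2)) (chartAt (E (n * 2)) z).symm p :=
    ⟨_, rfl⟩
  obtain ⟨A, hA⟩ : ∃ A : TangentSpace (𝓡 (n * 2)) ((chartAt (E (n * 2)) z).symm p) → E (n * 2),
    A = fun v => (mfderiv (𝓡 (n * 2)) (𝓡 (n * 2)) (chartAt (E (n * 2)) z)
      ((chartAt (E (n * 2)) z).symm p) v : E (n * 2)) := ⟨_, rfl⟩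
  have e2 : ∀ v, L (A v) = v := by
    intro v
    have h5 := hmd.symm_comp_deriv ((chartAt (E (n * 2)) z).map_target hp)
    rw [(chartAt (E (n * 2)) z).right_inv hp] at h5
    rw [hL, hA]
    exact congrArg (fun A => A v) h5
  obtain ⟨B', hB'⟩ : ∃ B' : (E (n * 2)) [⋀^Fin 2]→L[ℝ] ℝ, B' = B.compContinuousLinearMap L := ⟨_, rfl⟩
  have hB'v : ∀ a b : E (n * 2), B' ![a, b] = B ![L a, L b] := by
    intro a b
    rw [hB']
    have h6 : (fun i => L ((![a, b] : Fin 2 → E (n * 2)) i)) = ![L a, L b] := by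
      funext i
      fin_cases i <;> rfl
    exact congrArg B h6
  obtain ⟨θ, hθ⟩ : ∃ θ : Form (n * 2) X 2, θ = ∑ j, ∑ k,
    (B' ![bs (n * 2) j, bs (n * 2) k] / 2) • dfdg (g j) (g k) := ⟨_, rfl⟩
  have hθs : IsSmooth θ := by
    rw [hθ]
    refine IsSmooth.sum _ fun j _ => IsSmooth.sum _ fun k _ => IsSmooth.smul ?_ _
    have h1 := (hG (n * 2) X (fun _ => 1) (g j) (g k) (SmoothFun.const 1) (hg j) (hg k)).2.1
    have h2 : hdfdg (d := n * 2) (fun _ => 1) (g j) (g k) = dfdg (d := n * 2) (g j) (g k) := by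
      funext x
      exact one_smul _ _
    rw [h2] at h1
    exact h1
  have hθv : ∀ (y : X) (v w : TangentSpace (𝓡 (n * 2)) y), θ y ![v, w] =
      ∑ j, ∑ k, (B' ![bs (n * 2) j, bs (n * 2) k] / 2) *
        (dd (d := n * 2) (g j) y v * dd (d := n * 2) (g k) y w -
        dd (d := n * 2) (g j) y w * dd (d := n * 2) (g k) y v) := by
    intro y v w
    rw [hθ]
    simp only [Finset.sum_apply, Pi.smul_apply, ContinuousAlternatingMap.sum_apply,
      ContinuousAlternatingMap.smul_apply, smul_eq_mul]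
    refine Finset.sum_congr rfl fun j _ => Finset.sum_congr rfl fun k _ => ?_
    rw [show dfdg (d := n * 2) (g j) (g k) y ![v, w] =
        dd (g j) y v * dd (g k) y w - dd (g j) y w * dd (g k) y v from
      wedge_apply (V := E (n * 2)) (dd (g j) y) (dd (g k) y) ![v, w]]
  have hθB : θ ((chartAt (E (n * 2)) z).symm p) = B := by
    refine ext2 fun v w => ?_
    rw [hθv]
    have h1 : B ![v, w] = B' ![A v, A w] := by rw [hB'v, e2, e2]
    rw [h1, expand2]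
    refine Finset.sum_congr rfl fun j _ => Finset.sum_congr rfl fun k _ => ?_
    rw [hc' j v, hc' k w, hc' j w, hc' k v, hA]
    rfl
  obtain ⟨F, h1, h2, -⟩ := frame_eqG z hp
  rw [← hθB, h1] at hB
  obtain ⟨s, hs⟩ : ∃ s, s = pw (pb (chartAt (E (n * 2)) z).symm Ω p) (bb n) := ⟨_, rfl⟩
  obtain ⟨r, hr⟩ : ∃ r, r = lw (pb (chartAt (E (n * 2)) z).symm σ p)
    (pb (chartAt (E (n * 2)) z).symm θ p) (bb n) := ⟨_, rfl⟩
  rw [← hs] at hvol'
  rw [← hr] at hB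
  have hr0 : r ≠ 0 := right_ne_zero_of_mul hB
  refine ⟨(s * r) • θ, hθs.smul _, ?_⟩
  rw [← hzp, posG_iff z hp]
  intro _
  have h3 : pb (chartAt (E (n * 2)) z).symm ((s * r) • θ) p =
      (s * r) • pb (chartAt (E (n * 2)) z).symm θ p := by
    ext v
    rfl
  rw [h3, lw_smul, ← hs, ← hr]
  have h4 : s * (s * r * r) = (s * r) * (s * r) := by ring
  rw [h4]
  exact mul_self_pos.2 (mul_ne_zero hvol' hr0)

theorem lw_sumF (σ : Form (n * 2) X 2) (t : Finset X) (f : X → X → ℝ) (θ : X → Form (n * 2) X 2)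
    (x : X) (v : Fin n × Fin 2 → TangentSpace (𝓡 (n * 2)) x) :
    lw (σ x) ((∑ z ∈ t, mulF (f z) (θ z) : Form (n * 2) X 2) x) v =
      ∑ z ∈ t, f z x * lw (σ x) (θ z x) v := by
  classical
  induction t using Finset.induction_on with
  | empty =>
    rw [Finset.sum_empty, Finset.sum_empty]
    exact lw_zero (σ x) v
  | insert i t hi ih =>
    rw [Finset.sum_insert hi, Finset.sum_insert hi, ← ih, ← lw_smul, ← lw_add]
    rfl

/-- the positive form -/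
theorem theta_oneG [CompactSpace X] [T2Space X] (hG : S_GEN) {Ω σ : Form (n * 2) X 2}
    (hΩ : IsSmooth Ω) (hvol : ∀ x, ∃ v : Fin n × Fin 2 → TangentSpace (𝓡 (n * 2)) x, pw (Ω x) v ≠ 0)
    (hσs : IsSmooth σ) (hσ : ∀ x, ∃ (B : (TangentSpace (𝓡 (n * 2)) x) [⋀^Fin 2]→L[ℝ] ℝ)
      (v : Fin n × Fin 2 → TangentSpace (𝓡 (n * 2)) x), lw (σ x) B v ≠ 0) :
    ∃ θ : Form (n * 2) X 2, IsSmooth θ ∧ ∀ x, PosG Ω σ θ x := by
  classical
  choose θ hθs hθ using fun z : X => theta_localG hG (hvol z) (hσ z)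
  choose W hWsub hWo hzW using fun z =>
    eventually_nhds_iff.1 (posG_open hΩ hvol hσs (hθs z) (hθ z))
  choose f hf hf01 hf1 hf0 using fun z : X => cutoff (d := n * 2) (D := {z}) isClosed_singleton
    (hWo z) (singleton_subset_iff.2 (hzW z))
  obtain ⟨t, ht⟩ := CompactSpace.elim_nhds_subcover (fun z => {y | f z y = 1})
    (fun z => hf1 z z rfl)
  refine ⟨∑ z ∈ t, mulF (f z) (θ z), IsSmooth.sum _ fun z _ => mulF_smooth (hf z) (hθs z),
    fun x v hv => ?_⟩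
  have hx : x ∈ ⋃ z ∈ t, {y | f z y = 1} := by rw [ht]; trivial
  have hx' : ∃ z ∈ t, f z x = 1 := by simpa using hx
  obtain ⟨z₀, hz₀, h1⟩ := hx'
  rw [lw_sumF, Finset.mul_sum]
  have hterm : ∀ z, f z x ≠ 0 → 0 < pw (Ω x) v * lw (σ x) (θ z x) v := by
    intro z hz
    have hxW : x ∈ W z := by
      by_contra h
      exact hz (hf0 z x h).self_of_nhds
    exact hWsub z x hxW v hv
  refine Finset.sum_pos' (fun z _ => ?_) ⟨z₀, hz₀, ?_⟩
  · by_cases hz : f z x = 0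
    · rw [hz, zero_mul, mul_zero]
    · have := mul_nonneg (hf01 z x).1 (hterm z hz).le
      nlinarith
  · rw [h1, one_mul]
    exact hterm z₀ (by rw [h1]; exact one_ne_zero)

/-- **Closed forms with nonnegative top power.** -/
theorem mainG [CompactSpace X] [T2Space X] (hG : S_GEN) (hPl : S_PLANAR)
    {Ω σ : Form (n * 2) X 2} (hΩ : IsSmooth Ω)
    (hvol : ∀ x, ∃ v : Fin n × Fin 2 → TangentSpace (𝓡 (n * 2)) x, pw (Ω x) v ≠ 0)
    (hσs : IsSmooth σ) (hσ : ∀ x, ∃ (B : (TangentSpace (𝓡 (n * 2)) x) [⋀^Fin 2]→L[ℝ] ℝ)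
      (v : Fin n × Fin 2 → TangentSpace (𝓡 (n * 2)) x), lw (σ x) B v ≠ 0)
    (hss : ∀ x, SSG Ω σ x)
    (hH : ∀ z : X, ¬ nd σ z → ∀ x : X, μH[2] (chartAt (E (n * 2)) x ''
      (connectedComponentIn {x | ¬ nd σ x} z ∩ (chartAt (E (n * 2)) x).source)) = 0)
    {W : Set X} (hW : IsOpen W) (hDW : ∀ x, ¬ nd σ x → x ∈ W) :
    ∃ θ : Form (n * 2) X 2, IsSmooth θ ∧
    ∃ (α : Form (n * 2) X 1) (η : Form (n * 2) X 2), IsSmooth α ∧ IsSmooth η ∧ IsD α η ∧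
      IsClosedForm η ∧ (∀ x, x ∉ W → α x = 0 ∧ η x = 0) ∧
      ∃ ε₀ : ℝ, 0 < ε₀ ∧ ∀ ε : ℝ, 0 < ε → ε ≤ ε₀ → ∀ s : ℝ, 0 ≤ s → s ≤ 1 →
        ∀ x, nd (mix σ θ η ε s) x := by
  obtain ⟨θ, hθs, hpos⟩ := theta_oneG hG hΩ hvol hσs hσ
  exact ⟨θ, hθs, ndThm hG hPl hσs hθs (fun x _ => rateAtG hΩ hvol hσs hθs hss (hpos x))
    (fun z hz => nullSum_of_haus hθs (hH z hz)) hW hDW⟩

end Pool.Agent.Q130.SF
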