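import Pool.Agent.Q130.SF.Hom
import Pool.Agent.Q130.SF.Cls

/-!
# Weakly taming forms relative to a closed set
-/

set_option autoImplicit false

open Set Filter Topology MeasureTheory
open scoped Manifold ContDiff

noncomputable section

namespace Pool.Agent.Q130.SF

open Pool.Agent.Y501.SY

variable {d : ℕ} {X : Type} [TopologicalSpace X] [ChartedSpace (E d) X]
  [IsManifold (𝓡 d) ∞ X]

/-- a smooth function which is one near `D` and zero near the complement of `W` -/
theorem cutoff [CompactSpace X] [T2Space X] {D W : Set X} (hD : IsClosed D) (hW : IsOpen W)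
    (hDW : D ⊆ W) : ∃ u : X → ℝ, SmoothFun (d := d) u ∧ (∀ x, 0 ≤ u x ∧ u x ≤ 1) ∧
      (∀ x ∈ D, ∀ᶠ y in 𝓝 x, u y = 1) ∧ ∀ x, x ∉ W → ∀ᶠ y in 𝓝 x, u y = 0 := by
  obtain ⟨f, hf0, hf1, hf⟩ := exists_contMDiffMap_zero_one_of_isClosed (𝓡 d) (n := ⊤)
    (hW.isClosed_compl) hD (by
      rw [Set.disjoint_left]
      exact fun x hx hxD => hx (hDW hxD))
  refine ⟨fun x => Real.smoothTransition (3 * f x - 1), ?_, fun x =>
    ⟨Real.smoothTransition.nonneg _, Real.smoothTransition.le_one _⟩, fun x hx => ?_,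
    fun x hx => ?_⟩
  · have h1 : ContDiff ℝ ∞ (fun t : ℝ => Real.smoothTransition (3 * t - 1)) := by
      have h2 : ContDiff ℝ ∞ Real.smoothTransition := Real.smoothTransition.contDiff
      exact h2.comp (by fun_prop)
    exact h1.contMDiff.comp f.contMDiff
  · have h1 : f x = 1 := hf1 hx
    have h2 : ∀ᶠ y in 𝓝 x, (2 / 3 : ℝ) < f y :=
      f.contMDiff.continuous.continuousAt.eventually (lt_mem_nhds (by rw [h1]; norm_num))
    filter_upwards [h2] with y hy
    exact Real.smoothTransition.one_of_one_le (by linarith)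
  · have h1 : f x = 0 := hf0 hx
    have h2 : ∀ᶠ y in 𝓝 x, f y < (1 / 3 : ℝ) :=
      f.contMDiff.continuous.continuousAt.eventually (gt_mem_nhds (by rw [h1]; norm_num))
    filter_upwards [h2] with y hy
    exact Real.smoothTransition.zero_of_nonpos (by linarith)

/-- weakly taming forms are corrected near their degenerate set -/
theorem relThm (hG : S_GEN) (hP : S_PERT) (hN : S_NULL) (hPl : S_PLANAR)
    [CompactSpace X] [T2Space X] {J : End d X} (hJ : IsAlmostComplex J)
    {m : ℕ} {Y : Type} [TopologicalSpace Y]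
    [ChartedSpace (E m) Y] [IsManifold (𝓡 m) ∞ Y] [T2Space Y] {f : X → Y}
    (hf : ContMDiff (𝓡 d) (𝓡 m) ∞ f) {σ : Form d X 2} (hσ : IsSmooth σ)
    (hpos : ∀ (x : X) (v : TangentSpace (𝓡 d) x), 0 ≤ σ x ![v, J x v])
    (hker : ∀ (x : X) (v : TangentSpace (𝓡 d) x), σ x ![v, J x v] = 0 →
      mfderiv (𝓡 d) (𝓡 m) f x v = 0)
    (hthin : ∀ z : X, ¬ TamesAt σ J z →
      ThinAt σ J (connectedComponentIn ({x | ¬ TamesAt σ J x} ∩ f ⁻¹' {f z}) z) z)
    {W : Set X} (hW : IsOpen W) (hDW : ∀ x, ¬ TamesAt σ J x → x ∈ W) :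
    ∃ (α : Form d X 1) (η : Form d X 2), IsSmooth α ∧ IsSmooth η ∧ IsD α η ∧ IsClosedForm η ∧
      (∀ x, x ∉ W → α x = 0 ∧ η x = 0) ∧
      ∃ ε₀ : ℝ, 0 < ε₀ ∧ ∀ ε : ℝ, 0 < ε → ε ≤ ε₀ → ∀ x, TamesAt (σ + ε • η) J x := by
  have hDc : IsClosed {x | ¬ TamesAt σ J x} := by
    rw [← isOpen_compl_iff, isOpen_iff_eventually]
    intro x hx
    have hx' : TamesAt σ J x := by
      by_contra h; exact hx h
    filter_upwards [TamesAt.nhds hP hJ hσ hx'] with y hy h
    exact h hy
  have hD : IsCompact {x | ¬ TamesAt σ J x} := hDc.isCompact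
  obtain ⟨α, η, hpair, hη⟩ := glue hJ σ hD
    (by
      intro x v hv h0 ht
      have := ht v hv
      rw [h0] at this
      exact lt_irrefl _ this)
    (by
      intro z hz
      have hzF : z ∈ {x | ¬ TamesAt σ J x} ∩ f ⁻¹' {f z} := ⟨hz, rfl⟩
      have hF : IsCompact ({x | ¬ TamesAt σ J x} ∩ f ⁻¹' {f z}) :=
        hD.inter_right (isClosed_singleton.preimage hf.continuous)
      obtain ⟨α, η, hpair, hη⟩ := coverN hG hP hN hPl hJ hσ hpos
        (compact_comp hF hzF) (by
          intro w hw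
          have hwF := connectedComponentIn_subset _ _ hw
          have h1 := hthin w hwF.1
          have h2 : f w = f z := hwF.2
          rw [h2] at h1
          rw [connectedComponentIn_eq hw]
          exact h1)
      have hU : IsOpen {x | ∀ᶠ y in 𝓝 x, NullPos σ J η y} := isOpen_setOfPred_eventually_nhds
      obtain ⟨u, hu, hu0, huz, huU, hud⟩ := sepfun hf hD hz hU
        (fun x hx => NullPos.nhds hP hN hJ hσ (hpair.props hG).2.1 hpos (hη x hx))
      refine ⟨u, α, η, hu, fun x hx v hv => hud x hx v (hker x v hv), hu0, huz, hpair, ?_⟩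
      intro x hx hux v hv h0
      exact (huU x hx hux).self_of_nhds v hv h0)
  obtain ⟨u, hu, hu01, hu1, hu0⟩ := cutoff (d := d) hDc hW hDW
  obtain ⟨α', η', hp', hα', hη'⟩ := hpair.smulFun hu
  obtain ⟨s1, s2, s3, s4⟩ := hp'.props hG
  obtain ⟨ε, hε, ht⟩ := unif isCompact_univ
    (fun ε y => ∀ ε' : ℝ, 0 < ε' → ε' ≤ ε → TamesAt (σ + ε' • η') J y)
    (fun ε ε' y hle hp ε'' h0 h1 => hp ε'' h0 (h1.trans hle))
    (fun x _ => hN d X J hJ σ η' hσ s2 hpos x (by
      intro v hv h0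
      have hxD : x ∈ {x | ¬ TamesAt σ J x} := by
        intro ht
        have := ht v hv
        rw [h0] at this
        exact lt_irrefl _ this
      have h1 := hu1 x hxD
      have h2 : ∀ w : TangentSpace (𝓡 d) x, dd u x w = 0 := dd_eventually_const h1
      rw [hη', h2, h2, h1.self_of_nhds]
      have h3 := hη x v hv h0
      linarith))
  refine ⟨α', η', s1, s2, s3, s4, fun x hx => ?_, ε, hε, fun ε' h1 h2 x =>
    ht x (mem_univ x) ε' h1 h2⟩
  have h1 := hu0 x hx
  have h2 : ∀ w : TangentSpace (𝓡 d) x, dd u x w = 0 := dd_eventually_const h1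
  constructor
  · ext v
    have h3 : v = ![v 0] := by
      funext i
      fin_cases i
      rfl
    rw [h3, hα', h1.self_of_nhds, zero_mul]
    rfl
  · ext v
    have h3 : v = ![v 0, v 1] := by
      funext i
      fin_cases i <;> rfl
    rw [h3, hη', h1.self_of_nhds, h2, h2]
    simp

/-- a function times a form -/
def mulF {k : ℕ} (χ : X → ℝ) (σ : Form d X k) : Form d X k := fun x => χ x • σ x

omit [IsManifold (𝓡 d) ∞ X] in
theorem mulF_smooth {k : ℕ} {χ : X → ℝ} (hχ : SmoothFun (d := d) χ) {σ : Form d X k}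
    (hσ : IsSmooth σ) : IsSmooth (mulF χ σ) := by
  intro U φ hU hφ
  have h1 : ContDiffOn ℝ ∞ (fun p => χ (φ p)) U := by
    have h2 : ContMDiffOn (𝓡 d) 𝓘(ℝ, ℝ) ∞ (fun p => χ (φ p)) U := by
      have h3 : ContMDiff (𝓡 d) 𝓘(ℝ, ℝ) ∞ χ := hχ
      exact h3.comp_contMDiffOn hφ
    exact h2.contDiffOn
  exact h1.smul (hσ U φ hU hφ)

/-- a smooth taming form equal to a given form on a closed set -/
theorem exists_tame_rel (hG : S_GEN) (hP : S_PERT) (hL : S_LOCAL) [T2Space X] [CompactSpace X]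
    {J : End d X} (hJ : IsAlmostComplex J) {σ : Form d X 2} (hσ : IsSmooth σ) {A U : Set X}
    (hA : IsClosed A) (hU : IsOpen U) (hAU : A ⊆ U) (ht : ∀ x ∈ U, TamesAt σ J x) :
    ∃ w : Form d X 2, IsSmooth w ∧ (∀ x, TamesAt w J x) ∧ ∀ x ∈ A, w x = σ x := by
  obtain ⟨w, hw, hwt⟩ := exists_tame hG hP hL hJ
  obtain ⟨u, hu, hu01, hu1, hu0⟩ := cutoff (d := d) hA hU hAU
  have hu' : SmoothFun (d := d) (fun x => 1 + (-1) * u x) :=
    (SmoothFun.const 1).add ((SmoothFun.const (-1)).mul hu)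
  refine ⟨mulF u σ + mulF (fun x => 1 + (-1) * u x) w, (mulF_smooth hu hσ).add
    (mulF_smooth hu' hw), fun x v hv => ?_, fun x hx => ?_⟩
  · show 0 < u x * σ x ![v, J x v] + (1 + (-1) * u x) * w x ![v, J x v]
    obtain ⟨h0, h1⟩ := hu01 x
    have h2 := hwt x v hv
    by_cases hx : x ∈ U
    · have h3 := ht x hx v hv
      rcases h0.lt_or_eq with h4 | h4
      · have h5 := mul_pos h4 h3
        have h6 : 0 ≤ (1 + (-1) * u x) * w x ![v, J x v] := mul_nonneg (by linarith) h2.le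
        linarith
      · rw [← h4]
        linarith
    · have h4 : u x = 0 := (hu0 x hx).self_of_nhds
      rw [h4]
      linarith
  · have h1 : u x = 1 := (hu1 x hx).self_of_nhds
    show u x • σ x + (1 + (-1) * u x) • w x = σ x
    rw [h1]
    simp

/-- extension of families of taming forms with prescribed values on a set near which they extend
locally, inside a convex set -/
theorem extend4 {Z : Type} [TopologicalSpace Z] [CompactSpace X] [CompactSpace Z] [T2Space Z]
    {R : Set Z} {J : Z → End d X} (hJ : JFam J) {η : Z → Form d X 2} {C : Set (Form d X 2)}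
    (hC : Convex ℝ C)
    (hloc : ∀ z, ∃ (D : Set Z) (B : Z → Form d X 2), IsOpen D ∧ z ∈ D ∧ CFam D B ∧
      (∀ p ∈ D, IsSmooth (B p)) ∧ (∀ x, TamesAt (B z) (J z) x) ∧ (∀ p ∈ D, B p ∈ C) ∧
      ∀ p ∈ D, p ∈ R → B p = η p) :
    ∃ Ω : Z → Form d X 2, (∀ q ∈ R, Ω q = η q) ∧ CFam univ Ω ∧ (∀ p, IsSmooth (Ω p)) ∧
      (∀ p x, TamesAt (Ω p) (J p) x) ∧ ∀ p, Ω p ∈ C := by
  classical
  choose D B hDo hzD hBc hBs hBt hBC hBη using hloc
  obtain ⟨G, hG⟩ : ∃ G : Z → Set Z, ∀ o, G o = interior {p | p ∈ D o ∧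
      ∀ x, TamesAt (B o p) (J p) x} := ⟨_, fun _ => rfl⟩
  have hGo : ∀ o, IsOpen (G o) := fun o => by rw [hG]; exact isOpen_interior
  have hGD : ∀ o, ∀ p ∈ G o, p ∈ D o ∧ ∀ x, TamesAt (B o p) (J p) x := by
    intro o p hp
    rw [hG] at hp
    have h1 : p ∈ {p | p ∈ D o ∧ ∀ x, TamesAt (B o p) (J p) x} := interior_subset hp
    exact h1
  have hGm : ∀ o p, p ∈ D o → (∀ x, TamesAt (B o p) (J p) x) → p ∈ G o := by
    intro o p hp h
    rw [hG, mem_interior_iff_mem_nhds]
    have h1 := tames_nhds hJ (hBc o) ((hDo o).mem_nhds hp) h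
    have h2 : ∀ᶠ p' in 𝓝 p, p' ∈ D o := (hDo o).mem_nhds hp
    exact h2.and h1
  have hcov : (univ : Set Z) ⊆ ⋃ o, G o := fun p _ => mem_iUnion.2 ⟨p, hGm p p (hzD p) (hBt p)⟩
  obtain ⟨t, ht⟩ := isCompact_univ.elim_finite_subcover G hGo hcov
  obtain ⟨f, hf⟩ := PartitionOfUnity.exists_isSubordinate isClosed_univ
    (fun i : {o // o ∈ t} => G i.1) (fun i => hGo i.1) (by
      intro p hp
      obtain ⟨o, ho, hpo⟩ := mem_iUnion₂.1 (ht hp)
      exact mem_iUnion.2 ⟨⟨o, ho⟩, hpo⟩)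
  have hfs : ∀ p, ∑ i, f i p = 1 := by
    intro p
    have h1 := f.sum_eq_one (mem_univ p)
    rwa [finsum_eq_sum_of_fintype] at h1
  have hf0 : ∀ i p, f i p ≠ 0 → p ∈ G i.1 := fun i p h =>
    hf i (subset_tsupport _ h)
  have hcut : ∀ i : {o // o ∈ t}, CFam univ (fun p => f i p • B i.1 p) ∧
      ∀ p, IsSmooth (f i p • B i.1 p) := by
    intro i
    exact CFam.cut (hBc i.1) (hDo i.1) (f i).continuous
      ((hf i).trans fun p hp => (hGD i.1 p hp).1) (hBs i.1)
  have hsum := CFam.sum (S := (univ : Set Z)) (Finset.univ : Finset {o // o ∈ t})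
    (A := fun i p => f i p • B i.1 p) (fun i => (hcut i).1) (fun i p _ => (hcut i).2 p)
  have hconv : ∀ (K : Set (Form d X 2)), Convex ℝ K → ∀ p, (∀ i : {o // o ∈ t}, f i p ≠ 0 →
      B i.1 p ∈ K) → ∑ i, f i p • B i.1 p ∈ K := by
    intro K hK p h
    have h1 : ∑ i, f i p • B i.1 p = ∑ i ∈ Finset.univ.filter (fun i => f i p ≠ 0),
        f i p • B i.1 p := by
      rw [Finset.sum_filter_of_ne]
      intro i _ h2 h3
      exact h2 (by rw [h3, zero_smul])
    rw [h1]
    refine hK.sum_mem (fun i _ => f.nonneg i p) ?_ fun i hi => h i (Finset.mem_filter.1 hi).2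
    rw [← hfs p, Finset.sum_filter_of_ne]
    intro i _ h2
    exact h2
  refine ⟨fun p => ∑ i, f i p • B i.1 p, fun q hq => ?_, hsum.1, fun p => hsum.2 p (mem_univ p),
    fun p => ?_, fun p => ?_⟩
  · have h1 : ∀ i : {o // o ∈ t}, f i q • B i.1 q = f i q • η q := by
      intro i
      by_cases h0 : f i q = 0
      · rw [h0, zero_smul, zero_smul]
      · rw [hBη i.1 q (hGD i.1 q (hf0 i q h0)).1 hq]
    show ∑ i, f i q • B i.1 q = η q
    rw [Finset.sum_congr rfl fun i _ => h1 i, ← Finset.sum_smul, hfs, one_smul]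
  · exact hconv _ (convex_tames (J p)) p fun i h => (hGD i.1 p (hf0 i p h)).2
  · exact hconv C hC p fun i h => hBC i.1 p (hGD i.1 p (hf0 i p h)).1

/-- `homotopy` relative to a closed subset of the manifold -/
theorem homotopyRel {P : Type} [TopologicalSpace P] [CompactSpace X] [T2Space X] [CompactSpace P]
    [T2Space P] (hG : S_GEN) (hPe : S_PERT) (hL : S_LOCAL) {Q : Set P} (hQ : IsClosed Q)
    {J : P × unitInterval → End d X} (hJ : JFam J) (hJac : ∀ z, IsAlmostComplex (J z))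
    {A B : P → Form d X 2} (hA : CFam univ A)
    (hB : CFam univ B) (sA : ∀ p, IsSmooth (A p)) (sB : ∀ p, IsSmooth (B p))
    (hAB : ∀ q ∈ Q, B q = A q) (tA : ∀ p x, TamesAt (A p) (J (p, 0)) x)
    (tB : ∀ p x, TamesAt (B p) (J (p, 1)) x) (tQ : ∀ q ∈ Q, ∀ t x, TamesAt (A q) (J (q, t)) x)
    {σ : Form d X 2} (hσ : IsSmooth σ) {L U : Set X} (hLc : IsClosed L) (hU : IsOpen U)
    (hLU : L ⊆ U) (hσt : ∀ z, ∀ x ∈ U, TamesAt σ (J z) x) (eA : ∀ p, ∀ x ∈ L, A p x = σ x)
    (eB : ∀ p, ∀ x ∈ L, B p x = σ x) :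
    ∃ T : P × unitInterval → Form d X 2, CFam univ T ∧ (∀ z, IsSmooth (T z)) ∧
      (∀ z x, TamesAt (T z) (J z) x) ∧ (∀ p, T (p, 0) = A p) ∧ (∀ p, T (p, 1) = B p) ∧
      (∀ q ∈ Q, ∀ t, T (q, t) = A q) ∧ ∀ z, ∀ x ∈ L, T z x = σ x := by
  classical
  obtain ⟨R, hR⟩ : ∃ R : Set (P × unitInterval), R = {z | z.2 = 0 ∨ z.2 = 1 ∨ z.1 ∈ Q} := ⟨_, rfl⟩
  have hRc : IsClosed R := by
    rw [hR]
    exact (isClosed_eq continuous_snd continuous_const).union
      ((isClosed_eq continuous_snd continuous_const).union (hQ.preimage continuous_fst))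
  have hCc : Convex ℝ {w : Form d X 2 | ∀ x ∈ L, w x = σ x} := by
    intro w hw w' hw' a b _ _ hab x hx
    show a • w x + b • w' x = σ x
    rw [hw x hx, hw' x hx, ← add_smul, hab, one_smul]
  obtain ⟨T, h1, h2, h3, h4, h5⟩ := extend4 (R := R) hJ
    (η := fun z => if z.2 = 1 then B z.1 else A z.1) hCc (by
      intro z
      by_cases hz : z ∈ R
      · by_cases hz1 : z.2 = 1
        · refine ⟨{z | z.2 ≠ 0}, fun z => B z.1, isOpen_ne_fun continuous_snd continuous_const,
            ?_, ?_, fun p _ => sB _, ?_, fun p _ => eB p.1, ?_⟩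
          · show z.2 ≠ 0
            rw [hz1]
            exact one_ne_zero
          · intro U φ hU hφ j
            have h5 := hB U φ hU hφ j
            have h6 : ContinuousOn (fun q : (P × unitInterval) × E d => (q.1.1, q.2))
                ({z | z.2 ≠ 0} ×ˢ U) := by fun_prop
            exact h5.comp h6 fun q hq => ⟨mem_univ _, hq.2⟩
          · have h5 : z = (z.1, 1) := Prod.ext rfl hz1
            rw [h5]
            exact tB z.1
          · intro p hp hpR
            rw [hR] at hpR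
            show B p.1 = if p.2 = 1 then B p.1 else A p.1
            by_cases h5 : p.2 = 1
            · rw [if_pos h5]
            · rw [if_neg h5]
              rcases hpR with h6 | h6 | h6
              · exact absurd h6 hp
              · exact absurd h6 h5
              · exact hAB _ h6
        · refine ⟨{z | z.2 ≠ 1}, fun z => A z.1, isOpen_ne_fun continuous_snd continuous_const,
            hz1, ?_, fun p _ => sA _, ?_, fun p _ => eA p.1, ?_⟩
          · intro U φ hU hφ j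
            have h5 := hA U φ hU hφ j
            have h6 : ContinuousOn (fun q : (P × unitInterval) × E d => (q.1.1, q.2))
                ({z | z.2 ≠ 1} ×ˢ U) := by fun_prop
            exact h5.comp h6 fun q hq => ⟨mem_univ _, hq.2⟩
          · rw [hR] at hz
            rcases hz with h6 | h6 | h6
            · have h5 : z = (z.1, 0) := Prod.ext rfl h6
              rw [h5]
              exact tA z.1
            · exact absurd h6 hz1
            · exact tQ z.1 h6 z.2
          · intro p hp _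
            show A p.1 = if p.2 = 1 then B p.1 else A p.1
            rw [if_neg hp]
      · obtain ⟨w, hw, hwt, hwL⟩ := exists_tame_rel hG hPe hL (hJac z) hσ hLc hU hLU (hσt z)
        refine ⟨Rᶜ, fun _ => w, hRc.isOpen_compl, hz, CFam.const hw, fun _ _ => hw, hwt,
          fun _ _ => hwL, fun p hp hpR => absurd hpR hp⟩)
  refine ⟨T, h2, h3, h4, fun p => ?_, fun p => ?_, fun q hq t => ?_, h5⟩
  · rw [h1 _ (by rw [hR]; exact Or.inl rfl)]
    exact if_neg zero_ne_one
  · rw [h1 _ (by rw [hR]; exact Or.inr (Or.inl rfl))]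
    exact if_pos rfl
  · rw [h1 _ (by rw [hR]; exact Or.inr (Or.inr hq))]
    show (if t = 1 then B q else A q) = A q
    split_ifs
    · exact hAB q hq
    · rfl

end Pool.Agent.Q130.SF
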